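import Pool.Agent.Work.MP_05fb57_th.Interface

set_option autoImplicit false

namespace Pool.Agent.ConvexMin

open MeasureTheory Set Filter Topology
open scoped ENNReal RealInnerProductSpace ContDiff

theorem CAP0_le (d : ℕ) (A : Set (E d)) : volume A ≤ cap A := by
  unfold cap
  refine le_iInf fun u => le_iInf fun g => le_iInf fun h => le_iInf fun hU => ?_
  obtain ⟨U, hU, hAU, hae⟩ := hU
  have h1 : volume U ≤ ∫⁻ x, ENNReal.ofReal (u x ^ 2) := by
    calc volume U = ∫⁻ x in U, 1 := by rw [setLIntegral_one]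
      _ ≤ ∫⁻ x in U, ENNReal.ofReal (u x ^ 2) := by
          apply lintegral_mono_ae
          rw [ae_restrict_iff' hU.measurableSet]
          filter_upwards [hae] with x hx hxU
          rw [← ENNReal.ofReal_one]
          apply ENNReal.ofReal_le_ofReal
          nlinarith [hx hxU]
      _ ≤ _ := setLIntegral_le_lintegral _ _
  have h2 : ∫⁻ x, ENNReal.ofReal (u x ^ 2) = ENNReal.ofReal (∫ x, u x ^ 2) := by
    rw [ofReal_integral_eq_lintegral_ofReal h.memLp.integrable_sq (ae_of_all _ fun x => sq_nonneg _)]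
  calc volume A ≤ volume U := measure_mono hAU
    _ ≤ ENNReal.ofReal (∫ x, u x ^ 2) := by rw [← h2]; exact h1
    _ ≤ _ := by
      apply ENNReal.ofReal_le_ofReal
      have : 0 ≤ ∫ x, ‖g x‖ ^ 2 := integral_nonneg fun x => by positivity
      linarith

theorem p_CAP0 : S_CAP0 := by
  intro d A hA
  have h := CAP0_le d A
  rw [hA] at h
  exact le_antisymm h zero_le

end Pool.Agent.ConvexMin
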