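import Pool.Agent.Work.MP_05fb57_th.Interface

set_option autoImplicit false

namespace Pool.Agent.ConvexMin

open MeasureTheory Set Filter Topology
open scoped ENNReal RealInnerProductSpace ContDiff

theorem CAPE_h1zero (d : ℕ) : IsH1 (d := d) (fun _ => 0) (fun _ => 0) := by
  refine ⟨MemLp.zero', MemLp.zero', ?_⟩
  intro φ _ _ v
  simp

theorem CAPE_empty (d : ℕ) : cap (∅ : Set (E d)) = 0 := by
  apply le_antisymm _ zero_le
  unfold cap
  refine iInf_le_of_le (fun _ => 0) (iInf_le_of_le (fun _ => 0) (iInf_le_of_le (CAPE_h1zero d)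
    (iInf_le_of_le ⟨∅, isOpen_empty, subset_rfl, ?_⟩ ?_)))
  · exact ae_of_all _ fun x hx => absurd hx (notMem_empty x)
  · simp

theorem p_CAPE : S_CAPE := by
  intro d
  refine ⟨CAPE_empty d, ?_, ?_⟩
  · intro Ω hΩ ε hε
    refine ⟨Ω, hΩ, subset_rfl, ?_⟩
    rw [Set.sdiff_self, CAPE_empty]
    exact hε
  · intro f hf ε hε
    refine ⟨∅, isOpen_empty, ?_, hf.continuousOn⟩
    rw [CAPE_empty]
    exact hε

end Pool.Agent.ConvexMin
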