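import Pool.Agent.Work.MP_05fb57_th.Interface4

/-!
Block CMK of MP_05fb57_an (copy of CMP of helper58, exponent 2 k).
-/

namespace Pool.Agent.ConvexMin

open MeasureTheory Set Filter Topology
open scoped ENNReal RealInnerProductSpace ContDiff

theorem CMK_cont_vv {n : ℕ} (a : Fin (n + 1) → ℝ) : Continuous (vv a) := by
  unfold vv
  fun_prop

theorem CMK_cont_bbk {n : ℕ} (a : Fin (n + 1) → ℝ) (k : ℕ) (τ : ℝ) : Continuous (bbk a k τ) := by
  unfold bbk
  exact continuous_const.add (continuous_const.mul ((CMK_cont_vv a).pow (2 * k)))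

theorem CMK_open {n : ℕ} (a : Fin (n + 1) → ℝ) (k : ℕ) (τ : ℝ) : IsOpen (compk a k τ) := by
  have h0 : ∀ i : Fin (n + 1), Continuous (fun x : E (n + 1) => x i) := fun i => by fun_prop
  have : compk a k τ = (⋂ i : Fin n, ({x : E (n + 1) | 0 < x i.succ} ∩ {x | x i.succ < a i.succ})) ∩
      ({x | 0 < x 0} ∩ {x | x 0 < bbk a k τ x}) := by
    ext x
    simp [compk]
  rw [this]
  exact (isOpen_iInter_of_finite fun i => (isOpen_lt continuous_const (h0 _)).inter
    (isOpen_lt (h0 _) continuous_const)).inter ((isOpen_lt continuous_const (h0 _)).inter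
    (isOpen_lt (h0 _) (CMK_cont_bbk a k τ)))

theorem CMK_sub {n : ℕ} (a : Fin (n + 1) → ℝ) (k : ℕ) (τ : ℝ) (hτ : 0 ≤ τ) : box a ⊆ compk a k τ := by
  intro x hx
  refine ⟨fun i => hx i.succ, (hx 0).1, (hx 0).2.trans_le ?_⟩
  unfold bbk
  have h1 : 0 ≤ vv a x ^ (2 * k) := Even.pow_nonneg (even_two_mul k) _
  nlinarith

/-- product integrals -/
theorem CMK_prod {n : ℕ} (b : Fin n → ℝ) (f : Fin n → ℝ → ℝ) :
    ∫ y in Set.univ.pi (fun i => Ioo 0 (b i)), ∏ i, f i (y i) = ∏ i, ∫ t in Ioo 0 (b i), f i t := by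
  rw [volume_pi, Measure.restrict_pi_pi, integral_fintype_prod_eq_prod]

theorem p_CMK (hSNK : S_SNK) : S_CMK := by
  intro n a k τ ha hτ
  refine ⟨CMK_open a k τ, CMK_sub a k τ hτ, ?_⟩
  obtain ⟨s', hs'⟩ : ∃ s' : Set (Fin n → ℝ), s' = Set.univ.pi (fun i => Ioo 0 (a i.succ)) := ⟨_, rfl⟩
  obtain ⟨V, hV⟩ : ∃ V : (Fin n → ℝ) → ℝ, V = fun y => ∏ i, Real.sin (Real.pi * y i / a i.succ) ^ (2 * k) := ⟨_, rfl⟩
  have hVc : Continuous V := by
    rw [hV]
    fun_prop
  obtain ⟨B, hB⟩ : ∃ B : (Fin n → ℝ) → ℝ, B = fun y => a 0 + τ * V y := ⟨_, rfl⟩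
  have hBc : Continuous B := by
    rw [hB]
    fun_prop
  have hs'm : MeasurableSet s' := by
    rw [hs']
    exact MeasurableSet.univ_pi fun i => measurableSet_Ioo
  -- the map
  have hΦ : MeasurePreserving (fun x : E (n + 1) => ((fun i : Fin n => x i.succ), x 0)) volume
      ((volume : Measure (Fin n → ℝ)).prod (volume : Measure ℝ)) := by
    have h1 := (PiLp.volume_preserving_ofLp (Fin (n + 1)))
    have h2 := volume_preserving_piFinSuccAbove (fun _ : Fin (n + 1) => ℝ) 0
    have h3 := Measure.measurePreserving_swap (μ := (volume : Measure ℝ)) (ν := (volume : Measure (Fin n → ℝ)))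
    exact h3.comp (h2.comp h1)
  have hpre : compk a k τ = (fun x : E (n + 1) => ((fun i : Fin n => x i.succ), x 0)) ⁻¹' (regionBetween 0 B s') := by
    ext x
    have e1 : B (fun i : Fin n => x i.succ) = bbk a k τ x := by
      rw [hB, hV]
      unfold bbk vv
      rw [← Finset.prod_pow]
    rw [mem_preimage]
    change _ ↔ ((fun i : Fin n => x i.succ) ∈ s' ∧ x 0 ∈ Ioo ((0 : (Fin n → ℝ) → ℝ) _) (B _))
    rw [e1, hs', mem_univ_pi]
    rfl
  rw [hpre, hΦ.measure_preimage (measurableSet_regionBetween measurable_zero hBc.measurable hs'm).nullMeasurableSet]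
  have hint : ∀ g : (Fin n → ℝ) → ℝ, Continuous g → IntegrableOn g s' := by
    intro g hg
    refine (hg.integrableOn_Icc (a := 0) (b := fun i => a i.succ)).mono_set ?_
    rw [hs']
    intro y hy
    rw [mem_univ_pi] at hy
    exact ⟨fun i => (hy i).1.le, fun i => (hy i).2.le⟩
  rw [volume_regionBetween_eq_integral (hint 0 continuous_zero) (hint B hBc) hs'm ?_]
  · congr 1
    have e2 : ∀ y, (B - 0) y = a 0 * ∏ i : Fin n, (fun _ _ => (1 : ℝ)) i (y i) + τ * V y := by
      intro y
      rw [sub_zero, hB]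
      simp
    rw [integral_congr_ae (Filter.Eventually.of_forall e2), integral_add, integral_const_mul, integral_const_mul, hV, hs',
      CMK_prod (fun i => a i.succ) (fun _ _ => (1 : ℝ)),
      CMK_prod (fun i => a i.succ) (fun i t => Real.sin (Real.pi * t / a i.succ) ^ (2 * k)), Fin.prod_univ_succ]
    · congr 1
      · congr 1
        refine Finset.prod_congr rfl fun i _ => ?_
        rw [setIntegral_const, smul_eq_mul, mul_one, measureReal_def, Real.volume_Ioo, sub_zero,
          ENNReal.toReal_ofReal (ha _).le]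
      · congr 1
        unfold Wc
        refine Finset.prod_congr rfl fun i _ => ?_
        rw [← integral_Ioc_eq_integral_Ioo, ← intervalIntegral.integral_of_le (ha _).le]
        exact (hSNK.2.2.2 _ k (ha _)).1
    · exact (hint _ (by fun_prop)).integrable
    · exact (hint _ (by fun_prop)).integrable
  · intro y _
    rw [hB]
    have h1 : 0 ≤ V y := by
      rw [hV]
      exact Finset.prod_nonneg fun i _ => Even.pow_nonneg (even_two_mul k) _
    have h2 := ha 0
    simp only [Pi.zero_apply]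
    positivity

end Pool.Agent.ConvexMin
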