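import Pool.Agent.Work.MP_05fb57_th.Interface3

/-! Block CON (helper9): the volume of a pyramid. -/

namespace Pool.Agent.ConvexMin

open MeasureTheory Set Filter Topology
open scoped ENNReal RealInnerProductSpace ContDiff

theorem CON_int (n : ℕ) :
    ∫ t, (Set.Ioo (0 : ℝ) 1).indicator (fun t : ℝ => (1 - t) ^ n) t = 1 / ((n : ℝ) + 1) := by
  rw [MeasureTheory.integral_indicator measurableSet_Ioo,
    ← MeasureTheory.integral_Ioc_eq_integral_Ioo,
    ← intervalIntegral.integral_of_le zero_le_one,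
    intervalIntegral.integral_comp_sub_left (fun x => x ^ n) 1]
  simp

theorem CON_integrable (n : ℕ) :
    Integrable ((Set.Ioo (0 : ℝ) 1).indicator (fun t : ℝ => (1 - t) ^ n)) := by
  apply IntegrableOn.integrable_indicator _ measurableSet_Ioo
  exact ((by fun_prop : Continuous (fun t : ℝ => (1 - t) ^ n)).integrableOn_Icc).mono_set
    Set.Ioo_subset_Icc_self

/-- the section condition -/
def CON_S {n : ℕ} (a : Fin (n + 1) → ℝ) (i : Fin (n + 1)) (c : ℝ) (x : E (n + 1)) :
    Set (ℝ × (Fin n → ℝ)) :=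
  {p | 0 < (p.1 - c) / (x i - c) ∧ (p.1 - c) / (x i - c) < 1 ∧ ∀ j : Fin n,
    (p.1 - c) / (x i - c) * x (i.succAbove j) < p.2 j ∧
    p.2 j < (1 - (p.1 - c) / (x i - c)) * a (i.succAbove j) +
      (p.1 - c) / (x i - c) * x (i.succAbove j)}

theorem CON_S_open {n : ℕ} (a : Fin (n + 1) → ℝ) (i : Fin (n + 1)) (c : ℝ) (x : E (n + 1)) :
    IsOpen (CON_S a i c x) := by
  have hc : Continuous (fun p : ℝ × (Fin n → ℝ) => (p.1 - c) / (x i - c)) := by fun_prop
  have h1 : IsOpen {p : ℝ × (Fin n → ℝ) | 0 < (p.1 - c) / (x i - c)} :=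
    isOpen_lt continuous_const hc
  have h2 : IsOpen {p : ℝ × (Fin n → ℝ) | (p.1 - c) / (x i - c) < 1} :=
    isOpen_lt hc continuous_const
  have h3 : ∀ j : Fin n, IsOpen {p : ℝ × (Fin n → ℝ) |
      (p.1 - c) / (x i - c) * x (i.succAbove j) < p.2 j} := by
    intro j
    exact isOpen_lt (hc.mul continuous_const) (by fun_prop)
  have h4 : ∀ j : Fin n, IsOpen {p : ℝ × (Fin n → ℝ) |
      p.2 j < (1 - (p.1 - c) / (x i - c)) * a (i.succAbove j) +
      (p.1 - c) / (x i - c) * x (i.succAbove j)} := by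
    intro j
    exact isOpen_lt (by fun_prop) (((continuous_const.sub hc).mul continuous_const).add
      (hc.mul continuous_const))
  have h5 := isOpen_iInter_of_finite (fun j => (h3 j).inter (h4 j))
  have h6 := (h1.inter h2).inter h5
  convert h6 using 1
  ext p
  simp only [CON_S, Set.mem_ofPred_eq, Set.mem_inter_iff, Set.mem_iInter, and_assoc]

theorem CON_sec {n : ℕ} (a : Fin (n + 1) → ℝ) (i : Fin (n + 1)) (c : ℝ) (x : E (n + 1))
    (ha : ∀ j, 0 < a j) (y : ℝ) :
    volume (Prod.mk y ⁻¹' (CON_S a i c x)) =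
      ENNReal.ofReal ((Set.Ioo (0 : ℝ) 1).indicator (fun t : ℝ => (1 - t) ^ n)
        ((y - c) / (x i - c)) * ∏ j : Fin n, a (i.succAbove j)) := by
  by_cases hy : 0 < (y - c) / (x i - c) ∧ (y - c) / (x i - c) < 1
  · have h1 : Prod.mk y ⁻¹' (CON_S a i c x) = Set.pi Set.univ (fun j : Fin n =>
        Set.Ioo ((y - c) / (x i - c) * x (i.succAbove j))
          ((1 - (y - c) / (x i - c)) * a (i.succAbove j) +
            (y - c) / (x i - c) * x (i.succAbove j))) := by
      ext s
      simp only [CON_S, Set.mem_preimage, Set.mem_ofPred_eq, Set.mem_univ_pi, Set.mem_Ioo]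
      exact ⟨fun h => h.2.2, fun h => ⟨hy.1, hy.2, h⟩⟩
    rw [h1, Real.volume_pi_Ioo, Set.indicator_of_mem (show (y - c) / (x i - c) ∈
      Set.Ioo (0 : ℝ) 1 from hy)]
    have h2 : ∀ j : Fin n, ENNReal.ofReal ((1 - (y - c) / (x i - c)) * a (i.succAbove j) +
            (y - c) / (x i - c) * x (i.succAbove j) - (y - c) / (x i - c) * x (i.succAbove j)) =
        ENNReal.ofReal ((1 - (y - c) / (x i - c)) * a (i.succAbove j)) := by
      intro j
      congr 1
      ring
    simp_rw [h2]
    rw [← ENNReal.ofReal_prod_of_nonneg]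
    · congr 1
      rw [Finset.prod_mul_distrib]
      simp
    · intro j _
      exact mul_nonneg (by linarith [hy.2]) (ha _).le
  · have h1 : Prod.mk y ⁻¹' (CON_S a i c x) = ∅ := by
      ext s
      simp only [CON_S, Set.mem_preimage, Set.mem_ofPred_eq, Set.mem_empty_iff_false, iff_false]
      intro h
      exact hy ⟨h.1, h.2.1⟩
    rw [h1, Set.indicator_of_notMem (show (y - c) / (x i - c) ∉ Set.Ioo (0 : ℝ) 1 from hy)]
    simp

theorem CON_vol {n : ℕ} (a : Fin (n + 1) → ℝ) (i : Fin (n + 1)) (c : ℝ) (x : E (n + 1))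
    (ha : ∀ j, 0 < a j) (hx : x i ≠ c) :
    volume (CON_S a i c x) =
      ENNReal.ofReal (|x i - c| * (∏ j : Fin n, a (i.succAbove j)) / (n + 1)) := by
  have hh : x i - c ≠ 0 := sub_ne_zero.2 hx
  have hP : 0 ≤ ∏ j : Fin n, a (i.succAbove j) := Finset.prod_nonneg fun j _ => (ha _).le
  have e0 : (volume : Measure (ℝ × (Fin n → ℝ))) = (volume : Measure ℝ).prod volume := rfl
  rw [e0, Measure.prod_apply (CON_S_open a i c x).measurableSet]
  simp_rw [CON_sec a i c x ha]
  have hint : Integrable (fun y : ℝ => (Set.Ioo (0 : ℝ) 1).indicator (fun t : ℝ => (1 - t) ^ n)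
        ((y - c) / (x i - c)) * ∏ j : Fin n, a (i.succAbove j)) := by
    apply Integrable.mul_const
    exact ((CON_integrable n).comp_div hh).comp_sub_right c
  rw [← ofReal_integral_eq_lintegral_ofReal hint]
  · congr 1
    rw [MeasureTheory.integral_mul_const]
    have h1 := integral_sub_right_eq_self (μ := (volume : Measure ℝ)) (fun y : ℝ =>
      (Set.Ioo (0 : ℝ) 1).indicator (fun t : ℝ => (1 - t) ^ n) (y / (x i - c))) c
    have h2 := Measure.integral_comp_div
      ((Set.Ioo (0 : ℝ) 1).indicator (fun t : ℝ => (1 - t) ^ n)) (x i - c)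
    rw [h1, h2, CON_int]
    rw [smul_eq_mul]
    ring
  · refine Filter.Eventually.of_forall fun y => ?_
    apply mul_nonneg _ hP
    apply Set.indicator_nonneg
    intro t ht
    exact pow_nonneg (by linarith [ht.2]) _

theorem CON_mem {n : ℕ} (a : Fin (n + 1) → ℝ) (i : Fin (n + 1)) (c : ℝ) (x z : E (n + 1)) :
    z ∈ pyr a i c x ↔ (z i, fun j : Fin n => z (i.succAbove j)) ∈ CON_S a i c x := by
  simp only [pyr, CON_S, Set.mem_ofPred_eq]
  constructor
  · rintro ⟨h1, h2, h3⟩
    exact ⟨h1, h2, fun j => h3 _ (Fin.succAbove_ne i j)⟩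
  · rintro ⟨h1, h2, h3⟩
    refine ⟨h1, h2, fun j hj => ?_⟩
    obtain ⟨k, rfl⟩ := Fin.exists_succAbove_eq hj
    exact h3 k

theorem p_CON : S_CON := by
  classical
  intro n a i c x ha hx
  have hopen : IsOpen (pyr a i c x) := by
    have h1 : Continuous (fun z : E (n + 1) => (z i, fun j : Fin n => z (i.succAbove j))) := by
      fun_prop
    have h2 := (CON_S_open a i c x).preimage h1
    convert h2 using 1
    ext z
    exact CON_mem a i c x z
  refine ⟨hopen, ?_⟩
  have e1 := EuclideanSpace.volume_preserving_symm_measurableEquiv_toLp (Fin (n + 1))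
  have e2 := MeasureTheory.volume_preserving_piFinSuccAbove (fun _ : Fin (n + 1) => ℝ) i
  have e3 := e2.comp e1
  have e4 := e3.measure_preimage (CON_S_open a i c x).measurableSet.nullMeasurableSet
  have e5 : pyr a i c x = ((MeasurableEquiv.piFinSuccAbove (fun _ : Fin (n + 1) => ℝ) i) ∘
      (MeasurableEquiv.toLp 2 (Fin (n + 1) → ℝ)).symm) ⁻¹' (CON_S a i c x) := by
    ext z
    rw [CON_mem]
    rfl
  rw [e5, e4, CON_vol a i c x ha hx]
  congr 3
  rw [← Finset.prod_image (f := a) (s := Finset.univ) (g := fun j : Fin n => i.succAbove j)]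
  · congr 1
    ext j
    simp only [Finset.mem_image, Finset.mem_univ, true_and, Finset.mem_erase, and_true]
    constructor
    · rintro ⟨k, rfl⟩
      exact Fin.succAbove_ne i k
    · intro hj
      exact Fin.exists_succAbove_eq hj
  · intro j _ k _ h
    exact Fin.succAbove_right_injective h

end Pool.Agent.ConvexMin
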