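import Pool.Agent.Work.MP_05fb57_th.Interface

/-! # Block DSC (helper45): the discrete inequality -/

set_option autoImplicit false

namespace Pool.Agent.ConvexMin

open MeasureTheory Set Filter Topology
open scoped ENNReal RealInnerProductSpace ContDiff

/-- the comparison function of one variable -/
noncomputable def DSC_f (w t r : ℝ) : ℝ := Real.sin (Real.pi * (r + t) / (w + 2 * t))

theorem DSC_pos {w t r : ℝ} (hw : 0 < w) (ht : 0 < t) (h0 : 0 ≤ r) (h1 : r ≤ w) :
    0 < DSC_f w t r := by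
  unfold DSC_f
  apply Real.sin_pos_of_pos_of_lt_pi
  · have := Real.pi_pos
    positivity
  · rw [div_lt_iff₀ (by positivity)]
    exact mul_lt_mul_of_pos_left (by linarith) Real.pi_pos

theorem DSC_nonneg {w t r : ℝ} (hw : 0 < w) (ht : 0 < t) (h0 : -t ≤ r) (h1 : r ≤ w + t) :
    0 ≤ DSC_f w t r := by
  unfold DSC_f
  apply Real.sin_nonneg_of_nonneg_of_le_pi
  · have h2 : 0 ≤ r + t := by linarith
    have := Real.pi_pos
    positivity
  · rw [div_le_iff₀ (by positivity)]
    exact mul_le_mul_of_nonneg_left (by linarith) Real.pi_pos.le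

theorem DSC_sum {w t : ℝ} (hw : 0 < w) (ht : 0 < t) (r : ℝ) :
    DSC_f w t (r + t) + DSC_f w t (r - t) =
      2 * Real.cos (Real.pi * t / (w + 2 * t)) * DSC_f w t r := by
  unfold DSC_f
  have hne : w + 2 * t ≠ 0 := by positivity
  have e1 : Real.pi * (r + t + t) / (w + 2 * t) =
      Real.pi * (r + t) / (w + 2 * t) + Real.pi * t / (w + 2 * t) := by
    field_simp
  have e2 : Real.pi * (r - t + t) / (w + 2 * t) =
      Real.pi * (r + t) / (w + 2 * t) - Real.pi * t / (w + 2 * t) := by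
    field_simp
    ring
  rw [e1, e2, Real.sin_add, Real.sin_sub]
  ring

open Classical in
/-- first ratio -/
noncomputable def DSC_rho (w t r : ℝ) : ℝ :=
  if 0 ≤ r ∧ r ≤ w then DSC_f w t (r + t) / DSC_f w t r else 0

open Classical in
/-- second ratio -/
noncomputable def DSC_sig (w t r : ℝ) : ℝ :=
  if 0 ≤ r ∧ r ≤ w then DSC_f w t (r - t) / DSC_f w t r else 0

theorem DSC_rho_nonneg {w t : ℝ} (hw : 0 < w) (ht : 0 < t) (r : ℝ) : 0 ≤ DSC_rho w t r := by
  unfold DSC_rho
  split_ifs with h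
  · exact div_nonneg (DSC_nonneg hw ht (by linarith [h.1]) (by linarith [h.2]))
      (DSC_pos hw ht h.1 h.2).le
  · exact le_refl _

theorem DSC_sig_nonneg {w t : ℝ} (hw : 0 < w) (ht : 0 < t) (r : ℝ) : 0 ≤ DSC_sig w t r := by
  unfold DSC_sig
  split_ifs with h
  · exact div_nonneg (DSC_nonneg hw ht (by linarith [h.1]) (by linarith [h.2]))
      (DSC_pos hw ht h.1 h.2).le
  · exact le_refl _

theorem DSC_add {w t r : ℝ} (hw : 0 < w) (ht : 0 < t) (h : 0 ≤ r ∧ r ≤ w) :
    DSC_rho w t r + DSC_sig w t r = 2 * Real.cos (Real.pi * t / (w + 2 * t)) := by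
  unfold DSC_rho DSC_sig
  rw [if_pos h, if_pos h, ← add_div, DSC_sum hw ht, mul_div_assoc,
    div_self (DSC_pos hw ht h.1 h.2).ne', mul_one]

theorem DSC_pt {w t r x y : ℝ} (hw : 0 < w) (ht : 0 < t) (hx : ¬ (0 ≤ r ∧ r ≤ w) → x = 0)
    (hy : ¬ (0 ≤ r + t ∧ r + t ≤ w) → y = 0) :
    y ^ 2 + x ^ 2 - x ^ 2 * DSC_rho w t r - y ^ 2 * DSC_sig w t (r + t) ≤ (y - x) ^ 2 := by
  by_cases h1 : 0 ≤ r ∧ r ≤ w
  · by_cases h2 : 0 ≤ r + t ∧ r + t ≤ w
    · have a1 := DSC_pos hw ht h1.1 h1.2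
      have a2 := DSC_pos hw ht h2.1 h2.2
      unfold DSC_rho DSC_sig
      rw [if_pos h1, if_pos h2, add_sub_cancel_right]
      have key : 0 ≤ x ^ 2 * (DSC_f w t (r + t) / DSC_f w t r) +
          y ^ 2 * (DSC_f w t r / DSC_f w t (r + t)) - 2 * x * y := by
        have e : x ^ 2 * (DSC_f w t (r + t) / DSC_f w t r) +
            y ^ 2 * (DSC_f w t r / DSC_f w t (r + t)) - 2 * x * y =
            (x * DSC_f w t (r + t) - y * DSC_f w t r) ^ 2 /
              (DSC_f w t r * DSC_f w t (r + t)) := by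
          field_simp
          ring
        rw [e]
        positivity
      nlinarith
    · have e := hy h2
      subst e
      have h3 := mul_nonneg (sq_nonneg x) (DSC_rho_nonneg hw ht r)
      nlinarith
  · have e := hx h1
    subst e
    have h3 := mul_nonneg (sq_nonneg y) (DSC_sig_nonneg hw ht (r + t))
    nlinarith

theorem DSC_meas (w t : ℝ) : Measurable (DSC_rho w t) ∧ Measurable (DSC_sig w t) := by
  have hf : Continuous (DSC_f w t) := by
    unfold DSC_f
    fun_prop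
  have h1 : MeasurableSet {r : ℝ | 0 ≤ r ∧ r ≤ w} := measurableSet_Icc
  have hp : Continuous fun r : ℝ => DSC_f w t (r + t) := hf.comp (by fun_prop)
  have hm : Continuous fun r : ℝ => DSC_f w t (r - t) := hf.comp (by fun_prop)
  constructor
  · unfold DSC_rho
    exact Measurable.ite h1 (hp.measurable.div hf.measurable) measurable_const
  · unfold DSC_sig
    exact Measurable.ite h1 (hm.measurable.div hf.measurable) measurable_const

theorem p_DSC : S_DSC := by
  classical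
  intro d u e a w t hu he hw ht hsupp
  obtain ⟨v, hv⟩ : ∃ v : E d, v = t • e := ⟨_, rfl⟩
  rw [← hv]
  have hrr : ∀ x : E d, ⟪x + v, e⟫ - a = (⟪x, e⟫ - a) + t := by
    intro x
    rw [hv, inner_add_left, real_inner_smul_left, real_inner_self_eq_norm_sq, he]
    ring
  have hmr : Measurable fun x : E d => ⟪x, e⟫ - a := by
    have h : Continuous fun x : E d => ⟪x, e⟫ - a := by fun_prop
    exact h.measurable
  have hmp : MeasurePreserving (fun x : E d => x + v) volume volume :=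
    measurePreserving_add_right volume v
  have hu2 : Integrable (fun x => u x ^ 2) volume := hu.integrable_sq
  have huv : MemLp (fun x => u (x + v)) 2 volume := hu.comp_measurePreserving hmp
  have huv2 : Integrable (fun x => u (x + v) ^ 2) volume := huv.integrable_sq
  have hs1 : ∀ᵐ x ∂volume, ¬ (0 ≤ ⟪x, e⟫ - a ∧ ⟪x, e⟫ - a ≤ w) → u x = 0 := by
    filter_upwards [hsupp] with x hx h
    exact hx fun h2 => h ⟨by linarith [h2.1], by linarith [h2.2]⟩
  have hs2 : ∀ᵐ x ∂volume, ¬ (0 ≤ ⟪x + v, e⟫ - a ∧ ⟪x + v, e⟫ - a ≤ w) → u (x + v) = 0 :=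
    hmp.quasiMeasurePreserving.ae hs1
  -- the two weights
  obtain ⟨P, hP⟩ : ∃ P : E d → ℝ, P = fun x => u x ^ 2 * DSC_rho w t (⟪x, e⟫ - a) := ⟨_, rfl⟩
  obtain ⟨Q, hQ⟩ : ∃ Q : E d → ℝ, Q = fun x => u x ^ 2 * DSC_sig w t (⟪x, e⟫ - a) := ⟨_, rfl⟩
  have hPQ : ∀ᵐ x ∂volume, P x + Q x = 2 * Real.cos (Real.pi * t / (w + 2 * t)) * u x ^ 2 := by
    filter_upwards [hs1] with x hx
    rw [hP, hQ]
    show u x ^ 2 * DSC_rho w t (⟪x, e⟫ - a) + u x ^ 2 * DSC_sig w t (⟪x, e⟫ - a) = _
    by_cases h : 0 ≤ ⟪x, e⟫ - a ∧ ⟪x, e⟫ - a ≤ w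
    · rw [← mul_add, DSC_add hw ht h]
      ring
    · rw [hx h]
      ring
  have hP0 : ∀ x, 0 ≤ P x := by
    intro x
    rw [hP]
    exact mul_nonneg (sq_nonneg _) (DSC_rho_nonneg hw ht _)
  have hQ0 : ∀ x, 0 ≤ Q x := by
    intro x
    rw [hQ]
    exact mul_nonneg (sq_nonneg _) (DSC_sig_nonneg hw ht _)
  have hPm : AEStronglyMeasurable P volume := by
    rw [hP]
    exact hu2.aestronglyMeasurable.mul ((DSC_meas w t).1.comp hmr).aestronglyMeasurable
  have hQm : AEStronglyMeasurable Q volume := by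
    rw [hQ]
    exact hu2.aestronglyMeasurable.mul ((DSC_meas w t).2.comp hmr).aestronglyMeasurable
  have hbd : Integrable (fun x => 2 * Real.cos (Real.pi * t / (w + 2 * t)) * u x ^ 2) volume :=
    hu2.const_mul _
  have hPi : Integrable P volume := by
    refine hbd.mono' hPm ?_
    filter_upwards [hPQ] with x hx
    rw [Real.norm_of_nonneg (hP0 x), ← hx]
    linarith [hQ0 x]
  have hQi : Integrable Q volume := by
    refine hbd.mono' hQm ?_
    filter_upwards [hPQ] with x hx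
    rw [Real.norm_of_nonneg (hQ0 x), ← hx]
    linarith [hP0 x]
  have hQv : Integrable (fun x => Q (x + v)) volume := hQi.comp_add_right v
  have hineq : ∫ x, (u (x + v) ^ 2 + u x ^ 2 - P x - Q (x + v)) ≤ ∫ x, (u (x + v) - u x) ^ 2 := by
    refine integral_mono_ae (((huv2.add hu2).sub hPi).sub hQv) (huv.sub hu).integrable_sq ?_
    filter_upwards [hs1, hs2] with x h1 h2
    rw [hP, hQ]
    show u (x + v) ^ 2 + u x ^ 2 - u x ^ 2 * DSC_rho w t (⟪x, e⟫ - a) -
      u (x + v) ^ 2 * DSC_sig w t (⟪x + v, e⟫ - a) ≤ (u (x + v) - u x) ^ 2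
    rw [hrr] at h2 ⊢
    exact DSC_pt hw ht h1 h2
  have hval : ∫ x, (u (x + v) ^ 2 + u x ^ 2 - P x - Q (x + v)) =
      (2 - 2 * Real.cos (Real.pi * t / (w + 2 * t))) * ∫ x, u x ^ 2 := by
    rw [integral_sub (f := fun x => u (x + v) ^ 2 + u x ^ 2 - P x) ((huv2.add hu2).sub hPi) hQv,
      integral_sub (f := fun x => u (x + v) ^ 2 + u x ^ 2) (huv2.add hu2) hPi,
      integral_add huv2 hu2, integral_add_right_eq_self (fun x => u x ^ 2) v,
      integral_add_right_eq_self Q v]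
    have h1 : ∫ x, P x + Q x = 2 * Real.cos (Real.pi * t / (w + 2 * t)) * ∫ x, u x ^ 2 := by
      rw [integral_congr_ae hPQ, integral_const_mul]
    rw [integral_add hPi hQi] at h1
    linear_combination -h1
  rw [← hval]
  exact hineq

end Pool.Agent.ConvexMin
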