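import Pool.Agent.Work.MP_05fb57_th.Interface3

/-! # Block FBX: boxes do not have the property -/

set_option linter.unusedVariables false

namespace Pool.Agent.ConvexMin

open MeasureTheory Set Filter Topology
open scoped ENNReal RealInnerProductSpace ContDiff

theorem FBX_one (a b r : ℝ) (hb : 0 < b) (hab : b ≤ a) (hr : 0 ≤ r) :
    (Real.pi / a) ^ 2 - 2 * (Real.pi / b) ^ 2 * (r / a) ≤ (Real.pi / (a + r)) ^ 2 := by
  have ha : 0 < a := lt_of_lt_of_le hb hab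
  have har : 0 < a + r := by linarith
  have hpi := Real.pi_pos
  set t : ℝ := r / a with ht
  have ht0 : 0 ≤ t := by positivity
  have h1 : (Real.pi / a) ^ 2 ≤ (Real.pi / b) ^ 2 := by
    apply pow_le_pow_left₀ (by positivity)
    exact div_le_div_of_nonneg_left hpi.le hb hab
  have h2 : Real.pi / (a + r) = Real.pi / a * (1 / (1 + t)) := by
    rw [ht]; field_simp
  have h3 : 1 - 2 * t ≤ (1 / (1 + t)) ^ 2 := by
    rw [div_pow, one_pow, le_div_iff₀ (by positivity)]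
    nlinarith [mul_nonneg ht0 ht0, mul_nonneg (mul_nonneg ht0 ht0) ht0]
  rw [h2, mul_pow]
  have h4 : (Real.pi / a) ^ 2 * (1 - 2 * t) ≤ (Real.pi / a) ^ 2 * (1 / (1 + t)) ^ 2 :=
    mul_le_mul_of_nonneg_left h3 (by positivity)
  have h5 : (Real.pi / a) ^ 2 * t ≤ (Real.pi / b) ^ 2 * t := mul_le_mul_of_nonneg_right h1 ht0
  nlinarith

theorem FBX_pow (n : ℕ) (hn : 2 ≤ n) : (n : ℝ) + 1 < (7 / 4 : ℝ) ^ n := by
  induction n, hn using Nat.le_induction with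
  | base => norm_num
  | succ k hk ih =>
    have hk2 : (2 : ℝ) ≤ k := by exact_mod_cast hk
    rw [pow_succ]
    push_cast
    nlinarith

theorem FBX_Wc {n : ℕ} (a : Fin (n + 1) → ℝ) (c : ℝ) : Wc a c = c ^ n * ∏ i : Fin n, a i.succ := by
  unfold Wc
  rw [Finset.prod_mul_distrib, Finset.prod_const, Finset.card_univ, Fintype.card_fin]

/-- the final arithmetic -/
theorem FBX_num (K W8 W6 W2 P b C τ N S δ : ℝ) (hK : 0 < K) (hP : 0 < P) (hb : 0 < b) (hC : 0 ≤ C) (hτ : 0 < τ)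
    (hW8 : 0 < W8) (hW6 : 0 < W6) (hW2 : 0 < W2) (hN : 0 < N) (hδ : δ = τ * W6)
    (hS : S * (b * P) ≤ N * δ) (hX : (K * τ * W8 - C * τ ^ 2) / (b / 2 * W2 + τ / 2 * W8) ≤ 2 * K * S) :
    K * (W8 - N * (W6 * W2 / P)) ≤ τ * (C + K * N * (W6 * W8 / (b * P))) := by
  have hDD : 0 < b / 2 * W2 + τ / 2 * W8 := by positivity
  have hbP : 0 < b * P := by positivity
  rw [div_le_iff₀ hDD] at hX
  have hS' : S ≤ N * δ / (b * P) := by rw [le_div_iff₀ hbP]; exact hS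
  have h1 : 2 * K * S * (b / 2 * W2 + τ / 2 * W8) ≤ 2 * K * (N * δ / (b * P)) * (b / 2 * W2 + τ / 2 * W8) := by
    apply mul_le_mul_of_nonneg_right _ hDD.le
    exact mul_le_mul_of_nonneg_left hS' (by positivity)
  have h2 : 2 * K * (N * δ / (b * P)) * (b / 2 * W2 + τ / 2 * W8) =
      τ * (K * N * (W6 * W2 / P) + τ * (K * N * (W6 * W8 / (b * P)))) := by
    rw [hδ]; field_simp
  have h3 : τ * (K * W8 - C * τ) ≤ τ * (K * N * (W6 * W2 / P) + τ * (K * N * (W6 * W8 / (b * P)))) := by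
    calc τ * (K * W8 - C * τ) = K * τ * W8 - C * τ ^ 2 := by ring
      _ ≤ _ := hX
      _ ≤ _ := h1
      _ = _ := h2
  have h4 := le_of_mul_le_mul_left h3 hτ
  nlinarith

theorem p_FBX (hLWB : S_LWB) (hSUM : S_SUM) (hCMP : S_CMP) (hUBX : S_UBX) (hCAPE : S_CAPE) : S_FBX := by
  intro n a hn ha ha0
  have hpi := Real.pi_pos
  obtain ⟨P, hPdef⟩ : ∃ P : ℝ, P = ∏ i : Fin n, a i.succ := ⟨_, rfl⟩
  have hP : 0 < P := by rw [hPdef]; exact Finset.prod_pos fun i _ => ha _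
  obtain ⟨b, hbdef⟩ : ∃ b : ℝ, b = a 0 := ⟨_, rfl⟩
  have hb : 0 < b := by rw [hbdef]; exact ha 0
  have hprod : ∏ i, a i = b * P := by rw [Fin.prod_univ_succ, hbdef, hPdef]
  obtain ⟨K, hKdef⟩ : ∃ K : ℝ, K = (Real.pi / b) ^ 2 := ⟨_, rfl⟩
  have hK : 0 < K := by rw [hKdef]; positivity
  obtain ⟨W2, hW2def⟩ : ∃ W : ℝ, W = Wc a (1 / 2) := ⟨_, rfl⟩
  obtain ⟨W6, hW6def⟩ : ∃ W : ℝ, W = Wc a (5 / 16) := ⟨_, rfl⟩
  obtain ⟨W8, hW8def⟩ : ∃ W : ℝ, W = Wc a (35 / 128) := ⟨_, rfl⟩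
  have hW2e : W2 = (1 / 2) ^ n * P := by rw [hW2def, FBX_Wc, hPdef]
  have hW6e : W6 = (5 / 16) ^ n * P := by rw [hW6def, FBX_Wc, hPdef]
  have hW8e : W8 = (35 / 128) ^ n * P := by rw [hW8def, FBX_Wc, hPdef]
  have hW2 : 0 < W2 := by rw [hW2e]; positivity
  have hW6 : 0 < W6 := by rw [hW6e]; positivity
  have hW8 : 0 < W8 := by rw [hW8e]; positivity
  obtain ⟨C, hCdef⟩ : ∃ C : ℝ, C = CC a := ⟨_, rfl⟩
  have hlam : 0 ≤ lam' a := by
    unfold lam'
    exact Finset.sum_nonneg fun i _ => sq_nonneg _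
  have hC : 0 ≤ C := by
    rw [hCdef]
    unfold CC
    rw [← hW2def, ← hbdef]
    have : 0 ≤ 72 * lam' a / b := by positivity
    positivity
  obtain ⟨N, hNdef⟩ : ∃ N : ℝ, N = (n : ℝ) + 1 := ⟨_, rfl⟩
  have hN : 0 < N := by rw [hNdef]; positivity
  have hG : N < (7 / 4 : ℝ) ^ n := by rw [hNdef]; exact FBX_pow n hn
  -- the main term
  have hmain : K * (W8 - N * (W6 * W2 / P)) = K * ((5 / 32) ^ n * P) * ((7 / 4) ^ n - N) := by
    have e1 : (35 / 128 : ℝ) ^ n = (5 / 32) ^ n * (7 / 4) ^ n := by rw [← mul_pow]; norm_num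
    have e2 : W6 * W2 / P = (5 / 32) ^ n * P := by
      rw [hW6e, hW2e]
      have : (5 / 32 : ℝ) ^ n = (5 / 16) ^ n * (1 / 2) ^ n := by rw [← mul_pow]; norm_num
      rw [this]
      field_simp
    rw [e2, hW8e, e1]
    ring
  obtain ⟨LL, hLL⟩ : ∃ L : ℝ, L = K * ((5 / 32) ^ n * P) * ((7 / 4) ^ n - N) := ⟨_, rfl⟩
  have hLL0 : 0 < LL := by
    rw [hLL]
    have : 0 < (7 / 4 : ℝ) ^ n - N := by linarith
    positivity
  obtain ⟨Q, hQdef⟩ : ∃ Q : ℝ, Q = C + K * N * (W6 * W8 / (b * P)) := ⟨_, rfl⟩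
  have hQ : 0 ≤ Q := by rw [hQdef]; positivity
  refine ⟨W6 * (LL / (Q + 1)), by positivity, ?_⟩
  rintro m hm1 hm2 ⟨Ω, ⟨⟨hΩq, hΩD, hΩv⟩, hmin⟩, hconv⟩
  obtain ⟨τ, hτdef⟩ : ∃ τ : ℝ, τ = (m - b * P) / W6 := ⟨_, rfl⟩
  rw [hprod] at hm1 hm2
  have hδ0 : 0 < m - b * P := by linarith
  have hτ : 0 < τ := by rw [hτdef]; positivity
  have hτW : τ * W6 = m - b * P := by rw [hτdef]; field_simp
  -- the competitor
  obtain ⟨hco, hcb, hcv⟩ := hCMP n a τ ha hτ.le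
  have hadm : Admissible (box a) m (comp a τ) := by
    refine ⟨(hCAPE (n + 1)).2.1 _ hco, hcb, le_of_eq ?_⟩
    rw [hcv, hprod, ← hW6def, hτW]
    congr 1
    ring
  have hup := (hmin _ hadm).trans (hUBX n a τ ha hτ.le)
  -- the lower bound
  obtain ⟨p, q, hpq, hstr, hsum⟩ := hSUM n a Ω (m - b * P) ha hconv hΩD hδ0.le (by
    rw [hprod]
    have : b * P + (m - b * P) = m := by ring
    rw [this]
    exact hΩv)
  have hlow := hLWB (n + 1) Ω (fun i => -p i) (fun i => a i + (p i + q i))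
    (fun i => by have := ha i; have := hpq i; linarith [this.1, this.2])
    (fun x hx i => ⟨(hstr x hx i).1, by have := (hstr x hx i).2; show x i ≤ -p i + (a i + (p i + q i)); linarith⟩)
  have h1 := hlow.trans hup
  have hpos : 0 < ∑ i, (Real.pi / (a i + (p i + q i))) ^ 2 := by
    apply Finset.sum_pos
    · intro i _
      have h2 := ha i
      have h3 := hpq i
      have : 0 < a i + (p i + q i) := by linarith [h3.1, h3.2]
      positivity
    · exact Finset.univ_nonempty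
  rw [ENNReal.ofReal_le_ofReal_iff'] at h1
  rcases h1 with h1 | h1
  swap
  · linarith
  have h2 : ∑ i, ((Real.pi / a i) ^ 2 - 2 * K * ((p i + q i) / a i)) ≤ ∑ i, (Real.pi / (a i + (p i + q i))) ^ 2 := by
    apply Finset.sum_le_sum
    intro i _
    rw [hKdef]
    exact FBX_one (a i) b (p i + q i) hb (by rw [hbdef]; exact ha0 i) (by have := hpq i; linarith [this.1, this.2])
  rw [Finset.sum_sub_distrib, ← Finset.mul_sum, Fin.sum_univ_succ (fun i => (Real.pi / a i) ^ 2)] at h2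
  have h3 : ∑ i : Fin n, (Real.pi / a i.succ) ^ 2 = lam' a := rfl
  rw [h3] at h2
  rw [hprod] at hsum
  have hX : (K * τ * W8 - C * τ ^ 2) / (b / 2 * W2 + τ / 2 * W8) ≤ 2 * K * ∑ i, (p i + q i) / a i := by
    have h4 : ((Real.pi / a 0) ^ 2 * τ * Wc a (35 / 128) - CC a * τ ^ 2) / DD a τ =
        (K * τ * W8 - C * τ ^ 2) / (b / 2 * W2 + τ / 2 * W8) := by
      unfold DD
      rw [hKdef, hW8def, hCdef, hbdef, hW2def]
    rw [h4] at h1
    linarith
  have h5 := FBX_num K W8 W6 W2 P b C τ N (∑ i, (p i + q i) / a i) (m - b * P) hK hP hb hC hτ hW8 hW6 hW2 hN hτW.symm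
    (by rw [hNdef]; exact hsum) hX
  rw [hmain, ← hLL, ← hQdef] at h5
  -- contradiction
  have h6 : τ < LL / (Q + 1) := by
    rw [hτdef, div_lt_iff₀ hW6]
    have : m - b * P < W6 * (LL / (Q + 1)) := by linarith
    linarith [mul_comm W6 (LL / (Q + 1))]
  rw [lt_div_iff₀ (by positivity)] at h6
  nlinarith

end Pool.Agent.ConvexMin
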