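import Pool.Agent.Work.MP_05fb57_th.Interface4
import Pool.Agent.Work.MP_05fb57_th.B_FBX

/-! # Block FB2: rectangles do not have the property -/

set_option linter.unusedVariables false
set_option maxHeartbeats 1600000

namespace Pool.Agent.ConvexMin

open MeasureTheory Set Filter Topology
open scoped ENNReal RealInnerProductSpace ContDiff

/-- `1 / (H - κ)^2 - 1 / H^2 > κ / H^3` -/
theorem FB2_gap (H κ : ℝ) (hκ : 0 < κ) (hH : κ < H) :
    Real.pi ^ 2 * κ / H ^ 3 < (Real.pi / (H - κ)) ^ 2 - (Real.pi / H) ^ 2 := by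
  have hpi := Real.pi_pos
  have hH0 : 0 < H := hκ.trans hH
  have h1 : 0 < H - κ := by linarith
  have h2 : (Real.pi / (H - κ)) ^ 2 - (Real.pi / H) ^ 2 = Real.pi ^ 2 * (1 / (H - κ) ^ 2 - 1 / H ^ 2) := by
    field_simp
  have h3 : κ / H ^ 3 < 1 / (H - κ) ^ 2 - 1 / H ^ 2 := by
    rw [div_sub_div _ _ (by positivity) (by positivity), div_lt_div_iff₀ (by positivity) (by positivity)]
    have h4 : 1 * H ^ 2 - (H - κ) ^ 2 * 1 = κ * (2 * H - κ) := by ring
    rw [h4]
    have h5 : κ * ((H - κ) ^ 2 * H ^ 2) < κ * (H ^ 2 * H ^ 2) := by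
      apply mul_lt_mul_of_pos_left _ hκ
      apply mul_lt_mul_of_pos_right _ (by positivity)
      nlinarith
    have h6 : κ * (H ^ 2 * H ^ 2) ≤ κ * (2 * H - κ) * H ^ 3 := by
      have : H ^ 2 * H ^ 2 ≤ (2 * H - κ) * H ^ 3 := by
        have h7 : H ^ 2 * H ^ 2 = H * H ^ 3 := by ring
        rw [h7]
        exact mul_le_mul_of_nonneg_right (by linarith) (by positivity)
      calc κ * (H ^ 2 * H ^ 2) ≤ κ * ((2 * H - κ) * H ^ 3) := mul_le_mul_of_nonneg_left this hκ.le
        _ = _ := by ring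
    linarith
  rw [h2]
  calc Real.pi ^ 2 * κ / H ^ 3 = Real.pi ^ 2 * (κ / H ^ 3) := by ring
    _ < _ := mul_lt_mul_of_pos_left h3 (by positivity)

/-- the final arithmetic -/
theorem FB2_num (K J J' b l C τ g δ X : ℝ) (hK : 0 < K) (hJ : 0 < J) (hJ' : 0 < J') (hb : 0 < b) (hl : 0 < l) (hC : 0 ≤ C)
    (hτ : 0 < τ) (hg : 0 < g) (hδ : τ * (J * l) = δ)
    (hX : X ≤ 4 * K * δ / (b * l) - g * δ)
    (hXd : X = (K * τ * (J' * l) - C * τ ^ 2) / (b / 2 * (1 / 2 * l) + τ / 2 * (J' * l))) :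
    l * (J * (g * b * l / 4) - K * (J - J')) ≤ τ * (C + 2 * K * J * (J' * l) / b) := by
  have hDD : 0 < b / 2 * (1 / 2 * l) + τ / 2 * (J' * l) := by positivity
  rw [hXd, div_le_iff₀ hDD] at hX
  have h1 : (4 * K * δ / (b * l) - g * δ) * (b / 2 * (1 / 2 * l) + τ / 2 * (J' * l)) =
      τ * (K * J * l - g * J * b * l ^ 2 / 4 + τ * (2 * K * J * (J' * l) / b) - τ * (g * J * l * (J' * l) / 2)) := by
    rw [← hδ]
    field_simp
    ring
  rw [h1] at hX
  have h2 : τ * (K * (J' * l) - C * τ) ≤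
      τ * (K * J * l - g * J * b * l ^ 2 / 4 + τ * (2 * K * J * (J' * l) / b) - τ * (g * J * l * (J' * l) / 2)) := by
    calc τ * (K * (J' * l) - C * τ) = K * τ * (J' * l) - C * τ ^ 2 := by ring
      _ ≤ _ := hX
  have h3 := le_of_mul_le_mul_left h2 hτ
  have h4 : 0 ≤ τ * (g * J * l * (J' * l) / 2) := by positivity
  nlinarith

theorem p_FB2 (hLWB : S_LWB) (hLWC : S_LWC) (hGE2 : S_GE2) (hCMK : S_CMK) (hUBK : S_UBK) (hSNK : S_SNK) (hCAPE : S_CAPE) :
    S_FB2 := by
  intro a ha h01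
  have hpi := Real.pi_pos
  obtain ⟨b, hbdef⟩ : ∃ b : ℝ, b = a 0 := ⟨_, rfl⟩
  obtain ⟨l, hldef⟩ : ∃ l : ℝ, l = a 1 := ⟨_, rfl⟩
  have hb : 0 < b := by rw [hbdef]; exact ha 0
  have hl : 0 < l := by rw [hldef]; exact ha 1
  have hbl : b ≤ l := by rw [hbdef, hldef]; exact h01
  have hprod : ∏ i, a i = b * l := by rw [Fin.prod_univ_two, hbdef, hldef]
  have hab : ∀ i, b ≤ a i := by
    intro i
    fin_cases i
    · exact hbdef.le
    · show b ≤ a 1
      rw [← hldef]; exact hbl
  have hal : ∀ i, a i ≤ l := by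
    intro i
    fin_cases i
    · show a 0 ≤ l
      rw [← hbdef]; exact hbl
    · exact hldef.ge
  obtain ⟨K, hKdef⟩ : ∃ K : ℝ, K = (Real.pi / b) ^ 2 := ⟨_, rfl⟩
  have hK : 0 < K := by rw [hKdef]; positivity
  obtain ⟨g, hgdef⟩ : ∃ g : ℝ, g = min (Real.pi ^ 2 / (20160 * l ^ 4)) (K / (50 * (b * l))) := ⟨_, rfl⟩
  have hg : 0 < g := by rw [hgdef]; apply lt_min <;> positivity
  have hg1 : g ≤ Real.pi ^ 2 / (20160 * l ^ 4) := by rw [hgdef]; exact min_le_left _ _
  have hg2 : g ≤ K / (50 * (b * l)) := by rw [hgdef]; exact min_le_right _ _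
  obtain ⟨k, hk⟩ := exists_nat_gt (4 * K / (g * b * l))
  obtain ⟨hS1, -, -, -⟩ := hSNK
  have hJ := (hS1 (k + 1)).1
  have hJ' := (hS1 (k + 1 + 1)).1
  have hJr := (hS1 (k + 1)).2.2
  obtain ⟨J, hJdef⟩ : ∃ J : ℝ, J = JJ (k + 1) := ⟨_, rfl⟩
  obtain ⟨J', hJ'def⟩ : ∃ J : ℝ, J = JJ (k + 1 + 1) := ⟨_, rfl⟩
  rw [← hJdef] at hJ
  rw [← hJ'def] at hJ'
  rw [← hJdef, ← hJ'def] at hJr
  push_cast at hJr
  have hJd : (2 * (k : ℝ) + 4) * (J - J') = J := by linarith
  have hk0 : (0 : ℝ) ≤ k := Nat.cast_nonneg k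
  obtain ⟨C, hCdef⟩ : ∃ C : ℝ, C = CCk a (k + 1) := ⟨_, rfl⟩
  have hlam : 0 ≤ lam' a := by
    unfold lam'
    exact Finset.sum_nonneg fun i _ => sq_nonneg _
  have hlame : lam' a = (Real.pi / a 1) ^ 2 := by
    unfold lam'
    rw [Fin.sum_univ_one]
    rfl
  have hWc : ∀ c : ℝ, Wc a c = c * l := by
    intro c
    unfold Wc
    rw [Fin.prod_univ_one, hldef]
    rfl
  have hC : 0 ≤ C := by
    rw [hCdef]
    unfold CCk
    rw [hWc, ← hbdef]
    positivity
  -- the main term
  obtain ⟨LL, hLL⟩ : ∃ L : ℝ, L = l * (J * (g * b * l / 4) - K * (J - J')) := ⟨_, rfl⟩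
  have hLL0 : 0 < LL := by
    rw [hLL]
    apply mul_pos hl
    have h1 : 4 * K < k * (g * b * l) := by
      rw [div_lt_iff₀ (by positivity)] at hk
      exact hk
    have h2 : 0 < J - J' := by
      by_contra hcon
      rw [not_lt] at hcon
      have : (2 * (k : ℝ) + 4) * (J - J') ≤ 0 := mul_nonpos_of_nonneg_of_nonpos (by positivity) hcon
      linarith
    have h3 : J * (g * b * l / 4) = (2 * (k : ℝ) + 4) * (g * b * l / 4) * (J - J') := by
      calc J * (g * b * l / 4) = ((2 * (k : ℝ) + 4) * (J - J')) * (g * b * l / 4) := by rw [hJd]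
        _ = _ := by ring
    have h4 : K < (2 * (k : ℝ) + 4) * (g * b * l / 4) := by
      have : 0 < g * b * l := by positivity
      nlinarith
    rw [h3]
    have h5 := mul_lt_mul_of_pos_right h4 h2
    linarith
  obtain ⟨Q, hQdef⟩ : ∃ Q : ℝ, Q = C + 2 * K * J * (J' * l) / b := ⟨_, rfl⟩
  have hQ : 0 ≤ Q := by rw [hQdef]; positivity
  refine ⟨min (min (b * l / 100) (b ^ 3 / (4 * l))) (J * l * (LL / (Q + 1))), by positivity, ?_⟩
  rintro m hm1 hm2 ⟨Ω, ⟨⟨hΩq, hΩD, hΩv⟩, hmin⟩, hconv⟩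
  rw [hprod] at hm1 hm2
  obtain ⟨δ, hδdef⟩ : ∃ δ : ℝ, δ = m - b * l := ⟨_, rfl⟩
  have hδ0 : 0 < δ := by linarith
  have hδm : δ < min (min (b * l / 100) (b ^ 3 / (4 * l))) (J * l * (LL / (Q + 1))) := by linarith
  have hδ1 : δ < b * l / 100 := lt_of_lt_of_le hδm ((min_le_left _ _).trans (min_le_left _ _))
  have hδ2 : δ < b ^ 3 / (4 * l) := lt_of_lt_of_le hδm ((min_le_left _ _).trans (min_le_right _ _))
  have hδ3 : δ < J * l * (LL / (Q + 1)) := lt_of_lt_of_le hδm (min_le_right _ _)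
  obtain ⟨τ, hτdef⟩ : ∃ τ : ℝ, τ = δ / (J * l) := ⟨_, rfl⟩
  have hτ : 0 < τ := by rw [hτdef]; positivity
  have hτW : τ * (J * l) = δ := by rw [hτdef]; field_simp
  -- the competitor
  obtain ⟨hco, hcb, hcv⟩ := hCMK 1 a (k + 1) τ ha hτ.le
  have hadm : Admissible (box a) m (compk a (k + 1) τ) := by
    refine ⟨(hCAPE 2).2.1 _ hco, hcb, le_of_eq ?_⟩
    rw [hcv, hprod, hWc, ← hJdef, hτW]
    congr 1
    linarith
  have hup := (hmin _ hadm).trans (hUBK 1 a (k + 1) τ (by omega) ha hτ.le)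
  obtain ⟨X, hXdef⟩ : ∃ X : ℝ, X = (K * τ * (J' * l) - C * τ ^ 2) / (b / 2 * (1 / 2 * l) + τ / 2 * (J' * l)) := ⟨_, rfl⟩
  have hXe : ((Real.pi / a 0) ^ 2 * τ * Wc a (JJ (k + 1 + 1)) - CCk a (k + 1) * τ ^ 2) / DDk a (k + 1) τ = X := by
    unfold DDk
    rw [hWc, hWc, hXdef, hKdef, hCdef, hbdef, hJ'def]
  rw [hXe, hlame] at hup
  -- the lower bound
  obtain ⟨p, q, hpq, hstr, hsum, hcase⟩ := hGE2 a Ω δ ha hconv hΩD hδ0 (by rw [hprod]; linarith) (by
    rw [hprod]
    have : b * l + δ = m := by linarith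
    rw [this]
    exact hΩv)
  rw [hprod] at hsum hcase
  have hw0 : ∀ i, 0 ≤ p i + q i := fun i => by have := hpq i; linarith [this.1, this.2]
  obtain ⟨S, hSdef⟩ : ∃ S : ℝ, S = ∑ i, (p i + q i) / a i := ⟨_, rfl⟩
  rw [← hSdef] at hsum hcase
  have hS2 : S = (p 0 + q 0) / a 0 + (p 1 + q 1) / a 1 := by rw [hSdef, Fin.sum_univ_two]
  have hSi : ∀ i, (p i + q i) / a i ≤ S := by
    intro i
    rw [hSdef]
    exact Finset.single_le_sum (f := fun i => (p i + q i) / a i) (fun j _ => div_nonneg (hw0 j) (ha j).le) (Finset.mem_univ i)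
  have hbl0 : 0 < b * l := by positivity
  have hone : ∀ i, (Real.pi / a i) ^ 2 - 2 * K * ((p i + q i) / a i) ≤ (Real.pi / (a i + (p i + q i))) ^ 2 := by
    intro i
    rw [hKdef]
    exact FBX_one (a i) b (p i + q i) hb (hab i) (hw0 i)
  have hX : X ≤ 4 * K * δ / (b * l) - g * δ := by
    rcases hcase with hc | ⟨i, j, e, f, α, β, h, hij, he, hf, hef, hh0, hhw, hδh, hst, hcor⟩
    · -- the crude bound
      have hlow := hLWB 2 Ω (fun i => -p i) (fun i => a i + (p i + q i))
        (fun i => by have := ha i; have := hw0 i; linarith)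
        (fun x hx i => ⟨(hstr x hx i).1, by have := (hstr x hx i).2; show x i ≤ -p i + (a i + (p i + q i)); linarith⟩)
      have h1 := hlow.trans hup
      rw [Fin.sum_univ_two] at h1
      have hpos : 0 < (Real.pi / (a 0 + (p 0 + q 0))) ^ 2 + (Real.pi / (a 1 + (p 1 + q 1))) ^ 2 := by
        have h2 : 0 < a 0 + (p 0 + q 0) := by have := ha 0; have := hw0 0; linarith
        have h3 : 0 < a 1 + (p 1 + q 1) := by have := ha 1; have := hw0 1; linarith
        positivity
      rw [ENNReal.ofReal_le_ofReal_iff'] at h1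
      rcases h1 with h1 | h1
      swap
      · linarith
      have h2 := hone 0
      have h3 := hone 1
      have h4 : X ≤ 2 * K * S := by rw [hS2]; linarith
      have h5 : S ≤ 2 * (1 - 1 / 200) * δ / (b * l) := by rw [le_div_iff₀ hbl0]; exact hc
      have h6 : 2 * K * S ≤ 2 * K * (2 * (1 - 1 / 200) * δ / (b * l)) := mul_le_mul_of_nonneg_left h5 (by positivity)
      have h7 : 2 * K * (2 * (1 - 1 / 200) * δ / (b * l)) = 4 * K * δ / (b * l) - K / (50 * (b * l)) * δ := by
        field_simp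
        ring
      have h8 : g * δ ≤ K / (50 * (b * l)) * δ := mul_le_mul_of_nonneg_right hg2 hδ0.le
      linarith
    · -- the corner
      have hai := ha i
      have haj := ha j
      have hwi := hw0 i
      have hwj := hw0 j
      obtain ⟨H, hHdef⟩ : ∃ H : ℝ, H = a i + p i + q i := ⟨_, rfl⟩
      obtain ⟨I, hIdef⟩ : ∃ I : ℝ, I = a j + p j + q j := ⟨_, rfl⟩
      obtain ⟨κ, hκdef⟩ : ∃ κ : ℝ, κ = h / 20 := ⟨_, rfl⟩
      rw [← hHdef, ← hIdef] at hst
      rw [← hIdef, ← hHdef, ← hκdef] at hcor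
      have hS50 : S ≤ 1 / 50 := by
        have h1 : S ≤ 2 * δ / (b * l) := by rw [le_div_iff₀ hbl0]; exact hsum
        have h2 : 2 * δ / (b * l) ≤ 1 / 50 := by rw [div_le_iff₀ hbl0]; linarith
        linarith
      have hSδ : S ≤ 2 * δ / (b * l) := by rw [le_div_iff₀ hbl0]; exact hsum
      have hwiS : p i + q i ≤ S * a i := by
        have := hSi i
        rwa [div_le_iff₀ hai] at this
      have hwjS : p j + q j ≤ S * a j := by
        have := hSi j
        rwa [div_le_iff₀ haj] at this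
      have hH0 : a i ≤ H := by rw [hHdef]; linarith
      have hI0 : a j ≤ I := by rw [hIdef]; linarith
      have hSai : S * a i ≤ 1 / 50 * a i := mul_le_mul_of_nonneg_right hS50 hai.le
      have hSaj : S * a j ≤ 1 / 50 * a j := mul_le_mul_of_nonneg_right hS50 haj.le
      have hH2 : H ≤ 2 * a i := by rw [hHdef]; linarith
      have hI2 : I ≤ 2 * a j := by rw [hIdef]; linarith
      have hHpos : 0 < H := by linarith
      have hIpos : 0 < I := by linarith
      have hh : 0 < h := by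
        by_contra hcon
        rw [not_lt] at hcon
        have : a j * h ≤ 0 := mul_nonpos_of_nonneg_of_nonpos haj.le hcon
        linarith
      have hκ0 : 0 < κ := by rw [hκdef]; positivity
      have hκH : κ < H := by rw [hκdef, hHdef]; linarith
      obtain ⟨ε, hεdef⟩ : ∃ ε : ℝ, ε = Real.pi ^ 2 * κ * I ^ 2 / (21 * H ^ 3) := ⟨_, rfl⟩
      have hε0 : 0 ≤ ε := by rw [hεdef]; positivity
      have hε1 : 21 * ε / I ^ 2 < (Real.pi / (H - κ)) ^ 2 - (Real.pi / H) ^ 2 := by
        have h1 : 21 * ε / I ^ 2 = Real.pi ^ 2 * κ / H ^ 3 := by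
          rw [hεdef]; field_simp
        rw [h1]
        exact FB2_gap H κ hκ0 hκH
      have hpi2 : Real.pi ^ 2 ≤ 10 := by
        have := Real.pi_lt_d2
        nlinarith
      have hε2 : ε ≤ 1 / 20 := by
        rw [hεdef, div_le_iff₀ (by positivity)]
        have h1 : κ ≤ a i * δ / (10 * (b * l)) := by
          rw [hκdef, le_div_iff₀ (by positivity)]
          have h2 : S * (b * l) ≤ 2 * δ := hsum
          have h3 : h ≤ S * a i := by linarith
          calc h / 20 * (10 * (b * l)) = h * (b * l) / 2 := by ring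
            _ ≤ S * a i * (b * l) / 2 := by
              have := mul_le_mul_of_nonneg_right h3 hbl0.le
              linarith
            _ = a i * (S * (b * l)) / 2 := by ring
            _ ≤ a i * (2 * δ) / 2 := by
              have := mul_le_mul_of_nonneg_left h2 hai.le
              linarith
            _ = a i * δ := by ring
        have h2 : κ * (10 * (b * l)) ≤ a i * δ := by
          rwa [le_div_iff₀ (by positivity)] at h1
        have h3 : δ * (4 * l) ≤ b ^ 3 := by
          rw [lt_div_iff₀ (by positivity)] at hδ2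
          exact hδ2.le
        have h4 : I ^ 2 ≤ 4 * l ^ 2 := by
          have : I ≤ 2 * l := hI2.trans (by have := hal j; linarith)
          calc I ^ 2 ≤ (2 * l) ^ 2 := pow_le_pow_left₀ hIpos.le this 2
            _ = 4 * l ^ 2 := by ring
        have h5 : b ^ 2 * a i ≤ H ^ 3 := by
          have h6 : b * b ≤ H * H := mul_le_mul ((hab i).trans hH0) ((hab i).trans hH0) hb.le hHpos.le
          calc b ^ 2 * a i = b * b * a i := by ring
            _ ≤ H * H * H := mul_le_mul h6 hH0 hai.le (by positivity)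
            _ = H ^ 3 := by ring
        -- `π² κ I² ≤ 10 κ 4 l²`
        have h7 : Real.pi ^ 2 * κ * I ^ 2 ≤ 10 * κ * (4 * l ^ 2) := by
          apply mul_le_mul _ h4 (by positivity) (by positivity)
          exact mul_le_mul_of_nonneg_right hpi2 hκ0.le
        have h8 : 10 * κ * (4 * l ^ 2) * b ≤ a i * b ^ 3 := by
          calc 10 * κ * (4 * l ^ 2) * b = (κ * (10 * (b * l))) * (4 * l) := by ring
            _ ≤ (a i * δ) * (4 * l) := mul_le_mul_of_nonneg_right h2 (by positivity)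
            _ = a i * (δ * (4 * l)) := by ring
            _ ≤ a i * b ^ 3 := mul_le_mul_of_nonneg_left h3 hai.le
        have h9 : 10 * κ * (4 * l ^ 2) ≤ b ^ 2 * a i := by
          have : 10 * κ * (4 * l ^ 2) * b ≤ (b ^ 2 * a i) * b := by
            calc _ ≤ a i * b ^ 3 := h8
              _ = _ := by ring
          exact le_of_mul_le_mul_right this hb
        calc Real.pi ^ 2 * κ * I ^ 2 ≤ b ^ 2 * a i := h7.trans h9
          _ ≤ H ^ 3 := h5
          _ ≤ 1 / 20 * (21 * H ^ 3) := by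
            have : 0 < H ^ 3 := by positivity
            linarith
      have hlow := hLWC Ω e f α β H I κ ε he hf hef hκ0.le hIpos hκH hst hcor hε0 hε2 hε1
      have h1 := hlow.trans hup
      have hpos : 0 < (Real.pi / H) ^ 2 + (Real.pi / I) ^ 2 + ε / (2 * I ^ 2) := by positivity
      rw [ENNReal.ofReal_le_ofReal_iff'] at h1
      rcases h1 with h1 | h1
      swap
      · linarith
      have hgain : g * δ ≤ ε / (2 * I ^ 2) := by
        have h2 : ε / (2 * I ^ 2) = Real.pi ^ 2 * κ / (42 * H ^ 3) := by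
          rw [hεdef]; field_simp; norm_num
        rw [h2]
        have h3 : g * δ ≤ Real.pi ^ 2 / (20160 * l ^ 4) * δ := mul_le_mul_of_nonneg_right hg1 hδ0.le
        refine h3.trans ?_
        rw [hκdef, div_mul_eq_mul_div, div_le_div_iff₀ (by positivity) (by positivity)]
        have h4 : H ^ 3 ≤ 8 * l ^ 3 := by
          have : H ≤ 2 * l := hH2.trans (by have := hal i; linarith)
          calc H ^ 3 ≤ (2 * l) ^ 3 := pow_le_pow_left₀ hHpos.le this 3
            _ = 8 * l ^ 3 := by ring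
        have h5 : δ ≤ 3 * (l * h) := by
          refine hδh.trans ?_
          have := mul_le_mul_of_nonneg_right (hal j) hh0
          linarith
        calc Real.pi ^ 2 * δ * (42 * H ^ 3) ≤ Real.pi ^ 2 * (3 * (l * h)) * (42 * (8 * l ^ 3)) := by
              apply mul_le_mul _ _ (by positivity) (by positivity)
              · exact mul_le_mul_of_nonneg_left h5 (by positivity)
              · linarith
          _ = Real.pi ^ 2 * (h / 20) * (20160 * l ^ 4) := by ring
      have hsumHI : (Real.pi / a 1) ^ 2 + (Real.pi / a 0) ^ 2 - 2 * K * S ≤ (Real.pi / H) ^ 2 + (Real.pi / I) ^ 2 := by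
        have h2 := hone 0
        have h3 := hone 1
        have hi01 : (i = 0 ∧ j = 1) ∨ (i = 1 ∧ j = 0) := by
          have hi := i.2
          have hj := j.2
          rcases Nat.lt_or_ge i.1 1 with h4 | h4
          · left
            have hi0 : i = 0 := Fin.ext (by show i.1 = 0; omega)
            refine ⟨hi0, Fin.ext ?_⟩
            show j.1 = 1
            have : j.1 ≠ 0 := fun h5 => hij (by rw [hi0]; exact (Fin.ext h5).symm)
            omega
          · right
            have hi1 : i = 1 := Fin.ext (by show i.1 = 1; omega)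
            refine ⟨hi1, Fin.ext ?_⟩
            show j.1 = 0
            have : j.1 ≠ 1 := fun h5 => hij (by rw [hi1]; exact (Fin.ext h5).symm)
            omega
        rcases hi01 with ⟨rfl, rfl⟩ | ⟨rfl, rfl⟩
        · rw [hHdef, hIdef, hS2, add_assoc, add_assoc]
          linarith
        · rw [hHdef, hIdef, hS2, add_assoc, add_assoc]
          linarith
      have h6 : 2 * K * S ≤ 2 * K * (2 * δ / (b * l)) := mul_le_mul_of_nonneg_left hSδ (by positivity)
      have h7 : 2 * K * (2 * δ / (b * l)) = 4 * K * δ / (b * l) := by ring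
      linarith
  have h5 := FB2_num K J J' b l C τ g δ X hK hJ hJ' hb hl hC hτ hg hτW hX hXdef
  rw [← hLL, ← hQdef] at h5
  have h6 : τ < LL / (Q + 1) := by
    rw [hτdef, div_lt_iff₀ (by positivity)]
    linarith [mul_comm (J * l) (LL / (Q + 1))]
  rw [lt_div_iff₀ (by positivity)] at h6
  nlinarith

end Pool.Agent.ConvexMin
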