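import Pool.Agent.Work.MP_05fb57_th.Interface3

/-! # MP_05fb57_an, block SUM (typed by helper16) -/

set_option linter.unusedVariables false

namespace Pool.Agent.ConvexMin

open MeasureTheory Set Filter Topology
open scoped ENNReal RealInnerProductSpace ContDiff

theorem SUM_coord {d : ℕ} (i : Fin d) : Continuous fun x : E d => x i :=
  (EuclideanSpace.proj (𝕜 := ℝ) i).continuous

theorem SUM_box {n : ℕ} (a : Fin (n + 1) → ℝ) (ha : ∀ j, 0 < a j) :
    IsOpen (box a) ∧ volume (box a) = ENNReal.ofReal (∏ i, a i) := by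
  constructor
  · have h : box a = ⋂ i, {x : E (n + 1) | 0 < x i ∧ x i < a i} := by
      ext x
      simp [box]
    rw [h]
    exact isOpen_iInter_of_finite fun i =>
      (isOpen_lt continuous_const (SUM_coord i)).inter (isOpen_lt (SUM_coord i) continuous_const)
  · have h1 := (EuclideanSpace.volume_preserving_symm_measurableEquiv_toLp
        (Fin (n + 1))).measure_preimage
      (s := Set.pi Set.univ fun j : Fin (n + 1) => Set.Ioo (0 : ℝ) (a j))
      (MeasurableSet.univ_pi fun _ => measurableSet_Ioo).nullMeasurableSet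
    have h2 : (MeasurableEquiv.toLp 2 (Fin (n + 1) → ℝ)).symm ⁻¹'
        (Set.pi Set.univ fun j : Fin (n + 1) => Set.Ioo (0 : ℝ) (a j)) = box a := by
      ext x
      simp [box]
    rw [h2, Real.volume_pi_Ioo] at h1
    rw [h1]
    simp only [sub_zero]
    rw [ENNReal.ofReal_prod_of_nonneg (fun i _ => (ha i).le)]

theorem SUM_closed {n : ℕ} (a : Fin (n + 1) → ℝ) (ha : ∀ j, 0 < a j) (K : Set (E (n + 1)))
    (hK : IsClosed K) (hb : box a ⊆ K) (y : E (n + 1)) (hy : ∀ j, 0 ≤ y j ∧ y j ≤ a j) : y ∈ K := by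
  let m : E (n + 1) := WithLp.toLp 2 (fun j => a j / 2)
  have ht : Tendsto (fun s : ℝ => (1 - s) • y + s • m) (𝓝[>] 0) (𝓝 y) := by
    have hc : Continuous (fun s : ℝ => (1 - s) • y + s • m) := by fun_prop
    have h0 := hc.tendsto 0
    simp only [sub_zero, one_smul, zero_smul, add_zero] at h0
    exact h0.mono_left nhdsWithin_le_nhds
  refine hK.mem_of_tendsto ht ?_
  filter_upwards [Ioo_mem_nhdsGT (show (0 : ℝ) < 1 by norm_num)] with s hs
  apply hb
  intro j
  have hj := hy j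
  have haj := ha j
  have e : ((1 - s) • y + s • m) j = (1 - s) * y j + s * (a j / 2) := by
    simp [m]
  rw [e]
  have hs1 := hs.1
  have hs2 := hs.2
  constructor
  · have h1 : 0 ≤ (1 - s) * y j := mul_nonneg (by linarith) hj.1
    have h2 : 0 < s * (a j / 2) := by positivity
    linarith
  · nlinarith [mul_nonneg (show 0 ≤ 1 - s by linarith) (sub_nonneg.2 hj.2), mul_pos hs.1 haj]

theorem SUM_pyr {n : ℕ} (a : Fin (n + 1) → ℝ) (ha : ∀ j, 0 < a j) (K : Set (E (n + 1)))
    (hK : IsClosed K) (hKc : Convex ℝ K) (hb : box a ⊆ K) (i : Fin (n + 1)) (c : ℝ)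
    (hc : 0 ≤ c ∧ c ≤ a i) (x : E (n + 1)) (hx : x ∈ K) (hxi : x i ≠ c) : pyr a i c x ⊆ K := by
  intro z hz
  obtain ⟨ht0, ht1, hz⟩ := hz
  obtain ⟨t, ht⟩ : ∃ t, t = (z i - c) / (x i - c) := ⟨_, rfl⟩
  rw [← ht] at ht0 ht1 hz
  have hne : x i - c ≠ 0 := sub_ne_zero.2 hxi
  have h1t : 0 < 1 - t := by linarith
  let y : E (n + 1) := WithLp.toLp 2 (fun j => if j = i then c else (z j - t * x j) / (1 - t))
  have hy : y ∈ K := by
    apply SUM_closed a ha K hK hb
    intro j
    by_cases hj : j = i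
    · subst hj
      simpa [y] using hc
    · have h := hz j hj
      have e : y j = (z j - t * x j) / (1 - t) := by simp [y, hj]
      rw [e]
      constructor
      · apply div_nonneg _ h1t.le
        linarith [h.1]
      · rw [div_le_iff₀ h1t]
        nlinarith [h.2]
  have hz' : z = (1 - t) • y + t • x := by
    ext j
    by_cases hj : j = i
    · subst hj
      have e : y j = c := by simp [y]
      have e2 : t * (x j - c) = z j - c := by
        rw [ht]
        field_simp
      have e3 : ((1 - t) • y + t • x) j = (1 - t) * y j + t * x j := by simp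
      rw [e3, e]
      linarith
    · have e : y j = (z j - t * x j) / (1 - t) := by simp [y, hj]
      have e3 : ((1 - t) • y + t • x) j = (1 - t) * y j + t * x j := by simp
      rw [e3, e, mul_div_cancel₀ _ h1t.ne']
      ring
  rw [hz']
  exact hKc hy hx h1t.le ht0.le (by ring)

theorem SUM_fam {n : ℕ} (a : Fin (n + 1) → ℝ) (ha : ∀ j, 0 < a j) (K : Set (E (n + 1)))
    (hbK : box a ⊆ K) (δ : ℝ) (hδ : 0 ≤ δ) (hVK : volume K ≤ ENNReal.ofReal ((∏ i, a i) + δ))
    {ι : Type} [Fintype ι] (F : ι → Set (E (n + 1))) (v : ι → ℝ) (hv : ∀ k, 0 ≤ v k)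
    (hm : ∀ k, MeasurableSet (F k)) (hd : Pairwise (Function.onFun Disjoint F))
    (hdb : ∀ k, Disjoint (F k) (box a)) (hF : ∀ k, F k ⊆ K)
    (hvF : ∀ k, volume (F k) = ENNReal.ofReal (v k)) : ∑ k, v k ≤ δ := by
  obtain ⟨hbo, hbv⟩ := SUM_box a ha
  have hP : 0 < ∏ i, a i := Finset.prod_pos fun i _ => ha i
  have h1 : volume (⋃ k, F k) = ∑ k, volume (F k) := by
    rw [measure_iUnion hd hm, tsum_fintype]
  have h2 : Disjoint (⋃ k, F k) (box a) := by
    rw [Set.disjoint_iUnion_left]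
    exact hdb
  have h3 : volume ((⋃ k, F k) ∪ box a) = volume (⋃ k, F k) + volume (box a) :=
    measure_union h2 hbo.measurableSet
  have h4 : volume ((⋃ k, F k) ∪ box a) ≤ ENNReal.ofReal ((∏ i, a i) + δ) :=
    (measure_mono (Set.union_subset (Set.iUnion_subset hF) hbK)).trans hVK
  rw [h3, h1, hbv] at h4
  simp only [hvF] at h4
  rw [← ENNReal.ofReal_sum_of_nonneg (fun k _ => hv k),
    ← ENNReal.ofReal_add (Finset.sum_nonneg fun k _ => hv k) hP.le,
    ENNReal.ofReal_le_ofReal_iff (by positivity)] at h4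
  linarith

theorem p_SUM (hCON : S_CON) : S_SUM := by
  intro n a Ω δ ha hΩ hbox hδ hvol
  obtain ⟨K, hKdef⟩ : ∃ K, K = closure Ω := ⟨_, rfl⟩
  have hKcl : IsClosed K := hKdef ▸ isClosed_closure
  have hKc : Convex ℝ K := hKdef ▸ hΩ.closure
  have hsub : Ω ⊆ K := hKdef ▸ subset_closure
  have hbK : box a ⊆ K := hbox.trans hsub
  have hVK : volume K ≤ ENNReal.ofReal ((∏ i, a i) + δ) := by
    rw [hKdef, measure_closure_of_null_frontier (hΩ.addHaar_frontier volume)]
    exact hvol
  have hP : 0 < ∏ i, a i := Finset.prod_pos fun i _ => ha i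
  have hmem : ∀ y : E (n + 1), (∀ j, 0 ≤ y j ∧ y j ≤ a j) → y ∈ K := SUM_closed a ha K hKcl hbK
  have hPi : ∀ i, 0 < ∏ j ∈ Finset.univ.erase i, a j := fun i => Finset.prod_pos fun j _ => ha j
  have hn : (0 : ℝ) < n + 1 := by positivity
  -- disjoint from the box
  have hdU : ∀ (i : Fin (n + 1)) (x : E (n + 1)), a i < x i → Disjoint (pyr a i (a i) x) (box a) := by
    intro i x hx
    rw [Set.disjoint_left]
    rintro z ⟨h0, _, _⟩ hz
    have h1 : 0 < x i - a i := by linarith
    have h2 : 0 < z i - a i := by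
      by_contra hcon
      push Not at hcon
      exact absurd (div_nonpos_of_nonpos_of_nonneg hcon h1.le) (not_le.2 h0)
    linarith [(hz i).2]
  have hdL : ∀ (i : Fin (n + 1)) (x : E (n + 1)), x i < 0 → Disjoint (pyr a i 0 x) (box a) := by
    intro i x hx
    rw [Set.disjoint_left]
    rintro z ⟨h0, _, _⟩ hz
    have h2 : z i - 0 < 0 := by
      by_contra hcon
      push Not at hcon
      exact absurd (div_nonpos_of_nonneg_of_nonpos hcon (by linarith : x i - 0 ≤ 0)) (not_le.2 h0)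
    linarith [(hz i).1]
  -- bounded
  have hone : ∀ (i : Fin (n + 1)) (c : ℝ) (x : E (n + 1)), x ∈ K → 0 ≤ c ∧ c ≤ a i → x i ≠ c →
      Disjoint (pyr a i c x) (box a) →
      |x i - c| * (∏ j ∈ Finset.univ.erase i, a j) / (n + 1) ≤ δ := by
    intro i c x hx hc hxc hdis
    obtain ⟨ho, hv⟩ := hCON n a i c x ha hxc
    have := SUM_fam a ha K hbK δ hδ hVK (ι := Unit) (fun _ => pyr a i c x)
      (fun _ => |x i - c| * (∏ j ∈ Finset.univ.erase i, a j) / (n + 1))
      (fun _ => div_nonneg (mul_nonneg (abs_nonneg _) (hPi i).le) hn.le) (fun _ => ho.measurableSet)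
      (fun k l hkl => absurd (Subsingleton.elim k l) hkl) (fun _ => hdis)
      (fun _ => SUM_pyr a ha K hKcl hKc hbK i c hc x hx hxc) (fun _ => hv)
    simpa using this
  obtain ⟨B, hB⟩ : ∃ B : Fin (n + 1) → ℝ,
      ∀ i, B i = δ * (n + 1) / (∏ j ∈ Finset.univ.erase i, a j) := ⟨_, fun _ => rfl⟩
  have hB0 : ∀ i, 0 ≤ B i := fun i => by
    rw [hB]
    exact div_nonneg (mul_nonneg hδ hn.le) (hPi i).le
  have hbd : ∀ x ∈ K, ∀ i, -B i ≤ x i ∧ x i ≤ a i + B i := by
    intro x hx i
    constructor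
    · by_contra hcon
      push Not at hcon
      have hx0 : x i < 0 := by linarith [hB0 i]
      have h1 := hone i 0 x hx ⟨le_refl _, (ha i).le⟩ hx0.ne (hdL i x hx0)
      rw [div_le_iff₀ hn, ← le_div_iff₀ (hPi i), ← hB i, sub_zero, abs_of_neg hx0] at h1
      linarith
    · by_contra hcon
      push Not at hcon
      have hx0 : a i < x i := by linarith [hB0 i]
      have h1 := hone i (a i) x hx ⟨(ha i).le, le_refl _⟩ hx0.ne' (hdU i x hx0)
      rw [div_le_iff₀ hn, ← le_div_iff₀ (hPi i), ← hB i, abs_of_pos (by linarith)] at h1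
      linarith
  have hcomp : IsCompact K := by
    have h1 : IsCompact ((WithLp.toLp 2 : (Fin (n + 1) → ℝ) → E (n + 1)) ''
        (Set.pi Set.univ fun i => Set.Icc (-B i) (a i + B i))) :=
      (isCompact_univ_pi fun i => isCompact_Icc).image (PiLp.continuous_toLp 2 _)
    refine h1.of_isClosed_subset hKcl ?_
    intro x hx
    exact ⟨WithLp.ofLp x, fun i _ => hbd x hx i, rfl⟩
  have hKne : K.Nonempty := ⟨0, hmem 0 fun j => ⟨le_refl _, (ha j).le⟩⟩
  choose X hXK hXm using fun i => hcomp.exists_isMaxOn hKne (SUM_coord i).continuousOn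
  choose Y hYK hYm using fun i => hcomp.exists_isMinOn hKne (SUM_coord i).continuousOn
  obtain ⟨q, hqd⟩ : ∃ q : Fin (n + 1) → ℝ, ∀ i, q i = X i i - a i := ⟨_, fun _ => rfl⟩
  obtain ⟨p, hpd⟩ : ∃ p : Fin (n + 1) → ℝ, ∀ i, p i = - Y i i := ⟨_, fun _ => rfl⟩
  have hup : ∀ x ∈ K, ∀ i, x i ≤ a i + q i := by
    intro x hx i
    have h : x i ≤ X i i := hXm i hx
    rw [hqd]
    linarith
  have hlo : ∀ x ∈ K, ∀ i, -p i ≤ x i := by
    intro x hx i
    have h : Y i i ≤ x i := hYm i hx
    rw [hpd]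
    linarith
  have hq0 : ∀ i, 0 ≤ q i := by
    intro i
    have h := hup _ (hmem (WithLp.toLp 2 a) fun j => ⟨(ha j).le, le_refl _⟩) i
    have h' : a i ≤ a i + q i := h
    linarith
  have hp0 : ∀ i, 0 ≤ p i := by
    intro i
    have h := hlo _ (hmem 0 fun j => ⟨le_refl _, (ha j).le⟩) i
    have h' : -p i ≤ 0 := h
    linarith
  have L1 : ∀ (j : Fin (n + 1)) (c : ℝ) (x z : E (n + 1)), x ∈ K → z ∈ pyr a j c x → ∀ i, i ≠ j →
      z i - a i < (z j - c) / (x j - c) * q i ∧ -z i < (z j - c) / (x j - c) * p i := by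
    intro j c x z hx hz i hij
    obtain ⟨h0, h1, h⟩ := hz
    have h2 := h i hij
    obtain ⟨t, ht⟩ : ∃ t, t = (z j - c) / (x j - c) := ⟨_, rfl⟩
    rw [← ht] at h0 h1 h2 ⊢
    have hxu : x i ≤ a i + q i := hup x hx i
    have hxl : -p i ≤ x i := hlo x hx i
    constructor
    · nlinarith [mul_le_mul_of_nonneg_left hxu h0.le]
    · nlinarith [mul_le_mul_of_nonneg_left hxl h0.le]
  classical
  obtain ⟨FU, hFU⟩ : ∃ FU : Fin (n + 1) → Set (E (n + 1)),
      ∀ i, FU i = if q i = 0 then ∅ else pyr a i (a i) (X i) := ⟨_, fun _ => rfl⟩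
  obtain ⟨FL, hFL⟩ : ∃ FL : Fin (n + 1) → Set (E (n + 1)),
      ∀ i, FL i = if p i = 0 then ∅ else pyr a i 0 (Y i) := ⟨_, fun _ => rfl⟩
  have U : ∀ i z, z ∈ FU i → ∃ t, 0 < t ∧ z i - a i = t * q i ∧ 0 < q i ∧
      ∀ j, j ≠ i → z j - a j < t * q j ∧ -z j < t * p j := by
    intro i z hz
    rw [hFU] at hz
    by_cases h : q i = 0
    · rw [if_pos h] at hz
      exact absurd hz (Set.notMem_empty _)
    · rw [if_neg h] at hz
      refine ⟨(z i - a i) / (X i i - a i), hz.1, ?_, lt_of_le_of_ne (hq0 i) (Ne.symm h),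
        fun j hj => L1 i (a i) (X i) z (hXK i) hz j hj⟩
      rw [← hqd, div_mul_cancel₀ _ h]
  have L : ∀ i z, z ∈ FL i → ∃ t, 0 < t ∧ -z i = t * p i ∧ 0 < p i ∧
      ∀ j, j ≠ i → z j - a j < t * q j ∧ -z j < t * p j := by
    intro i z hz
    rw [hFL] at hz
    by_cases h : p i = 0
    · rw [if_pos h] at hz
      exact absurd hz (Set.notMem_empty _)
    · rw [if_neg h] at hz
      refine ⟨(z i - 0) / (Y i i - 0), hz.1, ?_, lt_of_le_of_ne (hp0 i) (Ne.symm h),
        fun j hj => L1 i 0 (Y i) z (hYK i) hz j hj⟩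
      have hY : Y i i = - p i := by rw [hpd]; ring
      rw [hY, sub_zero, sub_zero]
      field_simp
  have hUU : ∀ i j, i ≠ j → Disjoint (FU i) (FU j) := by
    intro i j hij
    rw [Set.disjoint_left]
    intro z h1 h2
    obtain ⟨t, _, e1, hq1, k1⟩ := U i z h1
    obtain ⟨s, _, e2, hq2, k2⟩ := U j z h2
    have r1 : t < s := lt_of_mul_lt_mul_right (e1 ▸ (k2 i hij).1) hq1.le
    have r2 : s < t := lt_of_mul_lt_mul_right (e2 ▸ (k1 j hij.symm).1) hq2.le
    exact lt_asymm r1 r2
  have hLL : ∀ i j, i ≠ j → Disjoint (FL i) (FL j) := by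
    intro i j hij
    rw [Set.disjoint_left]
    intro z h1 h2
    obtain ⟨t, _, e1, hq1, k1⟩ := L i z h1
    obtain ⟨s, _, e2, hq2, k2⟩ := L j z h2
    have r1 : t < s := lt_of_mul_lt_mul_right (e1 ▸ (k2 i hij).2) hq1.le
    have r2 : s < t := lt_of_mul_lt_mul_right (e2 ▸ (k1 j hij.symm).2) hq2.le
    exact lt_asymm r1 r2
  have hUL : ∀ i j, Disjoint (FU i) (FL j) := by
    intro i j
    rw [Set.disjoint_left]
    intro z h1 h2
    obtain ⟨t, ht, e1, hq1, k1⟩ := U i z h1
    obtain ⟨s, hs, e2, hq2, k2⟩ := L j z h2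
    by_cases hij : i = j
    · subst hij
      have r1 : 0 < t * q i := mul_pos ht hq1
      have r2 : 0 < s * p i := mul_pos hs hq2
      have := ha i
      linarith
    · have r1 : t < s := lt_of_mul_lt_mul_right (e1 ▸ (k2 i hij).1) hq1.le
      have r2 : s < t := lt_of_mul_lt_mul_right (e2 ▸ (k1 j (Ne.symm hij)).2) hq2.le
      exact lt_asymm r1 r2
  have hXne : ∀ i, q i ≠ 0 → X i i ≠ a i := by
    intro i h h'
    exact h (by rw [hqd, h', sub_self])
  have hYne : ∀ i, p i ≠ 0 → Y i i ≠ 0 := by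
    intro i h h'
    exact h (by rw [hpd, h', neg_zero])
  have hsum := SUM_fam a ha K hbK δ hδ hVK (ι := Fin (n + 1) ⊕ Fin (n + 1)) (Sum.elim FU FL)
    (Sum.elim (fun i => q i * (∏ j ∈ Finset.univ.erase i, a j) / (n + 1))
      (fun i => p i * (∏ j ∈ Finset.univ.erase i, a j) / (n + 1))) ?_ ?_ ?_ ?_ ?_ ?_
  · refine ⟨p, q, fun i => ⟨hp0 i, hq0 i⟩, fun x hx i => ⟨hlo x (hsub hx) i, hup x (hsub hx) i⟩, ?_⟩
    rw [Fintype.sum_sum_type] at hsum
    simp only [Sum.elim_inl, Sum.elim_inr] at hsum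
    rw [← Finset.sum_add_distrib] at hsum
    have e : (∑ i, (p i + q i) / a i) * ∏ i, a i =
        (n + 1) * ∑ i, (q i * (∏ j ∈ Finset.univ.erase i, a j) / (n + 1) +
          p i * (∏ j ∈ Finset.univ.erase i, a j) / (n + 1)) := by
      rw [Finset.sum_mul, Finset.mul_sum]
      refine Finset.sum_congr rfl fun i _ => ?_
      rw [← Finset.mul_prod_erase Finset.univ a (Finset.mem_univ i)]
      have h1 := (ha i).ne'
      have h2 := hn.ne'
      field_simp
      ring
    rw [e]
    exact mul_le_mul_of_nonneg_left hsum hn.le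
  · rintro (i | i)
    · exact div_nonneg (mul_nonneg (hq0 i) (hPi i).le) hn.le
    · exact div_nonneg (mul_nonneg (hp0 i) (hPi i).le) hn.le
  · rintro (i | i)
    · simp only [Sum.elim_inl, hFU]
      split_ifs with h
      · exact MeasurableSet.empty
      · exact (hCON n a i (a i) (X i) ha (hXne i h)).1.measurableSet
    · simp only [Sum.elim_inr, hFL]
      split_ifs with h
      · exact MeasurableSet.empty
      · exact (hCON n a i 0 (Y i) ha (hYne i h)).1.measurableSet
  · rintro (i | i) (j | j) hij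
    · exact hUU i j fun h => hij (by rw [h])
    · exact hUL i j
    · exact (hUL j i).symm
    · exact hLL i j fun h => hij (by rw [h])
  · rintro (i | i)
    · simp only [Sum.elim_inl, hFU]
      split_ifs with h
      · exact Set.empty_disjoint _
      · apply hdU
        have h1 : 0 < q i := lt_of_le_of_ne (hq0 i) (Ne.symm h)
        rw [hqd] at h1
        linarith
    · simp only [Sum.elim_inr, hFL]
      split_ifs with h
      · exact Set.empty_disjoint _
      · apply hdL
        have h1 : 0 < p i := lt_of_le_of_ne (hp0 i) (Ne.symm h)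
        rw [hpd] at h1
        linarith
  · rintro (i | i)
    · simp only [Sum.elim_inl, hFU]
      split_ifs with h
      · exact Set.empty_subset _
      · exact SUM_pyr a ha K hKcl hKc hbK i (a i) ⟨(ha i).le, le_refl _⟩ (X i) (hXK i) (hXne i h)
    · simp only [Sum.elim_inr, hFL]
      split_ifs with h
      · exact Set.empty_subset _
      · exact SUM_pyr a ha K hKcl hKc hbK i 0 ⟨le_refl _, (ha i).le⟩ (Y i) (hYK i) (hYne i h)
  · rintro (i | i)
    · simp only [Sum.elim_inl, hFU]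
      split_ifs with h
      · rw [h]
        simp
      · rw [(hCON n a i (a i) (X i) ha (hXne i h)).2, ← hqd, abs_of_nonneg (hq0 i)]
    · simp only [Sum.elim_inr, hFL]
      split_ifs with h
      · rw [h]
        simp
      · have h2 : Y i i - 0 = - p i := by rw [hpd]; ring
        rw [(hCON n a i 0 (Y i) ha (hYne i h)).2, h2, abs_neg, abs_of_nonneg (hp0 i)]

end Pool.Agent.ConvexMin
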