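import Pool.Agent.Work.MP_05fb57_th.Interface

/-!
# TRG: the area of a triangle (helper64)
-/

set_option autoImplicit false

namespace Pool.Agent.ConvexMin

open MeasureTheory Set Filter Topology
open scoped ENNReal RealInnerProductSpace ContDiff

namespace BTRG

/-- the standard triangle in `ℝ × ℝ` -/
def Tr : Set (ℝ × ℝ) := {z | 0 ≤ z.1 ∧ 0 ≤ z.2 ∧ z.1 + z.2 ≤ 1}

theorem vol_Tr : volume Tr = ENNReal.ofReal (1 / 2) := by
  have hm : MeasurableSet Tr := by
    apply IsClosed.measurableSet
    exact (isClosed_le continuous_const continuous_fst).inter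
      ((isClosed_le continuous_const continuous_snd).inter
        (isClosed_le (continuous_fst.add continuous_snd) continuous_const))
  rw [Measure.volume_eq_prod, Measure.prod_apply hm]
  have h : ∀ x : ℝ, volume (Prod.mk x ⁻¹' Tr) =
      (Icc (0 : ℝ) 1).indicator (fun x => ENNReal.ofReal (1 - x)) x := by
    intro x
    by_cases hx : x ∈ Icc (0 : ℝ) 1
    · rw [indicator_of_mem hx]
      have : Prod.mk x ⁻¹' Tr = Icc 0 (1 - x) := by
        ext y
        simp only [mem_preimage, Tr, mem_ofPred_eq, mem_Icc]
        constructor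
        · rintro ⟨_, h1, h2⟩
          exact ⟨h1, by linarith⟩
        · rintro ⟨h1, h2⟩
          exact ⟨hx.1, h1, by linarith⟩
      rw [this, Real.volume_Icc, sub_zero]
    · rw [indicator_of_notMem hx]
      have : Prod.mk x ⁻¹' Tr = ∅ := by
        ext y
        simp only [mem_preimage, Tr, mem_ofPred_eq, mem_empty_iff_false, iff_false]
        rintro ⟨h0, h1, h2⟩
        exact hx ⟨h0, by linarith⟩
      rw [this, measure_empty]
  simp_rw [h]
  rw [lintegral_indicator measurableSet_Icc, ← ofReal_integral_eq_lintegral_ofReal]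
  · congr 1
    rw [integral_Icc_eq_integral_Ioc, ← intervalIntegral.integral_of_le zero_le_one]
    have hc : IntervalIntegrable (fun _ : ℝ => (1 : ℝ)) volume 0 1 :=
      continuous_const.intervalIntegrable _ _
    have hi : IntervalIntegrable (fun x : ℝ => x) volume 0 1 :=
      continuous_id.intervalIntegrable _ _
    rw [intervalIntegral.integral_sub hc hi]
    simp
    norm_num
  · exact (continuous_const.sub continuous_id).integrableOn_Icc
  · exact (ae_restrict_iff' measurableSet_Icc).2 (ae_of_all _ fun x hx => sub_nonneg.2 hx.2)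

/-- the standard triangle in the plane -/
def Del : Set (E 2) := {t | 0 ≤ t 0 ∧ 0 ≤ t 1 ∧ t 0 + t 1 ≤ 1}

theorem vol_Del : volume Del = ENNReal.ofReal (1 / 2) := by
  rw [← vol_Tr]
  have h1 := (EuclideanSpace.volume_preserving_symm_measurableEquiv_toLp (Fin 2))
  have h2 := volume_preserving_finTwoArrow ℝ
  have h3 := h2.comp h1
  have h4 : MeasurableSet Tr := by
    apply IsClosed.measurableSet
    exact (isClosed_le continuous_const continuous_fst).inter
      ((isClosed_le continuous_const continuous_snd).inter
        (isClosed_le (continuous_fst.add continuous_snd) continuous_const))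
  rw [← h3.measure_preimage h4.nullMeasurableSet]
  rfl

/-- the linear map with columns `a`, `b` -/
noncomputable def lin (a b : E 2) : E 2 →ₗ[ℝ] E 2 :=
  (EuclideanSpace.proj (0 : Fin 2) : E 2 →L[ℝ] ℝ).toLinearMap.smulRight a +
    (EuclideanSpace.proj (1 : Fin 2) : E 2 →L[ℝ] ℝ).toLinearMap.smulRight b

theorem lin_apply (a b t : E 2) : lin a b t = t 0 • a + t 1 • b := rfl

theorem det_lin (a b : E 2) : LinearMap.det (lin a b) = a 0 * b 1 - a 1 * b 0 := by
  rw [← LinearMap.det_toMatrix (EuclideanSpace.basisFun (Fin 2) ℝ).toBasis, Matrix.det_fin_two]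
  simp [LinearMap.toMatrix_apply, lin_apply]
  ring

end BTRG

open BTRG in
theorem p_TRG : S_TRG := by
  intro p q x
  have himg : convexHull ℝ {p, q, x} = (fun y => p + y) '' (lin (q - p) (x - p) '' Del) := by
    apply subset_antisymm
    · apply convexHull_min
      · rintro y (rfl | rfl | rfl)
        · refine ⟨0, ⟨0, ?_, by simp⟩, by simp⟩
          simp [Del]
        · refine ⟨y - p, ⟨EuclideanSpace.single 0 1, ?_, ?_⟩, by simp⟩
          · simp [Del]
          · simp [lin_apply]
        · refine ⟨y - p, ⟨EuclideanSpace.single 1 1, ?_, ?_⟩, by simp⟩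
          · simp [Del]
          · simp [lin_apply]
      · apply Convex.translate
        apply Convex.linear_image
        intro s hs t ht a b ha hb hab
        simp only [Del, mem_ofPred_eq, PiLp.add_apply, PiLp.smul_apply, smul_eq_mul] at hs ht ⊢
        refine ⟨?_, ?_, ?_⟩
        · exact add_nonneg (mul_nonneg ha hs.1) (mul_nonneg hb ht.1)
        · exact add_nonneg (mul_nonneg ha hs.2.1) (mul_nonneg hb ht.2.1)
        · nlinarith [mul_le_mul_of_nonneg_left hs.2.2 ha, mul_le_mul_of_nonneg_left ht.2.2 hb]
    · rintro y ⟨z, ⟨t, ht, rfl⟩, rfl⟩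
      have hp : p ∈ convexHull ℝ ({p, q, x} : Set (E 2)) := subset_convexHull _ _ (by simp)
      have hq : q ∈ convexHull ℝ ({p, q, x} : Set (E 2)) := subset_convexHull _ _ (by simp)
      have hx : x ∈ convexHull ℝ ({p, q, x} : Set (E 2)) := subset_convexHull _ _ (by simp)
      have h := (convex_convexHull ℝ ({p, q, x} : Set (E 2))).sum_mem (t := Finset.univ)
        (w := ![1 - t 0 - t 1, t 0, t 1]) (z := ![p, q, x]) ?_ ?_ ?_
      · have e : p + lin (q - p) (x - p) t = ∑ i : Fin 3, (![1 - t 0 - t 1, t 0, t 1] : Fin 3 → ℝ) i •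
            (![p, q, x] : Fin 3 → E 2) i := by
          rw [Fin.sum_univ_three, lin_apply]
          simp only [Matrix.cons_val]
          module
        simp only
        rw [e]
        exact h
      · intro i _
        fin_cases i
        · simp only [Fin.zero_eta, Matrix.cons_val_zero]
          linarith [ht.2.2]
        · exact ht.1
        · exact ht.2.1
      · rw [Fin.sum_univ_three]
        simp only [Matrix.cons_val]
        ring
      · intro i _
        fin_cases i
        · exact hp
        · exact hq
        · exact hx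
  rw [himg, image_add_left, measure_preimage_add, Measure.addHaar_image_linearMap, vol_Del, det_lin,
    ← ENNReal.ofReal_mul (abs_nonneg _)]
  congr 1
  simp only [PiLp.sub_apply]
  ring_nf

end Pool.Agent.ConvexMin
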