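import Pool.Agent.Work.MP_05fb57_th.Interface4
import Pool.Agent.Work.MP_05fb57_th.B_SUM
import Pool.Agent.Work.MP_05fb57_th.B_TRG

/-! # MP_05fb57_an, block GE2, second copy (typed by helper16) -/

set_option linter.unusedVariables false

namespace Pool.Agent.ConvexMin

open MeasureTheory Set Filter Topology
open scoped ENNReal RealInnerProductSpace ContDiff

theorem GE2_core (hCON : S_CON) (n : ℕ) (a : Fin (n + 1) → ℝ) (Ω : Set (E (n + 1))) (δ : ℝ)
    (ha : ∀ j, 0 < a j) (hΩ : Convex ℝ Ω) (hbox : box a ⊆ Ω) (hδ : 0 ≤ δ)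
    (hvol : volume Ω ≤ ENNReal.ofReal ((∏ i, a i) + δ)) :
    ∃ (K : Set (E (n + 1))) (p q : Fin (n + 1) → ℝ) (X Y : Fin (n + 1) → E (n + 1)),
      Convex ℝ K ∧ Ω ⊆ K ∧ (∀ y : E (n + 1), (∀ j, 0 ≤ y j ∧ y j ≤ a j) → y ∈ K) ∧
      (∀ i, 0 ≤ p i ∧ 0 ≤ q i) ∧ (∀ x ∈ K, ∀ i, -p i ≤ x i ∧ x i ≤ a i + q i) ∧
      (∀ i, X i ∈ K ∧ X i i = a i + q i) ∧ (∀ i, Y i ∈ K ∧ Y i i = -p i) ∧
      ∀ (T : Set (E (n + 1))) (v : ℝ), MeasurableSet T → T ⊆ K → 0 ≤ v → volume T = ENNReal.ofReal v →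
        Disjoint T (box a) → (∀ i, q i ≠ 0 → Disjoint (pyr a i (a i) (X i)) T) →
        (∀ i, p i ≠ 0 → Disjoint (pyr a i 0 (Y i)) T) →
        (∑ i, (p i + q i) / a i) * ∏ i, a i + (n + 1) * v ≤ (n + 1) * δ := by
  obtain ⟨K, hKdef⟩ : ∃ K, K = closure Ω := ⟨_, rfl⟩
  have hKcl : IsClosed K := hKdef ▸ isClosed_closure
  have hKc : Convex ℝ K := hKdef ▸ hΩ.closure
  have hsub : Ω ⊆ K := hKdef ▸ subset_closure
  have hbK : box a ⊆ K := hbox.trans hsub
  have hVK : volume K ≤ ENNReal.ofReal ((∏ i, a i) + δ) := by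
    rw [hKdef, measure_closure_of_null_frontier (hΩ.addHaar_frontier volume)]
    exact hvol
  have hP : 0 < ∏ i, a i := Finset.prod_pos fun i _ => ha i
  have hmem : ∀ y : E (n + 1), (∀ j, 0 ≤ y j ∧ y j ≤ a j) → y ∈ K := SUM_closed a ha K hKcl hbK
  have hPi : ∀ i, 0 < ∏ j ∈ Finset.univ.erase i, a j := fun i => Finset.prod_pos fun j _ => ha j
  have hn : (0 : ℝ) < n + 1 := by positivity
  -- disjoint from the box
  have hdU : ∀ (i : Fin (n + 1)) (x : E (n + 1)), a i < x i → Disjoint (pyr a i (a i) x) (box a) := by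
    intro i x hx
    rw [Set.disjoint_left]
    rintro z ⟨h0, _, _⟩ hz
    have h1 : 0 < x i - a i := by linarith
    have h2 : 0 < z i - a i := by
      by_contra hcon
      push Not at hcon
      exact absurd (div_nonpos_of_nonpos_of_nonneg hcon h1.le) (not_le.2 h0)
    linarith [(hz i).2]
  have hdL : ∀ (i : Fin (n + 1)) (x : E (n + 1)), x i < 0 → Disjoint (pyr a i 0 x) (box a) := by
    intro i x hx
    rw [Set.disjoint_left]
    rintro z ⟨h0, _, _⟩ hz
    have h2 : z i - 0 < 0 := by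
      by_contra hcon
      push Not at hcon
      exact absurd (div_nonpos_of_nonneg_of_nonpos hcon (by linarith : x i - 0 ≤ 0)) (not_le.2 h0)
    linarith [(hz i).1]
  -- bounded
  have hone : ∀ (i : Fin (n + 1)) (c : ℝ) (x : E (n + 1)), x ∈ K → 0 ≤ c ∧ c ≤ a i → x i ≠ c →
      Disjoint (pyr a i c x) (box a) →
      |x i - c| * (∏ j ∈ Finset.univ.erase i, a j) / (n + 1) ≤ δ := by
    intro i c x hx hc hxc hdis
    obtain ⟨ho, hv⟩ := hCON n a i c x ha hxc
    have := SUM_fam a ha K hbK δ hδ hVK (ι := Unit) (fun _ => pyr a i c x)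
      (fun _ => |x i - c| * (∏ j ∈ Finset.univ.erase i, a j) / (n + 1))
      (fun _ => div_nonneg (mul_nonneg (abs_nonneg _) (hPi i).le) hn.le) (fun _ => ho.measurableSet)
      (fun k l hkl => absurd (Subsingleton.elim k l) hkl) (fun _ => hdis)
      (fun _ => SUM_pyr a ha K hKcl hKc hbK i c hc x hx hxc) (fun _ => hv)
    simpa using this
  obtain ⟨B, hB⟩ : ∃ B : Fin (n + 1) → ℝ,
      ∀ i, B i = δ * (n + 1) / (∏ j ∈ Finset.univ.erase i, a j) := ⟨_, fun _ => rfl⟩
  have hB0 : ∀ i, 0 ≤ B i := fun i => by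
    rw [hB]
    exact div_nonneg (mul_nonneg hδ hn.le) (hPi i).le
  have hbd : ∀ x ∈ K, ∀ i, -B i ≤ x i ∧ x i ≤ a i + B i := by
    intro x hx i
    constructor
    · by_contra hcon
      push Not at hcon
      have hx0 : x i < 0 := by linarith [hB0 i]
      have h1 := hone i 0 x hx ⟨le_refl _, (ha i).le⟩ hx0.ne (hdL i x hx0)
      rw [div_le_iff₀ hn, ← le_div_iff₀ (hPi i), ← hB i, sub_zero, abs_of_neg hx0] at h1
      linarith
    · by_contra hcon
      push Not at hcon
      have hx0 : a i < x i := by linarith [hB0 i]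
      have h1 := hone i (a i) x hx ⟨(ha i).le, le_refl _⟩ hx0.ne' (hdU i x hx0)
      rw [div_le_iff₀ hn, ← le_div_iff₀ (hPi i), ← hB i, abs_of_pos (by linarith)] at h1
      linarith
  have hcomp : IsCompact K := by
    have h1 : IsCompact ((WithLp.toLp 2 : (Fin (n + 1) → ℝ) → E (n + 1)) ''
        (Set.pi Set.univ fun i => Set.Icc (-B i) (a i + B i))) :=
      (isCompact_univ_pi fun i => isCompact_Icc).image (PiLp.continuous_toLp 2 _)
    refine h1.of_isClosed_subset hKcl ?_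
    intro x hx
    exact ⟨WithLp.ofLp x, fun i _ => hbd x hx i, rfl⟩
  have hKne : K.Nonempty := ⟨0, hmem 0 fun j => ⟨le_refl _, (ha j).le⟩⟩
  choose X hXK hXm using fun i => hcomp.exists_isMaxOn hKne (SUM_coord i).continuousOn
  choose Y hYK hYm using fun i => hcomp.exists_isMinOn hKne (SUM_coord i).continuousOn
  obtain ⟨q, hqd⟩ : ∃ q : Fin (n + 1) → ℝ, ∀ i, q i = X i i - a i := ⟨_, fun _ => rfl⟩
  obtain ⟨p, hpd⟩ : ∃ p : Fin (n + 1) → ℝ, ∀ i, p i = - Y i i := ⟨_, fun _ => rfl⟩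
  have hup : ∀ x ∈ K, ∀ i, x i ≤ a i + q i := by
    intro x hx i
    have h : x i ≤ X i i := hXm i hx
    rw [hqd]
    linarith
  have hlo : ∀ x ∈ K, ∀ i, -p i ≤ x i := by
    intro x hx i
    have h : Y i i ≤ x i := hYm i hx
    rw [hpd]
    linarith
  have hq0 : ∀ i, 0 ≤ q i := by
    intro i
    have h := hup _ (hmem (WithLp.toLp 2 a) fun j => ⟨(ha j).le, le_refl _⟩) i
    have h' : a i ≤ a i + q i := h
    linarith
  have hp0 : ∀ i, 0 ≤ p i := by
    intro i
    have h := hlo _ (hmem 0 fun j => ⟨le_refl _, (ha j).le⟩) i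
    have h' : -p i ≤ 0 := h
    linarith
  have L1 : ∀ (j : Fin (n + 1)) (c : ℝ) (x z : E (n + 1)), x ∈ K → z ∈ pyr a j c x → ∀ i, i ≠ j →
      z i - a i < (z j - c) / (x j - c) * q i ∧ -z i < (z j - c) / (x j - c) * p i := by
    intro j c x z hx hz i hij
    obtain ⟨h0, h1, h⟩ := hz
    have h2 := h i hij
    obtain ⟨t, ht⟩ : ∃ t, t = (z j - c) / (x j - c) := ⟨_, rfl⟩
    rw [← ht] at h0 h1 h2 ⊢
    have hxu : x i ≤ a i + q i := hup x hx i
    have hxl : -p i ≤ x i := hlo x hx i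
    constructor
    · nlinarith [mul_le_mul_of_nonneg_left hxu h0.le]
    · nlinarith [mul_le_mul_of_nonneg_left hxl h0.le]
  classical
  obtain ⟨FU, hFU⟩ : ∃ FU : Fin (n + 1) → Set (E (n + 1)),
      ∀ i, FU i = if q i = 0 then ∅ else pyr a i (a i) (X i) := ⟨_, fun _ => rfl⟩
  obtain ⟨FL, hFL⟩ : ∃ FL : Fin (n + 1) → Set (E (n + 1)),
      ∀ i, FL i = if p i = 0 then ∅ else pyr a i 0 (Y i) := ⟨_, fun _ => rfl⟩
  have U : ∀ i z, z ∈ FU i → ∃ t, 0 < t ∧ z i - a i = t * q i ∧ 0 < q i ∧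
      ∀ j, j ≠ i → z j - a j < t * q j ∧ -z j < t * p j := by
    intro i z hz
    rw [hFU] at hz
    by_cases h : q i = 0
    · rw [if_pos h] at hz
      exact absurd hz (Set.notMem_empty _)
    · rw [if_neg h] at hz
      refine ⟨(z i - a i) / (X i i - a i), hz.1, ?_, lt_of_le_of_ne (hq0 i) (Ne.symm h),
        fun j hj => L1 i (a i) (X i) z (hXK i) hz j hj⟩
      rw [← hqd, div_mul_cancel₀ _ h]
  have L : ∀ i z, z ∈ FL i → ∃ t, 0 < t ∧ -z i = t * p i ∧ 0 < p i ∧
      ∀ j, j ≠ i → z j - a j < t * q j ∧ -z j < t * p j := by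
    intro i z hz
    rw [hFL] at hz
    by_cases h : p i = 0
    · rw [if_pos h] at hz
      exact absurd hz (Set.notMem_empty _)
    · rw [if_neg h] at hz
      refine ⟨(z i - 0) / (Y i i - 0), hz.1, ?_, lt_of_le_of_ne (hp0 i) (Ne.symm h),
        fun j hj => L1 i 0 (Y i) z (hYK i) hz j hj⟩
      have hY : Y i i = - p i := by rw [hpd]; ring
      rw [hY, sub_zero, sub_zero]
      field_simp
  have hUU : ∀ i j, i ≠ j → Disjoint (FU i) (FU j) := by
    intro i j hij
    rw [Set.disjoint_left]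
    intro z h1 h2
    obtain ⟨t, _, e1, hq1, k1⟩ := U i z h1
    obtain ⟨s, _, e2, hq2, k2⟩ := U j z h2
    have r1 : t < s := lt_of_mul_lt_mul_right (e1 ▸ (k2 i hij).1) hq1.le
    have r2 : s < t := lt_of_mul_lt_mul_right (e2 ▸ (k1 j hij.symm).1) hq2.le
    exact lt_asymm r1 r2
  have hLL : ∀ i j, i ≠ j → Disjoint (FL i) (FL j) := by
    intro i j hij
    rw [Set.disjoint_left]
    intro z h1 h2
    obtain ⟨t, _, e1, hq1, k1⟩ := L i z h1
    obtain ⟨s, _, e2, hq2, k2⟩ := L j z h2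
    have r1 : t < s := lt_of_mul_lt_mul_right (e1 ▸ (k2 i hij).2) hq1.le
    have r2 : s < t := lt_of_mul_lt_mul_right (e2 ▸ (k1 j hij.symm).2) hq2.le
    exact lt_asymm r1 r2
  have hUL : ∀ i j, Disjoint (FU i) (FL j) := by
    intro i j
    rw [Set.disjoint_left]
    intro z h1 h2
    obtain ⟨t, ht, e1, hq1, k1⟩ := U i z h1
    obtain ⟨s, hs, e2, hq2, k2⟩ := L j z h2
    by_cases hij : i = j
    · subst hij
      have r1 : 0 < t * q i := mul_pos ht hq1
      have r2 : 0 < s * p i := mul_pos hs hq2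
      have := ha i
      linarith
    · have r1 : t < s := lt_of_mul_lt_mul_right (e1 ▸ (k2 i hij).1) hq1.le
      have r2 : s < t := lt_of_mul_lt_mul_right (e2 ▸ (k1 j (Ne.symm hij)).2) hq2.le
      exact lt_asymm r1 r2
  have hXne : ∀ i, q i ≠ 0 → X i i ≠ a i := by
    intro i h h'
    exact h (by rw [hqd, h', sub_self])
  have hYne : ∀ i, p i ≠ 0 → Y i i ≠ 0 := by
    intro i h h'
    exact h (by rw [hpd, h', neg_zero])
  refine ⟨K, p, q, X, Y, hKc, hsub, hmem, fun i => ⟨hp0 i, hq0 i⟩, fun x hx i => ⟨hlo x hx i, hup x hx i⟩,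
    fun i => ⟨hXK i, by rw [hqd]; ring⟩, fun i => ⟨hYK i, by rw [hpd]; ring⟩, ?_⟩
  intro T v hTm hTK hv hTv hTb hTU hTL
  have hTU' : ∀ i, Disjoint (FU i) T := by
    intro i
    rw [hFU]
    split_ifs with h
    · exact Set.empty_disjoint _
    · exact hTU i h
  have hTL' : ∀ i, Disjoint (FL i) T := by
    intro i
    rw [hFL]
    split_ifs with h
    · exact Set.empty_disjoint _
    · exact hTL i h
  have hsum := SUM_fam a ha K hbK δ hδ hVK (ι := (Fin (n + 1) ⊕ Fin (n + 1)) ⊕ Unit)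
    (Sum.elim (Sum.elim FU FL) (fun _ => T))
    (Sum.elim (Sum.elim (fun i => q i * (∏ j ∈ Finset.univ.erase i, a j) / (n + 1))
      (fun i => p i * (∏ j ∈ Finset.univ.erase i, a j) / (n + 1))) (fun _ => v)) ?_ ?_ ?_ ?_ ?_ ?_
  · rw [Fintype.sum_sum_type, Fintype.sum_sum_type] at hsum
    simp only [Sum.elim_inl, Sum.elim_inr, Finset.univ_unique, Finset.sum_singleton] at hsum
    rw [← Finset.sum_add_distrib] at hsum
    have e : (∑ i, (p i + q i) / a i) * ∏ i, a i =
        (n + 1) * ∑ i, (q i * (∏ j ∈ Finset.univ.erase i, a j) / (n + 1) +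
          p i * (∏ j ∈ Finset.univ.erase i, a j) / (n + 1)) := by
      rw [Finset.sum_mul, Finset.mul_sum]
      refine Finset.sum_congr rfl fun i _ => ?_
      rw [← Finset.mul_prod_erase Finset.univ a (Finset.mem_univ i)]
      have h1 := (ha i).ne'
      have h2 := hn.ne'
      field_simp
      ring
    rw [e, ← mul_add]
    exact mul_le_mul_of_nonneg_left hsum hn.le
  · rintro ((i | i) | i)
    · exact div_nonneg (mul_nonneg (hq0 i) (hPi i).le) hn.le
    · exact div_nonneg (mul_nonneg (hp0 i) (hPi i).le) hn.le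
    · exact hv
  · rintro ((i | i) | i)
    · simp only [Sum.elim_inl, hFU]
      split_ifs with h
      · exact MeasurableSet.empty
      · exact (hCON n a i (a i) (X i) ha (hXne i h)).1.measurableSet
    · simp only [Sum.elim_inl, Sum.elim_inr, hFL]
      split_ifs with h
      · exact MeasurableSet.empty
      · exact (hCON n a i 0 (Y i) ha (hYne i h)).1.measurableSet
    · exact hTm
  · rintro ((i | i) | i) ((j | j) | j) hij
    · exact hUU i j fun h => hij (by rw [h])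
    · exact hUL i j
    · exact hTU' i
    · exact (hUL j i).symm
    · exact hLL i j fun h => hij (by rw [h])
    · exact hTL' i
    · exact (hTU' j).symm
    · exact (hTL' j).symm
    · exact absurd (congrArg Sum.inr (Subsingleton.elim i j)) hij
  · rintro ((i | i) | i)
    · simp only [Sum.elim_inl, hFU]
      split_ifs with h
      · exact Set.empty_disjoint _
      · apply hdU
        have h1 : 0 < q i := lt_of_le_of_ne (hq0 i) (Ne.symm h)
        rw [hqd] at h1
        linarith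
    · simp only [Sum.elim_inl, Sum.elim_inr, hFL]
      split_ifs with h
      · exact Set.empty_disjoint _
      · apply hdL
        have h1 : 0 < p i := lt_of_le_of_ne (hp0 i) (Ne.symm h)
        rw [hpd] at h1
        linarith
    · exact hTb
  · rintro ((i | i) | i)
    · simp only [Sum.elim_inl, hFU]
      split_ifs with h
      · exact Set.empty_subset _
      · exact SUM_pyr a ha K hKcl hKc hbK i (a i) ⟨(ha i).le, le_refl _⟩ (X i) (hXK i) (hXne i h)
    · simp only [Sum.elim_inl, Sum.elim_inr, hFL]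
      split_ifs with h
      · exact Set.empty_subset _
      · exact SUM_pyr a ha K hKcl hKc hbK i 0 ⟨le_refl _, (ha i).le⟩ (Y i) (hYK i) (hYne i h)
    · exact hTK
  · rintro ((i | i) | i)
    · simp only [Sum.elim_inl, hFU]
      split_ifs with h
      · rw [h]
        simp
      · rw [(hCON n a i (a i) (X i) ha (hXne i h)).2, ← hqd, abs_of_nonneg (hq0 i)]
    · simp only [Sum.elim_inl, Sum.elim_inr, hFL]
      split_ifs with h
      · rw [h]
        simp
      · have h2 : Y i i - 0 = - p i := by rw [hpd]; ring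
        rw [(hCON n a i 0 (Y i) ha (hYne i h)).2, h2, abs_neg, abs_of_nonneg (hp0 i)]
    · exact hTv


theorem GE2_det (i j : Fin 2) (hij : i ≠ j) (u v : Fin 2 → ℝ) :
    |u j * v i - u i * v j| = |u 0 * v 1 - u 1 * v 0| := by
  have h : (i = 0 ∧ j = 1) ∨ (i = 1 ∧ j = 0) := by omega
  rcases h with ⟨rfl, rfl⟩ | ⟨rfl, rfl⟩
  · exact abs_sub_comm _ _
  · rfl

theorem GE2_tri (hTRG : S_TRG) (K : Set (E 2)) (hKc : Convex ℝ K) (i j : Fin 2) (hij : i ≠ j)
    (s σ : ℝ) (hs : s = 1 ∨ s = -1) (hσ : σ = 1 ∨ σ = -1) (ci cj ℓ h x0 : ℝ) (X z F : E 2)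
    (hX : X ∈ K) (hz : z ∈ K) (hF : F ∈ K) (hXH : s * (X i - ci) = h) (hXL : σ * (X j - cj) = x0)
    (hFH : s * (F i - ci) = 0) (hFL : σ * (F j - cj) = ℓ) (hx0 : x0 ≤ ℓ / 2) (hh : 0 < h)
    (hℓ : 0 < ℓ) (hz1 : 55 / 100 * ℓ ≤ σ * (z j - cj)) (hz2 : σ * (z j - cj) ≤ ℓ)
    (hz3 : 95 / 100 * h < s * (z i - ci)) :
    ∃ (T : Set (E 2)) (v : ℝ), MeasurableSet T ∧ T ⊆ K ∧ volume T = ENNReal.ofReal v ∧ 0 ≤ v ∧
      ℓ * h / 80 ≤ v ∧ ∀ w ∈ T, σ * (w j - cj) ≤ ℓ ∧
        0 < (ℓ - x0) * (s * (w i - ci)) + h * (σ * (w j - cj)) - h * ℓ := by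
  obtain ⟨g, hg⟩ : ∃ g : E 2 → ℝ, ∀ w, g w =
      (ℓ - x0) * (s * (w i - ci)) + h * (σ * (w j - cj)) - h * ℓ := ⟨_, fun _ => rfl⟩
  have hgX : g X = 0 := by rw [hg, hXH, hXL]; ring
  have hgF : g F = 0 := by rw [hg, hFH, hFL]; ring
  have hgz : ℓ * h / 40 ≤ g z := by
    rw [hg]
    have h1 : ℓ / 2 * (95 / 100 * h) ≤ (ℓ - x0) * (s * (z i - ci)) :=
      mul_le_mul (by linarith) hz3.le (by positivity) (by linarith)
    have h2 : h * (55 / 100 * ℓ) ≤ h * (σ * (z j - cj)) := mul_le_mul_of_nonneg_left hz1 hh.le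
    nlinarith
  have hgz0 : 0 < g z := lt_of_lt_of_le (by positivity) hgz
  have hlin : ∀ (x y : E 2) (α β : ℝ), α + β = 1 → g (α • x + β • y) = α * g x + β * g y := by
    intro x y α β hαβ
    obtain rfl : β = 1 - α := by linarith
    have e1 : (α • x + (1 - α) • y) i = α * x i + (1 - α) * y i := by simp
    have e2 : (α • x + (1 - α) • y) j = α * x j + (1 - α) * y j := by simp
    rw [hg, hg, hg, e1, e2]
    ring
  have hconv : Convex ℝ {w : E 2 | 0 ≤ g w ∧ σ * (w j - cj) ≤ ℓ} := by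
    intro x hx y hy α β hα hβ hαβ
    refine ⟨?_, ?_⟩
    · rw [hlin x y α β hαβ]
      exact add_nonneg (mul_nonneg hα hx.1) (mul_nonneg hβ hy.1)
    · have e2 : (α • x + β • y) j = α * x j + β * y j := by simp
      rw [e2]
      have h1 := mul_le_mul_of_nonneg_left hx.2 hα
      have h2 := mul_le_mul_of_nonneg_left hy.2 hβ
      have h3 : α * ℓ + β * ℓ = ℓ := by rw [← add_mul, hαβ, one_mul]
      have h4 : σ * (α * x j + β * y j - cj) =
          α * (σ * (x j - cj)) + β * (σ * (y j - cj)) + (α + β - 1) * (σ * cj) := by ring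
      rw [h4, hαβ]
      linarith
  have hsubset : convexHull ℝ {X, F, z} ⊆ {w : E 2 | 0 ≤ g w ∧ σ * (w j - cj) ≤ ℓ} := by
    apply convexHull_min _ hconv
    rintro w (rfl | rfl | rfl)
    · exact ⟨hgX.ge, by rw [hXL]; linarith⟩
    · exact ⟨hgF.ge, hFL.le⟩
    · exact ⟨hgz0.le, hz2⟩
  have hnull : volume {w : E 2 | g w = 0} = 0 := by
    let φ : E 2 →ₗ[ℝ] ℝ :=
      ((ℓ - x0) * s) • (EuclideanSpace.proj (𝕜 := ℝ) i : E 2 →L[ℝ] ℝ).toLinearMap +
      (h * σ) • (EuclideanSpace.proj (𝕜 := ℝ) j : E 2 →L[ℝ] ℝ).toLinearMap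
    have hφ : ∀ w : E 2, φ (w - X) = g w := by
      intro w
      have e : φ (w - X) = (ℓ - x0) * s * (w i - X i) + h * σ * (w j - X j) := by
        simp [φ]
      have h0 := hgX
      rw [hg] at h0
      rw [e, hg]
      linear_combination -h0
    have h1 : {w : E 2 | g w = 0} = (AffineSubspace.mk' X (LinearMap.ker φ) : Set (E 2)) := by
      ext w
      rw [SetLike.mem_coe, AffineSubspace.mem_mk', LinearMap.mem_ker, vsub_eq_sub, hφ]
      rfl
    rw [h1]
    apply Measure.addHaar_affineSubspace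
    intro htop
    have h2 : z ∈ (AffineSubspace.mk' X (LinearMap.ker φ) : AffineSubspace ℝ (E 2)) := by
      rw [htop]
      exact AffineSubspace.mem_top ℝ (E 2) z
    rw [AffineSubspace.mem_mk', LinearMap.mem_ker, vsub_eq_sub, hφ] at h2
    exact hgz0.ne' h2
  have hcl : IsClosed (convexHull ℝ ({X, F, z} : Set (E 2))) :=
    (Set.Finite.isCompact_convexHull ℝ (Set.toFinite _)).isClosed
  have hgc : IsClosed {w : E 2 | g w = 0} := by
    have : g = fun w => (ℓ - x0) * (s * (w i - ci)) + h * (σ * (w j - cj)) - h * ℓ := funext hg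
    rw [this]
    have c1 := SUM_coord (d := 2) i
    have c2 := SUM_coord (d := 2) j
    exact isClosed_eq (by fun_prop) continuous_const
  refine ⟨convexHull ℝ {X, F, z} \ {w | g w = 0}, g z / 2, hcl.measurableSet.diff hgc.measurableSet,
    ?_, ?_, by linarith, by linarith, ?_⟩
  · refine Set.sdiff_subset.trans (convexHull_min ?_ hKc)
    rintro w (rfl | rfl | rfl)
    · exact hX
    · exact hF
    · exact hz
  · rw [measure_sdiff_null hnull, hTRG X F z]
    congr 2
    have hdet : g z = s * σ * ((F j - X j) * (z i - X i) - (F i - X i) * (z j - X j)) := by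
      rw [hg]
      subst hXH hXL hFL
      linear_combination (σ * (z j - X j)) * hFH
    have h1 : |g z| = g z := abs_of_pos hgz0
    have h2 : |s * σ| = 1 := by
      rcases hs with rfl | rfl <;> rcases hσ with rfl | rfl <;> norm_num
    rw [← h1, hdet, abs_mul, h2, one_mul]
    exact (GE2_det i j hij (fun k => F k - X k) (fun k => z k - X k)).symm
  · rintro w ⟨hw, hw0⟩
    have h1 := hsubset hw
    refine ⟨h1.2, ?_⟩
    rw [← hg]
    exact lt_of_le_of_ne h1.1 (Ne.symm hw0)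

/-- the claim, with abstract signs -/
theorem GE2_side (hTRG : S_TRG) (K : Set (E 2)) (hKc : Convex ℝ K) (i j : Fin 2) (hij : i ≠ j)
    (s σ : ℝ) (hs : s = 1 ∨ s = -1) (hσ : σ = 1 ∨ σ = -1) (ci cj ℓ h x0 S δ : ℝ) (X F : E 2)
    (hX : X ∈ K) (hF : F ∈ K) (hXH : s * (X i - ci) = h) (hXL : σ * (X j - cj) = x0)
    (hFH : s * (F i - ci) = 0) (hFL : σ * (F j - cj) = ℓ) (hx0 : x0 ≤ ℓ / 2) (hh : 0 < h)
    (hℓ : 0 < ℓ) (hSℓ : S ≤ 4 * (ℓ * h)) (hSδ : 2 * (1 - 1 / 200) * δ < S) (hδ : 0 < δ)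
    (hT : ∀ (T : Set (E 2)) (v : ℝ), MeasurableSet T → T ⊆ K → 0 ≤ v → volume T = ENNReal.ofReal v →
      (∀ w ∈ T, 0 < s * (w i - ci) ∧ σ * (w j - cj) ≤ ℓ ∧
        0 < (ℓ - x0) * (s * (w i - ci)) + h * (σ * (w j - cj)) - h * ℓ) → S + 2 * v ≤ 2 * δ)
    (z : E 2) (hz : z ∈ K) (hz1 : 55 / 100 * ℓ ≤ σ * (z j - cj)) :
    s * (z i - ci) ≤ 95 / 100 * h := by
  by_contra hcon
  rw [not_le] at hcon
  obtain ⟨z', hz', hz1', hz2', hz3'⟩ : ∃ z' ∈ K, 55 / 100 * ℓ ≤ σ * (z' j - cj) ∧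
      σ * (z' j - cj) ≤ ℓ ∧ 95 / 100 * h < s * (z' i - ci) := by
    by_cases h1 : σ * (z j - cj) ≤ ℓ
    · exact ⟨z, hz, hz1, h1, hcon⟩
    · rw [not_le] at h1
      obtain ⟨L, hL⟩ : ∃ L, L = σ * (z j - cj) := ⟨_, rfl⟩
      have hLx : 0 < L - x0 := by rw [hL]; linarith
      obtain ⟨t, ht⟩ : ∃ t, t = (ℓ - x0) / (L - x0) := ⟨_, rfl⟩
      have ht0 : 0 ≤ t := by rw [ht]; exact div_nonneg (by linarith) hLx.le
      have ht1 : t ≤ 1 := by rw [ht, div_le_one hLx]; linarith
      have htL : t * (L - x0) = ℓ - x0 := by rw [ht]; field_simp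
      have e1 : ((1 - t) • X + t • z) i = (1 - t) * X i + t * z i := by simp
      have e2 : ((1 - t) • X + t • z) j = (1 - t) * X j + t * z j := by simp
      have e3 : σ * (((1 - t) • X + t • z) j - cj) = ℓ := by
        rw [e2]
        have : σ * ((1 - t) * X j + t * z j - cj) =
          (1 - t) * (σ * (X j - cj)) + t * (σ * (z j - cj)) := by ring
        rw [this, hXL, ← hL]
        linarith
      refine ⟨(1 - t) • X + t • z, hKc hX hz (by linarith) ht0 (by ring), ?_, ?_, ?_⟩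
      · rw [e3]; linarith
      · rw [e3]
      · rw [e1]
        have : s * ((1 - t) * X i + t * z i - ci) =
          (1 - t) * (s * (X i - ci)) + t * (s * (z i - ci)) := by ring
        rw [this, hXH]
        rcases eq_or_lt_of_le ht0 with h2 | h2
        · rw [← h2]; linarith
        · have h3 := mul_lt_mul_of_pos_left hcon h2
          have h4 := mul_nonneg (show 0 ≤ 1 - t by linarith) hh.le
          nlinarith
  obtain ⟨T, v, hTm, hTK, hTv, hv0, hv, hTw⟩ := GE2_tri hTRG K hKc i j hij s σ hs hσ ci cj ℓ h x0 X z' F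
    hX hz' hF hXH hXL hFH hFL hx0 hh hℓ hz1' hz2' hz3'
  have h1 := hT T v hTm hTK hv0 hTv ?_
  · nlinarith
  · intro w hw
    obtain ⟨h2, h3⟩ := hTw w hw
    refine ⟨?_, h2, h3⟩
    by_contra h4
    rw [not_lt] at h4
    have h5 : (ℓ - x0) * (s * (w i - ci)) ≤ 0 :=
      mul_nonpos_of_nonneg_of_nonpos (by linarith) h4
    have h6 : h * (σ * (w j - cj)) ≤ h * ℓ := mul_le_mul_of_nonneg_left h2 hh.le
    linarith

theorem GE2_NI {t h ℓ x0 H L : ℝ} (hh : 0 < h) (hH : H = t * h) (hL : L < (1 - t) * ℓ + t * x0)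
    (hg : 0 < (ℓ - x0) * H + h * L - h * ℓ) : False := by
  subst hH
  have := mul_lt_mul_of_pos_left hL hh
  nlinarith

theorem GE2_NJ {t h ℓ x0 H L r : ℝ} (ht : 0 < t) (ht1 : t < 1) (hh : 0 < h) (hℓ : 0 < ℓ) (hx : x0 < ℓ)
    (hH : H ≤ t * h) (hL : L = -(t * r)) (hr : -r ≤ x0)
    (hg : 0 < (ℓ - x0) * H + h * L - h * ℓ) : False := by
  subst hL
  have h1 : (ℓ - x0) * H ≤ (ℓ - x0) * (t * h) := mul_le_mul_of_nonneg_left hH (by linarith)
  have h2 : 0 ≤ h * (1 - t) * ℓ := mul_nonneg (mul_nonneg hh.le (by linarith)) hℓ.le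
  have h3 : 0 ≤ h * t * (x0 + r) := mul_nonneg (mul_nonneg hh.le ht.le) (by linarith)
  nlinarith

theorem GE2_in (x : E 2) (k : Fin 2) (c : ℝ) :
    ⟪x, c • (EuclideanSpace.single k (1 : ℝ) : E 2)⟫ = c * x k := by
  rw [inner_smul_right]
  simp [EuclideanSpace.inner_single_right]

theorem GE2_nm (k : Fin 2) (c : ℝ) (hc : c = 1 ∨ c = -1) :
    ‖c • (EuclideanSpace.single k (1 : ℝ) : E 2)‖ = 1 := by
  rw [norm_smul]
  rcases hc with rfl | rfl <;> simp

theorem GE2_or (i j : Fin 2) (hij : i ≠ j) (c d : ℝ) :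
    ⟪c • (EuclideanSpace.single i (1 : ℝ) : E 2), d • (EuclideanSpace.single j (1 : ℝ) : E 2)⟫ = 0 := by
  rw [GE2_in]
  have : (c • (EuclideanSpace.single i (1 : ℝ) : E 2)) j = 0 := by
    simp [hij.symm]
  rw [this, mul_zero]

theorem p_GE2x (hCON : S_CON) : S_GE2 := by
  intro a Ω δ ha hΩ hbox hδ h100 hvol
  obtain ⟨K, p, q, X, Y, hKc, hsub, hmem, hpq, hbd, hX, hY, hcore⟩ :=
    GE2_core hCON 1 a Ω δ ha hΩ hbox hδ.le hvol
  obtain ⟨S, hS⟩ : ∃ S, S = (∑ i, (p i + q i) / a i) * ∏ i, a i := ⟨_, rfl⟩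
  rw [← hS] at hcore
  have hS2 : S ≤ 2 * δ := by
    have := hcore ∅ 0 MeasurableSet.empty (Set.empty_subset _) le_rfl (by simp) (by simp) (by simp)
      (by simp)
    norm_num at this
    linarith
  refine ⟨p, q, hpq, fun x hx i => hbd x (hsub hx) i, hS ▸ hS2, ?_⟩
  rw [← hS]
  by_cases hcase : S ≤ 2 * (1 - 1 / 200) * δ
  · left
    exact hcase
  right
  rw [not_le] at hcase
  have a0 := ha 0
  have a1 := ha 1
  have hSe : S = (p 0 + q 0) * a 1 + (p 1 + q 1) * a 0 := by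
    rw [hS, Fin.sum_univ_two, Fin.prod_univ_two]
    field_simp
  have h100' : 100 * δ ≤ a 0 * a 1 := by
    have := h100
    rw [Fin.prod_univ_two] at this
    exact this
  have hsm : ∀ k, 50 * (p k + q k) ≤ a k := by
    have h0 := hpq 0
    have h1 := hpq 1
    have e0 : 0 ≤ (p 1 + q 1) * a 0 := mul_nonneg (by linarith) a0.le
    have e1 : 0 ≤ (p 0 + q 0) * a 1 := mul_nonneg (by linarith) a1.le
    have c0 : 50 * (p 0 + q 0) ≤ a 0 := by
      by_contra hcon
      rw [not_le] at hcon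
      have := mul_lt_mul_of_pos_right hcon a1
      nlinarith
    have c1 : 50 * (p 1 + q 1) ≤ a 1 := by
      by_contra hcon
      rw [not_le] at hcon
      have := mul_lt_mul_of_pos_right hcon a0
      nlinarith
    intro k
    fin_cases k
    · exact c0
    · exact c1
  have hk : ∀ i j k : Fin 2, i ≠ j → k = i ∨ k = j := by
    intro i j k h
    omega
  have pU : ∀ k, q k ≠ 0 → ∀ w ∈ pyr a k (a k) (X k), ∃ t, 0 < t ∧ t < 1 ∧ w k = a k + t * q k ∧
      0 < t * q k ∧ ∀ m, m ≠ k → t * X k m < w m ∧ w m < (1 - t) * a m + t * X k m := by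
    rintro k hk w ⟨h0, h1, h2⟩
    have hq : 0 < q k := lt_of_le_of_ne (hpq k).2 (Ne.symm hk)
    have e : X k k - a k = q k := by rw [(hX k).2]; ring
    refine ⟨_, h0, h1, ?_, mul_pos h0 hq, h2⟩
    rw [e, div_mul_cancel₀ _ hk]
    ring
  have pL : ∀ k, p k ≠ 0 → ∀ w ∈ pyr a k 0 (Y k), ∃ t, 0 < t ∧ t < 1 ∧ w k = -(t * p k) ∧
      0 < t * p k ∧ ∀ m, m ≠ k → t * Y k m < w m ∧ w m < (1 - t) * a m + t * Y k m := by
    rintro k hk w ⟨h0, h1, h2⟩
    have hq : 0 < p k := lt_of_le_of_ne (hpq k).1 (Ne.symm hk)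
    have e : Y k k - 0 = -p k := by rw [(hY k).2]; ring
    refine ⟨_, h0, h1, ?_, mul_pos h0 hq, h2⟩
    rw [e]
    field_simp
    ring
  have hS0 : 0 < S := lt_trans (by nlinarith) hcase
  have cUr : ∀ i j : Fin 2, i ≠ j → S ≤ 4 * (a j * q i) → X i j ≤ a j / 2 →
      ∃ (i j : Fin 2) (e f : E 2) (α β h : ℝ), i ≠ j ∧
      ‖e‖ = 1 ∧ ‖f‖ = 1 ∧ ⟪e, f⟫ = 0 ∧ 0 ≤ h ∧ h ≤ p i + q i ∧ δ ≤ 3 * (a j * h) ∧
      (∀ x ∈ Ω, (α ≤ ⟪x, e⟫ ∧ ⟪x, e⟫ ≤ α + (a i + p i + q i)) ∧ β ≤ ⟪x, f⟫ ∧ ⟪x, f⟫ ≤ β + (a j + p j + q j)) ∧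
      ∀ x ∈ Ω, β + 56 / 100 * (a j + p j + q j) ≤ ⟪x, f⟫ → ⟪x, e⟫ ≤ α + (a i + p i + q i) - h / 20 := by
    intro i j hij hSh hcd
    have hh : 0 < q i := by
      by_contra hcon
      rw [not_lt] at hcon
      have := mul_nonpos_of_nonneg_of_nonpos (ha j).le hcon
      linarith
    let F : E 2 := WithLp.toLp 2 (fun k => if k = i then a i else a j)
    have hFi : F i = a i := by simp [F]
    have hFj : F j = a j := by simp [F, hij.symm]
    have hFK : F ∈ K := by
      apply hmem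
      intro k
      rcases hk i j k hij with rfl | rfl
      · rw [hFi]
        have := ha k
        constructor <;> linarith
      · rw [hFj]
        have := ha k
        constructor <;> linarith
    have hx0 : 1 * (X i j - 0) ≤ a j / 2 := by linarith
    have hxl : 1 * (X i j - 0) < a j := by linarith [ha j]
    have hmain := GE2_side p_TRG K hKc i j hij 1 1 (Or.inl rfl) (Or.inl rfl) (a i) 0 (a j) (q i)
      (1 * (X i j - 0)) S δ (X i) F (hX i).1 hFK (by rw [(hX i).2]; ring) rfl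
      (by rw [hFi]; ring) (by rw [hFj]; ring) hx0 hh (ha j) hSh hcase hδ ?_
    · refine ⟨i, j, 1 • EuclideanSpace.single i (1 : ℝ), 1 • EuclideanSpace.single j (1 : ℝ),
        (-p i), (-p j), q i, hij, GE2_nm i _ (Or.inl rfl), GE2_nm j _ (Or.inl rfl), GE2_or i j hij _ _, hh.le,
        ?_, ?_, ?_, ?_⟩
      · linarith [(hpq i).1, (hpq i).2]
      · linarith
      · intro x hx
        rw [GE2_in, GE2_in]
        have b1 := hbd x (hsub hx) i
        have b2 := hbd x (hsub hx) j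
        refine ⟨⟨by linarith [b1.1, b1.2], by linarith [b1.1, b1.2]⟩, by linarith [b2.1, b2.2],
          by linarith [b2.1, b2.2]⟩
      · intro x hx hx1
        rw [GE2_in] at hx1
        rw [GE2_in]
        have h1 := hmain x (hsub hx) (by linarith [hsm j, (hpq j).1, (hpq j).2])
        linarith
    · intro T v hTm hTK hv0 hTv hTw
      have h1 := hcore T v hTm hTK hv0 hTv ?_ ?_ ?_
      · norm_num at h1
        linarith
      · rw [Set.disjoint_left]
        intro w hw hwb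
        obtain ⟨hH, hL, hg⟩ := hTw w hw
        have := hwb i
        linarith [this.1, this.2]
      · intro k hk0
        rw [Set.disjoint_left]
        intro w hw hwT
        obtain ⟨hH, hL, hg⟩ := hTw w hwT
        rcases hk i j k hij with h | h
        · rw [h] at hw hk0
          obtain ⟨t, ht0, ht1, e, e', hm⟩ := pU i hk0 w hw
          have hm := hm j hij.symm
          exact GE2_NI (t := t) hh (by rw [e]; ring) (by linarith [hm.1, hm.2]) hg
        · rw [h] at hw hk0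
          obtain ⟨t, ht0, ht1, e, e', hm⟩ := pU j hk0 w hw
          rw [e] at hL
          linarith
      · intro k hk0
        rw [Set.disjoint_left]
        intro w hw hwT
        obtain ⟨hH, hL, hg⟩ := hTw w hwT
        rcases hk i j k hij with h | h
        · rw [h] at hw hk0
          obtain ⟨t, ht0, ht1, e, e', hm⟩ := pL i hk0 w hw
          rw [e] at hH
          linarith [ha i]
        · rw [h] at hw hk0
          obtain ⟨t, ht0, ht1, e, e', hm⟩ := pL j hk0 w hw
          have hm := hm i hij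
          have hb := hbd _ (hY j).1 i
          have hb1 := mul_le_mul_of_nonneg_left hb.1 ht0.le
          have hb2 := mul_le_mul_of_nonneg_left hb.2 ht0.le
          have hc := hbd _ (hX i).1 j
          exact GE2_NJ (t := t) (r := p j) ht0 ht1 hh (ha j) hxl (by linarith [hm.1, hm.2])
            (by rw [e]; ring) (by linarith [hc.1, hc.2]) hg
  have cUl : ∀ i j : Fin 2, i ≠ j → S ≤ 4 * (a j * q i) → a j / 2 ≤ X i j →
      ∃ (i j : Fin 2) (e f : E 2) (α β h : ℝ), i ≠ j ∧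
      ‖e‖ = 1 ∧ ‖f‖ = 1 ∧ ⟪e, f⟫ = 0 ∧ 0 ≤ h ∧ h ≤ p i + q i ∧ δ ≤ 3 * (a j * h) ∧
      (∀ x ∈ Ω, (α ≤ ⟪x, e⟫ ∧ ⟪x, e⟫ ≤ α + (a i + p i + q i)) ∧ β ≤ ⟪x, f⟫ ∧ ⟪x, f⟫ ≤ β + (a j + p j + q j)) ∧
      ∀ x ∈ Ω, β + 56 / 100 * (a j + p j + q j) ≤ ⟪x, f⟫ → ⟪x, e⟫ ≤ α + (a i + p i + q i) - h / 20 := by
    intro i j hij hSh hcd
    have hh : 0 < q i := by
      by_contra hcon
      rw [not_lt] at hcon
      have := mul_nonpos_of_nonneg_of_nonpos (ha j).le hcon
      linarith
    let F : E 2 := WithLp.toLp 2 (fun k => if k = i then a i else 0)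
    have hFi : F i = a i := by simp [F]
    have hFj : F j = 0 := by simp [F, hij.symm]
    have hFK : F ∈ K := by
      apply hmem
      intro k
      rcases hk i j k hij with rfl | rfl
      · rw [hFi]
        have := ha k
        constructor <;> linarith
      · rw [hFj]
        have := ha k
        constructor <;> linarith
    have hx0 : (-1) * (X i j - (a j)) ≤ a j / 2 := by linarith
    have hxl : (-1) * (X i j - (a j)) < a j := by linarith [ha j]
    have hmain := GE2_side p_TRG K hKc i j hij 1 (-1) (Or.inl rfl) (Or.inr rfl) (a i) (a j) (a j) (q i)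
      ((-1) * (X i j - (a j))) S δ (X i) F (hX i).1 hFK (by rw [(hX i).2]; ring) rfl
      (by rw [hFi]; ring) (by rw [hFj]; ring) hx0 hh (ha j) hSh hcase hδ ?_
    · refine ⟨i, j, 1 • EuclideanSpace.single i (1 : ℝ), (-1) • EuclideanSpace.single j (1 : ℝ),
        (-p i), (-(a j + q j)), q i, hij, GE2_nm i _ (Or.inl rfl), GE2_nm j _ (Or.inr rfl), GE2_or i j hij _ _, hh.le,
        ?_, ?_, ?_, ?_⟩
      · linarith [(hpq i).1, (hpq i).2]
      · linarith
      · intro x hx
        rw [GE2_in, GE2_in]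
        have b1 := hbd x (hsub hx) i
        have b2 := hbd x (hsub hx) j
        refine ⟨⟨by linarith [b1.1, b1.2], by linarith [b1.1, b1.2]⟩, by linarith [b2.1, b2.2],
          by linarith [b2.1, b2.2]⟩
      · intro x hx hx1
        rw [GE2_in] at hx1
        rw [GE2_in]
        have h1 := hmain x (hsub hx) (by linarith [hsm j, (hpq j).1, (hpq j).2])
        linarith
    · intro T v hTm hTK hv0 hTv hTw
      have h1 := hcore T v hTm hTK hv0 hTv ?_ ?_ ?_
      · norm_num at h1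
        linarith
      · rw [Set.disjoint_left]
        intro w hw hwb
        obtain ⟨hH, hL, hg⟩ := hTw w hw
        have := hwb i
        linarith [this.1, this.2]
      · intro k hk0
        rw [Set.disjoint_left]
        intro w hw hwT
        obtain ⟨hH, hL, hg⟩ := hTw w hwT
        rcases hk i j k hij with h | h
        · rw [h] at hw hk0
          obtain ⟨t, ht0, ht1, e, e', hm⟩ := pU i hk0 w hw
          have hm := hm j hij.symm
          exact GE2_NI (t := t) hh (by rw [e]; ring) (by linarith [hm.1, hm.2]) hg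
        · rw [h] at hw hk0
          obtain ⟨t, ht0, ht1, e, e', hm⟩ := pU j hk0 w hw
          have hm := hm i hij
          have hb := hbd _ (hX j).1 i
          have hb1 := mul_le_mul_of_nonneg_left hb.1 ht0.le
          have hb2 := mul_le_mul_of_nonneg_left hb.2 ht0.le
          have hc := hbd _ (hX i).1 j
          exact GE2_NJ (t := t) (r := q j) ht0 ht1 hh (ha j) hxl (by linarith [hm.1, hm.2])
            (by rw [e]; ring) (by linarith [hc.1, hc.2]) hg
      · intro k hk0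
        rw [Set.disjoint_left]
        intro w hw hwT
        obtain ⟨hH, hL, hg⟩ := hTw w hwT
        rcases hk i j k hij with h | h
        · rw [h] at hw hk0
          obtain ⟨t, ht0, ht1, e, e', hm⟩ := pL i hk0 w hw
          rw [e] at hH
          linarith [ha i]
        · rw [h] at hw hk0
          obtain ⟨t, ht0, ht1, e, e', hm⟩ := pL j hk0 w hw
          rw [e] at hL
          linarith
  have cLr : ∀ i j : Fin 2, i ≠ j → S ≤ 4 * (a j * p i) → Y i j ≤ a j / 2 →
      ∃ (i j : Fin 2) (e f : E 2) (α β h : ℝ), i ≠ j ∧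
      ‖e‖ = 1 ∧ ‖f‖ = 1 ∧ ⟪e, f⟫ = 0 ∧ 0 ≤ h ∧ h ≤ p i + q i ∧ δ ≤ 3 * (a j * h) ∧
      (∀ x ∈ Ω, (α ≤ ⟪x, e⟫ ∧ ⟪x, e⟫ ≤ α + (a i + p i + q i)) ∧ β ≤ ⟪x, f⟫ ∧ ⟪x, f⟫ ≤ β + (a j + p j + q j)) ∧
      ∀ x ∈ Ω, β + 56 / 100 * (a j + p j + q j) ≤ ⟪x, f⟫ → ⟪x, e⟫ ≤ α + (a i + p i + q i) - h / 20 := by
    intro i j hij hSh hcd
    have hh : 0 < p i := by
      by_contra hcon
      rw [not_lt] at hcon
      have := mul_nonpos_of_nonneg_of_nonpos (ha j).le hcon
      linarith
    let F : E 2 := WithLp.toLp 2 (fun k => if k = i then 0 else a j)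
    have hFi : F i = 0 := by simp [F]
    have hFj : F j = a j := by simp [F, hij.symm]
    have hFK : F ∈ K := by
      apply hmem
      intro k
      rcases hk i j k hij with rfl | rfl
      · rw [hFi]
        have := ha k
        constructor <;> linarith
      · rw [hFj]
        have := ha k
        constructor <;> linarith
    have hx0 : 1 * (Y i j - 0) ≤ a j / 2 := by linarith
    have hxl : 1 * (Y i j - 0) < a j := by linarith [ha j]
    have hmain := GE2_side p_TRG K hKc i j hij (-1) 1 (Or.inr rfl) (Or.inl rfl) 0 0 (a j) (p i)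
      (1 * (Y i j - 0)) S δ (Y i) F (hY i).1 hFK (by rw [(hY i).2]; ring) rfl
      (by rw [hFi]; ring) (by rw [hFj]; ring) hx0 hh (ha j) hSh hcase hδ ?_
    · refine ⟨i, j, (-1) • EuclideanSpace.single i (1 : ℝ), 1 • EuclideanSpace.single j (1 : ℝ),
        (-(a i + q i)), (-p j), p i, hij, GE2_nm i _ (Or.inr rfl), GE2_nm j _ (Or.inl rfl), GE2_or i j hij _ _, hh.le,
        ?_, ?_, ?_, ?_⟩
      · linarith [(hpq i).1, (hpq i).2]
      · linarith
      · intro x hx
        rw [GE2_in, GE2_in]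
        have b1 := hbd x (hsub hx) i
        have b2 := hbd x (hsub hx) j
        refine ⟨⟨by linarith [b1.1, b1.2], by linarith [b1.1, b1.2]⟩, by linarith [b2.1, b2.2],
          by linarith [b2.1, b2.2]⟩
      · intro x hx hx1
        rw [GE2_in] at hx1
        rw [GE2_in]
        have h1 := hmain x (hsub hx) (by linarith [hsm j, (hpq j).1, (hpq j).2])
        linarith
    · intro T v hTm hTK hv0 hTv hTw
      have h1 := hcore T v hTm hTK hv0 hTv ?_ ?_ ?_
      · norm_num at h1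
        linarith
      · rw [Set.disjoint_left]
        intro w hw hwb
        obtain ⟨hH, hL, hg⟩ := hTw w hw
        have := hwb i
        linarith [this.1, this.2]
      · intro k hk0
        rw [Set.disjoint_left]
        intro w hw hwT
        obtain ⟨hH, hL, hg⟩ := hTw w hwT
        rcases hk i j k hij with h | h
        · rw [h] at hw hk0
          obtain ⟨t, ht0, ht1, e, e', hm⟩ := pU i hk0 w hw
          rw [e] at hH
          linarith [ha i]
        · rw [h] at hw hk0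
          obtain ⟨t, ht0, ht1, e, e', hm⟩ := pU j hk0 w hw
          rw [e] at hL
          linarith
      · intro k hk0
        rw [Set.disjoint_left]
        intro w hw hwT
        obtain ⟨hH, hL, hg⟩ := hTw w hwT
        rcases hk i j k hij with h | h
        · rw [h] at hw hk0
          obtain ⟨t, ht0, ht1, e, e', hm⟩ := pL i hk0 w hw
          have hm := hm j hij.symm
          exact GE2_NI (t := t) hh (by rw [e]; ring) (by linarith [hm.1, hm.2]) hg
        · rw [h] at hw hk0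
          obtain ⟨t, ht0, ht1, e, e', hm⟩ := pL j hk0 w hw
          have hm := hm i hij
          have hb := hbd _ (hY j).1 i
          have hb1 := mul_le_mul_of_nonneg_left hb.1 ht0.le
          have hb2 := mul_le_mul_of_nonneg_left hb.2 ht0.le
          have hc := hbd _ (hY i).1 j
          exact GE2_NJ (t := t) (r := p j) ht0 ht1 hh (ha j) hxl (by linarith [hm.1, hm.2])
            (by rw [e]; ring) (by linarith [hc.1, hc.2]) hg
  have cLl : ∀ i j : Fin 2, i ≠ j → S ≤ 4 * (a j * p i) → a j / 2 ≤ Y i j →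
      ∃ (i j : Fin 2) (e f : E 2) (α β h : ℝ), i ≠ j ∧
      ‖e‖ = 1 ∧ ‖f‖ = 1 ∧ ⟪e, f⟫ = 0 ∧ 0 ≤ h ∧ h ≤ p i + q i ∧ δ ≤ 3 * (a j * h) ∧
      (∀ x ∈ Ω, (α ≤ ⟪x, e⟫ ∧ ⟪x, e⟫ ≤ α + (a i + p i + q i)) ∧ β ≤ ⟪x, f⟫ ∧ ⟪x, f⟫ ≤ β + (a j + p j + q j)) ∧
      ∀ x ∈ Ω, β + 56 / 100 * (a j + p j + q j) ≤ ⟪x, f⟫ → ⟪x, e⟫ ≤ α + (a i + p i + q i) - h / 20 := by
    intro i j hij hSh hcd
    have hh : 0 < p i := by
      by_contra hcon
      rw [not_lt] at hcon
      have := mul_nonpos_of_nonneg_of_nonpos (ha j).le hcon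
      linarith
    let F : E 2 := WithLp.toLp 2 (fun k => if k = i then 0 else 0)
    have hFi : F i = 0 := by simp [F]
    have hFj : F j = 0 := by simp [F, hij.symm]
    have hFK : F ∈ K := by
      apply hmem
      intro k
      rcases hk i j k hij with rfl | rfl
      · rw [hFi]
        have := ha k
        constructor <;> linarith
      · rw [hFj]
        have := ha k
        constructor <;> linarith
    have hx0 : (-1) * (Y i j - (a j)) ≤ a j / 2 := by linarith
    have hxl : (-1) * (Y i j - (a j)) < a j := by linarith [ha j]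
    have hmain := GE2_side p_TRG K hKc i j hij (-1) (-1) (Or.inr rfl) (Or.inr rfl) 0 (a j) (a j) (p i)
      ((-1) * (Y i j - (a j))) S δ (Y i) F (hY i).1 hFK (by rw [(hY i).2]; ring) rfl
      (by rw [hFi]; ring) (by rw [hFj]; ring) hx0 hh (ha j) hSh hcase hδ ?_
    · refine ⟨i, j, (-1) • EuclideanSpace.single i (1 : ℝ), (-1) • EuclideanSpace.single j (1 : ℝ),
        (-(a i + q i)), (-(a j + q j)), p i, hij, GE2_nm i _ (Or.inr rfl), GE2_nm j _ (Or.inr rfl), GE2_or i j hij _ _, hh.le,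
        ?_, ?_, ?_, ?_⟩
      · linarith [(hpq i).1, (hpq i).2]
      · linarith
      · intro x hx
        rw [GE2_in, GE2_in]
        have b1 := hbd x (hsub hx) i
        have b2 := hbd x (hsub hx) j
        refine ⟨⟨by linarith [b1.1, b1.2], by linarith [b1.1, b1.2]⟩, by linarith [b2.1, b2.2],
          by linarith [b2.1, b2.2]⟩
      · intro x hx hx1
        rw [GE2_in] at hx1
        rw [GE2_in]
        have h1 := hmain x (hsub hx) (by linarith [hsm j, (hpq j).1, (hpq j).2])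
        linarith
    · intro T v hTm hTK hv0 hTv hTw
      have h1 := hcore T v hTm hTK hv0 hTv ?_ ?_ ?_
      · norm_num at h1
        linarith
      · rw [Set.disjoint_left]
        intro w hw hwb
        obtain ⟨hH, hL, hg⟩ := hTw w hw
        have := hwb i
        linarith [this.1, this.2]
      · intro k hk0
        rw [Set.disjoint_left]
        intro w hw hwT
        obtain ⟨hH, hL, hg⟩ := hTw w hwT
        rcases hk i j k hij with h | h
        · rw [h] at hw hk0
          obtain ⟨t, ht0, ht1, e, e', hm⟩ := pU i hk0 w hw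
          rw [e] at hH
          linarith [ha i]
        · rw [h] at hw hk0
          obtain ⟨t, ht0, ht1, e, e', hm⟩ := pU j hk0 w hw
          have hm := hm i hij
          have hb := hbd _ (hX j).1 i
          have hb1 := mul_le_mul_of_nonneg_left hb.1 ht0.le
          have hb2 := mul_le_mul_of_nonneg_left hb.2 ht0.le
          have hc := hbd _ (hY i).1 j
          exact GE2_NJ (t := t) (r := q j) ht0 ht1 hh (ha j) hxl (by linarith [hm.1, hm.2])
            (by rw [e]; ring) (by linarith [hc.1, hc.2]) hg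
      · intro k hk0
        rw [Set.disjoint_left]
        intro w hw hwT
        obtain ⟨hH, hL, hg⟩ := hTw w hwT
        rcases hk i j k hij with h | h
        · rw [h] at hw hk0
          obtain ⟨t, ht0, ht1, e, e', hm⟩ := pL i hk0 w hw
          have hm := hm j hij.symm
          exact GE2_NI (t := t) hh (by rw [e]; ring) (by linarith [hm.1, hm.2]) hg
        · rw [h] at hw hk0
          obtain ⟨t, ht0, ht1, e, e', hm⟩ := pL j hk0 w hw
          rw [e] at hL
          linarith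
  have hd : ∀ i j : Fin 2, i ≠ j → (S ≤ 4 * (a j * q i) ∨ S ≤ 4 * (a j * p i)) →
      ∃ (i j : Fin 2) (e f : E 2) (α β h : ℝ), i ≠ j ∧
      ‖e‖ = 1 ∧ ‖f‖ = 1 ∧ ⟪e, f⟫ = 0 ∧ 0 ≤ h ∧ h ≤ p i + q i ∧ δ ≤ 3 * (a j * h) ∧
      (∀ x ∈ Ω, (α ≤ ⟪x, e⟫ ∧ ⟪x, e⟫ ≤ α + (a i + p i + q i)) ∧ β ≤ ⟪x, f⟫ ∧ ⟪x, f⟫ ≤ β + (a j + p j + q j)) ∧
      ∀ x ∈ Ω, β + 56 / 100 * (a j + p j + q j) ≤ ⟪x, f⟫ → ⟪x, e⟫ ≤ α + (a i + p i + q i) - h / 20 := by
    intro i j hij h
    rcases h with h | h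
    · rcases le_total (X i j) (a j / 2) with h' | h'
      · exact cUr i j hij h h'
      · exact cUl i j hij h h'
    · rcases le_total (Y i j) (a j / 2) with h' | h'
      · exact cLr i j hij h h'
      · exact cLl i j hij h h'
  by_contra hcon
  have n1 : ¬ (S ≤ 4 * (a 1 * q 0) ∨ S ≤ 4 * (a 1 * p 0)) := fun h => hcon (hd 0 1 (by decide) h)
  have n2 : ¬ (S ≤ 4 * (a 0 * q 1) ∨ S ≤ 4 * (a 0 * p 1)) := fun h => hcon (hd 1 0 (by decide) h)
  push Not at n1 n2
  nlinarith [n1.1, n1.2, n2.1, n2.2]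

end Pool.Agent.ConvexMin
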