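import Pool.Agent.Work.MP_05fb57_th.Interface4

set_option linter.unusedVariables false

namespace Pool.Agent.ConvexMin

open MeasureTheory Set Filter Topology
open scoped ENNReal RealInnerProductSpace ContDiff

theorem GEN_pt (a b V t : ℝ) (ht : 0 < t) :
    0 ≤ (1 / t ^ 2) * (a - b) ^ 2 + ((V / t + V ^ 2 / 2) * a ^ 2 + (-V / t + V ^ 2 / 2) * b ^ 2) := by
  have : (1 / t ^ 2) * (a - b) ^ 2 + ((V / t + V ^ 2 / 2) * a ^ 2 + (-V / t + V ^ 2 / 2) * b ^ 2)
      = ((a - b) / t + V * (a + b) / 2) ^ 2 + V ^ 2 * (a - b) ^ 2 / 4 := by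
    field_simp
    ring
  rw [this]
  positivity

theorem GEN_bdd {d : ℕ} {u : E d → ℝ} {f : E d → ℝ} (M : ℝ) (hu : Integrable (fun x => u x ^ 2) volume)
    (hf : Measurable f) (hM : ∀ x, |f x| ≤ M) : Integrable (fun x => f x * u x ^ 2) volume := by
  refine hu.bdd_mul (c := M) hf.aestronglyMeasurable (Eventually.of_forall fun x => ?_)
  rw [Real.norm_eq_abs]
  exact hM x

theorem GEN_step (hTRL : S_TRL) {d : ℕ} {u : E d → ℝ} {g : E d → E d} {e : E d} {V : E d → ℝ} {K : ℝ}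
    (h : IsH1 u g) (hV : Measurable V) (hVK : ∀ x, |V x| ≤ K) {t : ℝ} (ht : 0 < t) :
    ∫ x, ((V x - V (x - t • e)) / t - (V (x - t • e) ^ 2 + V x ^ 2) / 2) * u x ^ 2 ≤ ∫ x, ⟪g x, e⟫ ^ 2 := by
  have hu := h.memLp
  have hu2 : Integrable (fun x => u x ^ 2) volume := hu.integrable_sq
  have hK0 : 0 ≤ K := (abs_nonneg (V 0)).trans (hVK 0)
  have hut : MemLp (fun x => u (x + t • e)) 2 volume :=
    hu.comp_measurePreserving (measurePreserving_add_right volume (t • e))
  have hA : Integrable (fun x => (u (x + t • e) - u x) ^ 2) volume := (hut.sub hu).integrable_sq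
  have hut2 : Integrable (fun x => u (x + t • e) ^ 2) volume := hut.integrable_sq
  have hsq : ∀ x, V x ^ 2 ≤ K ^ 2 := fun x => by
    rw [← sq_abs (V x)]
    exact pow_le_pow_left₀ (abs_nonneg _) (hVK x) 2
  have hb1 : ∀ x, |V x / t + V x ^ 2 / 2| ≤ K / t + K ^ 2 / 2 := fun x => by
    have h1 : |V x / t| ≤ K / t := by
      rw [abs_div, abs_of_pos ht]
      exact div_le_div_of_nonneg_right (hVK x) ht.le
    have h2 : |V x ^ 2 / 2| ≤ K ^ 2 / 2 := by
      rw [abs_of_nonneg (by positivity)]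
      linarith [hsq x]
    exact (abs_add_le _ _).trans (add_le_add h1 h2)
  have hb2 : ∀ x, |-V x / t + V x ^ 2 / 2| ≤ K / t + K ^ 2 / 2 := fun x => by
    have h1 : |-V x / t| ≤ K / t := by
      rw [abs_div, abs_of_pos ht, abs_neg]
      exact div_le_div_of_nonneg_right (hVK x) ht.le
    have h2 : |V x ^ 2 / 2| ≤ K ^ 2 / 2 := by
      rw [abs_of_nonneg (by positivity)]
      linarith [hsq x]
    exact (abs_add_le _ _).trans (add_le_add h1 h2)
  have hm1 : Measurable fun x => V x / t + V x ^ 2 / 2 := (hV.div_const _).add ((hV.pow_const 2).div_const _)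
  have hm2 : Measurable fun x => -V x / t + V x ^ 2 / 2 := (hV.neg.div_const _).add ((hV.pow_const 2).div_const _)
  have hB : Integrable (fun x => (V x / t + V x ^ 2 / 2) * u (x + t • e) ^ 2) volume :=
    GEN_bdd (u := fun x => u (x + t • e)) _ hut2 hm1 hb1
  have hC : Integrable (fun x => (-V x / t + V x ^ 2 / 2) * u x ^ 2) volume := GEN_bdd _ hu2 hm2 hb2
  have h0 : 0 ≤ ∫ x, ((1 / t ^ 2) * (u (x + t • e) - u x) ^ 2 +
      ((V x / t + V x ^ 2 / 2) * u (x + t • e) ^ 2 + (-V x / t + V x ^ 2 / 2) * u x ^ 2)) :=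
    integral_nonneg fun x => GEN_pt _ _ _ _ ht
  have hBC : Integrable (fun x => (V x / t + V x ^ 2 / 2) * u (x + t • e) ^ 2 + (-V x / t + V x ^ 2 / 2) * u x ^ 2) volume :=
    hB.add hC
  rw [integral_add (hA.const_mul _) hBC, integral_const_mul, integral_add hB hC] at h0
  have hBt : ∫ x, (V x / t + V x ^ 2 / 2) * u (x + t • e) ^ 2 =
      ∫ x, (V (x - t • e) / t + V (x - t • e) ^ 2 / 2) * u x ^ 2 := by
    rw [← integral_sub_right_eq_self (fun x => (V x / t + V x ^ 2 / 2) * u (x + t • e) ^ 2) (t • e)]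
    simp only [sub_add_cancel]
  have hA' : ∫ x, (u (x + t • e) - u x) ^ 2 ≤ t ^ 2 * ∫ x, ⟪g x, e⟫ ^ 2 := by
    refine (hTRL d u g h (t • e)).trans (le_of_eq ?_)
    rw [← integral_const_mul]
    congr 1
    funext x
    rw [real_inner_smul_right]
    ring
  have hA'' : (1 / t ^ 2) * ∫ x, (u (x + t • e) - u x) ^ 2 ≤ ∫ x, ⟪g x, e⟫ ^ 2 := by
    rw [one_div, inv_mul_le_iff₀ (by positivity)]
    exact hA'
  have hm1' : Measurable fun x => V (x - t • e) / t + V (x - t • e) ^ 2 / 2 :=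
    hm1.comp (measurable_id.sub_const (t • e))
  have hB' : Integrable (fun x => (V (x - t • e) / t + V (x - t • e) ^ 2 / 2) * u x ^ 2) volume :=
    GEN_bdd _ hu2 hm1' (fun x => hb1 _)
  have hsum : ∫ x, ((V x - V (x - t • e)) / t - (V (x - t • e) ^ 2 + V x ^ 2) / 2) * u x ^ 2 =
      -((∫ x, (V (x - t • e) / t + V (x - t • e) ^ 2 / 2) * u x ^ 2) +
        ∫ x, (-V x / t + V x ^ 2 / 2) * u x ^ 2) := by
    rw [← integral_add hB' hC, ← integral_neg]
    congr 1
    funext x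
    ring
  rw [hsum]
  rw [hBt] at h0
  linarith

theorem p_GEN (hTRL : S_TRL) : S_GEN := by
  intro d u g e V W K h he hV hW hVK hWK hlip hlim
  have hu := h.memLp
  have hu2 : Integrable (fun x => u x ^ 2) volume := hu.integrable_sq
  have hK0 : 0 ≤ K := (abs_nonneg (V 0)).trans (hVK 0)
  have hsq : ∀ x, V x ^ 2 ≤ K ^ 2 := fun x => by
    rw [← sq_abs (V x)]
    exact pow_le_pow_left₀ (abs_nonneg _) (hVK x) 2
  have ht0 : Tendsto (fun n : ℕ => (1 : ℝ) / ((n : ℝ) + 1)) atTop (𝓝 0) := tendsto_one_div_add_atTop_nhds_zero_nat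
  have htp : ∀ n : ℕ, 0 < (1 : ℝ) / ((n : ℝ) + 1) := fun n => by positivity
  have ht1 : Tendsto (fun n : ℕ => (1 : ℝ) / ((n : ℝ) + 1)) atTop (𝓝[>] 0) :=
    tendsto_nhdsWithin_iff.2 ⟨ht0, Eventually.of_forall fun n => htp n⟩
  have key : Tendsto (fun n : ℕ => ∫ x, ((V x - V (x - ((1 : ℝ) / ((n : ℝ) + 1)) • e)) / ((1 : ℝ) / ((n : ℝ) + 1)) -
      (V (x - ((1 : ℝ) / ((n : ℝ) + 1)) • e) ^ 2 + V x ^ 2) / 2) * u x ^ 2) atTop
      (𝓝 (∫ x, (W x - V x ^ 2) * u x ^ 2)) := by
    refine tendsto_integral_of_dominated_convergence (fun x => (K + K ^ 2) * u x ^ 2) ?_ (hu2.const_mul _) ?_ ?_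
    · intro n
      have hVt : Measurable fun x => V (x - ((1 : ℝ) / ((n : ℝ) + 1)) • e) :=
        hV.comp (measurable_id.sub_const _)
      exact ((((hV.sub hVt).div_const _).sub (((hVt.pow_const 2).add (hV.pow_const 2)).div_const 2)).aestronglyMeasurable).mul
        hu2.aestronglyMeasurable
    · intro n
      refine Eventually.of_forall fun x => ?_
      rw [Real.norm_eq_abs, abs_mul, abs_of_nonneg (sq_nonneg (u x))]
      refine mul_le_mul_of_nonneg_right ?_ (sq_nonneg _)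
      have h1 : |(V x - V (x - ((1 : ℝ) / ((n : ℝ) + 1)) • e)) / ((1 : ℝ) / ((n : ℝ) + 1))| ≤ K := by
        rw [abs_div, abs_of_pos (htp n), div_le_iff₀ (htp n)]
        exact hlip x _ (htp n)
      have h2 : |(V (x - ((1 : ℝ) / ((n : ℝ) + 1)) • e) ^ 2 + V x ^ 2) / 2| ≤ K ^ 2 := by
        rw [abs_of_nonneg (by positivity)]
        linarith [hsq x, hsq (x - ((1 : ℝ) / ((n : ℝ) + 1)) • e)]
      exact (abs_sub _ _).trans (add_le_add h1 h2)
    · filter_upwards [hlim] with x hx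
      by_cases hux : u x = 0
      · simp [hux]
      · have hx1 := (hx hux).comp ht1
        have hx2 : Tendsto (fun n : ℕ => V (x - ((1 : ℝ) / ((n : ℝ) + 1)) • e)) atTop (𝓝 (V x)) := by
          rw [tendsto_iff_norm_sub_tendsto_zero]
          have h3 : Tendsto (fun n : ℕ => K * ((1 : ℝ) / ((n : ℝ) + 1))) atTop (𝓝 0) := by
            have := ht0.const_mul K
            rwa [mul_zero] at this
          refine squeeze_zero (fun n => norm_nonneg _) (fun n => ?_) h3
          rw [Real.norm_eq_abs, abs_sub_comm]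
          exact hlip x _ (htp n)
        have hx3 := (hx1.sub (((hx2.pow 2).add_const (V x ^ 2)).div_const 2)).mul_const (u x ^ 2)
        have he' : (W x - (V x ^ 2 + V x ^ 2) / 2) * u x ^ 2 = (W x - V x ^ 2) * u x ^ 2 := by ring
        rw [he'] at hx3
        exact hx3
  exact le_of_tendsto key (Eventually.of_forall fun n => GEN_step hTRL h hV hVK (htp n))

end Pool.Agent.ConvexMin
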