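import Pool.Agent.Work.MP_05fb57_th.Interface4

/-!
# I2K: the integral of the square of the trial function, exponent 2 k (helper39, after B_IN2)
-/

set_option autoImplicit false

namespace Pool.Agent.ConvexMin

open MeasureTheory Set Filter Topology
open scoped ENNReal RealInnerProductSpace ContDiff

/-- the product of sines -/
noncomputable def I2K_V {n : ℕ} (a : Fin (n + 1) → ℝ) (z : Fin n → ℝ) : ℝ :=
  ∏ i : Fin n, Real.sin (Real.pi * z i / a i.succ)

/-- the base box -/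
def I2K_S {n : ℕ} (a : Fin (n + 1) → ℝ) : Set (Fin n → ℝ) :=
  {z | ∀ i : Fin n, 0 < z i ∧ z i < a i.succ}

/-- the height -/
noncomputable def I2K_B {n : ℕ} (a : Fin (n + 1) → ℝ) (k : ℕ) (τ : ℝ) (z : Fin n → ℝ) : ℝ :=
  a 0 + τ * I2K_V a z ^ (2 * k)

/-- the competitor in product coordinates -/
def I2K_U {n : ℕ} (a : Fin (n + 1) → ℝ) (k : ℕ) (τ : ℝ) : Set (ℝ × (Fin n → ℝ)) :=
  {p | p.2 ∈ I2K_S a ∧ 0 < p.1 ∧ p.1 < I2K_B a k τ p.2}

/-- the square of the trial function in product coordinates -/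
noncomputable def I2K_G {n : ℕ} (a : Fin (n + 1) → ℝ) (k : ℕ) (τ : ℝ) : ℝ × (Fin n → ℝ) → ℝ :=
  (I2K_U a k τ).indicator fun p => (I2K_V a p.2 * Real.sin (Real.pi * p.1 / I2K_B a k τ p.2)) ^ 2

theorem I2K_measV {n : ℕ} (a : Fin (n + 1) → ℝ) : Measurable (I2K_V a) := by
  unfold I2K_V
  fun_prop

theorem I2K_measB {n : ℕ} (a : Fin (n + 1) → ℝ) (k : ℕ) (τ : ℝ) : Measurable (I2K_B a k τ) := by
  have := I2K_measV a
  unfold I2K_B
  fun_prop

theorem I2K_measS {n : ℕ} (a : Fin (n + 1) → ℝ) : MeasurableSet (I2K_S a) := by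
  have : I2K_S a = ⋂ i : Fin n, {z : Fin n → ℝ | 0 < z i} ∩ {z : Fin n → ℝ | z i < a i.succ} := by
    ext z
    simp [I2K_S]
  rw [this]
  refine MeasurableSet.iInter fun i => ?_
  exact (measurableSet_lt measurable_const (measurable_pi_apply i)).inter
    (measurableSet_lt (measurable_pi_apply i) measurable_const)

theorem I2K_measU {n : ℕ} (a : Fin (n + 1) → ℝ) (k : ℕ) (τ : ℝ) : MeasurableSet (I2K_U a k τ) := by
  have h1 : MeasurableSet {p : ℝ × (Fin n → ℝ) | p.2 ∈ I2K_S a} := measurable_snd (I2K_measS a)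
  have h2 : MeasurableSet {p : ℝ × (Fin n → ℝ) | 0 < p.1} :=
    measurableSet_lt measurable_const measurable_fst
  have h3 : MeasurableSet {p : ℝ × (Fin n → ℝ) | p.1 < I2K_B a k τ p.2} :=
    measurableSet_lt measurable_fst ((I2K_measB a k τ).comp measurable_snd)
  exact h1.inter (h2.inter h3)

theorem I2K_V_bound {n : ℕ} (a : Fin (n + 1) → ℝ) (z : Fin n → ℝ) : |I2K_V a z| ≤ 1 := by
  unfold I2K_V
  rw [Finset.abs_prod]
  exact Finset.prod_le_one (fun i _ => abs_nonneg _) (fun i _ => Real.abs_sin_le_one _)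

theorem I2K_V6 {n : ℕ} (a : Fin (n + 1) → ℝ) (k : ℕ) (z : Fin n → ℝ) :
    0 ≤ I2K_V a z ^ (2 * k) ∧ I2K_V a z ^ (2 * k) ≤ 1 := by
  rw [pow_mul]
  exact ⟨pow_nonneg (sq_nonneg _) _,
    pow_le_one₀ (sq_nonneg _) ((sq_le_one_iff_abs_le_one _).2 (I2K_V_bound a z))⟩

theorem I2K_int {n : ℕ} (a : Fin (n + 1) → ℝ) (k : ℕ) (τ : ℝ) (hτ : 0 ≤ τ) :
    Integrable (I2K_G a k τ) (volume : Measure (ℝ × (Fin n → ℝ))) := by
  unfold I2K_G
  rw [integrable_indicator_iff (I2K_measU a k τ)]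
  have hsub : I2K_U a k τ ⊆ (Ioo 0 (a 0 + τ)) ×ˢ (Set.pi Set.univ fun i : Fin n =>
      Ioo 0 (a i.succ)) := by
    rintro ⟨y, z⟩ ⟨h1, h2, h3⟩
    refine ⟨⟨h2, lt_of_lt_of_le h3 ?_⟩, fun i _ => h1 i⟩
    have := (I2K_V6 a k z).2
    show a 0 + τ * I2K_V a z ^ (2 * k) ≤ a 0 + τ
    nlinarith
  have hfin : volume (I2K_U a k τ) ≠ ⊤ := by
    refine ne_top_of_le_ne_top ?_ (measure_mono hsub)
    rw [Measure.volume_eq_prod, Measure.prod_prod, Real.volume_Ioo]
    refine ENNReal.mul_ne_top ENNReal.ofReal_ne_top ?_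
    rw [volume_pi_pi]
    refine ENNReal.prod_ne_top fun i _ => ?_
    rw [Real.volume_Ioo]
    exact ENNReal.ofReal_ne_top
  have hB : Measurable (fun p : ℝ × (Fin n → ℝ) => I2K_B a k τ p.2) :=
    (I2K_measB a k τ).comp measurable_snd
  have hV : Measurable (fun p : ℝ × (Fin n → ℝ) => I2K_V a p.2) :=
    (I2K_measV a).comp measurable_snd
  refine Measure.integrableOn_of_bounded (M := 1) hfin ?_ (Eventually.of_forall fun p => ?_)
  · apply Measurable.aestronglyMeasurable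
    exact (hV.mul (Real.measurable_sin.comp ((measurable_const.mul measurable_fst).div hB))).pow_const 2
  · have h1 := I2K_V_bound a p.2
    have h2 := Real.abs_sin_le_one (Real.pi * p.1 / I2K_B a k τ p.2)
    rw [Real.norm_eq_abs, abs_pow, abs_mul]
    exact pow_le_one₀ (by positivity) (mul_le_one₀ h1 (abs_nonneg _) h2)

theorem I2K_inner (hS2 : ∀ B : ℝ, 0 < B → (∫ t in (0)..B, Real.sin (Real.pi * t / B) ^ 2) = 1 / 2 * B)
    {n : ℕ} (a : Fin (n + 1) → ℝ) (k : ℕ) (τ : ℝ) (ha : ∀ j, 0 < a j)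
    (hτ : 0 ≤ τ) (z : Fin n → ℝ) : ∫ y, I2K_G a k τ (y, z) =
      (I2K_S a).indicator (fun z => a 0 / 2 * I2K_V a z ^ 2 + τ / 2 * I2K_V a z ^ (2 * (k + 1))) z := by
  by_cases hz : z ∈ I2K_S a
  · rw [indicator_of_mem hz]
    have hB : 0 < I2K_B a k τ z := by
      have := (I2K_V6 a k z).1
      have h0 := ha 0
      show 0 < a 0 + τ * I2K_V a z ^ (2 * k)
      have h2 := mul_nonneg hτ this
      linarith
    have h1 : (fun y => I2K_G a k τ (y, z)) = (Ioo 0 (I2K_B a k τ z)).indicator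
        (fun y => I2K_V a z ^ 2 * Real.sin (Real.pi * y / I2K_B a k τ z) ^ 2) := by
      funext y
      unfold I2K_G
      by_cases hy : y ∈ Ioo 0 (I2K_B a k τ z)
      · rw [indicator_of_mem hy, indicator_of_mem (show (y, z) ∈ I2K_U a k τ from ⟨hz, hy.1, hy.2⟩)]
        ring
      · rw [indicator_of_notMem hy, indicator_of_notMem]
        rintro ⟨_, h2, h3⟩
        exact hy ⟨h2, h3⟩
    rw [h1, integral_indicator measurableSet_Ioo, integral_const_mul,
      ← integral_Ioc_eq_integral_Ioo, ← intervalIntegral.integral_of_le hB.le, hS2 _ hB]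
    unfold I2K_B
    ring
  · rw [indicator_of_notMem hz]
    have h1 : (fun y => I2K_G a k τ (y, z)) = fun _ => 0 := by
      funext y
      unfold I2K_G
      rw [indicator_of_notMem]
      rintro ⟨h2, _⟩
      exact hz h2
    rw [h1, integral_zero]

/-- one factor -/
noncomputable def I2K_g (a : ℝ) (m : ℕ) : ℝ → ℝ :=
  (Ioo 0 a).indicator fun t => Real.sin (Real.pi * t / a) ^ m

theorem I2K_g_int (a : ℝ) (m : ℕ) : Integrable (I2K_g a m) := by
  unfold I2K_g
  rw [integrable_indicator_iff measurableSet_Ioo]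
  have hc : Continuous fun t : ℝ => Real.sin (Real.pi * t / a) ^ m := by fun_prop
  exact (hc.integrableOn_Icc (a := 0) (b := a)).mono_set Ioo_subset_Icc_self

theorem I2K_prod {n : ℕ} (a : Fin (n + 1) → ℝ) (m : ℕ) (hk : m ≠ 0) (z : Fin n → ℝ) :
    (I2K_S a).indicator (fun z => I2K_V a z ^ m) z = ∏ i : Fin n, I2K_g (a i.succ) m (z i) := by
  by_cases hz : z ∈ I2K_S a
  · rw [indicator_of_mem hz]
    unfold I2K_V
    rw [← Finset.prod_pow]
    refine Finset.prod_congr rfl fun i _ => ?_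
    unfold I2K_g
    rw [indicator_of_mem (show z i ∈ Ioo 0 (a i.succ) from hz i)]
  · rw [indicator_of_notMem hz]
    have : ∃ i : Fin n, ¬ (0 < z i ∧ z i < a i.succ) := by
      by_contra hcon
      exact hz (fun i => by
        by_contra h
        exact hcon ⟨i, h⟩)
    obtain ⟨i, hi⟩ := this
    symm
    apply Finset.prod_eq_zero (Finset.mem_univ i)
    unfold I2K_g
    exact indicator_of_notMem (show z i ∉ Ioo 0 (a i.succ) from hi) _

theorem I2K_outer {n : ℕ} (a : Fin (n + 1) → ℝ) (m : ℕ) (hk : m ≠ 0) (c : ℝ)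
    (h : ∀ i : Fin n, ∫ t in (0)..(a i.succ), Real.sin (Real.pi * t / a i.succ) ^ m =
      c * a i.succ) (ha : ∀ j, 0 < a j) :
    Integrable ((I2K_S a).indicator (fun z => I2K_V a z ^ m)) ∧
    ∫ z, (I2K_S a).indicator (fun z => I2K_V a z ^ m) z = Wc a c := by
  have h1 : (I2K_S a).indicator (fun z => I2K_V a z ^ m) =
      fun z => ∏ i : Fin n, I2K_g (a i.succ) m (z i) := by
    funext z
    exact I2K_prod a m hk z
  rw [h1]
  constructor
  · exact Integrable.fintype_prod (fun i => I2K_g_int (a i.succ) m)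
  · rw [integral_fintype_prod_volume_eq_prod (fun i : Fin n => I2K_g (a i.succ) m)]
    unfold Wc
    refine Finset.prod_congr rfl fun i _ => ?_
    unfold I2K_g
    rw [integral_indicator measurableSet_Ioo, ← integral_Ioc_eq_integral_Ioo,
      ← intervalIntegral.integral_of_le (ha i.succ).le, h i]

theorem p_I2K (hSNK : S_SNK) : S_I2K := by
  intro n a k τ ha hτ
  have hS2 : ∀ B : ℝ, 0 < B → (∫ t in (0)..B, Real.sin (Real.pi * t / B) ^ 2) = 1 / 2 * B := by
    intro B hB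
    have h := (hSNK.2.2.2 B 1 hB).1
    rw [hSNK.2.2.1, Nat.mul_one] at h
    exact h
  -- change of coordinates
  have hmp1 := EuclideanSpace.volume_preserving_symm_measurableEquiv_toLp (Fin (n + 1))
  have hmp2 := volume_preserving_piFinSuccAbove (fun _ : Fin (n + 1) => ℝ) 0
  have e1 : ∫ x : E (n + 1), tfk a k τ x ^ 2 = ∫ p : ℝ × (Fin n → ℝ), I2K_G a k τ p := by
    rw [← hmp2.integral_comp', ← hmp1.integral_comp']
    refine integral_congr_ae (Eventually.of_forall fun x => ?_)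
    show tfk a k τ x ^ 2 = I2K_G a k τ (x 0, fun j => x j.succ)
    unfold tfk I2K_G
    by_cases hx : x ∈ compk a k τ
    · rw [indicator_of_mem hx, indicator_of_mem (show ((x 0, fun j => x j.succ) : ℝ × (Fin n → ℝ)) ∈
        I2K_U a k τ from ⟨hx.1, hx.2.1, hx.2.2⟩)]
      rfl
    · rw [indicator_of_notMem hx, indicator_of_notMem]
      · simp
      · rintro ⟨h2, h3, h4⟩
        exact hx ⟨h2, h3, h4⟩
  rw [e1, Measure.volume_eq_prod, integral_prod_symm _ (by
    have := I2K_int a k τ hτ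
    rwa [Measure.volume_eq_prod] at this)]
  simp_rw [I2K_inner hS2 a k τ ha hτ]
  obtain ⟨i2, j2⟩ := I2K_outer a 2 (by norm_num) (1 / 2) (fun i => hS2 _ (ha i.succ)) ha
  obtain ⟨i8, j8⟩ := I2K_outer a (2 * (k + 1)) (by omega) (JJ (k + 1))
    (fun i => (hSNK.2.2.2 _ (k + 1) (ha i.succ)).1) ha
  have e2 : (fun z => (I2K_S a).indicator (fun z => a 0 / 2 * I2K_V a z ^ 2 +
      τ / 2 * I2K_V a z ^ (2 * (k + 1))) z) = fun z => a 0 / 2 * (I2K_S a).indicator (fun z => I2K_V a z ^ 2) z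
      + τ / 2 * (I2K_S a).indicator (fun z => I2K_V a z ^ (2 * (k + 1))) z := by
    funext z
    by_cases hz : z ∈ I2K_S a
    · simp only [indicator_of_mem hz]
    · simp only [indicator_of_notMem hz, mul_zero, add_zero]
  rw [e2, integral_add (i2.const_mul _) (i8.const_mul _), integral_const_mul, integral_const_mul,
    j2, j8]
  rfl

end Pool.Agent.ConvexMin
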