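import Pool.Agent.Work.MP_05fb57_th.Interface4

namespace Pool.Agent.ConvexMin

open MeasureTheory Set Filter Topology
open scoped ENNReal RealInnerProductSpace ContDiff

/-- integration over `ℝ^(n+1)`, coordinate `0` first -/
theorem IGK_split {n : ℕ} (K : ℝ × (Fin n → ℝ) → ℝ) :
    ∫ x : E (n + 1), K (x 0, fun j => x j.succ) = ∫ p : ℝ × (Fin n → ℝ), K p := by
  have h1 := (EuclideanSpace.volume_preserving_symm_measurableEquiv_toLp (Fin (n + 1))).integral_comp'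
    (fun f : Fin (n + 1) → ℝ => K (f 0, fun j => f j.succ))
  have h2 := (volume_preserving_piFinSuccAbove (fun _ : Fin (n + 1) => ℝ) 0).integral_comp' K
  have h3 : (fun f : Fin (n + 1) → ℝ => K (MeasurableEquiv.piFinSuccAbove (fun _ => ℝ) 0 f)) =
      fun f : Fin (n + 1) → ℝ => K (f 0, fun j => f j.succ) := by
    funext f
    congr 1
  rw [h3] at h2
  rw [← h2, ← h1]
  rfl

/-- the tail box -/
def IGK_bx {n : ℕ} (c : Fin n → ℝ) : Set (Fin n → ℝ) := {z | ∀ i, 0 < z i ∧ z i < c i}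

theorem IGK_bx_meas {n : ℕ} (c : Fin n → ℝ) : MeasurableSet (IGK_bx c) := by
  have : IGK_bx c = ⋂ i, ({z | 0 < z i} ∩ {z | z i < c i}) := by
    ext z; simp [IGK_bx]
  rw [this]
  exact MeasurableSet.iInter fun i =>
    (measurableSet_lt measurable_const (measurable_pi_apply i)).inter
      (measurableSet_lt (measurable_pi_apply i) measurable_const)

theorem IGK_bx_sub {n : ℕ} (c : Fin n → ℝ) : IGK_bx c ⊆ Set.Icc (0 : Fin n → ℝ) c := by
  intro z hz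
  exact ⟨fun i => (hz i).1.le, fun i => (hz i).2.le⟩

theorem IGK_int {n : ℕ} (c : Fin n → ℝ) (f : (Fin n → ℝ) → ℝ) (hf : Continuous f) :
    IntegrableOn f (IGK_bx c) :=
  (hf.continuousOn.integrableOn_compact isCompact_Icc).mono_set (IGK_bx_sub c)

/-- product integrals over the box -/
theorem IGK_prod {n : ℕ} (c : Fin n → ℝ) (hc : ∀ i, 0 < c i) (f : Fin n → ℝ → ℝ) :
    ∫ z in IGK_bx c, ∏ i, f i (z i) = ∏ i, ∫ t in (0 : ℝ)..(c i), f i t := by
  rw [← integral_indicator (IGK_bx_meas c)]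
  have h : (IGK_bx c).indicator (fun z => ∏ i, f i (z i)) =
      fun z => ∏ i, (Set.Ioo 0 (c i)).indicator (f i) (z i) := by
    funext z
    by_cases hz : z ∈ IGK_bx c
    · rw [Set.indicator_of_mem hz]
      apply Finset.prod_congr rfl
      intro i _
      rw [Set.indicator_of_mem (show z i ∈ Set.Ioo 0 (c i) from hz i)]
    · rw [Set.indicator_of_notMem hz]
      have : ∃ i, z i ∉ Set.Ioo 0 (c i) := by
        by_contra hno
        push Not at hno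
        exact hz fun i => hno i
      obtain ⟨i, hi⟩ := this
      symm
      exact Finset.prod_eq_zero (Finset.mem_univ i) (Set.indicator_of_notMem hi _)
  rw [h, integral_fintype_prod_volume_eq_prod (fun i => (Set.Ioo 0 (c i)).indicator (f i))]
  apply Finset.prod_congr rfl
  intro i _
  rw [integral_indicator measurableSet_Ioo, ← integral_Ioc_eq_integral_Ioo,
    ← intervalIntegral.integral_of_le (hc i).le]

noncomputable def IGK_V {n : ℕ} (c : Fin n → ℝ) (z : Fin n → ℝ) : ℝ :=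
  ∏ i : Fin n, Real.sin (Real.pi * z i / c i)

noncomputable def IGK_D {n : ℕ} (c : Fin n → ℝ) (i : Fin n) (z : Fin n → ℝ) : ℝ :=
  Real.pi / c i * Real.cos (Real.pi * z i / c i) *
    ∏ l ∈ Finset.univ.erase i, Real.sin (Real.pi * z l / c l)

noncomputable def IGK_W {n : ℕ} (c : Fin n → ℝ) (r : ℝ) : ℝ := ∏ i : Fin n, (r * c i)

theorem IGK_V_cont {n : ℕ} (c : Fin n → ℝ) : Continuous (IGK_V c) := by
  unfold IGK_V
  fun_prop

theorem IGK_D_cont {n : ℕ} (c : Fin n → ℝ) (i : Fin n) : Continuous (IGK_D c i) := by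
  unfold IGK_D
  fun_prop

/-- the integrals of one variable -/
theorem IGK_s (hSNK : S_SNK) (a : ℝ) (ha : 0 < a) :
    (∫ t in (0)..a, Real.sin (Real.pi * t / a) ^ 2) = 1 / 2 * a ∧
    (∫ t in (0)..a, Real.cos (Real.pi * t / a) ^ 2) = 1 / 2 * a ∧
    ∀ k : ℕ, (∫ t in (0)..a, Real.sin (Real.pi * t / a) ^ (2 * k + 2)) = JJ (k + 1) * a ∧
      (∫ t in (0)..a, Real.cos (Real.pi * t / a) ^ 2 * Real.sin (Real.pi * t / a) ^ (2 * k)) =
        JJ (k + 1) / (2 * k + 1) * a := by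
  obtain ⟨-, h0, h1, h⟩ := hSNK
  refine ⟨?_, ?_, fun k => ⟨?_, (h a k ha).2⟩⟩
  · have := (h a 1 ha).1
    rw [h1] at this
    simpa using this
  · have := (h a 0 ha).2
    rw [zero_add, h1] at this
    simpa using this
  · have := (h a (k + 1) ha).1
    rw [mul_add, mul_one] at this
    exact this

theorem IGK_V2 (hSNK : S_SNK) {n : ℕ} (c : Fin n → ℝ) (hc : ∀ i, 0 < c i) :
    ∫ z in IGK_bx c, IGK_V c z ^ 2 = IGK_W c (1 / 2) := by
  have h : ∀ z, IGK_V c z ^ 2 = ∏ i, Real.sin (Real.pi * z i / c i) ^ 2 := by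
    intro z; unfold IGK_V; rw [Finset.prod_pow]
  simp_rw [h]
  rw [IGK_prod c hc (fun i t => Real.sin (Real.pi * t / c i) ^ 2)]
  unfold IGK_W
  apply Finset.prod_congr rfl
  intro i _
  rw [(IGK_s hSNK (c i) (hc i)).1]

theorem IGK_V8 (hSNK : S_SNK) {n : ℕ} (k : ℕ) (c : Fin n → ℝ) (hc : ∀ i, 0 < c i) :
    ∫ z in IGK_bx c, IGK_V c z ^ (2 * k + 2) = IGK_W c (JJ (k + 1)) := by
  have h : ∀ z, IGK_V c z ^ (2 * k + 2) = ∏ i, Real.sin (Real.pi * z i / c i) ^ (2 * k + 2) := by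
    intro z; unfold IGK_V; rw [Finset.prod_pow]
  simp_rw [h]
  rw [IGK_prod c hc (fun i t => Real.sin (Real.pi * t / c i) ^ (2 * k + 2))]
  unfold IGK_W
  apply Finset.prod_congr rfl
  intro i _
  rw [((IGK_s hSNK (c i) (hc i)).2.2 k).1]

theorem IGK_D2 (hSNK : S_SNK) {n : ℕ} (c : Fin n → ℝ) (hc : ∀ i, 0 < c i) (i : Fin n) :
    ∫ z in IGK_bx c, IGK_D c i z ^ 2 = (Real.pi / c i) ^ 2 * IGK_W c (1 / 2) := by
  have h : ∀ z, IGK_D c i z ^ 2 = (Real.pi / c i) ^ 2 *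
      ∏ l, (if l = i then Real.cos (Real.pi * z l / c l) ^ 2
        else Real.sin (Real.pi * z l / c l) ^ 2) := by
    intro z
    rw [← Finset.mul_prod_erase Finset.univ _ (Finset.mem_univ i), if_pos rfl]
    have : ∏ l ∈ Finset.univ.erase i, (if l = i then Real.cos (Real.pi * z l / c l) ^ 2
        else Real.sin (Real.pi * z l / c l) ^ 2) =
        (∏ l ∈ Finset.univ.erase i, Real.sin (Real.pi * z l / c l)) ^ 2 := by
      rw [← Finset.prod_pow]
      apply Finset.prod_congr rfl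
      intro l hl
      rw [if_neg (Finset.ne_of_mem_erase hl)]
    rw [this]
    unfold IGK_D
    ring
  simp_rw [h]
  rw [integral_const_mul, IGK_prod c hc (fun l t => if l = i then Real.cos (Real.pi * t / c l) ^ 2
        else Real.sin (Real.pi * t / c l) ^ 2)]
  congr 1
  unfold IGK_W
  apply Finset.prod_congr rfl
  intro l _
  by_cases hl : l = i
  · simp only [if_pos hl]
    rw [(IGK_s hSNK (c l) (hc l)).2.1]
  · simp only [if_neg hl]
    rw [(IGK_s hSNK (c l) (hc l)).1]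

theorem IGK_D2V6 (hSNK : S_SNK) {n : ℕ} (k : ℕ) (c : Fin n → ℝ) (hc : ∀ i, 0 < c i) (i : Fin n) :
    ∫ z in IGK_bx c, IGK_D c i z ^ 2 * IGK_V c z ^ (2 * k) =
      (Real.pi / c i) ^ 2 * (IGK_W c (JJ (k + 1)) / (2 * k + 1)) := by
  have h : ∀ z, IGK_D c i z ^ 2 * IGK_V c z ^ (2 * k) = (Real.pi / c i) ^ 2 *
      ∏ l, (if l = i then Real.cos (Real.pi * z l / c l) ^ 2 * Real.sin (Real.pi * z l / c l) ^ (2 * k)
        else Real.sin (Real.pi * z l / c l) ^ (2 * k + 2)) := by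
    intro z
    rw [← Finset.mul_prod_erase Finset.univ _ (Finset.mem_univ i), if_pos rfl]
    have : ∏ l ∈ Finset.univ.erase i, (if l = i then
        Real.cos (Real.pi * z l / c l) ^ 2 * Real.sin (Real.pi * z l / c l) ^ (2 * k)
        else Real.sin (Real.pi * z l / c l) ^ (2 * k + 2)) =
        (∏ l ∈ Finset.univ.erase i, Real.sin (Real.pi * z l / c l)) ^ (2 * k + 2) := by
      rw [← Finset.prod_pow]
      apply Finset.prod_congr rfl
      intro l hl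
      rw [if_neg (Finset.ne_of_mem_erase hl)]
    rw [this]
    unfold IGK_D IGK_V
    rw [← Finset.mul_prod_erase Finset.univ (fun i => Real.sin (Real.pi * z i / c i))
      (Finset.mem_univ i)]
    ring
  simp_rw [h]
  rw [integral_const_mul, IGK_prod c hc (fun l t => if l = i then
        Real.cos (Real.pi * t / c l) ^ 2 * Real.sin (Real.pi * t / c l) ^ (2 * k)
        else Real.sin (Real.pi * t / c l) ^ (2 * k + 2))]
  congr 1
  unfold IGK_W
  rw [← Finset.mul_prod_erase Finset.univ (fun l => (JJ (k + 1) : ℝ) * c l) (Finset.mem_univ i),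
    ← Finset.mul_prod_erase Finset.univ _ (Finset.mem_univ i)]
  have e1 : (∫ t in (0 : ℝ)..(c i), if i = i then
        Real.cos (Real.pi * t / c i) ^ 2 * Real.sin (Real.pi * t / c i) ^ (2 * k)
        else Real.sin (Real.pi * t / c i) ^ (2 * k + 2)) = JJ (k + 1) / (2 * k + 1) * c i := by
    simp only [if_true]
    rw [((IGK_s hSNK (c i) (hc i)).2.2 k).2]
  have e2 : ∏ l ∈ Finset.univ.erase i, (∫ t in (0 : ℝ)..(c l), if l = i then
        Real.cos (Real.pi * t / c l) ^ 2 * Real.sin (Real.pi * t / c l) ^ (2 * k)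
        else Real.sin (Real.pi * t / c l) ^ (2 * k + 2)) =
      ∏ l ∈ Finset.univ.erase i, (JJ (k + 1) : ℝ) * c l := by
    apply Finset.prod_congr rfl
    intro l hl
    simp only [if_neg (Finset.ne_of_mem_erase hl)]
    rw [((IGK_s hSNK (c l) (hc l)).2.2 k).1]
  rw [e1, e2]
  ring

/-- `0 ≤ V ≤ 1` on the box -/
theorem IGK_V01 {n : ℕ} (c : Fin n → ℝ) (z : Fin n → ℝ) : |IGK_V c z| ≤ 1 := by
  unfold IGK_V
  rw [Finset.abs_prod]
  apply Finset.prod_le_one (fun i _ => abs_nonneg _)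
  intro i _
  exact Real.abs_sin_le_one _

/-- the inner integrand -/
noncomputable def IGK_K {n : ℕ} (k : ℕ) (b τ : ℝ) (c : Fin n → ℝ) (p : ℝ × (Fin n → ℝ)) : ℝ :=
  (IGK_V c p.2 * (Real.pi / (b + τ * IGK_V c p.2 ^ (2 * k))) *
      Real.cos (Real.pi * p.1 / (b + τ * IGK_V c p.2 ^ (2 * k)))) ^ 2 +
    ∑ i : Fin n, (IGK_D c i p.2 * (Real.sin (Real.pi * p.1 / (b + τ * IGK_V c p.2 ^ (2 * k))) -
      2 * k * (τ * IGK_V c p.2 ^ (2 * k)) * (Real.pi * p.1 / (b + τ * IGK_V c p.2 ^ (2 * k)) ^ 2) *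
        Real.cos (Real.pi * p.1 / (b + τ * IGK_V c p.2 ^ (2 * k))))) ^ 2

theorem IGK_B {n : ℕ} (k : ℕ) (b τ : ℝ) (_hb : 0 < b) (hτ : 0 ≤ τ) (c : Fin n → ℝ) (z : Fin n → ℝ) :
    b ≤ b + τ * IGK_V c z ^ (2 * k) ∧ b + τ * IGK_V c z ^ (2 * k) ≤ b + τ := by
  have h0 : 0 ≤ IGK_V c z ^ (2 * k) := (even_two_mul k).pow_nonneg _
  have h1 : IGK_V c z ^ (2 * k) ≤ 1 := by
    have h := pow_le_pow_left₀ (abs_nonneg _) (IGK_V01 c z) (2 * k)
    rw [one_pow, ← abs_pow, abs_of_nonneg h0] at h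
    exact h
  constructor <;> nlinarith

theorem IGK_K_cont {n : ℕ} (k : ℕ) (b τ : ℝ) (hb : 0 < b) (hτ : 0 ≤ τ) (c : Fin n → ℝ) :
    Continuous (IGK_K k b τ c) := by
  have hV : Continuous fun p : ℝ × (Fin n → ℝ) => IGK_V c p.2 := (IGK_V_cont c).comp continuous_snd
  have hD : ∀ i, Continuous fun p : ℝ × (Fin n → ℝ) => IGK_D c i p.2 := fun i =>
    (IGK_D_cont c i).comp continuous_snd
  have hB : Continuous fun p : ℝ × (Fin n → ℝ) => b + τ * IGK_V c p.2 ^ (2 * k) := by fun_prop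
  have hne : ∀ p : ℝ × (Fin n → ℝ), b + τ * IGK_V c p.2 ^ (2 * k) ≠ 0 := fun p =>
    (lt_of_lt_of_le hb (IGK_B k b τ hb hτ c p.2).1).ne'
  have hne2 : ∀ p : ℝ × (Fin n → ℝ), (b + τ * IGK_V c p.2 ^ (2 * k)) ^ 2 ≠ 0 := fun p =>
    pow_ne_zero 2 (hne p)
  have hy : Continuous fun p : ℝ × (Fin n → ℝ) => Real.pi * p.1 := by fun_prop
  have q1 : Continuous fun p : ℝ × (Fin n → ℝ) => Real.pi / (b + τ * IGK_V c p.2 ^ (2 * k)) :=
    continuous_const.div hB hne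
  have q2 : Continuous fun p : ℝ × (Fin n → ℝ) => Real.pi * p.1 / (b + τ * IGK_V c p.2 ^ (2 * k)) :=
    hy.div hB hne
  have q3 : Continuous fun p : ℝ × (Fin n → ℝ) => Real.pi * p.1 / (b + τ * IGK_V c p.2 ^ (2 * k)) ^ 2 :=
    hy.div (hB.pow 2) hne2
  have q4 := Real.continuous_cos.comp q2
  have q5 := Real.continuous_sin.comp q2
  unfold IGK_K
  refine Continuous.add ?_ ?_
  · exact ((hV.mul q1).mul q4).pow 2
  · refine continuous_finsetSum _ fun i _ => ?_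
    exact ((hD i).mul (q5.sub ((((continuous_const.mul (continuous_const.mul (hV.pow (2 * k))))).mul q3).mul q4))).pow 2

/-- the integral over the height -/
theorem IGK_inner (hSNK : S_SNK) (hYIK : S_YIK) {n : ℕ} (k : ℕ) (b τ : ℝ) (hb : 0 < b) (hτ : 0 ≤ τ)
    (c : Fin n → ℝ) (z : Fin n → ℝ) :
    ∫ y in (0 : ℝ)..(b + τ * IGK_V c z ^ (2 * k)), IGK_K k b τ c (y, z) =
      IGK_V c z ^ 2 * (Real.pi ^ 2 / (2 * (b + τ * IGK_V c z ^ (2 * k)))) +
      ∑ i : Fin n, IGK_D c i z ^ 2 * ((b + τ * IGK_V c z ^ (2 * k)) / 2 + k * (τ * IGK_V c z ^ (2 * k)) +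
        4 * k ^ 2 * (τ * IGK_V c z ^ (2 * k)) ^ 2 / (b + τ * IGK_V c z ^ (2 * k)) * (Real.pi ^ 2 / 6 + 1 / 4)) := by
  set B := b + τ * IGK_V c z ^ (2 * k) with hBdef
  have hB0 : 0 < B := lt_of_lt_of_le hb (IGK_B k b τ hb hτ c z).1
  have e : ∀ y, IGK_K k b τ c (y, z) = (IGK_V c z * (Real.pi / B)) ^ 2 * Real.cos (Real.pi * y / B) ^ 2 +
      ∑ i : Fin n, IGK_D c i z ^ 2 * (Real.sin (Real.pi * y / B) -
      2 * k * (τ * IGK_V c z ^ (2 * k)) * (Real.pi * y / B ^ 2) * Real.cos (Real.pi * y / B)) ^ 2 := by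
    intro y
    unfold IGK_K
    simp only [mul_pow, ← hBdef]
  simp_rw [e]
  have c1 : Continuous fun y : ℝ => (IGK_V c z * (Real.pi / B)) ^ 2 * Real.cos (Real.pi * y / B) ^ 2 := by
    fun_prop
  have c2 : ∀ i : Fin n, Continuous fun y : ℝ => IGK_D c i z ^ 2 * (Real.sin (Real.pi * y / B) -
      2 * k * (τ * IGK_V c z ^ (2 * k)) * (Real.pi * y / B ^ 2) * Real.cos (Real.pi * y / B)) ^ 2 := by
    intro i
    fun_prop
  rw [intervalIntegral.integral_add (c1.intervalIntegrable _ _)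
    ((continuous_finsetSum _ fun i _ => c2 i).intervalIntegrable _ _),
    intervalIntegral.integral_finsetSum fun i _ => (c2 i).intervalIntegrable _ _,
    intervalIntegral.integral_const_mul, (IGK_s hSNK B hB0).2.1]
  congr 1
  · field_simp
  · apply Finset.sum_congr rfl
    intro i _
    rw [intervalIntegral.integral_const_mul, hYIK k B (τ * IGK_V c z ^ (2 * k)) hB0]

/-- the pointwise upper bound of the inner integral -/
theorem IGK_pt {n : ℕ} (k : ℕ) (b τ : ℝ) (hb : 0 < b) (hτ : 0 ≤ τ) (c : Fin n → ℝ) (z : Fin n → ℝ) :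
    IGK_V c z ^ 2 * (Real.pi ^ 2 / (2 * (b + τ * IGK_V c z ^ (2 * k)))) +
      ∑ i : Fin n, IGK_D c i z ^ 2 * ((b + τ * IGK_V c z ^ (2 * k)) / 2 + k * (τ * IGK_V c z ^ (2 * k)) +
        4 * k ^ 2 * (τ * IGK_V c z ^ (2 * k)) ^ 2 / (b + τ * IGK_V c z ^ (2 * k)) * (Real.pi ^ 2 / 6 + 1 / 4)) ≤
    (Real.pi ^ 2 / 2 * (1 / b + τ ^ 2 / b ^ 3)) * IGK_V c z ^ 2
      - (Real.pi ^ 2 / 2 * τ / b ^ 2) * IGK_V c z ^ (2 * k + 2) +
      ∑ i : Fin n, ((b / 2 + 8 * k ^ 2 * τ ^ 2 / b) * IGK_D c i z ^ 2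
        + ((1 / 2 + k) * τ) * (IGK_D c i z ^ 2 * IGK_V c z ^ (2 * k))) := by
  have hV0 : 0 ≤ IGK_V c z ^ (2 * k) := (even_two_mul k).pow_nonneg _
  have hV1 : IGK_V c z ^ (2 * k) ≤ 1 := by
    have h := pow_le_pow_left₀ (abs_nonneg _) (IGK_V01 c z) (2 * k)
    rw [one_pow, ← abs_pow, abs_of_nonneg hV0] at h
    exact h
  set u := IGK_V c z ^ (2 * k) with hu
  have hB := IGK_B k b τ hb hτ c z
  rw [← hu] at hB
  have hB0 : 0 < b + τ * u := lt_of_lt_of_le hb hB.1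
  have hτu : 0 ≤ τ * u := by positivity
  have hτu2 : (τ * u) ^ 2 ≤ τ ^ 2 := by
    have : τ * u ≤ τ := by nlinarith
    exact pow_le_pow_left₀ hτu this 2
  have hpi : Real.pi ^ 2 / 6 + 1 / 4 ≤ 2 := by
    have h1 := Real.pi_lt_d2
    have h0 := Real.pi_pos
    nlinarith
  have hpi0 : 0 ≤ Real.pi ^ 2 / 6 + 1 / 4 := by positivity
  -- 1 / B
  have h1B : 1 / (b + τ * u) ≤ 1 / b - τ * u / b ^ 2 + (τ * u) ^ 2 / b ^ 3 := by
    have hdiff : 1 / b - τ * u / b ^ 2 + (τ * u) ^ 2 / b ^ 3 - 1 / (b + τ * u) =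
        (τ * u) ^ 3 / (b ^ 3 * (b + τ * u)) := by
      field_simp
      ring
    have : 0 ≤ (τ * u) ^ 3 / (b ^ 3 * (b + τ * u)) := by positivity
    linarith
  have hb3 : (τ * u) ^ 2 / b ^ 3 ≤ τ ^ 2 / b ^ 3 := div_le_div_of_nonneg_right hτu2 (by positivity)
  have t1 : IGK_V c z ^ 2 * (Real.pi ^ 2 / (2 * (b + τ * u))) ≤
      (Real.pi ^ 2 / 2 * (1 / b + τ ^ 2 / b ^ 3)) * IGK_V c z ^ 2
      - (Real.pi ^ 2 / 2 * τ / b ^ 2) * IGK_V c z ^ (2 * k + 2) := by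
    have e1 : Real.pi ^ 2 / (2 * (b + τ * u)) = Real.pi ^ 2 / 2 * (1 / (b + τ * u)) := by
      field_simp
    have e2 : IGK_V c z ^ (2 * k + 2) = IGK_V c z ^ 2 * u := by rw [hu]; ring
    rw [e1, e2]
    have h2 : 1 / (b + τ * u) ≤ 1 / b - τ * u / b ^ 2 + τ ^ 2 / b ^ 3 := by linarith
    have h3 := mul_le_mul_of_nonneg_left h2 (by positivity : 0 ≤ IGK_V c z ^ 2 * (Real.pi ^ 2 / 2))
    have e3 : IGK_V c z ^ 2 * (Real.pi ^ 2 / 2) * (1 / b - τ * u / b ^ 2 + τ ^ 2 / b ^ 3) =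
      (Real.pi ^ 2 / 2 * (1 / b + τ ^ 2 / b ^ 3)) * IGK_V c z ^ 2
      - (Real.pi ^ 2 / 2 * τ / b ^ 2) * (IGK_V c z ^ 2 * u) := by ring
    rw [← e3]
    linarith
  refine add_le_add t1 (Finset.sum_le_sum fun i _ => ?_)
  have h36 : 4 * k ^ 2 * (τ * u) ^ 2 / (b + τ * u) * (Real.pi ^ 2 / 6 + 1 / 4) ≤ 8 * k ^ 2 * τ ^ 2 / b := by
    have g1 : 4 * k ^ 2 * (τ * u) ^ 2 / (b + τ * u) ≤ 4 * k ^ 2 * τ ^ 2 / b :=
      div_le_div₀ (by positivity) (mul_le_mul_of_nonneg_left hτu2 (by positivity)) hb hB.1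
    have g2 := mul_le_mul g1 hpi hpi0 (by positivity)
    have g3 : 4 * k ^ 2 * τ ^ 2 / b * 2 = 8 * k ^ 2 * τ ^ 2 / b := by ring
    rw [g3] at g2
    exact g2
  have hD0 : 0 ≤ IGK_D c i z ^ 2 := by positivity
  have h4 : (b + τ * u) / 2 + k * (τ * u) + 4 * k ^ 2 * (τ * u) ^ 2 / (b + τ * u) *
      (Real.pi ^ 2 / 6 + 1 / 4) ≤ b / 2 + 8 * k ^ 2 * τ ^ 2 / b + (1 / 2 + k) * τ * u := by linarith
  have h5 := mul_le_mul_of_nonneg_left h4 hD0
  have e5 : IGK_D c i z ^ 2 * (b / 2 + 8 * k ^ 2 * τ ^ 2 / b + (1 / 2 + k) * τ * u) =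
      (b / 2 + 8 * k ^ 2 * τ ^ 2 / b) * IGK_D c i z ^ 2 + ((1 / 2 + k) * τ) * (IGK_D c i z ^ 2 * u) := by ring
  rw [e5] at h5
  exact h5

def IGK_S {n : ℕ} (k : ℕ) (b τ : ℝ) (c : Fin n → ℝ) : Set (ℝ × (Fin n → ℝ)) :=
  {p | p.2 ∈ IGK_bx c ∧ 0 < p.1 ∧ p.1 < b + τ * IGK_V c p.2 ^ (2 * k)}

theorem IGK_S_meas {n : ℕ} (k : ℕ) (b τ : ℝ) (c : Fin n → ℝ) : MeasurableSet (IGK_S k b τ c) := by
  have h1 : MeasurableSet {p : ℝ × (Fin n → ℝ) | p.2 ∈ IGK_bx c} := measurable_snd (IGK_bx_meas c)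
  have h2 : MeasurableSet {p : ℝ × (Fin n → ℝ) | 0 < p.1} :=
    measurableSet_lt measurable_const measurable_fst
  have hV : Continuous fun p : ℝ × (Fin n → ℝ) => b + τ * IGK_V c p.2 ^ (2 * k) := by
    have := (IGK_V_cont c).comp (continuous_snd (X := ℝ) (Y := Fin n → ℝ))
    exact continuous_const.add (continuous_const.mul (this.pow (2 * k)))
  have h3 : MeasurableSet {p : ℝ × (Fin n → ℝ) | p.1 < b + τ * IGK_V c p.2 ^ (2 * k)} :=
    measurableSet_lt measurable_fst hV.measurable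
  exact h1.inter (h2.inter h3)

theorem IGK_K_int {n : ℕ} (k : ℕ) (b τ : ℝ) (hb : 0 < b) (hτ : 0 ≤ τ) (c : Fin n → ℝ) :
    Integrable ((IGK_S k b τ c).indicator (IGK_K k b τ c)) (volume.prod volume) := by
  rw [integrable_indicator_iff (IGK_S_meas k b τ c)]
  have hcomp : IsCompact (Set.Icc (0 : ℝ) (b + τ) ×ˢ Set.Icc (0 : Fin n → ℝ) c) :=
    isCompact_Icc.prod isCompact_Icc
  refine ((IGK_K_cont k b τ hb hτ c).continuousOn.integrableOn_compact hcomp).mono_set ?_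
  rintro ⟨y, z⟩ ⟨h1, h2, h3⟩
  exact ⟨⟨h2.le, h3.le.trans (IGK_B k b τ hb hτ c z).2⟩, IGK_bx_sub c h1⟩

theorem IGK_G {n : ℕ} (k : ℕ) (hSNK : S_SNK) (c : Fin n → ℝ) (hc : ∀ i, 0 < c i) (α β γ δ : ℝ) :
    ∫ z in IGK_bx c, (α * IGK_V c z ^ 2 - β * IGK_V c z ^ (2 * k + 2) +
      ∑ i : Fin n, (γ * IGK_D c i z ^ 2 + δ * (IGK_D c i z ^ 2 * IGK_V c z ^ (2 * k)))) =
    α * IGK_W c (1 / 2) - β * IGK_W c (JJ (k + 1)) +
      (γ * IGK_W c (1 / 2) + δ * (IGK_W c (JJ (k + 1)) / (2 * k + 1))) * ∑ i : Fin n, (Real.pi / c i) ^ 2 := by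
  have hV := IGK_V_cont c
  have hD := IGK_D_cont c
  have i1 : IntegrableOn (fun z => α * IGK_V c z ^ 2) (IGK_bx c) :=
    IGK_int c _ (continuous_const.mul (hV.pow 2))
  have i2 : IntegrableOn (fun z => β * IGK_V c z ^ (2 * k + 2)) (IGK_bx c) :=
    IGK_int c _ (continuous_const.mul (hV.pow (2 * k + 2)))
  have i3 : ∀ i, IntegrableOn (fun z => γ * IGK_D c i z ^ 2) (IGK_bx c) := fun i =>
    IGK_int c _ (continuous_const.mul ((hD i).pow 2))
  have i4 : ∀ i, IntegrableOn (fun z => δ * (IGK_D c i z ^ 2 * IGK_V c z ^ (2 * k))) (IGK_bx c) := fun i =>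
    IGK_int c _ (continuous_const.mul (((hD i).pow 2).mul (hV.pow (2 * k))))
  have i5 : ∀ i ∈ (Finset.univ : Finset (Fin n)), Integrable (fun z => γ * IGK_D c i z ^ 2 +
      δ * (IGK_D c i z ^ 2 * IGK_V c z ^ (2 * k))) (volume.restrict (IGK_bx c)) := fun i _ =>
    (i3 i).add (i4 i)
  have i12 : Integrable (fun z => α * IGK_V c z ^ 2 - β * IGK_V c z ^ (2 * k + 2))
      (volume.restrict (IGK_bx c)) := i1.sub i2
  rw [integral_add i12 (integrable_finsetSum _ i5), integral_sub i1 i2,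
    integral_finsetSum _ i5, integral_const_mul, integral_const_mul, IGK_V2 hSNK c hc,
    IGK_V8 hSNK k c hc]
  congr 1
  rw [Finset.mul_sum]
  apply Finset.sum_congr rfl
  intro i _
  rw [integral_add (i3 i) (i4 i), integral_const_mul, integral_const_mul, IGK_D2 hSNK c hc i,
    IGK_D2V6 hSNK k c hc i]
  ring

theorem IGK_main (hSNK : S_SNK) (hYIK : S_YIK) {n : ℕ} (k : ℕ) (b τ : ℝ) (hb : 0 < b) (hτ : 0 ≤ τ)
    (c : Fin n → ℝ) (hc : ∀ i, 0 < c i) :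
    ∫ p : ℝ × (Fin n → ℝ), (IGK_S k b τ c).indicator (IGK_K k b τ c) p ≤
    (Real.pi ^ 2 / 2 * (1 / b + τ ^ 2 / b ^ 3)) * IGK_W c (1 / 2)
      - (Real.pi ^ 2 / 2 * τ / b ^ 2) * IGK_W c (JJ (k + 1)) +
      ((b / 2 + 8 * k ^ 2 * τ ^ 2 / b) * IGK_W c (1 / 2) + ((1 / 2 + k) * τ) * (IGK_W c (JJ (k + 1)) / (2 * k + 1))) *
        ∑ i : Fin n, (Real.pi / c i) ^ 2 := by
  have hK := IGK_K_int k b τ hb hτ c
  rw [Measure.volume_eq_prod, integral_prod_symm _ hK, ← IGK_G k hSNK c hc,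
    ← integral_indicator (IGK_bx_meas c)]
  have hV := IGK_V_cont c
  have hD := IGK_D_cont c
  apply integral_mono hK.integral_prod_right
  · rw [integrable_indicator_iff (IGK_bx_meas c)]
    apply IGK_int
    refine ((continuous_const.mul (hV.pow 2)).sub (continuous_const.mul (hV.pow (2 * k + 2)))).add ?_
    exact continuous_finsetSum _ fun i _ => (continuous_const.mul ((hD i).pow 2)).add
      (continuous_const.mul (((hD i).pow 2).mul (hV.pow (2 * k))))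
  · intro z
    by_cases hz : z ∈ IGK_bx c
    · have hB0 : 0 < b + τ * IGK_V c z ^ (2 * k) := lt_of_lt_of_le hb (IGK_B k b τ hb hτ c z).1
      have e1 : (fun y : ℝ => (IGK_S k b τ c).indicator (IGK_K k b τ c) (y, z)) =
          (Set.Ioo 0 (b + τ * IGK_V c z ^ (2 * k))).indicator fun y => IGK_K k b τ c (y, z) := by
        funext y
        by_cases hy : y ∈ Set.Ioo 0 (b + τ * IGK_V c z ^ (2 * k))
        · rw [Set.indicator_of_mem hy, Set.indicator_of_mem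
            (show (y, z) ∈ IGK_S k b τ c from ⟨hz, hy.1, hy.2⟩)]
        · rw [Set.indicator_of_notMem hy, Set.indicator_of_notMem
            (show (y, z) ∉ IGK_S k b τ c from fun h => hy ⟨h.2.1, h.2.2⟩)]
      have e2 : ∫ y : ℝ, (IGK_S k b τ c).indicator (IGK_K k b τ c) (y, z) =
          ∫ y in (0 : ℝ)..(b + τ * IGK_V c z ^ (2 * k)), IGK_K k b τ c (y, z) := by
        rw [e1, integral_indicator measurableSet_Ioo, ← integral_Ioc_eq_integral_Ioo,
          ← intervalIntegral.integral_of_le hB0.le]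
      change ∫ y : ℝ, (IGK_S k b τ c).indicator (IGK_K k b τ c) (y, z) ≤ _
      rw [e2, IGK_inner hSNK hYIK k b τ hb hτ c z, Set.indicator_of_mem hz]
      exact IGK_pt k b τ hb hτ c z
    · have e1 : (fun y : ℝ => (IGK_S k b τ c).indicator (IGK_K k b τ c) (y, z)) = fun _ => 0 := by
        funext y
        exact Set.indicator_of_notMem (fun h => hz h.1) _
      change ∫ y : ℝ, (IGK_S k b τ c).indicator (IGK_K k b τ c) (y, z) ≤ _
      rw [e1, integral_zero, Set.indicator_of_notMem hz]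

theorem p_IGK (hSNK : S_SNK) (hYIK : S_YIK) (hTGK : S_TGK) : S_IGK := by
  intro n a k τ hk ha hτ
  obtain ⟨hout, hin⟩ := hTGK n a k τ hk ha hτ
  set c : Fin n → ℝ := fun i => a i.succ with hc
  have hb : 0 < a 0 := ha 0
  have hpt : ∀ x : E (n + 1), ‖gradient (tfk a k τ) x‖ ^ 2 =
      (IGK_S k (a 0) τ c).indicator (IGK_K k (a 0) τ c) (x 0, fun j => x j.succ) := by
    intro x
    by_cases hx : x ∈ compk a k τ
    · rw [hin x hx, Set.indicator_of_mem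
        (show ((x 0, fun j => x j.succ) : ℝ × (Fin n → ℝ)) ∈ IGK_S k (a 0) τ c from
          ⟨hx.1, hx.2.1, hx.2.2⟩)]
      rfl
    · rw [hout x hx, norm_zero, Set.indicator_of_notMem
        (show ((x 0, fun j => x j.succ) : ℝ × (Fin n → ℝ)) ∉ IGK_S k (a 0) τ c from
          fun h => hx ⟨h.1, h.2.1, h.2.2⟩)]
      norm_num
  have h1 : ∫ x, ‖gradient (tfk a k τ) x‖ ^ 2 =
      ∫ p : ℝ × (Fin n → ℝ), (IGK_S k (a 0) τ c).indicator (IGK_K k (a 0) τ c) p := by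
    rw [← IGK_split]
    exact integral_congr_ae (Eventually.of_forall hpt)
  rw [h1]
  refine (IGK_main hSNK hYIK k (a 0) τ hb hτ c (fun i => ha i.succ)).trans (le_of_eq ?_)
  have w1 : Wc a (1 / 2) = IGK_W c (1 / 2) := rfl
  have w2 : Wc a (JJ (k + 1)) = IGK_W c (JJ (k + 1)) := rfl
  have w3 : lam' a = ∑ i : Fin n, (Real.pi / c i) ^ 2 := rfl
  unfold CCk DDk
  rw [w1, w2, w3]
  set W2 := IGK_W c (1 / 2)
  set W8 := IGK_W c (JJ (k + 1))
  set lm := ∑ i : Fin n, (Real.pi / c i) ^ 2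
  field_simp
  ring

end Pool.Agent.ConvexMin
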