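import Pool.Agent.Work.MP_05fb57_th.Interface3

/-!
# IN2: the integral of the square of the trial function
-/

set_option autoImplicit false

namespace Pool.Agent.ConvexMin

open MeasureTheory Set Filter Topology
open scoped ENNReal RealInnerProductSpace ContDiff

/-- the product of sines -/
noncomputable def IN2_V {n : ℕ} (a : Fin (n + 1) → ℝ) (z : Fin n → ℝ) : ℝ :=
  ∏ i : Fin n, Real.sin (Real.pi * z i / a i.succ)

/-- the base box -/
def IN2_S {n : ℕ} (a : Fin (n + 1) → ℝ) : Set (Fin n → ℝ) :=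
  {z | ∀ i : Fin n, 0 < z i ∧ z i < a i.succ}

/-- the height -/
noncomputable def IN2_B {n : ℕ} (a : Fin (n + 1) → ℝ) (τ : ℝ) (z : Fin n → ℝ) : ℝ :=
  a 0 + τ * IN2_V a z ^ 6

/-- the competitor in product coordinates -/
def IN2_U {n : ℕ} (a : Fin (n + 1) → ℝ) (τ : ℝ) : Set (ℝ × (Fin n → ℝ)) :=
  {p | p.2 ∈ IN2_S a ∧ 0 < p.1 ∧ p.1 < IN2_B a τ p.2}

/-- the square of the trial function in product coordinates -/
noncomputable def IN2_G {n : ℕ} (a : Fin (n + 1) → ℝ) (τ : ℝ) : ℝ × (Fin n → ℝ) → ℝ :=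
  (IN2_U a τ).indicator fun p => (IN2_V a p.2 * Real.sin (Real.pi * p.1 / IN2_B a τ p.2)) ^ 2

theorem IN2_measV {n : ℕ} (a : Fin (n + 1) → ℝ) : Measurable (IN2_V a) := by
  unfold IN2_V
  fun_prop

theorem IN2_measB {n : ℕ} (a : Fin (n + 1) → ℝ) (τ : ℝ) : Measurable (IN2_B a τ) := by
  have := IN2_measV a
  unfold IN2_B
  fun_prop

theorem IN2_measS {n : ℕ} (a : Fin (n + 1) → ℝ) : MeasurableSet (IN2_S a) := by
  have : IN2_S a = ⋂ i : Fin n, {z : Fin n → ℝ | 0 < z i} ∩ {z : Fin n → ℝ | z i < a i.succ} := by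
    ext z
    simp [IN2_S]
  rw [this]
  refine MeasurableSet.iInter fun i => ?_
  exact (measurableSet_lt measurable_const (measurable_pi_apply i)).inter
    (measurableSet_lt (measurable_pi_apply i) measurable_const)

theorem IN2_measU {n : ℕ} (a : Fin (n + 1) → ℝ) (τ : ℝ) : MeasurableSet (IN2_U a τ) := by
  have h1 : MeasurableSet {p : ℝ × (Fin n → ℝ) | p.2 ∈ IN2_S a} := measurable_snd (IN2_measS a)
  have h2 : MeasurableSet {p : ℝ × (Fin n → ℝ) | 0 < p.1} :=
    measurableSet_lt measurable_const measurable_fst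
  have h3 : MeasurableSet {p : ℝ × (Fin n → ℝ) | p.1 < IN2_B a τ p.2} :=
    measurableSet_lt measurable_fst ((IN2_measB a τ).comp measurable_snd)
  exact h1.inter (h2.inter h3)

theorem IN2_V_bound {n : ℕ} (a : Fin (n + 1) → ℝ) (z : Fin n → ℝ) : |IN2_V a z| ≤ 1 := by
  unfold IN2_V
  rw [Finset.abs_prod]
  exact Finset.prod_le_one (fun i _ => abs_nonneg _) (fun i _ => Real.abs_sin_le_one _)

theorem IN2_V6 {n : ℕ} (a : Fin (n + 1) → ℝ) (z : Fin n → ℝ) :
    0 ≤ IN2_V a z ^ 6 ∧ IN2_V a z ^ 6 ≤ 1 := by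
  constructor
  · positivity
  · have h : |IN2_V a z| ^ 6 ≤ 1 := pow_le_one₀ (abs_nonneg _) (IN2_V_bound a z)
    have e : |IN2_V a z| ^ 6 = IN2_V a z ^ 6 := by
      rw [← abs_pow]
      exact abs_of_nonneg (by positivity)
    rwa [e] at h

theorem IN2_int {n : ℕ} (a : Fin (n + 1) → ℝ) (τ : ℝ) (hτ : 0 ≤ τ) :
    Integrable (IN2_G a τ) (volume : Measure (ℝ × (Fin n → ℝ))) := by
  unfold IN2_G
  rw [integrable_indicator_iff (IN2_measU a τ)]
  have hsub : IN2_U a τ ⊆ (Ioo 0 (a 0 + τ)) ×ˢ (Set.pi Set.univ fun i : Fin n =>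
      Ioo 0 (a i.succ)) := by
    rintro ⟨y, z⟩ ⟨h1, h2, h3⟩
    refine ⟨⟨h2, lt_of_lt_of_le h3 ?_⟩, fun i _ => h1 i⟩
    have := (IN2_V6 a z).2
    show a 0 + τ * IN2_V a z ^ 6 ≤ a 0 + τ
    nlinarith
  have hfin : volume (IN2_U a τ) ≠ ⊤ := by
    refine ne_top_of_le_ne_top ?_ (measure_mono hsub)
    rw [Measure.volume_eq_prod, Measure.prod_prod, Real.volume_Ioo]
    refine ENNReal.mul_ne_top ENNReal.ofReal_ne_top ?_
    rw [volume_pi_pi]
    refine ENNReal.prod_ne_top fun i _ => ?_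
    rw [Real.volume_Ioo]
    exact ENNReal.ofReal_ne_top
  have hB : Measurable (fun p : ℝ × (Fin n → ℝ) => IN2_B a τ p.2) :=
    (IN2_measB a τ).comp measurable_snd
  have hV : Measurable (fun p : ℝ × (Fin n → ℝ) => IN2_V a p.2) :=
    (IN2_measV a).comp measurable_snd
  refine Measure.integrableOn_of_bounded (M := 1) hfin ?_ (Eventually.of_forall fun p => ?_)
  · apply Measurable.aestronglyMeasurable
    exact (hV.mul (Real.measurable_sin.comp ((measurable_const.mul measurable_fst).div hB))).pow_const 2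
  · have h1 := IN2_V_bound a p.2
    have h2 := Real.abs_sin_le_one (Real.pi * p.1 / IN2_B a τ p.2)
    rw [Real.norm_eq_abs, abs_pow, abs_mul]
    exact pow_le_one₀ (by positivity) (mul_le_one₀ h1 (abs_nonneg _) h2)

theorem IN2_inner (hSNI : S_SNI) {n : ℕ} (a : Fin (n + 1) → ℝ) (τ : ℝ) (ha : ∀ j, 0 < a j)
    (hτ : 0 ≤ τ) (z : Fin n → ℝ) : ∫ y, IN2_G a τ (y, z) =
      (IN2_S a).indicator (fun z => a 0 / 2 * IN2_V a z ^ 2 + τ / 2 * IN2_V a z ^ 8) z := by
  by_cases hz : z ∈ IN2_S a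
  · rw [indicator_of_mem hz]
    have hB : 0 < IN2_B a τ z := by
      have := (IN2_V6 a z).1
      have h0 := ha 0
      show 0 < a 0 + τ * IN2_V a z ^ 6
      positivity
    have h1 : (fun y => IN2_G a τ (y, z)) = (Ioo 0 (IN2_B a τ z)).indicator
        (fun y => IN2_V a z ^ 2 * Real.sin (Real.pi * y / IN2_B a τ z) ^ 2) := by
      funext y
      unfold IN2_G
      by_cases hy : y ∈ Ioo 0 (IN2_B a τ z)
      · rw [indicator_of_mem hy, indicator_of_mem (show (y, z) ∈ IN2_U a τ from ⟨hz, hy.1, hy.2⟩)]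
        ring
      · rw [indicator_of_notMem hy, indicator_of_notMem]
        rintro ⟨_, h2, h3⟩
        exact hy ⟨h2, h3⟩
    rw [h1, integral_indicator measurableSet_Ioo, integral_const_mul,
      ← integral_Ioc_eq_integral_Ioo, ← intervalIntegral.integral_of_le hB.le, (hSNI _ hB).1]
    unfold IN2_B
    ring
  · rw [indicator_of_notMem hz]
    have h1 : (fun y => IN2_G a τ (y, z)) = fun _ => 0 := by
      funext y
      unfold IN2_G
      rw [indicator_of_notMem]
      rintro ⟨h2, _⟩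
      exact hz h2
    rw [h1, integral_zero]

/-- one factor -/
noncomputable def IN2_g (a : ℝ) (k : ℕ) : ℝ → ℝ :=
  (Ioo 0 a).indicator fun t => Real.sin (Real.pi * t / a) ^ k

theorem IN2_g_int (a : ℝ) (k : ℕ) : Integrable (IN2_g a k) := by
  unfold IN2_g
  rw [integrable_indicator_iff measurableSet_Ioo]
  have hc : Continuous fun t : ℝ => Real.sin (Real.pi * t / a) ^ k := by fun_prop
  exact (hc.integrableOn_Icc (a := 0) (b := a)).mono_set Ioo_subset_Icc_self

theorem IN2_prod {n : ℕ} (a : Fin (n + 1) → ℝ) (k : ℕ) (hk : k ≠ 0) (z : Fin n → ℝ) :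
    (IN2_S a).indicator (fun z => IN2_V a z ^ k) z = ∏ i : Fin n, IN2_g (a i.succ) k (z i) := by
  by_cases hz : z ∈ IN2_S a
  · rw [indicator_of_mem hz]
    unfold IN2_V
    rw [← Finset.prod_pow]
    refine Finset.prod_congr rfl fun i _ => ?_
    unfold IN2_g
    rw [indicator_of_mem (show z i ∈ Ioo 0 (a i.succ) from hz i)]
  · rw [indicator_of_notMem hz]
    have : ∃ i : Fin n, ¬ (0 < z i ∧ z i < a i.succ) := by
      by_contra hcon
      exact hz (fun i => by
        by_contra h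
        exact hcon ⟨i, h⟩)
    obtain ⟨i, hi⟩ := this
    symm
    apply Finset.prod_eq_zero (Finset.mem_univ i)
    unfold IN2_g
    exact indicator_of_notMem (show z i ∉ Ioo 0 (a i.succ) from hi) _

theorem IN2_outer {n : ℕ} (a : Fin (n + 1) → ℝ) (k : ℕ) (hk : k ≠ 0) (c : ℝ)
    (h : ∀ i : Fin n, ∫ t in (0)..(a i.succ), Real.sin (Real.pi * t / a i.succ) ^ k =
      c * a i.succ) (ha : ∀ j, 0 < a j) :
    Integrable ((IN2_S a).indicator (fun z => IN2_V a z ^ k)) ∧
    ∫ z, (IN2_S a).indicator (fun z => IN2_V a z ^ k) z = Wc a c := by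
  have h1 : (IN2_S a).indicator (fun z => IN2_V a z ^ k) =
      fun z => ∏ i : Fin n, IN2_g (a i.succ) k (z i) := by
    funext z
    exact IN2_prod a k hk z
  rw [h1]
  constructor
  · exact Integrable.fintype_prod (fun i => IN2_g_int (a i.succ) k)
  · rw [integral_fintype_prod_volume_eq_prod (fun i : Fin n => IN2_g (a i.succ) k)]
    unfold Wc
    refine Finset.prod_congr rfl fun i _ => ?_
    unfold IN2_g
    rw [integral_indicator measurableSet_Ioo, ← integral_Ioc_eq_integral_Ioo,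
      ← intervalIntegral.integral_of_le (ha i.succ).le, h i]

theorem p_IN2 (hSNI : S_SNI) : S_IN2 := by
  intro n a τ ha hτ
  -- change of coordinates
  have hmp1 := EuclideanSpace.volume_preserving_symm_measurableEquiv_toLp (Fin (n + 1))
  have hmp2 := volume_preserving_piFinSuccAbove (fun _ : Fin (n + 1) => ℝ) 0
  have e1 : ∫ x : E (n + 1), tf a τ x ^ 2 = ∫ p : ℝ × (Fin n → ℝ), IN2_G a τ p := by
    rw [← hmp2.integral_comp', ← hmp1.integral_comp']
    refine integral_congr_ae (Eventually.of_forall fun x => ?_)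
    show tf a τ x ^ 2 = IN2_G a τ (x 0, fun j => x j.succ)
    unfold tf IN2_G
    by_cases hx : x ∈ comp a τ
    · rw [indicator_of_mem hx, indicator_of_mem (show ((x 0, fun j => x j.succ) : ℝ × (Fin n → ℝ)) ∈
        IN2_U a τ from ⟨hx.1, hx.2.1, hx.2.2⟩)]
      rfl
    · rw [indicator_of_notMem hx, indicator_of_notMem]
      · simp
      · rintro ⟨h2, h3, h4⟩
        exact hx ⟨h2, h3, h4⟩
  rw [e1, Measure.volume_eq_prod, integral_prod_symm _ (by
    have := IN2_int a τ hτ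
    rwa [Measure.volume_eq_prod] at this)]
  simp_rw [IN2_inner hSNI a τ ha hτ]
  obtain ⟨i2, j2⟩ := IN2_outer a 2 (by norm_num) (1 / 2) (fun i => (hSNI _ (ha i.succ)).1) ha
  obtain ⟨i8, j8⟩ := IN2_outer a 8 (by norm_num) (35 / 128)
    (fun i => (hSNI _ (ha i.succ)).2.2.2.1) ha
  have e2 : (fun z => (IN2_S a).indicator (fun z => a 0 / 2 * IN2_V a z ^ 2 +
      τ / 2 * IN2_V a z ^ 8) z) = fun z => a 0 / 2 * (IN2_S a).indicator (fun z => IN2_V a z ^ 2) z
      + τ / 2 * (IN2_S a).indicator (fun z => IN2_V a z ^ 8) z := by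
    funext z
    by_cases hz : z ∈ IN2_S a
    · simp only [indicator_of_mem hz]
    · simp only [indicator_of_notMem hz, mul_zero, add_zero]
  rw [e2, integral_add (i2.const_mul _) (i8.const_mul _), integral_const_mul, integral_const_mul,
    j2, j8]
  rfl

end Pool.Agent.ConvexMin
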