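import Pool.Agent.Work.MP_05fb57_th.Interface3

namespace Pool.Agent.ConvexMin

open MeasureTheory Set Filter Topology
open scoped ENNReal RealInnerProductSpace ContDiff

/-- integration over `ℝ^(n+1)`, coordinate `0` first -/
theorem ING_split {n : ℕ} (K : ℝ × (Fin n → ℝ) → ℝ) :
    ∫ x : E (n + 1), K (x 0, fun j => x j.succ) = ∫ p : ℝ × (Fin n → ℝ), K p := by
  have h1 := (EuclideanSpace.volume_preserving_symm_measurableEquiv_toLp (Fin (n + 1))).integral_comp'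
    (fun f : Fin (n + 1) → ℝ => K (f 0, fun j => f j.succ))
  have h2 := (volume_preserving_piFinSuccAbove (fun _ : Fin (n + 1) => ℝ) 0).integral_comp' K
  have h3 : (fun f : Fin (n + 1) → ℝ => K (MeasurableEquiv.piFinSuccAbove (fun _ => ℝ) 0 f)) =
      fun f : Fin (n + 1) → ℝ => K (f 0, fun j => f j.succ) := by
    funext f
    congr 1
  rw [h3] at h2
  rw [← h2, ← h1]
  rfl

/-- the tail box -/
def ING_bx {n : ℕ} (c : Fin n → ℝ) : Set (Fin n → ℝ) := {z | ∀ i, 0 < z i ∧ z i < c i}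

theorem ING_bx_meas {n : ℕ} (c : Fin n → ℝ) : MeasurableSet (ING_bx c) := by
  have : ING_bx c = ⋂ i, ({z | 0 < z i} ∩ {z | z i < c i}) := by
    ext z; simp [ING_bx]
  rw [this]
  exact MeasurableSet.iInter fun i =>
    (measurableSet_lt measurable_const (measurable_pi_apply i)).inter
      (measurableSet_lt (measurable_pi_apply i) measurable_const)

theorem ING_bx_sub {n : ℕ} (c : Fin n → ℝ) : ING_bx c ⊆ Set.Icc (0 : Fin n → ℝ) c := by
  intro z hz
  exact ⟨fun i => (hz i).1.le, fun i => (hz i).2.le⟩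

theorem ING_int {n : ℕ} (c : Fin n → ℝ) (f : (Fin n → ℝ) → ℝ) (hf : Continuous f) :
    IntegrableOn f (ING_bx c) :=
  (hf.continuousOn.integrableOn_compact isCompact_Icc).mono_set (ING_bx_sub c)

/-- product integrals over the box -/
theorem ING_prod {n : ℕ} (c : Fin n → ℝ) (hc : ∀ i, 0 < c i) (f : Fin n → ℝ → ℝ) :
    ∫ z in ING_bx c, ∏ i, f i (z i) = ∏ i, ∫ t in (0 : ℝ)..(c i), f i t := by
  rw [← integral_indicator (ING_bx_meas c)]
  have h : (ING_bx c).indicator (fun z => ∏ i, f i (z i)) =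
      fun z => ∏ i, (Set.Ioo 0 (c i)).indicator (f i) (z i) := by
    funext z
    by_cases hz : z ∈ ING_bx c
    · rw [Set.indicator_of_mem hz]
      apply Finset.prod_congr rfl
      intro i _
      rw [Set.indicator_of_mem (show z i ∈ Set.Ioo 0 (c i) from hz i)]
    · rw [Set.indicator_of_notMem hz]
      have : ∃ i, z i ∉ Set.Ioo 0 (c i) := by
        by_contra hno
        push Not at hno
        exact hz fun i => hno i
      obtain ⟨i, hi⟩ := this
      symm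
      exact Finset.prod_eq_zero (Finset.mem_univ i) (Set.indicator_of_notMem hi _)
  rw [h, integral_fintype_prod_volume_eq_prod (fun i => (Set.Ioo 0 (c i)).indicator (f i))]
  apply Finset.prod_congr rfl
  intro i _
  rw [integral_indicator measurableSet_Ioo, ← integral_Ioc_eq_integral_Ioo,
    ← intervalIntegral.integral_of_le (hc i).le]

noncomputable def ING_V {n : ℕ} (c : Fin n → ℝ) (z : Fin n → ℝ) : ℝ :=
  ∏ i : Fin n, Real.sin (Real.pi * z i / c i)

noncomputable def ING_D {n : ℕ} (c : Fin n → ℝ) (i : Fin n) (z : Fin n → ℝ) : ℝ :=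
  Real.pi / c i * Real.cos (Real.pi * z i / c i) *
    ∏ k ∈ Finset.univ.erase i, Real.sin (Real.pi * z k / c k)

noncomputable def ING_W {n : ℕ} (c : Fin n → ℝ) (r : ℝ) : ℝ := ∏ i : Fin n, (r * c i)

theorem ING_V_cont {n : ℕ} (c : Fin n → ℝ) : Continuous (ING_V c) := by
  unfold ING_V
  fun_prop

theorem ING_D_cont {n : ℕ} (c : Fin n → ℝ) (i : Fin n) : Continuous (ING_D c i) := by
  unfold ING_D
  fun_prop

theorem ING_V2 (hSNI : S_SNI) {n : ℕ} (c : Fin n → ℝ) (hc : ∀ i, 0 < c i) :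
    ∫ z in ING_bx c, ING_V c z ^ 2 = ING_W c (1 / 2) := by
  have h : ∀ z, ING_V c z ^ 2 = ∏ i, Real.sin (Real.pi * z i / c i) ^ 2 := by
    intro z; unfold ING_V; rw [Finset.prod_pow]
  simp_rw [h]
  rw [ING_prod c hc (fun i t => Real.sin (Real.pi * t / c i) ^ 2)]
  unfold ING_W
  apply Finset.prod_congr rfl
  intro i _
  rw [(hSNI (c i) (hc i)).1]

theorem ING_V8 (hSNI : S_SNI) {n : ℕ} (c : Fin n → ℝ) (hc : ∀ i, 0 < c i) :
    ∫ z in ING_bx c, ING_V c z ^ 8 = ING_W c (35 / 128) := by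
  have h : ∀ z, ING_V c z ^ 8 = ∏ i, Real.sin (Real.pi * z i / c i) ^ 8 := by
    intro z; unfold ING_V; rw [Finset.prod_pow]
  simp_rw [h]
  rw [ING_prod c hc (fun i t => Real.sin (Real.pi * t / c i) ^ 8)]
  unfold ING_W
  apply Finset.prod_congr rfl
  intro i _
  rw [(hSNI (c i) (hc i)).2.2.2.1]

theorem ING_D2 (hSNI : S_SNI) {n : ℕ} (c : Fin n → ℝ) (hc : ∀ i, 0 < c i) (i : Fin n) :
    ∫ z in ING_bx c, ING_D c i z ^ 2 = (Real.pi / c i) ^ 2 * ING_W c (1 / 2) := by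
  have h : ∀ z, ING_D c i z ^ 2 = (Real.pi / c i) ^ 2 *
      ∏ k, (if k = i then Real.cos (Real.pi * z k / c k) ^ 2
        else Real.sin (Real.pi * z k / c k) ^ 2) := by
    intro z
    rw [← Finset.mul_prod_erase Finset.univ _ (Finset.mem_univ i), if_pos rfl]
    have : ∏ k ∈ Finset.univ.erase i, (if k = i then Real.cos (Real.pi * z k / c k) ^ 2
        else Real.sin (Real.pi * z k / c k) ^ 2) =
        (∏ k ∈ Finset.univ.erase i, Real.sin (Real.pi * z k / c k)) ^ 2 := by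
      rw [← Finset.prod_pow]
      apply Finset.prod_congr rfl
      intro k hk
      rw [if_neg (Finset.ne_of_mem_erase hk)]
    rw [this]
    unfold ING_D
    ring
  simp_rw [h]
  rw [integral_const_mul, ING_prod c hc (fun k t => if k = i then Real.cos (Real.pi * t / c k) ^ 2
        else Real.sin (Real.pi * t / c k) ^ 2)]
  congr 1
  unfold ING_W
  apply Finset.prod_congr rfl
  intro k _
  by_cases hk : k = i
  · simp only [if_pos hk]
    rw [(hSNI (c k) (hc k)).2.1]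
  · simp only [if_neg hk]
    rw [(hSNI (c k) (hc k)).1]

theorem ING_D2V6 (hSNI : S_SNI) {n : ℕ} (c : Fin n → ℝ) (hc : ∀ i, 0 < c i) (i : Fin n) :
    ∫ z in ING_bx c, ING_D c i z ^ 2 * ING_V c z ^ 6 =
      (Real.pi / c i) ^ 2 * (ING_W c (35 / 128) / 7) := by
  have h : ∀ z, ING_D c i z ^ 2 * ING_V c z ^ 6 = (Real.pi / c i) ^ 2 *
      ∏ k, (if k = i then Real.cos (Real.pi * z k / c k) ^ 2 * Real.sin (Real.pi * z k / c k) ^ 6
        else Real.sin (Real.pi * z k / c k) ^ 8) := by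
    intro z
    rw [← Finset.mul_prod_erase Finset.univ _ (Finset.mem_univ i), if_pos rfl]
    have : ∏ k ∈ Finset.univ.erase i, (if k = i then
        Real.cos (Real.pi * z k / c k) ^ 2 * Real.sin (Real.pi * z k / c k) ^ 6
        else Real.sin (Real.pi * z k / c k) ^ 8) =
        (∏ k ∈ Finset.univ.erase i, Real.sin (Real.pi * z k / c k)) ^ 8 := by
      rw [← Finset.prod_pow]
      apply Finset.prod_congr rfl
      intro k hk
      rw [if_neg (Finset.ne_of_mem_erase hk)]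
    rw [this]
    unfold ING_D ING_V
    rw [← Finset.mul_prod_erase Finset.univ (fun i => Real.sin (Real.pi * z i / c i))
      (Finset.mem_univ i)]
    ring
  simp_rw [h]
  rw [integral_const_mul, ING_prod c hc (fun k t => if k = i then
        Real.cos (Real.pi * t / c k) ^ 2 * Real.sin (Real.pi * t / c k) ^ 6
        else Real.sin (Real.pi * t / c k) ^ 8)]
  congr 1
  unfold ING_W
  rw [← Finset.mul_prod_erase Finset.univ (fun k => (35 / 128 : ℝ) * c k) (Finset.mem_univ i),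
    ← Finset.mul_prod_erase Finset.univ _ (Finset.mem_univ i)]
  have e1 : (∫ t in (0 : ℝ)..(c i), if i = i then
        Real.cos (Real.pi * t / c i) ^ 2 * Real.sin (Real.pi * t / c i) ^ 6
        else Real.sin (Real.pi * t / c i) ^ 8) = 5 / 128 * c i := by
    simp only [if_true]
    rw [(hSNI (c i) (hc i)).2.2.2.2]
  have e2 : ∏ k ∈ Finset.univ.erase i, (∫ t in (0 : ℝ)..(c k), if k = i then
        Real.cos (Real.pi * t / c k) ^ 2 * Real.sin (Real.pi * t / c k) ^ 6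
        else Real.sin (Real.pi * t / c k) ^ 8) =
      ∏ k ∈ Finset.univ.erase i, (35 / 128 : ℝ) * c k := by
    apply Finset.prod_congr rfl
    intro k hk
    simp only [if_neg (Finset.ne_of_mem_erase hk)]
    rw [(hSNI (c k) (hc k)).2.2.2.1]
  rw [e1, e2]
  ring

/-- `0 ≤ V ≤ 1` on the box -/
theorem ING_V01 {n : ℕ} (c : Fin n → ℝ) (z : Fin n → ℝ) : |ING_V c z| ≤ 1 := by
  unfold ING_V
  rw [Finset.abs_prod]
  apply Finset.prod_le_one (fun i _ => abs_nonneg _)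
  intro i _
  exact Real.abs_sin_le_one _

/-- the inner integrand -/
noncomputable def ING_K {n : ℕ} (b τ : ℝ) (c : Fin n → ℝ) (p : ℝ × (Fin n → ℝ)) : ℝ :=
  (ING_V c p.2 * (Real.pi / (b + τ * ING_V c p.2 ^ 6)) *
      Real.cos (Real.pi * p.1 / (b + τ * ING_V c p.2 ^ 6))) ^ 2 +
    ∑ i : Fin n, (ING_D c i p.2 * (Real.sin (Real.pi * p.1 / (b + τ * ING_V c p.2 ^ 6)) -
      6 * (τ * ING_V c p.2 ^ 6) * (Real.pi * p.1 / (b + τ * ING_V c p.2 ^ 6) ^ 2) *
        Real.cos (Real.pi * p.1 / (b + τ * ING_V c p.2 ^ 6)))) ^ 2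

theorem ING_B {n : ℕ} (b τ : ℝ) (hb : 0 < b) (hτ : 0 ≤ τ) (c : Fin n → ℝ) (z : Fin n → ℝ) :
    b ≤ b + τ * ING_V c z ^ 6 ∧ b + τ * ING_V c z ^ 6 ≤ b + τ := by
  have h0 : 0 ≤ ING_V c z ^ 6 := by positivity
  have h1 : ING_V c z ^ 6 ≤ 1 := by
    have h := pow_le_pow_left₀ (abs_nonneg _) (ING_V01 c z) 6
    rw [one_pow, ← abs_pow, abs_of_nonneg h0] at h
    exact h
  constructor <;> nlinarith

theorem ING_K_cont {n : ℕ} (b τ : ℝ) (hb : 0 < b) (hτ : 0 ≤ τ) (c : Fin n → ℝ) :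
    Continuous (ING_K b τ c) := by
  have hV : Continuous fun p : ℝ × (Fin n → ℝ) => ING_V c p.2 := (ING_V_cont c).comp continuous_snd
  have hD : ∀ i, Continuous fun p : ℝ × (Fin n → ℝ) => ING_D c i p.2 := fun i =>
    (ING_D_cont c i).comp continuous_snd
  have hB : Continuous fun p : ℝ × (Fin n → ℝ) => b + τ * ING_V c p.2 ^ 6 := by fun_prop
  have hne : ∀ p : ℝ × (Fin n → ℝ), b + τ * ING_V c p.2 ^ 6 ≠ 0 := fun p =>
    (lt_of_lt_of_le hb (ING_B b τ hb hτ c p.2).1).ne'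
  have hne2 : ∀ p : ℝ × (Fin n → ℝ), (b + τ * ING_V c p.2 ^ 6) ^ 2 ≠ 0 := fun p =>
    pow_ne_zero 2 (hne p)
  have hy : Continuous fun p : ℝ × (Fin n → ℝ) => Real.pi * p.1 := by fun_prop
  have q1 : Continuous fun p : ℝ × (Fin n → ℝ) => Real.pi / (b + τ * ING_V c p.2 ^ 6) :=
    continuous_const.div hB hne
  have q2 : Continuous fun p : ℝ × (Fin n → ℝ) => Real.pi * p.1 / (b + τ * ING_V c p.2 ^ 6) :=
    hy.div hB hne
  have q3 : Continuous fun p : ℝ × (Fin n → ℝ) => Real.pi * p.1 / (b + τ * ING_V c p.2 ^ 6) ^ 2 :=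
    hy.div (hB.pow 2) hne2
  have q4 := Real.continuous_cos.comp q2
  have q5 := Real.continuous_sin.comp q2
  unfold ING_K
  refine Continuous.add ?_ ?_
  · exact ((hV.mul q1).mul q4).pow 2
  · refine continuous_finsetSum _ fun i _ => ?_
    exact ((hD i).mul (q5.sub ((((continuous_const.mul (continuous_const.mul (hV.pow 6)))).mul q3).mul q4))).pow 2

/-- the integral over the height -/
theorem ING_inner (hSNI : S_SNI) (hYIN : S_YIN) {n : ℕ} (b τ : ℝ) (hb : 0 < b) (hτ : 0 ≤ τ)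
    (c : Fin n → ℝ) (z : Fin n → ℝ) :
    ∫ y in (0 : ℝ)..(b + τ * ING_V c z ^ 6), ING_K b τ c (y, z) =
      ING_V c z ^ 2 * (Real.pi ^ 2 / (2 * (b + τ * ING_V c z ^ 6))) +
      ∑ i : Fin n, ING_D c i z ^ 2 * ((b + τ * ING_V c z ^ 6) / 2 + 3 * (τ * ING_V c z ^ 6) +
        36 * (τ * ING_V c z ^ 6) ^ 2 / (b + τ * ING_V c z ^ 6) * (Real.pi ^ 2 / 6 + 1 / 4)) := by
  set B := b + τ * ING_V c z ^ 6 with hBdef
  have hB0 : 0 < B := lt_of_lt_of_le hb (ING_B b τ hb hτ c z).1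
  have e : ∀ y, ING_K b τ c (y, z) = (ING_V c z * (Real.pi / B)) ^ 2 * Real.cos (Real.pi * y / B) ^ 2 +
      ∑ i : Fin n, ING_D c i z ^ 2 * (Real.sin (Real.pi * y / B) -
      6 * (τ * ING_V c z ^ 6) * (Real.pi * y / B ^ 2) * Real.cos (Real.pi * y / B)) ^ 2 := by
    intro y
    unfold ING_K
    simp only [mul_pow, ← hBdef]
  simp_rw [e]
  have c1 : Continuous fun y : ℝ => (ING_V c z * (Real.pi / B)) ^ 2 * Real.cos (Real.pi * y / B) ^ 2 := by
    fun_prop
  have c2 : ∀ i : Fin n, Continuous fun y : ℝ => ING_D c i z ^ 2 * (Real.sin (Real.pi * y / B) -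
      6 * (τ * ING_V c z ^ 6) * (Real.pi * y / B ^ 2) * Real.cos (Real.pi * y / B)) ^ 2 := by
    intro i
    fun_prop
  rw [intervalIntegral.integral_add (c1.intervalIntegrable _ _)
    ((continuous_finsetSum _ fun i _ => c2 i).intervalIntegrable _ _),
    intervalIntegral.integral_finsetSum fun i _ => (c2 i).intervalIntegrable _ _,
    intervalIntegral.integral_const_mul, (hSNI B hB0).2.1]
  congr 1
  · field_simp
  · apply Finset.sum_congr rfl
    intro i _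
    rw [intervalIntegral.integral_const_mul, hYIN B (τ * ING_V c z ^ 6) hB0]

/-- the pointwise upper bound of the inner integral -/
theorem ING_pt {n : ℕ} (b τ : ℝ) (hb : 0 < b) (hτ : 0 ≤ τ) (c : Fin n → ℝ) (z : Fin n → ℝ) :
    ING_V c z ^ 2 * (Real.pi ^ 2 / (2 * (b + τ * ING_V c z ^ 6))) +
      ∑ i : Fin n, ING_D c i z ^ 2 * ((b + τ * ING_V c z ^ 6) / 2 + 3 * (τ * ING_V c z ^ 6) +
        36 * (τ * ING_V c z ^ 6) ^ 2 / (b + τ * ING_V c z ^ 6) * (Real.pi ^ 2 / 6 + 1 / 4)) ≤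
    (Real.pi ^ 2 / 2 * (1 / b + τ ^ 2 / b ^ 3)) * ING_V c z ^ 2
      - (Real.pi ^ 2 / 2 * τ / b ^ 2) * ING_V c z ^ 8 +
      ∑ i : Fin n, ((b / 2 + 72 * τ ^ 2 / b) * ING_D c i z ^ 2
        + (7 / 2 * τ) * (ING_D c i z ^ 2 * ING_V c z ^ 6)) := by
  have hV0 : 0 ≤ ING_V c z ^ 6 := by positivity
  have hV1 : ING_V c z ^ 6 ≤ 1 := by
    have h := pow_le_pow_left₀ (abs_nonneg _) (ING_V01 c z) 6
    rw [one_pow, ← abs_pow, abs_of_nonneg hV0] at h
    exact h
  set u := ING_V c z ^ 6 with hu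
  have hB := ING_B b τ hb hτ c z
  rw [← hu] at hB
  have hB0 : 0 < b + τ * u := lt_of_lt_of_le hb hB.1
  have hτu : 0 ≤ τ * u := by positivity
  have hτu2 : (τ * u) ^ 2 ≤ τ ^ 2 := by
    have : τ * u ≤ τ := by nlinarith
    exact pow_le_pow_left₀ hτu this 2
  have hpi : Real.pi ^ 2 / 6 + 1 / 4 ≤ 2 := by
    have h1 := Real.pi_lt_d2
    have h0 := Real.pi_pos
    nlinarith
  have hpi0 : 0 ≤ Real.pi ^ 2 / 6 + 1 / 4 := by positivity
  -- 1 / B
  have h1B : 1 / (b + τ * u) ≤ 1 / b - τ * u / b ^ 2 + (τ * u) ^ 2 / b ^ 3 := by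
    have hdiff : 1 / b - τ * u / b ^ 2 + (τ * u) ^ 2 / b ^ 3 - 1 / (b + τ * u) =
        (τ * u) ^ 3 / (b ^ 3 * (b + τ * u)) := by
      field_simp
      ring
    have : 0 ≤ (τ * u) ^ 3 / (b ^ 3 * (b + τ * u)) := by positivity
    linarith
  have hb3 : (τ * u) ^ 2 / b ^ 3 ≤ τ ^ 2 / b ^ 3 := div_le_div_of_nonneg_right hτu2 (by positivity)
  have t1 : ING_V c z ^ 2 * (Real.pi ^ 2 / (2 * (b + τ * u))) ≤
      (Real.pi ^ 2 / 2 * (1 / b + τ ^ 2 / b ^ 3)) * ING_V c z ^ 2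
      - (Real.pi ^ 2 / 2 * τ / b ^ 2) * ING_V c z ^ 8 := by
    have e1 : Real.pi ^ 2 / (2 * (b + τ * u)) = Real.pi ^ 2 / 2 * (1 / (b + τ * u)) := by
      field_simp
    have e2 : ING_V c z ^ 8 = ING_V c z ^ 2 * u := by rw [hu]; ring
    rw [e1, e2]
    have h2 : 1 / (b + τ * u) ≤ 1 / b - τ * u / b ^ 2 + τ ^ 2 / b ^ 3 := by linarith
    have h3 := mul_le_mul_of_nonneg_left h2 (by positivity : 0 ≤ ING_V c z ^ 2 * (Real.pi ^ 2 / 2))
    have e3 : ING_V c z ^ 2 * (Real.pi ^ 2 / 2) * (1 / b - τ * u / b ^ 2 + τ ^ 2 / b ^ 3) =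
      (Real.pi ^ 2 / 2 * (1 / b + τ ^ 2 / b ^ 3)) * ING_V c z ^ 2
      - (Real.pi ^ 2 / 2 * τ / b ^ 2) * (ING_V c z ^ 2 * u) := by ring
    rw [← e3]
    linarith
  refine add_le_add t1 (Finset.sum_le_sum fun i _ => ?_)
  have h36 : 36 * (τ * u) ^ 2 / (b + τ * u) * (Real.pi ^ 2 / 6 + 1 / 4) ≤ 72 * τ ^ 2 / b := by
    have g1 : 36 * (τ * u) ^ 2 / (b + τ * u) ≤ 36 * τ ^ 2 / b :=
      div_le_div₀ (by positivity) (by linarith) hb hB.1
    have g2 := mul_le_mul g1 hpi hpi0 (by positivity)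
    have g3 : 36 * τ ^ 2 / b * 2 = 72 * τ ^ 2 / b := by ring
    rw [g3] at g2
    exact g2
  have hD0 : 0 ≤ ING_D c i z ^ 2 := by positivity
  have h4 : (b + τ * u) / 2 + 3 * (τ * u) + 36 * (τ * u) ^ 2 / (b + τ * u) *
      (Real.pi ^ 2 / 6 + 1 / 4) ≤ b / 2 + 72 * τ ^ 2 / b + 7 / 2 * τ * u := by linarith
  have h5 := mul_le_mul_of_nonneg_left h4 hD0
  have e5 : ING_D c i z ^ 2 * (b / 2 + 72 * τ ^ 2 / b + 7 / 2 * τ * u) =
      (b / 2 + 72 * τ ^ 2 / b) * ING_D c i z ^ 2 + (7 / 2 * τ) * (ING_D c i z ^ 2 * u) := by ring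
  rw [e5] at h5
  exact h5

def ING_S {n : ℕ} (b τ : ℝ) (c : Fin n → ℝ) : Set (ℝ × (Fin n → ℝ)) :=
  {p | p.2 ∈ ING_bx c ∧ 0 < p.1 ∧ p.1 < b + τ * ING_V c p.2 ^ 6}

theorem ING_S_meas {n : ℕ} (b τ : ℝ) (c : Fin n → ℝ) : MeasurableSet (ING_S b τ c) := by
  have h1 : MeasurableSet {p : ℝ × (Fin n → ℝ) | p.2 ∈ ING_bx c} := measurable_snd (ING_bx_meas c)
  have h2 : MeasurableSet {p : ℝ × (Fin n → ℝ) | 0 < p.1} :=
    measurableSet_lt measurable_const measurable_fst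
  have hV : Continuous fun p : ℝ × (Fin n → ℝ) => b + τ * ING_V c p.2 ^ 6 := by
    have := (ING_V_cont c).comp (continuous_snd (X := ℝ) (Y := Fin n → ℝ))
    exact continuous_const.add (continuous_const.mul (this.pow 6))
  have h3 : MeasurableSet {p : ℝ × (Fin n → ℝ) | p.1 < b + τ * ING_V c p.2 ^ 6} :=
    measurableSet_lt measurable_fst hV.measurable
  exact h1.inter (h2.inter h3)

theorem ING_K_int {n : ℕ} (b τ : ℝ) (hb : 0 < b) (hτ : 0 ≤ τ) (c : Fin n → ℝ) :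
    Integrable ((ING_S b τ c).indicator (ING_K b τ c)) (volume.prod volume) := by
  rw [integrable_indicator_iff (ING_S_meas b τ c)]
  have hcomp : IsCompact (Set.Icc (0 : ℝ) (b + τ) ×ˢ Set.Icc (0 : Fin n → ℝ) c) :=
    isCompact_Icc.prod isCompact_Icc
  refine ((ING_K_cont b τ hb hτ c).continuousOn.integrableOn_compact hcomp).mono_set ?_
  rintro ⟨y, z⟩ ⟨h1, h2, h3⟩
  exact ⟨⟨h2.le, h3.le.trans (ING_B b τ hb hτ c z).2⟩, ING_bx_sub c h1⟩

theorem ING_G {n : ℕ} (hSNI : S_SNI) (c : Fin n → ℝ) (hc : ∀ i, 0 < c i) (α β γ δ : ℝ) :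
    ∫ z in ING_bx c, (α * ING_V c z ^ 2 - β * ING_V c z ^ 8 +
      ∑ i : Fin n, (γ * ING_D c i z ^ 2 + δ * (ING_D c i z ^ 2 * ING_V c z ^ 6))) =
    α * ING_W c (1 / 2) - β * ING_W c (35 / 128) +
      (γ * ING_W c (1 / 2) + δ * (ING_W c (35 / 128) / 7)) * ∑ i : Fin n, (Real.pi / c i) ^ 2 := by
  have hV := ING_V_cont c
  have hD := ING_D_cont c
  have i1 : IntegrableOn (fun z => α * ING_V c z ^ 2) (ING_bx c) :=
    ING_int c _ (continuous_const.mul (hV.pow 2))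
  have i2 : IntegrableOn (fun z => β * ING_V c z ^ 8) (ING_bx c) :=
    ING_int c _ (continuous_const.mul (hV.pow 8))
  have i3 : ∀ i, IntegrableOn (fun z => γ * ING_D c i z ^ 2) (ING_bx c) := fun i =>
    ING_int c _ (continuous_const.mul ((hD i).pow 2))
  have i4 : ∀ i, IntegrableOn (fun z => δ * (ING_D c i z ^ 2 * ING_V c z ^ 6)) (ING_bx c) := fun i =>
    ING_int c _ (continuous_const.mul (((hD i).pow 2).mul (hV.pow 6)))
  have i5 : ∀ i ∈ (Finset.univ : Finset (Fin n)), Integrable (fun z => γ * ING_D c i z ^ 2 +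
      δ * (ING_D c i z ^ 2 * ING_V c z ^ 6)) (volume.restrict (ING_bx c)) := fun i _ =>
    (i3 i).add (i4 i)
  have i12 : Integrable (fun z => α * ING_V c z ^ 2 - β * ING_V c z ^ 8)
      (volume.restrict (ING_bx c)) := i1.sub i2
  rw [integral_add i12 (integrable_finsetSum _ i5), integral_sub i1 i2,
    integral_finsetSum _ i5, integral_const_mul, integral_const_mul, ING_V2 hSNI c hc,
    ING_V8 hSNI c hc]
  congr 1
  rw [Finset.mul_sum]
  apply Finset.sum_congr rfl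
  intro i _
  rw [integral_add (i3 i) (i4 i), integral_const_mul, integral_const_mul, ING_D2 hSNI c hc i,
    ING_D2V6 hSNI c hc i]
  ring

theorem ING_main (hSNI : S_SNI) (hYIN : S_YIN) {n : ℕ} (b τ : ℝ) (hb : 0 < b) (hτ : 0 ≤ τ)
    (c : Fin n → ℝ) (hc : ∀ i, 0 < c i) :
    ∫ p : ℝ × (Fin n → ℝ), (ING_S b τ c).indicator (ING_K b τ c) p ≤
    (Real.pi ^ 2 / 2 * (1 / b + τ ^ 2 / b ^ 3)) * ING_W c (1 / 2)
      - (Real.pi ^ 2 / 2 * τ / b ^ 2) * ING_W c (35 / 128) +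
      ((b / 2 + 72 * τ ^ 2 / b) * ING_W c (1 / 2) + (7 / 2 * τ) * (ING_W c (35 / 128) / 7)) *
        ∑ i : Fin n, (Real.pi / c i) ^ 2 := by
  have hK := ING_K_int b τ hb hτ c
  rw [Measure.volume_eq_prod, integral_prod_symm _ hK, ← ING_G hSNI c hc,
    ← integral_indicator (ING_bx_meas c)]
  have hV := ING_V_cont c
  have hD := ING_D_cont c
  apply integral_mono hK.integral_prod_right
  · rw [integrable_indicator_iff (ING_bx_meas c)]
    apply ING_int
    refine ((continuous_const.mul (hV.pow 2)).sub (continuous_const.mul (hV.pow 8))).add ?_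
    exact continuous_finsetSum _ fun i _ => (continuous_const.mul ((hD i).pow 2)).add
      (continuous_const.mul (((hD i).pow 2).mul (hV.pow 6)))
  · intro z
    by_cases hz : z ∈ ING_bx c
    · have hB0 : 0 < b + τ * ING_V c z ^ 6 := lt_of_lt_of_le hb (ING_B b τ hb hτ c z).1
      have e1 : (fun y : ℝ => (ING_S b τ c).indicator (ING_K b τ c) (y, z)) =
          (Set.Ioo 0 (b + τ * ING_V c z ^ 6)).indicator fun y => ING_K b τ c (y, z) := by
        funext y
        by_cases hy : y ∈ Set.Ioo 0 (b + τ * ING_V c z ^ 6)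
        · rw [Set.indicator_of_mem hy, Set.indicator_of_mem
            (show (y, z) ∈ ING_S b τ c from ⟨hz, hy.1, hy.2⟩)]
        · rw [Set.indicator_of_notMem hy, Set.indicator_of_notMem
            (show (y, z) ∉ ING_S b τ c from fun h => hy ⟨h.2.1, h.2.2⟩)]
      have e2 : ∫ y : ℝ, (ING_S b τ c).indicator (ING_K b τ c) (y, z) =
          ∫ y in (0 : ℝ)..(b + τ * ING_V c z ^ 6), ING_K b τ c (y, z) := by
        rw [e1, integral_indicator measurableSet_Ioo, ← integral_Ioc_eq_integral_Ioo,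
          ← intervalIntegral.integral_of_le hB0.le]
      change ∫ y : ℝ, (ING_S b τ c).indicator (ING_K b τ c) (y, z) ≤ _
      rw [e2, ING_inner hSNI hYIN b τ hb hτ c z, Set.indicator_of_mem hz]
      exact ING_pt b τ hb hτ c z
    · have e1 : (fun y : ℝ => (ING_S b τ c).indicator (ING_K b τ c) (y, z)) = fun _ => 0 := by
        funext y
        exact Set.indicator_of_notMem (fun h => hz h.1) _
      change ∫ y : ℝ, (ING_S b τ c).indicator (ING_K b τ c) (y, z) ≤ _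
      rw [e1, integral_zero, Set.indicator_of_notMem hz]

theorem p_ING (hSNI : S_SNI) (hYIN : S_YIN) (hTFG : S_TFG) : S_ING := by
  intro n a τ ha hτ
  obtain ⟨hout, hin⟩ := hTFG n a τ ha hτ
  set c : Fin n → ℝ := fun i => a i.succ with hc
  have hb : 0 < a 0 := ha 0
  have hpt : ∀ x : E (n + 1), ‖gradient (tf a τ) x‖ ^ 2 =
      (ING_S (a 0) τ c).indicator (ING_K (a 0) τ c) (x 0, fun j => x j.succ) := by
    intro x
    by_cases hx : x ∈ comp a τ
    · rw [hin x hx, Set.indicator_of_mem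
        (show ((x 0, fun j => x j.succ) : ℝ × (Fin n → ℝ)) ∈ ING_S (a 0) τ c from
          ⟨hx.1, hx.2.1, hx.2.2⟩)]
      rfl
    · rw [hout x hx, norm_zero, Set.indicator_of_notMem
        (show ((x 0, fun j => x j.succ) : ℝ × (Fin n → ℝ)) ∉ ING_S (a 0) τ c from
          fun h => hx ⟨h.1, h.2.1, h.2.2⟩)]
      norm_num
  have h1 : ∫ x, ‖gradient (tf a τ) x‖ ^ 2 =
      ∫ p : ℝ × (Fin n → ℝ), (ING_S (a 0) τ c).indicator (ING_K (a 0) τ c) p := by
    rw [← ING_split]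
    exact integral_congr_ae (Eventually.of_forall hpt)
  rw [h1]
  refine (ING_main hSNI hYIN (a 0) τ hb hτ c (fun i => ha i.succ)).trans (le_of_eq ?_)
  have w1 : Wc a (1 / 2) = ING_W c (1 / 2) := rfl
  have w2 : Wc a (35 / 128) = ING_W c (35 / 128) := rfl
  have w3 : lam' a = ∑ i : Fin n, (Real.pi / c i) ^ 2 := rfl
  unfold CC DD
  rw [w1, w2, w3]
  set W2 := ING_W c (1 / 2)
  set W8 := ING_W c (35 / 128)
  set lm := ∑ i : Fin n, (Real.pi / c i) ^ 2
  field_simp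
  ring

end Pool.Agent.ConvexMin
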