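import Pool.Agent.Work.MP_05fb57_th.Interface4

/-!
# MP_05fb57_an: block ISO (invariance under isometries)
-/

set_option autoImplicit false

namespace Pool.Agent.ConvexMin

open MeasureTheory Set Filter Topology
open scoped ENNReal RealInnerProductSpace ContDiff

/-- measurable equivalence -/
noncomputable def ISO_me {d : ℕ} (T : E d ≃ᵃⁱ[ℝ] E d) : E d ≃ᵐ E d := T.toHomeomorph.toMeasurableEquiv

theorem ISO_me_coe {d : ℕ} (T : E d ≃ᵃⁱ[ℝ] E d) : (ISO_me T : E d → E d) = T := rfl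

theorem ISO_aff {d : ℕ} (T : E d ≃ᵃⁱ[ℝ] E d) (x : E d) : T x = T.linearIsometryEquiv x + T 0 := by
  have := T.map_vadd 0 x
  simp only [vadd_eq_add, add_zero] at this
  exact this

theorem ISO_fd {d : ℕ} (T : E d ≃ᵃⁱ[ℝ] E d) (x : E d) :
    HasFDerivAt (T : E d → E d) (T.linearIsometryEquiv.toContinuousLinearEquiv : E d →L[ℝ] E d) x := by
  have e : (T : E d → E d) = fun y => (T.linearIsometryEquiv.toContinuousLinearEquiv : E d →L[ℝ] E d) y + T 0 := by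
    funext y
    exact ISO_aff T y
  rw [e]
  exact (ContinuousLinearMap.hasFDerivAt _).add_const _

theorem ISO_cd {d : ℕ} (T : E d ≃ᵃⁱ[ℝ] E d) : ContDiff ℝ ∞ (T : E d → E d) := by
  have e : (T : E d → E d) = fun y => (T.linearIsometryEquiv.toContinuousLinearEquiv : E d →L[ℝ] E d) y + T 0 := by
    funext y
    exact ISO_aff T y
  rw [e]
  exact (ContinuousLinearMap.contDiff _).add contDiff_const

theorem ISO_mp {d : ℕ} (T : E d ≃ᵃⁱ[ℝ] E d) : MeasurePreserving (ISO_me T) volume volume := by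
  have h1 : MeasurePreserving (T.linearIsometryEquiv : E d → E d) volume volume :=
    T.linearIsometryEquiv.measurePreserving
  have h2 : MeasurePreserving (fun x : E d => x + T 0) volume volume := measurePreserving_add_right _ _
  have e : (ISO_me T : E d → E d) = (fun x : E d => x + T 0) ∘ T.linearIsometryEquiv := by
    funext x
    have := T.map_vadd 0 x
    simp only [vadd_eq_add, add_zero] at this
    exact this
  rw [e]
  exact h2.comp h1

theorem ISO_vol {d : ℕ} (T : E d ≃ᵃⁱ[ℝ] E d) (A : Set (E d)) : volume (T ⁻¹' A) = volume A :=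
  (ISO_mp T).measure_preimage_equiv A

theorem ISO_int {d : ℕ} (T : E d ≃ᵃⁱ[ℝ] E d) (f : E d → ℝ) : ∫ x, f (T x) = ∫ x, f x :=
  (ISO_mp T).integral_comp' f

theorem ISO_ae {d : ℕ} (T : E d ≃ᵃⁱ[ℝ] E d) {p : E d → Prop} (h : ∀ᵐ x ∂volume, p x) :
    ∀ᵐ x ∂volume, p (T x) :=
  (ISO_mp T).quasiMeasurePreserving.ae h

theorem ISO_h1 {d : ℕ} (T : E d ≃ᵃⁱ[ℝ] E d) {u : E d → ℝ} {g : E d → E d} (h : IsH1 u g) :
    IsH1 (fun x => u (T x)) (fun x => T.linearIsometryEquiv.symm (g (T x))) := by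
  refine ⟨h.memLp.comp_measurePreserving (ISO_mp T), ?_, ?_⟩
  · have h1 : MemLp (fun x => g (T x)) 2 volume := h.memLp_grad.comp_measurePreserving (ISO_mp T)
    exact (T.linearIsometryEquiv.symm.toContinuousLinearEquiv : E d →L[ℝ] E d).comp_memLp' h1
  · intro φ hφ hc v
    have hψ : ContDiff ℝ ∞ (fun y => φ (T.symm y)) := hφ.comp (ISO_cd T.symm)
    have hcψ : HasCompactSupport (fun y => φ (T.symm y)) :=
      hc.comp_homeomorph T.symm.toHomeomorph
    have h1 := h.weak _ hψ hcψ (T.linearIsometryEquiv v)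
    rw [← ISO_int T (fun y => u y * fderiv ℝ (fun y => φ (T.symm y)) y (T.linearIsometryEquiv v)),
      ← ISO_int T (fun y => ⟪g y, T.linearIsometryEquiv v⟫ * φ (T.symm y))] at h1
    have e1 : ∀ x, fderiv ℝ (fun y => φ (T.symm y)) (T x) (T.linearIsometryEquiv v) = fderiv ℝ φ x v := by
      intro x
      have h2 : HasFDerivAt φ (fderiv ℝ φ x) (T.symm (T x)) := by
        rw [T.symm_apply_apply]
        exact ((hφ.differentiable (by simp)) x).hasFDerivAt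
      have h3 := (h2.comp (T x) (ISO_fd T.symm (T x))).fderiv
      have h4 : fderiv ℝ (fun y => φ (T.symm y)) (T x) = (fderiv ℝ φ x).comp
        (T.symm.linearIsometryEquiv.toContinuousLinearEquiv : E d →L[ℝ] E d) := h3
      rw [h4]
      show fderiv ℝ φ x (T.symm.linearIsometryEquiv (T.linearIsometryEquiv v)) = _
      congr 1
      exact T.linearIsometryEquiv.symm_apply_apply v
    have e2 : ∀ x, ⟪g (T x), T.linearIsometryEquiv v⟫ = ⟪T.linearIsometryEquiv.symm (g (T x)), v⟫ := by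
      intro x
      rw [← LinearIsometryEquiv.inner_map_map T.linearIsometryEquiv (T.linearIsometryEquiv.symm (g (T x))) v]
      simp
    simp only [e1, e2, AffineIsometryEquiv.symm_apply_apply] at h1
    exact h1

theorem ISO_energy {d : ℕ} (T : E d ≃ᵃⁱ[ℝ] E d) (u : E d → ℝ) (g : E d → E d) :
    (∫ x, (u (T x)) ^ 2) = ∫ x, u x ^ 2 ∧
    (∫ x, ‖T.linearIsometryEquiv.symm (g (T x))‖ ^ 2) = ∫ x, ‖g x‖ ^ 2 := by
  refine ⟨ISO_int T (fun x => u x ^ 2), ?_⟩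
  simp only [LinearIsometryEquiv.norm_map]
  exact ISO_int T (fun x => ‖g x‖ ^ 2)

theorem ISO_cap {d : ℕ} (T : E d ≃ᵃⁱ[ℝ] E d) (A : Set (E d)) : cap (T ⁻¹' A) ≤ cap A := by
  unfold cap
  refine le_iInf fun u => le_iInf fun g => le_iInf fun h => le_iInf fun hU => ?_
  obtain ⟨U, hU, hA, hae⟩ := hU
  refine (iInf_le _ (fun x => u (T x))).trans ((iInf_le _ (fun x => T.linearIsometryEquiv.symm (g (T x)))).trans
    ((iInf_le _ (ISO_h1 T h)).trans ((iInf_le _ ⟨T ⁻¹' U, hU.preimage T.continuous,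
      preimage_mono hA, ISO_ae T hae⟩).trans ?_)))
  rw [(ISO_energy T u g).1, (ISO_energy T u g).2]

theorem ISO_qo {d : ℕ} (T : E d ≃ᵃⁱ[ℝ] E d) {Ω : Set (E d)} (h : QuasiOpen Ω) : QuasiOpen (T ⁻¹' Ω) := by
  intro ε hε
  obtain ⟨Ω', h1, h2, h3⟩ := h ε hε
  refine ⟨T ⁻¹' Ω', h1.preimage T.continuous, preimage_mono h2, ?_⟩
  rw [← preimage_sdiff]
  exact (ISO_cap T _).trans_lt h3

theorem ISO_qc {d : ℕ} (T : E d ≃ᵃⁱ[ℝ] E d) {v : E d → ℝ} (h : QuasiCont v) : QuasiCont (fun x => v (T x)) := by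
  intro ε hε
  obtain ⟨G, h1, h2, h3⟩ := h ε hε
  refine ⟨T ⁻¹' G, h1.preimage T.continuous, (ISO_cap T _).trans_lt h2, ?_⟩
  exact h3.comp T.continuous.continuousOn fun x hx => hx

theorem ISO_h10 {d : ℕ} (T : E d ≃ᵃⁱ[ℝ] E d) {Ω : Set (E d)} {u : E d → ℝ} {g : E d → E d} (h : IsH10 Ω u g) :
    IsH10 (T ⁻¹' Ω) (fun x => u (T x)) (fun x => T.linearIsometryEquiv.symm (g (T x))) := by
  obtain ⟨h1, v, h2, h3, h4⟩ := h
  refine ⟨ISO_h1 T h1, fun x => v (T x), ISO_qc T h2, ISO_ae T h3, ?_⟩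
  exact le_antisymm ((ISO_cap T {x | x ∉ Ω ∧ v x ≠ 0}).trans h4.le) bot_le

theorem ISO_lam {d : ℕ} (T : E d ≃ᵃⁱ[ℝ] E d) (Ω : Set (E d)) : lam1 (T ⁻¹' Ω) ≤ lam1 Ω := by
  unfold lam1
  refine le_iInf fun u => le_iInf fun g => le_iInf fun h => le_iInf fun hu => ?_
  have hu' : ¬ (fun x => u (T x)) =ᵐ[volume] 0 := by
    intro h0
    apply hu
    have h1 := ISO_ae T.symm h0
    filter_upwards [h1] with x hx
    simpa using hx
  refine (iInf_le _ (fun x => u (T x))).trans ((iInf_le _ (fun x => T.linearIsometryEquiv.symm (g (T x)))).trans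
    ((iInf_le _ (ISO_h10 T h)).trans ((iInf_le _ hu').trans ?_)))
  rw [(ISO_energy T u g).1, (ISO_energy T u g).2]

/-- Block ISO. -/
theorem p_ISO : S_ISO := by
  rintro d T D m ⟨Ω, ⟨⟨h1, h2, h3⟩, hmin⟩, hc⟩
  refine ⟨T ⁻¹' Ω, ⟨⟨ISO_qo T h1, fun x hx => h2 ⟨x, hx, rfl⟩, (ISO_vol T Ω).le.trans h3⟩, ?_⟩, ?_⟩
  · rintro Ω' ⟨a1, a2, a3⟩
    have h4 := hmin (T.symm ⁻¹' Ω') ⟨ISO_qo T.symm a1, ?_, (ISO_vol T.symm Ω').le.trans a3⟩
    · exact (ISO_lam T Ω).trans (h4.trans (ISO_lam T.symm Ω'))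
    · rintro _ ⟨x, hx, rfl⟩
      show T.symm (T x) ∈ Ω'
      rw [T.symm_apply_apply]
      exact a2 hx
  · exact hc.affine_preimage (T.toAffineEquiv : E d →ᵃ[ℝ] E d)

end Pool.Agent.ConvexMin
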