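import Pool.Agent.Work.MP_05fb57_th.Interface3

/-! Block LPH (helper34). -/

namespace Pool.Agent.ConvexMin

open MeasureTheory Set Filter Topology
open scoped ENNReal RealInnerProductSpace ContDiff

theorem p_LPH : S_LPH := by
  intro d f C hf hc
  have e : ∀ x v, ⟪gradient f x, v⟫ = fderiv ℝ f x v := by
    intro x v
    unfold gradient
    exact InnerProductSpace.toDual_symm_apply
  have hgm : Measurable (gradient f) := by
    unfold gradient
    exact (InnerProductSpace.toDual ℝ (E d)).symm.continuous.measurable.comp (measurable_fderiv ℝ f)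
  have hgn : ∀ x, ‖gradient f x‖ ≤ C := by
    intro x
    unfold gradient
    rw [LinearIsometryEquiv.norm_map]
    exact norm_fderiv_le_of_lipschitz ℝ hf
  have hgs : ∀ x, x ∉ tsupport f → gradient f x = 0 := by
    intro x hx
    unfold gradient
    have h1 : fderiv ℝ f x = 0 := by
      by_contra hne
      exact hx (support_fderiv_subset ℝ hne)
    rw [h1, map_zero]
  have hK : MeasurableSet (tsupport f) := (isClosed_tsupport f).measurableSet
  have hKf : volume (tsupport f) ≠ ⊤ := (IsCompact.measure_lt_top hc).ne
  refine ⟨hf.continuous.memLp_of_hasCompactSupport hc, ?_, ?_⟩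
  · have hm : MemLp ((tsupport f).indicator fun _ : E d => (C : ℝ)) 2 volume :=
      memLp_indicator_const 2 hK _ (Or.inr hKf)
    refine hm.mono hgm.aestronglyMeasurable (Filter.Eventually.of_forall fun x => ?_)
    by_cases hx : x ∈ tsupport f
    · rw [indicator_of_mem hx]
      refine (hgn x).trans ?_
      rw [Real.norm_eq_abs]
      exact le_abs_self _
    · rw [hgs x hx, norm_zero]
      exact norm_nonneg _
  · intro φ hφ hφc v
    obtain ⟨D, hD⟩ := ContDiff.lipschitzWith_of_hasCompactSupport hφc hφ (by simp)
    have h := hf.integral_lineDeriv_mul_eq hD hφc v (μ := (volume : Measure (E d)))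
    have h1 : ∫ x, lineDeriv ℝ f x v * φ x = ∫ x, ⟪gradient f x, v⟫ * φ x := by
      apply integral_congr_ae
      filter_upwards [hf.ae_differentiableAt (μ := (volume : Measure (E d)))] with x hx
      rw [e, hx.lineDeriv_eq_fderiv]
    have h2 : ∫ x, lineDeriv ℝ φ x (-v) * f x = - ∫ x, f x * fderiv ℝ φ x v := by
      rw [← integral_neg]
      refine integral_congr_ae (Filter.Eventually.of_forall fun x => ?_)
      have hx : DifferentiableAt ℝ φ x := (hφ.differentiable (by simp)) x
      simp only [hx.lineDeriv_eq_fderiv, map_neg]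
      ring
    rw [h1, h2] at h
    linarith

end Pool.Agent.ConvexMin
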