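import Pool.Agent.Work.MP_05fb57_th.Interface3

namespace Pool.Agent.ConvexMin

open MeasureTheory Set Filter Topology
open scoped ENNReal RealInnerProductSpace ContDiff

theorem LWB_inner {d : ℕ} (x : E d) (i : Fin d) : ⟪x, EuclideanSpace.single i (1 : ℝ)⟫ = x i := by
  rw [EuclideanSpace.inner_single_right]
  simp

theorem p_LWB (hPDR : S_PDR) (hCAP0 : S_CAP0) : S_LWB := by
  intro d Ω p w hw hΩ
  unfold lam1
  refine le_iInf fun u => le_iInf fun g => le_iInf fun h => le_iInf fun hne => ?_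
  obtain ⟨hH1, v, _, hvu, hcap⟩ := h
  have hvol : volume {x | x ∉ Ω ∧ v x ≠ 0} = 0 := hCAP0 d _ hcap
  have hae : ∀ᵐ x ∂volume, ¬ (x ∉ Ω ∧ v x ≠ 0) := by
    rw [ae_iff]
    simpa using hvol
  have hstrip : ∀ i : Fin d, ∀ᵐ x ∂volume, ¬ (p i ≤ ⟪x, EuclideanSpace.single i (1 : ℝ)⟫ ∧
      ⟪x, EuclideanSpace.single i (1 : ℝ)⟫ ≤ p i + w i) → u x = 0 := by
    intro i
    filter_upwards [hae, hvu] with x h1 h2 h3
    have hx : x ∉ Ω := fun hx => h3 (by rw [LWB_inner]; exact hΩ x hx i)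
    by_contra hu
    exact h1 ⟨hx, by rw [h2]; exact hu⟩
  have hnorm : ∀ i : Fin d, ‖(EuclideanSpace.single i (1 : ℝ) : E d)‖ = 1 := by
    intro i
    simp
  have hpoi : ∀ i : Fin d, (Real.pi / w i) ^ 2 * ∫ x, u x ^ 2 ≤ ∫ x, (g x i) ^ 2 := by
    intro i
    have := hPDR d u g (EuclideanSpace.single i (1 : ℝ)) (p i) (w i) hH1 (hnorm i) (hw i) (hstrip i)
    simpa only [LWB_inner] using this
  have hgi : ∀ i : Fin d, Integrable (fun x => (g x i) ^ 2) volume := by
    intro i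
    have h1 : MemLp (fun x => ⟪g x, (EuclideanSpace.single i (1 : ℝ) : E d)⟫) 2 volume :=
      hH1.memLp_grad.inner_const _
    have h2 := h1.integrable_sq
    simpa only [LWB_inner] using h2
  have hsum : (∑ i, (Real.pi / w i) ^ 2) * ∫ x, u x ^ 2 ≤ ∫ x, ‖g x‖ ^ 2 := by
    calc (∑ i, (Real.pi / w i) ^ 2) * ∫ x, u x ^ 2 = ∑ i, (Real.pi / w i) ^ 2 * ∫ x, u x ^ 2 := by
          rw [Finset.sum_mul]
      _ ≤ ∑ i, ∫ x, (g x i) ^ 2 := Finset.sum_le_sum fun i _ => hpoi i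
      _ = ∫ x, ∑ i, (g x i) ^ 2 := by
          rw [integral_finsetSum _ fun i _ => hgi i]
      _ = ∫ x, ‖g x‖ ^ 2 := by
          congr 1
          funext x
          rw [EuclideanSpace.norm_sq_eq]
          simp
  have hint : Integrable (fun x => u x ^ 2) volume := hH1.memLp.integrable_sq
  have hnn : 0 ≤ᵐ[volume] fun x => u x ^ 2 := Eventually.of_forall fun x => sq_nonneg _
  have hpos : 0 < ∫ x, u x ^ 2 := by
    rcases (integral_nonneg_of_ae hnn).lt_or_eq with h | h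
    · exact h
    · exfalso
      apply hne
      have h0 := (integral_eq_zero_iff_of_nonneg_ae hnn hint).1 h.symm
      filter_upwards [h0] with x hx
      simpa using hx
  apply ENNReal.ofReal_le_ofReal
  rw [le_div_iff₀ hpos]
  exact hsum

end Pool.Agent.ConvexMin
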