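import Pool.Agent.Work.MP_05fb57_th.Interface4

/-! Block LWC (helper9): the lower bound without room. -/

namespace Pool.Agent.ConvexMin

open MeasureTheory Set Filter Topology
open scoped ENNReal RealInnerProductSpace ContDiff

theorem p_LWC (hLWE : S_LWE) : S_LWC := by
  intro Ω e f α β H I κ ε he hf hef hκ hI hκH h1 h2 hε0 hε1 hlt
  have hH : 0 < H := lt_of_le_of_lt hκ hκH
  have hHne : H + 2 * (0 : ℝ) ≠ 0 := by rw [mul_zero, add_zero]; exact hH.ne'
  have hIne : I + 2 * (0 : ℝ) ≠ 0 := by rw [mul_zero, add_zero]; exact hI.ne'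
  have hKne : H + 2 * (0 : ℝ) - κ ≠ 0 := by
    rw [mul_zero, add_zero]
    exact (sub_pos.2 hκH).ne'
  have k1 : ContinuousAt (fun η : ℝ => H + 2 * η) 0 := by fun_prop
  have k2 : ContinuousAt (fun η : ℝ => I + 2 * η) 0 := by fun_prop
  have k3 : ContinuousAt (fun η : ℝ => H + 2 * η - κ) 0 := by fun_prop
  have c1 : ContinuousAt (fun η : ℝ => (Real.pi / (H + 2 * η - κ)) ^ 2 -
      (Real.pi / (H + 2 * η)) ^ 2 - 21 * ε / (I + 2 * η) ^ 2) 0 := by
    refine ContinuousAt.sub (ContinuousAt.sub ?_ ?_) ?_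
    · exact (continuousAt_const.div k3 hKne).pow 2
    · exact (continuousAt_const.div k1 hHne).pow 2
    · exact continuousAt_const.div (k2.pow 2) (pow_ne_zero 2 hIne)
  have c2 : ∀ᶠ η in 𝓝 (0 : ℝ), 0 < (Real.pi / (H + 2 * η - κ)) ^ 2 -
      (Real.pi / (H + 2 * η)) ^ 2 - 21 * ε / (I + 2 * η) ^ 2 := by
    apply c1.eventually (lt_mem_nhds ?_)
    simp only [mul_zero, add_zero]
    linarith
  have hev : ∀ᶠ η in 𝓝[>] (0 : ℝ), ENNReal.ofReal ((Real.pi / (H + 2 * η)) ^ 2 +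
      (Real.pi / (I + 2 * η)) ^ 2 + ε / (2 * (I + 2 * η) ^ 2)) ≤ lam1 Ω := by
    filter_upwards [self_mem_nhdsWithin, nhdsWithin_le_nhds c2] with η hη hη2
    have hη' : 0 < η := hη
    apply hLWE Ω e f (α - η) (β - η) (H + 2 * η) (I + 2 * η) κ η ε he hf hef hη' hκ
      (by linarith) (by linarith) ?_ ?_ hε0 hε1 (by linarith)
    · intro x hx
      obtain ⟨⟨a1, a2⟩, a3, a4⟩ := h1 x hx
      refine ⟨⟨by linarith, by linarith⟩, by linarith, by linarith⟩
    · intro x hx hxf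
      have := h2 x hx (by linarith)
      linarith
  have c3 : ContinuousAt (fun η : ℝ => (Real.pi / (H + 2 * η)) ^ 2 +
      (Real.pi / (I + 2 * η)) ^ 2 + ε / (2 * (I + 2 * η) ^ 2)) 0 := by
    refine ContinuousAt.add (ContinuousAt.add ?_ ?_) ?_
    · exact (continuousAt_const.div k1 hHne).pow 2
    · exact (continuousAt_const.div k2 hIne).pow 2
    · exact continuousAt_const.div (continuousAt_const.mul (k2.pow 2))
        (mul_ne_zero two_ne_zero (pow_ne_zero 2 hIne))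
  have c4 : Tendsto (fun η : ℝ => ENNReal.ofReal ((Real.pi / (H + 2 * η)) ^ 2 +
      (Real.pi / (I + 2 * η)) ^ 2 + ε / (2 * (I + 2 * η) ^ 2))) (𝓝[>] 0)
      (𝓝 (ENNReal.ofReal ((Real.pi / H) ^ 2 + (Real.pi / I) ^ 2 + ε / (2 * I ^ 2)))) := by
    have h := (ENNReal.continuous_ofReal.continuousAt.comp c3).tendsto
    simp only [Function.comp_def, mul_zero, add_zero] at h
    exact h.mono_left nhdsWithin_le_nhds
  exact le_of_tendsto c4 hev

end Pool.Agent.ConvexMin
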