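import Pool.Agent.Work.MP_05fb57_th.Interface4

namespace Pool.Agent.ConvexMin

open MeasureTheory Set Filter Topology
open scoped ENNReal RealInnerProductSpace ContDiff

theorem LWE_bessel (x e f : E 2) (he : ‖e‖ = 1) (hf : ‖f‖ = 1) (hef : ⟪e, f⟫ = 0) :
    ⟪x, e⟫ ^ 2 + ⟪x, f⟫ ^ 2 ≤ ‖x‖ ^ 2 := by
  have h0 : 0 ≤ ‖x - (⟪x, e⟫ • e + ⟪x, f⟫ • f)‖ ^ 2 := sq_nonneg _
  have hee : ⟪e, e⟫ = (1 : ℝ) := by rw [real_inner_self_eq_norm_sq, he]; norm_num
  have hff : ⟪f, f⟫ = (1 : ℝ) := by rw [real_inner_self_eq_norm_sq, hf]; norm_num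
  have hfe : ⟪f, e⟫ = 0 := by rw [real_inner_comm]; exact hef
  have h1 : ‖x - (⟪x, e⟫ • e + ⟪x, f⟫ • f)‖ ^ 2 = ‖x‖ ^ 2 - (⟪x, e⟫ ^ 2 + ⟪x, f⟫ ^ 2) := by
    rw [norm_sub_sq_real, ← real_inner_self_eq_norm_sq (⟪x, e⟫ • e + ⟪x, f⟫ • f)]
    simp only [inner_add_left, inner_add_right, inner_smul_left, inner_smul_right, hee, hff, hef, hfe]
    simp
    ring
  linarith

/-- the limit of the difference quotient from the left -/
theorem LWE_lim (v : ℝ → ℝ) (s w : ℝ) (h : HasDerivAt v w s) :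
    Tendsto (fun t : ℝ => (v s - v (s - t)) / t) (𝓝[>] 0) (𝓝 w) := by
  have h1 : HasDerivAt (fun t : ℝ => v (s - t)) (-w) 0 := by
    have h2 : HasDerivAt v w (s - 0) := by simpa using h
    have h3 : HasDerivAt (fun t : ℝ => s - t) (-1) 0 := by
      simpa using (hasDerivAt_id (0 : ℝ)).const_sub s
    have h4 := h2.comp (0 : ℝ) h3
    simpa [Function.comp_def] using h4
  have h5 := h1.tendsto_slope_zero_right
  have h6 := h5.neg
  simp only [neg_neg] at h6
  refine h6.congr' ?_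
  filter_upwards [self_mem_nhdsWithin] with t ht
  have ht0 : t ≠ 0 := ne_of_gt ht
  simp only [smul_eq_mul, zero_add, sub_zero]
  field_simp
  ring

theorem LWE_int (u : E 2 → ℝ) (hu : MemLp u 2 volume) (V W : E 2 → ℝ) (hV : Measurable V) (hW : Measurable W) (K : ℝ)
    (hVK : ∀ x, |V x| ≤ K) (hWK : ∀ x, |W x| ≤ K) : Integrable (fun x => (W x - V x ^ 2) * u x ^ 2) volume := by
  have h1 : Integrable (fun x => u x ^ 2) volume := hu.integrable_sq
  refine h1.bdd_mul (c := K + K ^ 2) ((hW.sub (hV.pow_const 2)).aestronglyMeasurable) ?_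
  refine Eventually.of_forall fun x => ?_
  rw [Real.norm_eq_abs]
  have h2 := hVK x
  have h3 := hWK x
  have h4 : |W x - V x ^ 2| ≤ |W x| + |V x ^ 2| := abs_sub _ _
  have h5 : |V x ^ 2| ≤ K ^ 2 := by
    rw [abs_pow]
    exact pow_le_pow_left₀ (abs_nonneg _) h2 2
  linarith

theorem p_LWE (hGEN : S_GEN) (hVVF : S_VVF) (hCAP0 : S_CAP0) : S_LWE := by
  intro Ω e f α β H I κ η ε he hf hef hη hκ hηI hκH hΩ hΩ' hε hε' hεκ
  obtain ⟨v1, w1, K1, hv1m, hw1m, hv1K, hw1K, hv1L, hv1⟩ := hVVF I η ε hη hηI hε hε'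
  obtain ⟨v2, w2, K2, hv2m, hw2m, hv2K, hw2K, hv2L, hv2⟩ := hVVF H η 0 hη (by linarith) le_rfl (by norm_num)
  obtain ⟨v3, w3, K3, hv3m, hw3m, hv3K, hw3K, hv3L, hv3⟩ := hVVF (H - κ) η 0 hη (by linarith) le_rfl (by norm_num)
  have hfe : ⟪f, e⟫ = 0 := by rw [real_inner_comm]; exact hef
  have hee : ⟪e, e⟫ = (1 : ℝ) := by rw [real_inner_self_eq_norm_sq, he]; norm_num
  have hff : ⟪f, f⟫ = (1 : ℝ) := by rw [real_inner_self_eq_norm_sq, hf]; norm_num
  have hmeas : ∀ y : E 2, Measurable fun x : E 2 => ⟪x, y⟫ := fun y =>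
    (continuous_id.inner continuous_const).measurable
  unfold lam1
  refine le_iInf fun u => le_iInf fun g => le_iInf fun h => le_iInf fun hne => ?_
  obtain ⟨hH1, v, _, hvu, hcap⟩ := h
  have hvol : volume {x | x ∉ Ω ∧ v x ≠ 0} = 0 := hCAP0 2 _ hcap
  have hae : ∀ᵐ x ∂volume, ¬ (x ∉ Ω ∧ v x ≠ 0) := by
    rw [ae_iff]
    simpa using hvol
  have hmem : ∀ᵐ x ∂volume, u x ≠ 0 → x ∈ Ω := by
    filter_upwards [hae, hvu] with x h1 h2 h3
    by_contra hx
    exact h1 ⟨hx, by rw [h2]; exact h3⟩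
  -- the first field
  set V1 : E 2 → ℝ := fun x => v1 (⟪x, f⟫ - β) with hV1
  set W1 : E 2 → ℝ := fun x => w1 (⟪x, f⟫ - β) with hW1
  have hV1m : Measurable V1 := hv1m.comp ((hmeas f).sub_const β)
  have hW1m : Measurable W1 := hw1m.comp ((hmeas f).sub_const β)
  have hinn1 : ∀ (x : E 2) (t : ℝ), ⟪x - t • f, f⟫ = ⟪x, f⟫ - t := by
    intro x t
    rw [inner_sub_left, real_inner_smul_left, hff, mul_one]
  have hinn2 : ∀ (x : E 2) (t : ℝ), ⟪x - t • e, e⟫ = ⟪x, e⟫ - t := by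
    intro x t
    rw [inner_sub_left, real_inner_smul_left, hee, mul_one]
  have hinn3 : ∀ (x : E 2) (t : ℝ), ⟪x - t • e, f⟫ = ⟪x, f⟫ := by
    intro x t
    rw [inner_sub_left, real_inner_smul_left, hef, mul_zero, sub_zero]
  have g1 := hGEN 2 u g f V1 W1 K1 hH1 hf hV1m hW1m (fun x => hv1K _) (fun x => hw1K _)
    (by
      intro x t ht
      simp only [hV1, hinn1]
      have := hv1L (⟪x, f⟫ - β) (⟪x, f⟫ - t - β)
      rw [show ⟪x, f⟫ - β - (⟪x, f⟫ - t - β) = t by ring, abs_of_pos ht] at this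
      exact this)
    (by
      filter_upwards [hmem] with x hx hux
      have hxΩ := hx hux
      obtain ⟨_, h1, h2⟩ := hΩ x hxΩ
      have h3 := (hv1 (⟪x, f⟫ - β) (by linarith) (by linarith)).1
      have h4 := LWE_lim v1 _ _ h3
      refine h4.congr fun t => ?_
      simp only [hV1, hinn1]
      rw [show ⟪x, f⟫ - t - β = ⟪x, f⟫ - β - t by ring])
  -- the second field
  set V2 : E 2 → ℝ := fun x => if ⟪x, f⟫ - β < 56 / 100 * I then v2 (⟪x, e⟫ - α) else v3 (⟪x, e⟫ - α) with hV2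
  set W2 : E 2 → ℝ := fun x => if ⟪x, f⟫ - β < 56 / 100 * I then w2 (⟪x, e⟫ - α) else w3 (⟪x, e⟫ - α) with hW2
  have hset : MeasurableSet {x : E 2 | ⟪x, f⟫ - β < 56 / 100 * I} :=
    measurableSet_lt ((hmeas f).sub_const β) measurable_const
  have hV2m : Measurable V2 := Measurable.ite hset (hv2m.comp ((hmeas e).sub_const α)) (hv3m.comp ((hmeas e).sub_const α))
  have hW2m : Measurable W2 := Measurable.ite hset (hw2m.comp ((hmeas e).sub_const α)) (hw3m.comp ((hmeas e).sub_const α))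
  have hV2K : ∀ x, |V2 x| ≤ max K2 K3 := by
    intro x
    simp only [hV2]
    split_ifs
    · exact (hv2K _).trans (le_max_left _ _)
    · exact (hv3K _).trans (le_max_right _ _)
  have hW2K : ∀ x, |W2 x| ≤ max K2 K3 := by
    intro x
    simp only [hW2]
    split_ifs
    · exact (hw2K _).trans (le_max_left _ _)
    · exact (hw3K _).trans (le_max_right _ _)
  have g2 := hGEN 2 u g e V2 W2 (max K2 K3) hH1 he hV2m hW2m hV2K hW2K
    (by
      intro x t ht
      simp only [hV2, hinn3, hinn2]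
      split_ifs
      · have := hv2L (⟪x, e⟫ - α) (⟪x, e⟫ - t - α)
        rw [show ⟪x, e⟫ - α - (⟪x, e⟫ - t - α) = t by ring, abs_of_pos ht] at this
        exact this.trans (mul_le_mul_of_nonneg_right (le_max_left _ _) ht.le)
      · have := hv3L (⟪x, e⟫ - α) (⟪x, e⟫ - t - α)
        rw [show ⟪x, e⟫ - α - (⟪x, e⟫ - t - α) = t by ring, abs_of_pos ht] at this
        exact this.trans (mul_le_mul_of_nonneg_right (le_max_right _ _) ht.le))
    (by
      filter_upwards [hmem] with x hx hux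
      have hxΩ := hx hux
      obtain ⟨⟨h1, h2⟩, _, _⟩ := hΩ x hxΩ
      by_cases hlow : ⟪x, f⟫ - β < 56 / 100 * I
      · have h3 := (hv2 (⟪x, e⟫ - α) (by linarith) (by linarith)).1
        have h4 := LWE_lim v2 _ _ h3
        simp only [hW2, if_pos hlow]
        refine h4.congr fun t => ?_
        simp only [hV2, hinn3, hinn2, if_pos hlow]
        rw [show ⟪x, e⟫ - t - α = ⟪x, e⟫ - α - t by ring]
      · have h5 := hΩ' x hxΩ (by linarith [not_lt.1 hlow])
        have h3 := (hv3 (⟪x, e⟫ - α) (by linarith) (by linarith)).1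
        have h4 := LWE_lim v3 _ _ h3
        simp only [hW2, if_neg hlow]
        refine h4.congr fun t => ?_
        simp only [hV2, hinn3, hinn2, if_neg hlow]
        rw [show ⟪x, e⟫ - t - α = ⟪x, e⟫ - α - t by ring])
  have hi1 := LWE_int u hH1.memLp V1 W1 hV1m hW1m K1 (fun x => hv1K _) (fun x => hw1K _)
  have hi2 := LWE_int u hH1.memLp V2 W2 hV2m hW2m (max K2 K3) hV2K hW2K
  have hge : Integrable (fun x => ⟪g x, e⟫ ^ 2) volume := (hH1.memLp_grad.inner_const e).integrable_sq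
  have hgf : Integrable (fun x => ⟪g x, f⟫ ^ 2) volume := (hH1.memLp_grad.inner_const f).integrable_sq
  have hgn : Integrable (fun x => ‖g x‖ ^ 2) volume := hH1.memLp_grad.norm.integrable_sq
  have hint : Integrable (fun x => u x ^ 2) volume := hH1.memLp.integrable_sq
  have hptw : ∀ᵐ x ∂volume, ((Real.pi / H) ^ 2 + (Real.pi / I) ^ 2 + ε / (2 * I ^ 2)) * u x ^ 2 ≤
      (W1 x - V1 x ^ 2) * u x ^ 2 + (W2 x - V2 x ^ 2) * u x ^ 2 := by
    filter_upwards [hmem] with x hx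
    by_cases hux : u x = 0
    · rw [hux]
      simp
    · have hxΩ := hx hux
      obtain ⟨⟨h1, h2⟩, h3, h4⟩ := hΩ x hxΩ
      rw [← add_mul]
      refine mul_le_mul_of_nonneg_right ?_ (sq_nonneg _)
      obtain ⟨_, h5, h6⟩ := hv1 (⟪x, f⟫ - β) (by linarith) (by linarith)
      by_cases hlow : ⟪x, f⟫ - β < 56 / 100 * I
      · obtain ⟨_, h7, _⟩ := hv2 (⟪x, e⟫ - α) (by linarith) (by linarith)
        have h8 := h6 hlow.le
        simp only [hW2, hV2, if_pos hlow]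
        have h9 : (Real.pi / H) ^ 2 - 41 / 2 * 0 / H ^ 2 = (Real.pi / H) ^ 2 := by simp
        rw [h9] at h7
        linarith
      · have h10 := hΩ' x hxΩ (by linarith [not_lt.1 hlow])
        obtain ⟨_, h7, _⟩ := hv3 (⟪x, e⟫ - α) (by linarith) (by linarith)
        simp only [hW2, hV2, if_neg hlow]
        have h9 : (Real.pi / (H - κ)) ^ 2 - 41 / 2 * 0 / (H - κ) ^ 2 = (Real.pi / (H - κ)) ^ 2 := by simp
        rw [h9] at h7
        have h11 : 21 * ε / I ^ 2 - 41 / 2 * ε / I ^ 2 = ε / (2 * I ^ 2) := by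
          have hI : I ≠ 0 := by intro h0; rw [h0] at hηI; linarith
          field_simp
          ring
        linarith
  have hsum : ((Real.pi / H) ^ 2 + (Real.pi / I) ^ 2 + ε / (2 * I ^ 2)) * ∫ x, u x ^ 2 ≤ ∫ x, ‖g x‖ ^ 2 := by
    calc ((Real.pi / H) ^ 2 + (Real.pi / I) ^ 2 + ε / (2 * I ^ 2)) * ∫ x, u x ^ 2
        = ∫ x, ((Real.pi / H) ^ 2 + (Real.pi / I) ^ 2 + ε / (2 * I ^ 2)) * u x ^ 2 := by
          rw [integral_const_mul]
      _ ≤ ∫ x, ((W1 x - V1 x ^ 2) * u x ^ 2 + (W2 x - V2 x ^ 2) * u x ^ 2) :=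
          integral_mono_ae (hint.const_mul _) (hi1.add hi2) hptw
      _ = (∫ x, (W1 x - V1 x ^ 2) * u x ^ 2) + ∫ x, (W2 x - V2 x ^ 2) * u x ^ 2 := integral_add hi1 hi2
      _ ≤ (∫ x, ⟪g x, f⟫ ^ 2) + ∫ x, ⟪g x, e⟫ ^ 2 := add_le_add g1 g2
      _ = ∫ x, (⟪g x, f⟫ ^ 2 + ⟪g x, e⟫ ^ 2) := (integral_add hgf hge).symm
      _ ≤ ∫ x, ‖g x‖ ^ 2 := by
          refine integral_mono (hgf.add hge) hgn fun x => ?_
          have := LWE_bessel (g x) e f he hf hef
          linarith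
  have hnn : 0 ≤ᵐ[volume] fun x => u x ^ 2 := Eventually.of_forall fun x => sq_nonneg _
  have hpos : 0 < ∫ x, u x ^ 2 := by
    rcases (integral_nonneg_of_ae hnn).lt_or_eq with h | h
    · exact h
    · exfalso
      apply hne
      have h0 := (integral_eq_zero_iff_of_nonneg_ae hnn hint).1 h.symm
      filter_upwards [h0] with x hx
      simpa using hx
  apply ENNReal.ofReal_le_ofReal
  rw [le_div_iff₀ hpos]
  exact hsum

end Pool.Agent.ConvexMin
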