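import Pool.Agent.Work.MP_05fb57_th.Interface3

set_option linter.unusedVariables false

namespace Pool.Agent.ConvexMin

open MeasureTheory Set Filter Topology
open scoped ENNReal RealInnerProductSpace ContDiff

theorem SNI_sub (f : ℝ → ℝ) (a : ℝ) (ha : 0 < a) :
    (∫ t in (0)..a, f (Real.pi * t / a)) = a / Real.pi * ∫ t in (0)..Real.pi, f t := by
  have hpi := Real.pi_pos
  have h : (∫ t in (0)..a, f (Real.pi * t / a)) = ∫ t in (0)..a, f ((Real.pi / a) * t) := by
    apply intervalIntegral.integral_congr
    intro t _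
    show f (Real.pi * t / a) = f ((Real.pi / a) * t)
    congr 1
    ring
  rw [h, intervalIntegral.integral_comp_mul_left f (by positivity : Real.pi / a ≠ 0), mul_zero,
    div_mul_cancel₀ _ ha.ne', inv_div, smul_eq_mul]

theorem SNI_even (k : ℕ) (a : ℝ) (ha : 0 < a) :
    (∫ t in (0)..a, Real.sin (Real.pi * t / a) ^ (2 * k)) =
      a * ∏ i ∈ Finset.range k, ((2 * i + 1) / (2 * i + 2) : ℝ) := by
  have hpi := Real.pi_pos
  rw [SNI_sub (fun x => Real.sin x ^ (2 * k)) a ha, integral_sin_pow_even]
  field_simp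

theorem p_SNI : S_SNI := by
  intro a ha
  have h2 := SNI_even 1 a ha
  have h6 := SNI_even 3 a ha
  have h8 := SNI_even 4 a ha
  simp only [Finset.prod_range_succ, Finset.prod_range_zero] at h2 h6 h8
  norm_num at h2 h6 h8
  have hcont : ∀ m : ℕ, IntervalIntegrable (fun t => Real.sin (Real.pi * t / a) ^ m) volume 0 a := by
    intro m
    apply Continuous.intervalIntegrable
    fun_prop
  refine ⟨?_, ?_, ?_, ?_, ?_⟩
  · rw [h2]; ring
  · have e : (∫ t in (0)..a, Real.cos (Real.pi * t / a) ^ 2) =
        ∫ t in (0)..a, ((1 : ℝ) - Real.sin (Real.pi * t / a) ^ 2) := by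
      apply intervalIntegral.integral_congr
      intro t _
      show Real.cos (Real.pi * t / a) ^ 2 = 1 - Real.sin (Real.pi * t / a) ^ 2
      have := Real.sin_sq_add_cos_sq (Real.pi * t / a)
      linarith
    rw [e, intervalIntegral.integral_sub intervalIntegrable_const (hcont 2), h2,
      intervalIntegral.integral_const]
    simp only [smul_eq_mul, sub_zero]
    ring
  · rw [h6]; ring
  · rw [h8]; ring
  · have e : (∫ t in (0)..a, Real.cos (Real.pi * t / a) ^ 2 * Real.sin (Real.pi * t / a) ^ 6) =
        ∫ t in (0)..a, (Real.sin (Real.pi * t / a) ^ 6 - Real.sin (Real.pi * t / a) ^ 8) := by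
      apply intervalIntegral.integral_congr
      intro t _
      show Real.cos (Real.pi * t / a) ^ 2 * Real.sin (Real.pi * t / a) ^ 6 =
        Real.sin (Real.pi * t / a) ^ 6 - Real.sin (Real.pi * t / a) ^ 8
      have h := Real.sin_sq_add_cos_sq (Real.pi * t / a)
      have h' : Real.cos (Real.pi * t / a) ^ 2 = 1 - Real.sin (Real.pi * t / a) ^ 2 := by linarith
      rw [h']
      ring
    rw [e, intervalIntegral.integral_sub (hcont 6) (hcont 8), h6, h8]
    ring

end Pool.Agent.ConvexMin
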