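import Pool.Agent.Work.MP_05fb57_th.Interface4

/-!
# MP_05fb57_an: block SNK, second copy
-/

set_option autoImplicit false
set_option linter.unusedVariables false

namespace Pool.Agent.ConvexMin

open MeasureTheory Set Filter Topology
open scoped ENNReal RealInnerProductSpace ContDiff

theorem SNKx_val (m : ℕ) : JJ m = ∏ i ∈ Finset.range m, (2 * (i : ℝ) + 1) / (2 * i + 2) := by
  unfold JJ
  have h := intervalIntegral.integral_comp_mul_left (a := (0 : ℝ)) (b := 1)
    (fun x => Real.sin x ^ (2 * m)) Real.pi_ne_zero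
  rw [h, mul_zero, mul_one, integral_sin_pow_even, smul_eq_mul, ← mul_assoc,
    inv_mul_cancel₀ Real.pi_ne_zero, one_mul]

theorem SNKx_sin (a : ℝ) (m : ℕ) (ha : 0 < a) :
    (∫ t in (0)..a, Real.sin (Real.pi * t / a) ^ (2 * m)) = JJ m * a := by
  unfold JJ
  have h := intervalIntegral.integral_comp_div (a := (0 : ℝ)) (b := a)
    (fun x => Real.sin (Real.pi * x) ^ (2 * m)) ha.ne'
  rw [zero_div, div_self ha.ne', smul_eq_mul, mul_comm a] at h
  rw [← h]
  refine intervalIntegral.integral_congr fun t _ => ?_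
  show Real.sin (Real.pi * t / a) ^ (2 * m) = Real.sin (Real.pi * (t / a)) ^ (2 * m)
  rw [mul_div_assoc]

theorem SNKx_rec (m : ℕ) : (2 * (m : ℝ) + 2) * JJ (m + 1) = (2 * m + 1) * JJ m := by
  rw [SNKx_val, SNKx_val, Finset.prod_range_succ]
  have h : (2 * (m : ℝ) + 2) ≠ 0 := by positivity
  field_simp

theorem SNKx_cos (a : ℝ) (m : ℕ) (ha : 0 < a) :
    (∫ t in (0)..a, Real.cos (Real.pi * t / a) ^ 2 * Real.sin (Real.pi * t / a) ^ (2 * m)) =
      JJ (m + 1) / (2 * m + 1) * a := by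
  have h1 := SNKx_sin a m ha
  have h2 := SNKx_sin a (m + 1) ha
  have hc : ∀ k : ℕ, IntervalIntegrable (fun t => Real.sin (Real.pi * t / a) ^ (2 * k)) volume 0 a := by
    intro k
    apply Continuous.intervalIntegrable
    fun_prop
  have h3 : (∫ t in (0)..a, Real.cos (Real.pi * t / a) ^ 2 * Real.sin (Real.pi * t / a) ^ (2 * m)) =
      (∫ t in (0)..a, Real.sin (Real.pi * t / a) ^ (2 * m)) -
        ∫ t in (0)..a, Real.sin (Real.pi * t / a) ^ (2 * (m + 1)) := by
    rw [← intervalIntegral.integral_sub (hc m) (hc (m + 1))]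
    refine intervalIntegral.integral_congr fun t _ => ?_
    show Real.cos (Real.pi * t / a) ^ 2 * Real.sin (Real.pi * t / a) ^ (2 * m) =
      Real.sin (Real.pi * t / a) ^ (2 * m) - Real.sin (Real.pi * t / a) ^ (2 * (m + 1))
    rw [Real.cos_sq']
    ring
  rw [h3, h1, h2]
  have h4 := SNKx_rec m
  have h5 : (2 * (m : ℝ) + 1) ≠ 0 := by positivity
  have h6 : JJ (m + 1) / (2 * m + 1) = JJ m - JJ (m + 1) := by
    rw [div_eq_iff h5]
    linear_combination h4
  rw [h6]
  ring

theorem SNKx_nonneg (i : ℕ) : 0 < (2 * (i : ℝ) + 1) / (2 * i + 2) := by positivity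

theorem p_SNKx : S_SNK := by
  refine ⟨fun m => ⟨?_, ?_, SNKx_rec m⟩, ?_, ?_, fun a m ha => ⟨SNKx_sin a m ha, SNKx_cos a m ha⟩⟩
  · rw [SNKx_val]
    exact Finset.prod_pos fun i _ => SNKx_nonneg i
  · rw [SNKx_val]
    refine Finset.prod_le_one (fun i _ => (SNKx_nonneg i).le) fun i _ => ?_
    have h : 0 < 2 * (i : ℝ) + 2 := by positivity
    rw [div_le_one h]
    linarith
  · rw [SNKx_val, Finset.prod_range_zero]
  · rw [SNKx_val, Finset.prod_range_one]
    norm_num

end Pool.Agent.ConvexMin
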