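import Pool.Agent.Work.MP_05fb57_th.Interface3

set_option autoImplicit false

namespace Pool.Agent.ConvexMin

open MeasureTheory Set Filter Topology
open scoped ENNReal RealInnerProductSpace ContDiff

theorem TFGx_open {n : ℕ} (a : Fin (n + 1) → ℝ) (τ : ℝ) : IsOpen (comp a τ) := by
  have hp : ∀ i : Fin (n + 1), Continuous (fun x : E (n + 1) => x i) := fun i =>
    (EuclideanSpace.proj (𝕜 := ℝ) i).continuous
  have hV : Continuous (fun x : E (n + 1) => vv a x) := by unfold vv; fun_prop
  have hB : Continuous (fun x : E (n + 1) => bb a τ x) := by unfold bb; fun_prop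
  have : comp a τ = (⋂ i : Fin n, {x : E (n + 1) | 0 < x i.succ ∧ x i.succ < a i.succ}) ∩
      ({x | 0 < x 0} ∩ {x | x 0 < bb a τ x}) := by
    ext x; simp [comp]
  rw [this]
  refine IsOpen.inter (isOpen_iInter_of_finite fun i => ?_) ((isOpen_lt continuous_const (hp 0)).inter
    (isOpen_lt (hp 0) hB))
  exact (isOpen_lt continuous_const (hp _)).inter (isOpen_lt (hp _) continuous_const)

theorem TFGx_coord {d : ℕ} (f : E d → ℝ) (x : E d) (i : Fin d) :
    (gradient f x) i = fderiv ℝ f x (EuclideanSpace.single i 1) := by
  have h : ⟪gradient f x, (EuclideanSpace.single i 1 : E d)⟫ = fderiv ℝ f x (EuclideanSpace.single i 1) := by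
    unfold gradient
    rw [InnerProductSpace.toDual_symm_apply]
  rw [← h, EuclideanSpace.inner_single_right]
  simp

theorem p_TFG (hTFL : S_TFL) : S_TFG := by
  intro n a τ ha hτ
  obtain ⟨h1, -, -, h4, -⟩ := hTFL n a τ ha hτ
  constructor
  · intro x hx
    have hm : IsLocalMin (tf a τ) x := by
      refine Filter.Eventually.of_forall fun y => ?_
      rw [h4 x hx]
      exact h1 y
    unfold gradient
    rw [hm.fderiv_eq_zero, map_zero]
  · intro x hx
    have hbpos : ∀ y : E (n + 1), 0 < bb a τ y := by
      intro y
      have : 0 ≤ τ * vv a y ^ 6 := mul_nonneg hτ (by positivity)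
      have := ha 0
      unfold bb
      linarith
    obtain ⟨F, hF⟩ : ∃ F : E (n + 1) → ℝ, F = fun y => vv a y * Real.sin (Real.pi * y 0 / bb a τ y) :=
      ⟨_, rfl⟩
    have hev : tf a τ =ᶠ[𝓝 x] F := by
      filter_upwards [(TFGx_open a τ).mem_nhds hx] with y hy
      rw [hF]
      exact indicator_of_mem hy _
    have hdV : Differentiable ℝ (fun y : E (n + 1) => vv a y) := by
      unfold vv
      fun_prop
    have hdB : Differentiable ℝ (fun y : E (n + 1) => bb a τ y) := by
      unfold bb
      fun_prop
    have hp0 : Differentiable ℝ (fun y : E (n + 1) => y 0) := by fun_prop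
    have hdF : Differentiable ℝ F := by
      rw [hF]
      simp only [div_eq_mul_inv]
      intro y
      have hI : DifferentiableAt ℝ (fun y : E (n + 1) => (bb a τ y)⁻¹) y :=
        DifferentiableAt.comp y (differentiableAt_inv (hbpos y).ne') (hdB y)
      exact (hdV y).mul (((hp0 y).const_mul Real.pi).mul hI).sin
    have hg : gradient (tf a τ) x = gradient F x := by
      unfold gradient
      rw [hev.fderiv_eq]
    have hline : ∀ i : Fin (n + 1), ∀ D : ℝ,
        HasDerivAt (fun t : ℝ => F (x + t • (EuclideanSpace.single i 1 : E (n + 1)))) D 0 →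
        (gradient F x) i = D := by
      intro i D hD
      rw [TFGx_coord]
      have h5 := ((hdF x).hasFDerivAt).hasLineDerivAt (EuclideanSpace.single i 1 : E (n + 1))
      exact (show HasDerivAt (fun t : ℝ => F (x + t • (EuclideanSpace.single i 1 : E (n + 1)))) _ 0
        from h5).unique hD
    have hx0 : ∀ (i j : Fin (n + 1)) (t : ℝ), (x + t • (EuclideanSpace.single i 1 : E (n + 1))) j =
        x j + if j = i then t else 0 := by
      intro i j t
      simp [EuclideanSpace.single_apply]
    rw [hg, EuclideanSpace.norm_sq_eq, Fin.sum_univ_succ]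
    congr 1
    · rw [Real.norm_eq_abs, sq_abs, hline 0 (vv a x * (Real.pi / bb a τ x) * Real.cos (Real.pi * x 0 / bb a τ x))]
      have hv : ∀ t : ℝ, vv a (x + t • (EuclideanSpace.single 0 1 : E (n + 1))) = vv a x := by
        intro t
        unfold vv
        refine Finset.prod_congr rfl fun i _ => ?_
        rw [hx0, if_neg (Fin.succ_ne_zero i), add_zero]
      have hf : (fun t : ℝ => F (x + t • (EuclideanSpace.single 0 1 : E (n + 1)))) =
          fun t => vv a x * Real.sin (Real.pi * (x 0 + t) / bb a τ x) := by
        funext t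
        rw [hF]
        simp only [bb, hv, hx0, if_true]
      rw [hf]
      have h6 : HasDerivAt (fun t : ℝ => Real.pi * (x 0 + t) / bb a τ x) (Real.pi * 1 / bb a τ x) 0 :=
        (((hasDerivAt_id (0 : ℝ)).const_add (x 0)).const_mul Real.pi).div_const _
      have h7 := (h6.sin).const_mul (vv a x)
      refine h7.congr_deriv ?_
      rw [add_zero]
      ring
    · refine Finset.sum_congr rfl fun k _ => ?_
      rw [Real.norm_eq_abs, sq_abs, hline k.succ (dv a k x * (Real.sin (Real.pi * x 0 / bb a τ x) -
      6 * (τ * vv a x ^ 6) * (Real.pi * x 0 / bb a τ x ^ 2) * Real.cos (Real.pi * x 0 / bb a τ x)))]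
      obtain ⟨c, hc⟩ : ∃ c, c = ∏ j ∈ Finset.univ.erase k, Real.sin (Real.pi * x j.succ / a j.succ) :=
        ⟨_, rfl⟩
      have hvx : vv a x = Real.sin (Real.pi * x k.succ / a k.succ) * c := by
        unfold vv
        rw [← Finset.mul_prod_erase Finset.univ _ (Finset.mem_univ k), hc]
      have hv : ∀ t : ℝ, vv a (x + t • (EuclideanSpace.single k.succ 1 : E (n + 1))) =
          Real.sin (Real.pi * (x k.succ + t) / a k.succ) * c := by
        intro t
        unfold vv
        rw [← Finset.mul_prod_erase Finset.univ _ (Finset.mem_univ k), hc, hx0, if_pos rfl]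
        congr 1
        refine Finset.prod_congr rfl fun i hi => ?_
        rw [hx0, if_neg (fun h => Finset.ne_of_mem_erase hi (Fin.succ_injective _ h)), add_zero]
      have h8 : HasDerivAt (fun t : ℝ => vv a (x + t • (EuclideanSpace.single k.succ 1 : E (n + 1))))
          (dv a k x) 0 := by
        have h6 : HasDerivAt (fun t : ℝ => Real.pi * (x k.succ + t) / a k.succ)
            (Real.pi * 1 / a k.succ) 0 :=
          (((hasDerivAt_id (0 : ℝ)).const_add (x k.succ)).const_mul Real.pi).div_const _
        have h7 := (h6.sin).mul_const c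
        rw [show (fun t : ℝ => vv a (x + t • (EuclideanSpace.single k.succ 1 : E (n + 1)))) = _ from
          funext hv]
        refine h7.congr_deriv ?_
        unfold dv
        rw [← hc, add_zero]
        ring
      have hv0 : vv a (x + (0 : ℝ) • (EuclideanSpace.single k.succ 1 : E (n + 1))) = vv a x := by
        rw [zero_smul, add_zero]
      have h9 : HasDerivAt (fun t : ℝ => bb a τ (x + t • (EuclideanSpace.single k.succ 1 : E (n + 1))))
          (τ * (6 * vv a x ^ 5 * dv a k x)) 0 := by
        have h := ((h8.pow 6).const_mul τ).const_add (a 0)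
        rw [hv0] at h
        exact h.congr_deriv (by norm_num)
      have hb0 : bb a τ (x + (0 : ℝ) • (EuclideanSpace.single k.succ 1 : E (n + 1))) = bb a τ x := by
        rw [zero_smul, add_zero]
      have h10 : HasDerivAt (fun t : ℝ => Real.pi * x 0 /
          bb a τ (x + t • (EuclideanSpace.single k.succ 1 : E (n + 1))))
          (-(Real.pi * x 0 * (τ * (6 * vv a x ^ 5 * dv a k x))) / bb a τ x ^ 2) 0 := by
        have h := (hasDerivAt_const (0 : ℝ) (Real.pi * x 0)).div h9 (by rw [hb0]; exact (hbpos x).ne')
        rw [hb0] at h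
        exact h.congr_deriv (by ring)
      have h11 := h8.mul h10.sin
      rw [hv0, hb0] at h11
      have hf : (fun t : ℝ => F (x + t • (EuclideanSpace.single k.succ 1 : E (n + 1)))) =
          (fun t : ℝ => vv a (x + t • (EuclideanSpace.single k.succ 1 : E (n + 1)))) *
          fun t => Real.sin (Real.pi * x 0 /
            bb a τ (x + t • (EuclideanSpace.single k.succ 1 : E (n + 1)))) := by
        funext t
        rw [hF]
        simp only [Pi.mul_apply, hx0, if_neg (Fin.succ_ne_zero k).symm, add_zero]
      rw [hf]
      refine h11.congr_deriv ?_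
      ring

end Pool.Agent.ConvexMin
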