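import Pool.Agent.Work.MP_05fb57_th.Interface

/-! # Block TRL: translations (after MP_8b3296_mp/Translate.lean, MP_8f8f86_mp/Kinetic.lean) -/

open MeasureTheory Metric Set Filter Topology
open scoped ContDiff Convolution ENNReal

namespace Pool.Agent.ConvexMin

variable {d : ℕ}

/-- weak gradients -/
def TRL_W (f : E d → ℝ) (g : E d → E d) : Prop :=
  LocallyIntegrable f ∧ LocallyIntegrable g ∧
    ∀ φ : E d → ℝ, ContDiff ℝ ∞ φ → HasCompactSupport φ → ∀ v : E d,
      ∫ x, f x * fderiv ℝ φ x v = - ∫ x, inner ℝ (g x) v * φ x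

theorem TRL_abs_integral_mul_le {a b : E d → ℝ} (ha : MemLp a 2) (hb : MemLp b 2) :
    |∫ x, a x * b x| ≤ √(∫ x, a x ^ 2) * √(∫ x, b x ^ 2) := by
  have h1 : |∫ x, a x * b x| ≤ ∫ x, |a x| * |b x| := by
    have := norm_integral_le_integral_norm (μ := (volume : Measure (E d))) (fun x => a x * b x)
    simpa [Real.norm_eq_abs, abs_mul] using this
  have h2 := integral_mul_le_Lp_mul_Lq_of_nonneg (μ := (volume : Measure (E d)))
    (f := fun x => |a x|) (g := fun x => |b x|) (p := 2) (q := 2) (by constructor <;> norm_num)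
    (Filter.Eventually.of_forall fun x => abs_nonneg _) (Filter.Eventually.of_forall fun x => abs_nonneg _)
    (by simpa using ha.norm) (by simpa using hb.norm)
  refine h1.trans (h2.trans (le_of_eq ?_))
  simp only [Real.sqrt_eq_rpow]
  congr 2 <;> · apply integral_congr_ae; filter_upwards with x; norm_cast; simp

/-- Auxiliary: `z ↦ ∫ f(x) φ(x - z) dx` has derivative `v ↦ ∫ ⟨g(x), v⟩ φ(x - z) dx`. -/
theorem TRL_hasFDerivAt_corr {f : E d → ℝ} {g : E d → E d} (hw : TRL_W f g)
    {φ : E d → ℝ} (hφ : ContDiff ℝ ∞ φ) (hc : HasCompactSupport φ) (z : E d) :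
    ∃ L : E d →L[ℝ] ℝ, HasFDerivAt (fun z => ∫ x, f x * φ (x - z)) L z ∧
      ∀ v, L v = ∫ x, inner ℝ (g x) v * φ (x - z) := by
  have hc' : HasCompactSupport (fun y => φ (-y)) := hc.comp_homeomorph (Homeomorph.neg (E d))
  have hφ' : ContDiff ℝ ∞ (fun y => φ (-y)) := hφ.comp contDiff_neg
  have key := HasCompactSupport.hasFDerivAt_convolution_right (μ := (volume : Measure (E d)))
    (ContinuousLinearMap.mul ℝ ℝ) hc' hw.1 (hφ'.of_le (by simp)) z
  have e : (f ⋆[ContinuousLinearMap.mul ℝ ℝ, volume] (fun y => φ (-y)))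
      = fun z => ∫ x, f x * φ (x - z) := by
    funext z; simp [convolution_def]
  rw [e] at key
  refine ⟨_, key, fun v => ?_⟩
  rw [convolution_precompR_apply (ContinuousLinearMap.mul ℝ ℝ) hw.1 (hc'.fderiv (𝕜 := ℝ))
    (hφ'.continuous_fderiv (by simp)) z v]
  rw [convolution_def]
  -- translate the test function
  have hψ : ContDiff ℝ ∞ (fun x => φ (x - z)) := hφ.comp (contDiff_id.sub contDiff_const)
  have hcψ : HasCompactSupport (fun x => φ (x - z)) := hc.comp_homeomorph (Homeomorph.subRight z)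
  have h3 := hw.2.2 _ hψ hcψ v
  have h4 : ∀ x, fderiv ℝ (fun x => φ (x - z)) x v = - fderiv ℝ (fun y => φ (-y)) (z - x) v := by
    intro x
    have hd : DifferentiableAt ℝ φ (x - z) := hφ.contDiffAt.differentiableAt (by simp)
    have e1 : HasFDerivAt (fun x => φ (x - z)) ((fderiv ℝ φ (x - z)).comp (ContinuousLinearMap.id ℝ (E d))) x := by
      exact hd.hasFDerivAt.comp x ((hasFDerivAt_id x).sub_const z)
    have hd' : DifferentiableAt ℝ φ (-(z - x)) := by simpa using hd
    have e2 : HasFDerivAt (fun y => φ (-y)) ((fderiv ℝ φ (-(z-x))).comp (-(ContinuousLinearMap.id ℝ (E d)))) (z - x) := by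
      exact hd'.hasFDerivAt.comp (z - x) ((hasFDerivAt_id (z - x)).neg)
    rw [e1.fderiv, e2.fderiv]
    simp
  simp only [h4] at h3
  simp only [ContinuousLinearMap.mul_apply']
  have h5 : ∫ x, f x * (fderiv ℝ (fun y => φ (-y)) (z - x)) v = - ∫ x, f x * -(fderiv ℝ (fun y => φ (-y)) (z - x)) v := by
    rw [← integral_neg]; congr 1; ext x; ring
  rw [h5, h3, neg_neg]

/-- The correlation `∫ f (φ(·-h) - φ)` is bounded by `‖⟨g,h⟩‖₂ ‖φ‖₂`. -/
theorem TRL_abs_integral_sub_le_dir {f : E d → ℝ} {g : E d → E d} (hw : TRL_W f g)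
    (hg : MemLp g 2)
    {φ : E d → ℝ} (hφ : ContDiff ℝ ∞ φ) (hc : HasCompactSupport φ) (h : E d) :
    |(∫ x, f x * φ (x - h)) - ∫ x, f x * φ x| ≤
      √(∫ x, inner ℝ (g x) h ^ 2) * √(∫ x, φ x ^ 2) := by
  set F : E d → ℝ := fun z => ∫ x, f x * φ (x - z) with hF
  have hmem : ∀ z, MemLp (fun x => φ (x - z)) 2 := fun z =>
    (hφ.continuous.comp (continuous_id.sub continuous_const)).memLp_of_hasCompactSupport
      (hc.comp_homeomorph (Homeomorph.subRight z))
  have hgv : MemLp (fun x => inner ℝ (g x) h) 2 := by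
    have := hg.const_inner (𝕜 := ℝ) h
    refine this.congr_norm ?_ ?_
    · exact (hg.1.inner aestronglyMeasurable_const)
    · filter_upwards with x; rw [real_inner_comm]
  have hder : ∀ t : ℝ, ∃ d : ℝ, HasDerivAt (fun t : ℝ => F (t • h)) d t ∧
      |d| ≤ √(∫ x, inner ℝ (g x) h ^ 2) * √(∫ x, φ x ^ 2) := by
    intro t
    obtain ⟨L, hL, hLv⟩ := TRL_hasFDerivAt_corr hw hφ hc (t • h)
    have h1 : HasDerivAt (fun t : ℝ => t • h) ((1 : ℝ) • h) t := (hasDerivAt_id t).smul_const h
    have h2 : HasDerivAt (F ∘ fun t : ℝ => t • h) (L ((1 : ℝ) • h)) t :=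
      HasFDerivAt.comp_hasDerivAt (l := F) (f := fun t : ℝ => t • h) t hL h1
    refine ⟨_, h2, ?_⟩
    rw [one_smul, hLv]
    refine (TRL_abs_integral_mul_le hgv (hmem (t • h))).trans (le_of_eq ?_)
    rw [integral_sub_right_eq_self (fun x => φ x ^ 2) (t • h)]
  have := Convex.norm_image_sub_le_of_norm_deriv_le (s := (univ : Set ℝ))
    (f := fun t : ℝ => F (t • h)) (C := √(∫ x, inner ℝ (g x) h ^ 2) * √(∫ x, φ x ^ 2))
    (fun t _ => by obtain ⟨d, hd, -⟩ := hder t; exact hd.differentiableAt)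
    (fun t _ => by obtain ⟨d, hd, hd2⟩ := hder t; rw [hd.deriv]; exact hd2)
    convex_univ (mem_univ (0 : ℝ)) (mem_univ (1 : ℝ))
  simpa [hF, Real.norm_eq_abs] using this

/-- The difference quotient estimate: `∫ |f(x+h) - f(x)|² dx ≤ ∫ ⟨∇f, h⟩²`. -/
theorem TRL_integral_translate_sub_sq_le_dir {f : E d → ℝ} {g : E d → E d} (hf : MemLp f 2)
    (hw : TRL_W f g) (hg : MemLp g 2) (h : E d) :
    ∫ x, (f (x + h) - f x) ^ 2 ≤ ∫ x, inner ℝ (g x) h ^ 2 := by
  set G := ∫ x, inner ℝ (g x) h ^ 2 with hG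
  have hG0 : 0 ≤ G := integral_nonneg fun x => by positivity
  set δ : E d → ℝ := fun x => f (x + h) - f x with hδ
  have hfh : MemLp (fun x => f (x + h)) 2 := by
    simpa [Function.comp_def] using hf.comp_measurePreserving (measurePreserving_add_right volume h)
  have hδm : MemLp δ 2 := hfh.sub hf
  set M := √G with hM
  have hM0 : 0 ≤ M := by positivity
  -- the bound against test functions
  have htest : ∀ φ : E d → ℝ, ContDiff ℝ ∞ φ → HasCompactSupport φ →
      |∫ x, δ x * φ x| ≤ M * √(∫ x, φ x ^ 2) := by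
    intro φ hφ hc
    have hφm : MemLp φ 2 := hφ.continuous.memLp_of_hasCompactSupport hc
    have e1 : ∫ x, δ x * φ x = (∫ x, f x * φ (x - h)) - ∫ x, f x * φ x := by
      have e2 : ∫ x, f x * φ (x - h) = ∫ x, f (x + h) * φ x := by
        rw [← integral_add_right_eq_self (fun x => f x * φ (x - h)) h]
        simp
      rw [e2, ← integral_sub]
      · congr 1; ext x; simp [hδ]; ring
      · exact hfh.integrable_mul hφm
      · exact hf.integrable_mul hφm
    rw [e1]
    exact TRL_abs_integral_sub_le_dir hw hg hφ hc h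
  -- pass to `L²`
  have hcl : ∀ u : Lp ℝ 2 (volume : Measure (E d)), |inner ℝ (hδm.toLp) u| ≤ M * ‖u‖ := by
    intro u
    refine (Lp.dense_hasCompactSupport_contDiff (E := E d) (F := ℝ) (p := 2)
      (μ := (volume : Measure (E d))) (by simp)).induction (P := fun u => |inner ℝ (hδm.toLp) u| ≤ M * ‖u‖) ?_ ?_ u
    · rintro u ⟨φ, hu, hc, hφ⟩
      have hφm : MemLp φ 2 := hφ.continuous.memLp_of_hasCompactSupport hc
      have hueq : u = hφm.toLp := by
        apply Lp.ext
        exact hu.trans hφm.coeFn_toLp.symm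
      rw [hueq]
      have e1 : inner ℝ (hδm.toLp) (hφm.toLp) = ∫ x, δ x * φ x := by
        rw [L2.inner_def]
        apply integral_congr_ae
        filter_upwards [hδm.coeFn_toLp, hφm.coeFn_toLp] with x h1 h2
        rw [h1, h2]; simp [mul_comm]
      have e2 : ‖hφm.toLp‖ = √(∫ x, φ x ^ 2) := by
        rw [← Real.sqrt_sq (norm_nonneg _), ← real_inner_self_eq_norm_sq, L2.inner_def]
        congr 1
        apply integral_congr_ae
        filter_upwards [hφm.coeFn_toLp] with x h1
        rw [h1]; simp [sq]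
      rw [e1, e2]
      exact htest φ hφ hc
    · exact isClosed_le (by fun_prop) (by fun_prop)
  have h1 := hcl hδm.toLp
  rw [real_inner_self_eq_norm_sq, abs_of_nonneg (by positivity)] at h1
  have h2 : ‖hδm.toLp‖ ≤ M := by
    by_contra hcon
    push Not at hcon
    nlinarith [norm_nonneg hδm.toLp]
  have h3 : ∫ x, δ x ^ 2 = ‖hδm.toLp‖ ^ 2 := by
    rw [← real_inner_self_eq_norm_sq, L2.inner_def]
    apply integral_congr_ae
    filter_upwards [hδm.coeFn_toLp] with x h1
    rw [h1]; simp [sq]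
  rw [h3]
  calc ‖hδm.toLp‖ ^ 2 ≤ M ^ 2 := by gcongr
    _ = G := by rw [hM, Real.sq_sqrt hG0]

theorem p_TRL : S_TRL := by
  intro d u g h v
  exact TRL_integral_translate_sub_sq_le_dir h.memLp
    ⟨h.memLp.locallyIntegrable (by norm_num), h.memLp_grad.locallyIntegrable (by norm_num), h.weak⟩ h.memLp_grad v

end Pool.Agent.ConvexMin
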