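import Pool.Agent.Work.MP_05fb57_th.Interface4

set_option autoImplicit false

namespace Pool.Agent.ConvexMin

open MeasureTheory Set Filter Topology
open scoped ENNReal RealInnerProductSpace ContDiff

theorem UBK_Wc {n : ℕ} (a : Fin (n + 1) → ℝ) (ha : ∀ j, 0 < a j) (c : ℝ) (hc : 0 < c) : 0 < Wc a c := by
  unfold Wc
  exact Finset.prod_pos fun i _ => mul_pos hc (ha _)

theorem UBK_Wc0 {n : ℕ} (a : Fin (n + 1) → ℝ) (ha : ∀ j, 0 < a j) (c : ℝ) (hc : 0 ≤ c) : 0 ≤ Wc a c := by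
  unfold Wc
  exact Finset.prod_nonneg fun i _ => mul_nonneg hc (ha _).le

theorem UBK_JJ (m : ℕ) : 0 ≤ JJ m := by
  unfold JJ
  refine intervalIntegral.integral_nonneg (by norm_num) fun t _ => ?_
  rw [pow_mul]
  positivity

theorem p_UBK (hLPH : S_LPH) (hCMK : S_CMK) (hTFK : S_TFK) (hI2K : S_I2K) (hIGK : S_IGK) (hCAPE : S_CAPE) :
    S_UBK := by
  intro n a k τ hk ha hτ
  obtain ⟨-, ⟨C, h1⟩, h2, h3, -⟩ := hTFK n a k τ ha hτ
  have h5 := hI2K n a k τ ha hτ
  have h6 := hIGK n a k τ hk ha hτ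
  obtain ⟨c1, -, c3⟩ := hCAPE (n + 1)
  have hH : IsH10 (compk a k τ) (tfk a k τ) (gradient (tfk a k τ)) := by
    refine ⟨hLPH (n + 1) _ C h1 h2, tfk a k τ, c3 _ h1.continuous, Filter.EventuallyEq.rfl, ?_⟩
    have : {x | x ∉ compk a k τ ∧ tfk a k τ x ≠ 0} = ∅ := by
      ext x
      simp only [mem_setOf_eq, mem_empty_iff_false, iff_false, not_and, not_not]
      exact fun hx => h3 x hx
    rw [this, c1]
  have hDD : 0 < DDk a k τ := by
    unfold DDk
    have w1 := UBK_Wc a ha (1 / 2) (by norm_num)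
    have w2 := UBK_Wc0 a ha (JJ (k + 1)) (UBK_JJ (k + 1))
    have ha0 := ha 0
    have t1 : 0 < a 0 / 2 * Wc a (1 / 2) := by positivity
    have t2 : 0 ≤ τ / 2 * Wc a (JJ (k + 1)) := by positivity
    linarith
  have hne : ¬ tfk a k τ =ᵐ[volume] 0 := by
    intro h
    have h7 : ∫ x, tfk a k τ x ^ 2 = 0 := by
      rw [← integral_zero (E (n + 1)) ℝ]
      apply integral_congr_ae
      filter_upwards [h] with x hx
      rw [hx]
      simp
    rw [h5] at h7
    exact hDD.ne' h7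
  have h8 : lam1 (compk a k τ) ≤
      ENNReal.ofReal ((∫ x, ‖gradient (tfk a k τ) x‖ ^ 2) / ∫ x, tfk a k τ x ^ 2) :=
    iInf_le_of_le (tfk a k τ) (iInf_le_of_le (gradient (tfk a k τ)) (iInf_le_of_le hH (iInf_le_of_le hne le_rfl)))
  refine h8.trans ?_
  apply ENNReal.ofReal_le_ofReal
  rw [h5]
  calc (∫ x, ‖gradient (tfk a k τ) x‖ ^ 2) / DDk a k τ
      ≤ ((lam' a + (Real.pi / a 0) ^ 2) * DDk a k τ - (Real.pi / a 0) ^ 2 * τ * Wc a (JJ (k + 1)) +
          CCk a k * τ ^ 2) / DDk a k τ := div_le_div_of_nonneg_right h6 hDD.le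
    _ = (lam' a + (Real.pi / a 0) ^ 2) -
          ((Real.pi / a 0) ^ 2 * τ * Wc a (JJ (k + 1)) - CCk a k * τ ^ 2) / DDk a k τ := by
        generalize DDk a k τ = D at hDD
        generalize (Real.pi / a 0) ^ 2 = p
        have := hDD.ne'
        field_simp
        ring

end Pool.Agent.ConvexMin
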