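import Pool.Agent.Work.MP_05fb57_th.Interface4

/-!
# Block VVF: the function of one variable
-/

namespace Pool.Agent.ConvexMin

open MeasureTheory Set Filter Topology
open scoped ENNReal RealInnerProductSpace ContDiff

noncomputable def VVF_u (I s : ℝ) : ℝ := Real.cos (Real.pi * s / I) / Real.sin (Real.pi * s / I)

noncomputable def VVF_f (I ε s : ℝ) : ℝ :=
  1 / I * (-Real.pi * VVF_u I s + ε * (Real.sin (Real.pi * s / I) *
    (11 / 10 - Real.cos (Real.pi * s / I))))

noncomputable def VVF_w (I ε s : ℝ) : ℝ :=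
  1 / I ^ 2 * (Real.pi ^ 2 * (1 + VVF_u I s ^ 2) + ε * Real.pi *
    (1 + 11 / 10 * Real.cos (Real.pi * s / I) - 2 * Real.cos (Real.pi * s / I) ^ 2))

theorem VVF_sin_pos {I s : ℝ} (h0 : 0 < s) (h1 : s < I) : 0 < Real.sin (Real.pi * s / I) := by
  have hI : 0 < I := h0.trans h1
  apply Real.sin_pos_of_pos_of_lt_pi
  · have := Real.pi_pos
    positivity
  · rw [div_lt_iff₀ hI]
    exact mul_lt_mul_of_pos_left h1 Real.pi_pos

theorem VVF_deriv {I ε s : ℝ} (h0 : 0 < s) (h1 : s < I) :
    HasDerivAt (VVF_f I ε) (VVF_w I ε s) s := by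
  have hI : 0 < I := h0.trans h1
  have hS := VVF_sin_pos h0 h1
  have hl : HasDerivAt (fun s : ℝ => Real.pi * s / I) (Real.pi / I) s := by
    have := ((hasDerivAt_id s).const_mul Real.pi).div_const I
    simpa using this
  have hc : HasDerivAt (fun s : ℝ => Real.cos (Real.pi * s / I))
      (-Real.sin (Real.pi * s / I) * (Real.pi / I)) s := hl.cos
  have hs : HasDerivAt (fun s : ℝ => Real.sin (Real.pi * s / I))
      (Real.cos (Real.pi * s / I) * (Real.pi / I)) s := hl.sin
  have hu := hc.div hs hS.ne'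
  have hz := (hs.mul (hc.const_sub (11 / 10))).const_mul ε
  have hall := ((hu.const_mul (-Real.pi)).add hz).const_mul (1 / I)
  have hsc := Real.sin_sq_add_cos_sq (Real.pi * s / I)
  refine hall.congr_deriv ?_
  unfold VVF_w VVF_u
  set S := Real.sin (Real.pi * s / I)
  set C := Real.cos (Real.pi * s / I)
  have hS2 : S ^ 2 ≠ 0 := by positivity
  have e1 : (-S * (Real.pi / I) * S - C * (C * (Real.pi / I))) / S ^ 2 =
      -(1 + (C / S) ^ 2) * (Real.pi / I) := by
    rw [div_pow, div_eq_iff hS2]
    field_simp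
    ring
  rw [e1]
  have hI2 : (1 : ℝ) / I ^ 2 = 1 / I * (1 / I) := by rw [pow_two, one_div_mul_one_div]
  rw [hI2]
  have e2 : Real.pi / I = Real.pi * (1 / I) := by ring
  rw [e2]
  have hS3 : S ^ 2 = 1 - C ^ 2 := by linarith
  linear_combination (1 / I * (1 / I) * ε * Real.pi) * hS3

theorem VVF_key {I ε s : ℝ} (h0 : 0 < s) (h1 : s < I) :
    VVF_w I ε s - VVF_f I ε s ^ 2 = 1 / I ^ 2 * (Real.pi ^ 2 + ε * Real.pi *
      (1 + 33 / 10 * Real.cos (Real.pi * s / I) - 4 * Real.cos (Real.pi * s / I) ^ 2) -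
      ε ^ 2 * (Real.sin (Real.pi * s / I) * (11 / 10 - Real.cos (Real.pi * s / I))) ^ 2) := by
  have hS := VVF_sin_pos h0 h1
  have hu : VVF_u I s * Real.sin (Real.pi * s / I) = Real.cos (Real.pi * s / I) := by
    unfold VVF_u
    field_simp
  unfold VVF_w VVF_f
  have hI2 : (1 : ℝ) / I ^ 2 = 1 / I * (1 / I) := by rw [pow_two, one_div_mul_one_div]
  rw [hI2]
  set S := Real.sin (Real.pi * s / I)
  set C := Real.cos (Real.pi * s / I)
  set u := VVF_u I s
  linear_combination (1 / I * (1 / I) * 2 * ε * Real.pi * (11 / 10 - C)) * hu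

/-- VVF. -/
theorem p_VVF : S_VVF := by
  intro I η ε hη hI hε0 hε1
  have hIpos : 0 < I := by linarith
  let a : ℝ := η / 2
  let b : ℝ := I - η / 2
  have ha : 0 < a := by simp only [a]; linarith
  have hb : b < I := by simp only [b]; linarith
  have hab : a ≤ b := by simp only [a, b]; linarith
  let cl : ℝ → ℝ := fun s => max a (min s b)
  have hcl : ∀ s, cl s ∈ Icc a b := fun s => ⟨le_max_left _ _, max_le hab (min_le_right _ _)⟩
  have hclm : Measurable cl := measurable_const.max (measurable_id.min measurable_const)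
  have hclL : ∀ s t, |cl s - cl t| ≤ |s - t| := by
    intro s t
    have h1 : |max a (min s b) - max a (min t b)| ≤ |min s b - min t b| := by
      have := abs_max_sub_max_le_max a (min s b) a (min t b)
      simpa using this
    have h2 : |min s b - min t b| ≤ |s - t| := by
      have := abs_min_sub_min_le_max s b t b
      simpa using this
    exact h1.trans h2
  have hpos : ∀ x ∈ Icc a b, 0 < x ∧ x < I := fun x hx => ⟨ha.trans_le hx.1, hx.2.trans_lt hb⟩
  have hfc : ContinuousOn (VVF_f I ε) (Icc a b) := fun x hx =>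
    (VVF_deriv (hpos x hx).1 (hpos x hx).2).continuousAt.continuousWithinAt
  have hwc : ContinuousOn (VVF_w I ε) (Icc a b) := by
    have h1 : ContinuousOn (VVF_u I) (Icc a b) := by
      apply ContinuousOn.div
      · fun_prop
      · fun_prop
      · intro x hx
        exact (VVF_sin_pos (hpos x hx).1 (hpos x hx).2).ne'
    unfold VVF_w
    fun_prop
  obtain ⟨K1, hK1⟩ := isCompact_Icc.exists_bound_of_continuousOn hfc
  obtain ⟨K2, hK2⟩ := isCompact_Icc.exists_bound_of_continuousOn hwc
  have hum : Measurable (VVF_u I) := by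
    unfold VVF_u
    fun_prop
  have hfm : Measurable (VVF_f I ε) := by
    unfold VVF_f
    fun_prop
  have hwm : Measurable (VVF_w I ε) := by
    unfold VVF_w
    fun_prop
  refine ⟨fun s => VVF_f I ε (cl s), fun s => VVF_w I ε (cl s), max K1 K2, hfm.comp hclm,
    hwm.comp hclm, fun s => (hK1 _ (hcl s)).trans (le_max_left _ _),
    fun s => (hK2 _ (hcl s)).trans (le_max_right _ _), fun s t => ?_, fun s hs1 hs2 => ?_⟩
  · have h1 := (convex_Icc a b).norm_image_sub_le_of_norm_hasDerivWithin_le (f := VVF_f I ε)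
      (f' := VVF_w I ε) (C := K2)
      (fun x hx => (VVF_deriv (hpos x hx).1 (hpos x hx).2).hasDerivWithinAt) hK2 (hcl t) (hcl s)
    rw [Real.norm_eq_abs, Real.norm_eq_abs] at h1
    have hK20 : 0 ≤ K2 := (norm_nonneg _).trans (hK2 a ⟨le_rfl, hab⟩)
    calc _ ≤ K2 * |cl s - cl t| := h1
      _ ≤ max K1 K2 * |s - t| := by
        apply mul_le_mul (le_max_right _ _) (hclL s t) (abs_nonneg _)
        exact hK20.trans (le_max_right _ _)
  · have hsI : 0 < s ∧ s < I := ⟨by linarith, by linarith⟩
    have hcs : cl s = s := by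
      simp only [cl, a, b]
      rw [min_eq_left (by linarith), max_eq_right (by linarith)]
    have hev : (fun s => VVF_f I ε (cl s)) =ᶠ[𝓝 s] VVF_f I ε := by
      have h1 : Ioo a b ∈ 𝓝 s := Ioo_mem_nhds (by simp only [a]; linarith)
        (by simp only [b]; linarith)
      filter_upwards [h1] with x hx
      have h2 : cl x = x := by
        simp only [cl]
        rw [min_eq_left hx.2.le, max_eq_right hx.1.le]
      rw [h2]
    have hd : HasDerivAt (fun s => VVF_f I ε (cl s)) (VVF_w I ε (cl s)) s := by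
      rw [hcs]
      exact (VVF_deriv hsI.1 hsI.2).congr_of_eventuallyEq hev
    have hkey := VVF_key (ε := ε) hsI.1 hsI.2
    have hpi := Real.pi_pos
    have hpi1 := Real.pi_gt_d4
    have hpi2 := Real.pi_lt_d6
    have hI2 : (0 : ℝ) < 1 / I ^ 2 := by positivity
    set S := Real.sin (Real.pi * s / I) with hSd
    set C := Real.cos (Real.pi * s / I) with hCd
    have hS0 : 0 < S := VVF_sin_pos hsI.1 hsI.2
    have hS1 : S ≤ 1 := Real.sin_le_one _
    have hC1 : C ≤ 1 := Real.cos_le_one _
    have hC2 : -1 ≤ C := Real.neg_one_le_cos _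
    have hz : (S * (11 / 10 - C)) ^ 2 ≤ 441 / 100 := by
      have h1 : 0 ≤ 11 / 10 - C := by linarith
      have h2 : S * (11 / 10 - C) ≤ 21 / 10 := by
        calc S * (11 / 10 - C) ≤ 1 * (21 / 10) := by
              apply mul_le_mul hS1 (by linarith) h1 zero_le_one
          _ = _ := by norm_num
      have h3 : 0 ≤ S * (11 / 10 - C) := mul_nonneg hS0.le h1
      nlinarith
    have hz2 : ε ^ 2 * (S * (11 / 10 - C)) ^ 2 ≤ ε * (441 / 2000) := by
      have h1 : ε ^ 2 * (S * (11 / 10 - C)) ^ 2 ≤ ε ^ 2 * (441 / 100) :=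
        mul_le_mul_of_nonneg_left hz (by positivity)
      nlinarith
    refine ⟨hd, ?_, fun hs3 => ?_⟩
    · show (Real.pi / I) ^ 2 - 41 / 2 * ε / I ^ 2 ≤ VVF_w I ε (cl s) - VVF_f I ε (cl s) ^ 2
      rw [hcs, hkey]
      have h1 : -(63 / 10) ≤ 1 + 33 / 10 * C - 4 * C ^ 2 := by nlinarith
      have h2 : -(20 * ε) ≤ ε * Real.pi * (1 + 33 / 10 * C - 4 * C ^ 2) := by
        have h3 : ε * Real.pi * (-(63 / 10)) ≤ ε * Real.pi * (1 + 33 / 10 * C - 4 * C ^ 2) :=
          mul_le_mul_of_nonneg_left h1 (by positivity)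
        nlinarith
      have h4 : (Real.pi / I) ^ 2 - 41 / 2 * ε / I ^ 2 =
          1 / I ^ 2 * (Real.pi ^ 2 - 41 / 2 * ε) := by
        rw [div_pow]
        ring
      rw [h4]
      apply mul_le_mul_of_nonneg_left _ hI2.le
      linarith
    · show (Real.pi / I) ^ 2 + ε / (2 * I ^ 2) ≤ VVF_w I ε (cl s) - VVF_f I ε (cl s) ^ 2
      rw [hcs, hkey]
      have hC3 : -(1885 / 10000) ≤ C := by
        have h1 : C = -Real.sin (Real.pi * s / I - Real.pi / 2) := by
          rw [Real.sin_sub_pi_div_two, neg_neg]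
        rcases le_or_gt 0 (Real.pi * s / I - Real.pi / 2) with h | h
        · have h2 := Real.sin_le h
          have h3 : Real.pi * s / I ≤ Real.pi * (56 / 100) := by
            rw [div_le_iff₀ hIpos]
            calc Real.pi * s ≤ Real.pi * (56 / 100 * I) := by gcongr
              _ = _ := by ring
          rw [h1]
          linarith
        · have h2 : 0 ≤ C := by
            apply Real.cos_nonneg_of_neg_pi_div_two_le_of_le
            · have : 0 ≤ Real.pi * s / I := by
                have := hsI.1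
                positivity
              linarith
            · linarith
          linarith
      have h1 : (2358 / 10000 : ℝ) ≤ 1 + 33 / 10 * C - 4 * C ^ 2 := by nlinarith
      have h2 : 74 / 100 * ε ≤ ε * Real.pi * (1 + 33 / 10 * C - 4 * C ^ 2) := by
        have h3 : ε * Real.pi * (2358 / 10000) ≤ ε * Real.pi * (1 + 33 / 10 * C - 4 * C ^ 2) :=
          mul_le_mul_of_nonneg_left h1 (by positivity)
        nlinarith
      have h4 : (Real.pi / I) ^ 2 + ε / (2 * I ^ 2) =
          1 / I ^ 2 * (Real.pi ^ 2 + ε / 2) := by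
        rw [div_pow]
        field_simp
      rw [h4]
      apply mul_le_mul_of_nonneg_left _ hI2.le
      linarith

end Pool.Agent.ConvexMin
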