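import Pool.Agent.Work.MP_05fb57_th.Interface3

/-!
# Block YIN
-/

namespace Pool.Agent.ConvexMin

open MeasureTheory Set Filter Topology

theorem p_YIN : S_YIN := by
  intro B s hB
  obtain ⟨k, hk⟩ : ∃ k : ℝ, k = Real.pi / B := ⟨_, rfl⟩
  have hk0 : 0 < k := by
    rw [hk]
    exact div_pos Real.pi_pos hB
  have hk1 : k ≠ 0 := hk0.ne'
  have key : ∀ (f g : ℝ → ℝ) (a b y : ℝ), HasDerivAt f a y → (∀ x, g x = f x) → b = a →
      HasDerivAt g b y := by
    intro f g a b y h hfg hab
    have h1 : g = f := funext hfg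
    rw [h1, hab]
    exact h
  have hs : ∀ y, HasDerivAt (fun y => Real.sin (k * y)) (k * Real.cos (k * y)) y := by
    intro y
    have h := ((hasDerivAt_id y).const_mul k).sin
    refine key _ _ _ _ y h (fun x => rfl) ?_
    show k * Real.cos (k * y) = Real.cos (k * y) * (k * 1)
    ring
  have hc : ∀ y, HasDerivAt (fun y => Real.cos (k * y)) (-(k * Real.sin (k * y))) y := by
    intro y
    have h := ((hasDerivAt_id y).const_mul k).cos
    refine key _ _ _ _ y h (fun x => rfl) ?_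
    show -(k * Real.sin (k * y)) = -Real.sin (k * y) * (k * 1)
    ring
  obtain ⟨A1, hA1⟩ : ∃ A1 : ℝ → ℝ,
      A1 = fun y => y / 2 - Real.sin (k * y) * Real.cos (k * y) / (2 * k) := ⟨_, rfl⟩
  have h1 : ∀ y, HasDerivAt A1 (Real.sin (k * y) ^ 2) y := by
    intro y
    rw [hA1]
    have h := ((hasDerivAt_id y).div_const 2).sub (((hs y).mul (hc y)).div_const (2 * k))
    refine key _ _ _ _ y h (fun x => rfl) ?_
    have h5 : (k * Real.cos (k * y) * Real.cos (k * y) +
        Real.sin (k * y) * -(k * Real.sin (k * y))) / (2 * k) =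
        (Real.cos (k * y) ^ 2 - Real.sin (k * y) ^ 2) / 2 := by
      field_simp
      ring
    rw [h5]
    linear_combination (1 / 2) * Real.sin_sq_add_cos_sq (k * y)
  obtain ⟨A2, hA2⟩ : ∃ A2 : ℝ → ℝ,
      A2 = fun y => (y * Real.sin (k * y) ^ 2 - A1 y) / (2 * k) := ⟨_, rfl⟩
  have h2 : ∀ y, HasDerivAt A2 (y * Real.sin (k * y) * Real.cos (k * y)) y := by
    intro y
    rw [hA2]
    have h := (((hasDerivAt_id y).mul ((hs y).pow 2)).sub (h1 y)).div_const (2 * k)
    refine key _ _ _ _ y h (fun x => rfl) ?_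
    simp only [id, Pi.pow_apply]
    field_simp
    ring
  obtain ⟨A3, hA3⟩ : ∃ A3 : ℝ → ℝ,
      A3 = fun y => 2 * y ^ 3 / 3 - y ^ 2 * A1 y - A2 y / k := ⟨_, rfl⟩
  have h3 : ∀ y, HasDerivAt A3 (y ^ 2 * Real.cos (k * y) ^ 2) y := by
    intro y
    rw [hA3]
    have h := (((((hasDerivAt_id y).pow 3).const_mul 2).div_const 3).sub
      (((hasDerivAt_id y).pow 2).mul (h1 y))).sub ((h2 y).div_const k)
    refine key _ _ _ _ y h (fun x => rfl) ?_
    have h6 : A1 y = y / 2 - Real.sin (k * y) * Real.cos (k * y) / (2 * k) := by rw [hA1]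
    simp only [id, Pi.pow_apply]
    rw [h6]
    have h7 := Real.sin_sq_add_cos_sq (k * y)
    have h8 : Real.sin (k * y) ^ 2 = 1 - Real.cos (k * y) ^ 2 := by linarith
    rw [h8]
    field_simp
    ring
  have hint : ∀ y, (Real.sin (Real.pi * y / B) -
      6 * s * (Real.pi * y / B ^ 2) * Real.cos (Real.pi * y / B)) ^ 2 =
      Real.sin (k * y) ^ 2 + (-(12 * s * k / B)) * (y * Real.sin (k * y) * Real.cos (k * y)) +
        (36 * s ^ 2 * k ^ 2 / B ^ 2) * (y ^ 2 * Real.cos (k * y) ^ 2) := by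
    intro y
    have h8 : Real.pi * y / B = k * y := by
      rw [hk]
      ring
    have h9 : Real.pi * y / B ^ 2 = k * y / B := by
      rw [hk]
      field_simp
    rw [h8, h9]
    ring
  have hG : ∀ y, HasDerivAt (fun y => A1 y + (-(12 * s * k / B)) * A2 y +
      (36 * s ^ 2 * k ^ 2 / B ^ 2) * A3 y) ((Real.sin (Real.pi * y / B) -
      6 * s * (Real.pi * y / B ^ 2) * Real.cos (Real.pi * y / B)) ^ 2) y := by
    intro y
    rw [hint]
    exact ((h1 y).add ((h2 y).const_mul _)).add ((h3 y).const_mul _)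
  rw [intervalIntegral.integral_eq_sub_of_hasDerivAt (fun y _ => hG y) (by
    apply Continuous.intervalIntegrable
    fun_prop)]
  have hkB : k * B = Real.pi := by
    rw [hk]
    field_simp
  have e1 : A1 B = B / 2 := by
    rw [hA1]
    simp only [hkB, Real.sin_pi]
    ring
  have e2 : A2 B = -(B / (4 * k)) := by
    rw [hA2]
    simp only [hkB, Real.sin_pi, e1]
    field_simp
    ring
  have e3 : A3 B = B ^ 3 / 6 + B / (4 * k ^ 2) := by
    rw [hA3]
    simp only [e1, e2]
    field_simp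
    ring
  have z1 : A1 0 = 0 := by
    rw [hA1]
    simp
  have z2 : A2 0 = 0 := by
    rw [hA2]
    simp [z1]
  have z3 : A3 0 = 0 := by
    rw [hA3]
    simp [z1, z2]
  rw [e1, e2, e3, z1, z2, z3, hk]
  have hpi := Real.pi_pos.ne'
  field_simp
  ring

end Pool.Agent.ConvexMin
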