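import Pool.Agent.Work.MP_05fb57_th.Interface5

namespace Pool.Agent.ConvexMin

open MeasureTheory Set Filter Topology
open scoped ENNReal RealInnerProductSpace ContDiff

theorem p_BND : S_BND := by
  intro d r M hd hr hM
  have hv0 : 0 < volume (Metric.ball (0 : E d) (r / 2)) := Metric.measure_ball_pos _ _ (by positivity)
  have hvt : volume (Metric.ball (0 : E d) (r / 2)) ≠ ⊤ := measure_ball_lt_top.ne
  generalize hv : volume (Metric.ball (0 : E d) (r / 2)) = v at hv0 hvt
  have hvr : 0 < v.toReal := ENNReal.toReal_pos hv0.ne' hvt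
  obtain ⟨N, hN⟩ := exists_nat_gt (M / v.toReal)
  refine ⟨2 * r * N + 1, by positivity, fun Ω c hΩ hb hvol x hx => ?_⟩
  rw [Metric.mem_ball]
  by_contra hcon
  rw [not_lt] at hcon
  have hρ : 0 < dist x c := by
    have : (0 : ℝ) ≤ 2 * r * N := by positivity
    linarith
  have hρn : ‖x - c‖ = dist x c := (dist_eq_norm x c).symm
  generalize hρe : dist x c = ρ at hcon hρ hρn
  have hsub : ∀ k ∈ Finset.range N, Metric.ball (c + ((k : ℝ) * r / ρ) • (x - c)) (r / 2) ⊆ Ω := by
    intro k hk y hy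
    have hkN : (k : ℝ) ≤ N := by exact_mod_cast (Finset.mem_range.1 hk).le
    have ht0 : 0 ≤ (k : ℝ) * r / ρ := by positivity
    have ht : (k : ℝ) * r / ρ ≤ 1 / 2 := by
      rw [div_le_iff₀ hρ]
      nlinarith
    generalize hte : (k : ℝ) * r / ρ = t at ht0 ht hy
    have h1t : 0 < 1 - t := by linarith
    have hz : c + (1 - t)⁻¹ • (y - (c + t • (x - c))) ∈ Metric.ball c r := by
      rw [Metric.mem_ball, dist_eq_norm, add_sub_cancel_left, norm_smul,
        Real.norm_of_nonneg (inv_nonneg.2 h1t.le)]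
      have h2 : ‖y - (c + t • (x - c))‖ < r / 2 := by rwa [Metric.mem_ball, dist_eq_norm] at hy
      have h3 : (1 - t)⁻¹ ≤ 2 := by
        rw [inv_le_comm₀ h1t two_pos]
        linarith
      calc (1 - t)⁻¹ * ‖y - (c + t • (x - c))‖ ≤ 2 * ‖y - (c + t • (x - c))‖ := by gcongr
        _ < r := by linarith
    have h4 : (1 - t) • (c + (1 - t)⁻¹ • (y - (c + t • (x - c)))) + t • x ∈ Ω :=
      hΩ (hb hz) hx h1t.le ht0 (by ring)
    have h5 : (1 - t) • (c + (1 - t)⁻¹ • (y - (c + t • (x - c)))) + t • x = y := by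
      rw [smul_add, smul_smul, mul_inv_cancel₀ h1t.ne', one_smul]
      module
    rwa [h5] at h4
  have hdis : Set.PairwiseDisjoint (↑(Finset.range N) : Set ℕ)
      (fun k : ℕ => Metric.ball (c + ((k : ℝ) * r / ρ) • (x - c)) (r / 2)) := by
    intro i _ j _ hij
    refine Metric.ball_disjoint_ball ?_
    have h1 : dist (c + ((i : ℝ) * r / ρ) • (x - c)) (c + ((j : ℝ) * r / ρ) • (x - c)) =
        |(i : ℝ) - j| * r := by
      rw [dist_eq_norm]
      have h2 : c + ((i : ℝ) * r / ρ) • (x - c) - (c + ((j : ℝ) * r / ρ) • (x - c)) =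
          (((i : ℝ) - j) * (r / ρ)) • (x - c) := by module
      rw [h2, norm_smul, Real.norm_eq_abs, abs_mul, abs_of_pos (show (0 : ℝ) < r / ρ by positivity), hρn]
      field_simp
    rw [h1]
    have h3 : (1 : ℝ) ≤ |(i : ℝ) - j| := by
      have h4 : (1 : ℤ) ≤ |(i : ℤ) - j| := Int.one_le_abs (sub_ne_zero.2 (by exact_mod_cast hij))
      exact_mod_cast h4
    nlinarith
  have hsum : volume (⋃ k ∈ Finset.range N, Metric.ball (c + ((k : ℝ) * r / ρ) • (x - c)) (r / 2)) =
      (N : ℝ≥0∞) * v := by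
    rw [measure_biUnion_finset hdis (fun _ _ => Metric.isOpen_ball.measurableSet)]
    have h6 : ∀ k ∈ Finset.range N, volume (Metric.ball (c + ((k : ℝ) * r / ρ) • (x - c)) (r / 2)) = v := by
      intro k _
      rw [Measure.addHaar_ball_center, hv]
    rw [Finset.sum_congr rfl h6, Finset.sum_const, Finset.card_range, nsmul_eq_mul]
  have hle : (N : ℝ≥0∞) * v ≤ ENNReal.ofReal M := by
    rw [← hsum]
    exact (measure_mono (Set.iUnion₂_subset hsub)).trans hvol
  have h7 : (N : ℝ) * v.toReal ≤ M := by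
    have h8 := ENNReal.toReal_mono ENNReal.ofReal_ne_top hle
    rwa [ENNReal.toReal_mul, ENNReal.toReal_natCast, ENNReal.toReal_ofReal hM] at h8
  rw [div_lt_iff₀ hvr] at hN
  linarith

end Pool.Agent.ConvexMin
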