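import Pool.Agent.Work.MP_05fb57_th.Interface5

/-!
# Block CPT: compactness of the convex sets of a ball in the Hausdorff distance
-/

set_option linter.unusedVariables false

namespace Pool.Agent.ConvexMin

open MeasureTheory Set Filter Topology
open scoped ENNReal RealInnerProductSpace ContDiff

/-- the closure of a nonempty subset of a closed ball, as an element of the compacts of the ball -/
noncomputable def CPT_nc {d : ℕ} (c : E d) (R : ℝ) (K : Set (E d)) (h : K.Nonempty)
    (hK : K ⊆ Metric.ball c R) : TopologicalSpace.NonemptyCompacts (Metric.closedBall c R) :=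
  ⟨⟨Subtype.val ⁻¹' closure K, by
    haveI : CompactSpace (Metric.closedBall c R) :=
      isCompact_iff_compactSpace.mp (isCompact_closedBall c R)
    exact (isClosed_closure.preimage continuous_subtype_val).isCompact⟩, by
    obtain ⟨x, hx⟩ := h
    exact ⟨⟨x, Metric.ball_subset_closedBall (hK hx)⟩, subset_closure hx⟩⟩

theorem CPT_mem {d : ℕ} (c : E d) (R : ℝ) (K : Set (E d)) (h : K.Nonempty)
    (hK : K ⊆ Metric.ball c R) (x : Metric.closedBall c R) :
    x ∈ CPT_nc c R K h hK ↔ (x : E d) ∈ closure K := Iff.rfl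

theorem p_CPT : S_CPT := by
  intro d K c R hK
  haveI : CompactSpace (Metric.closedBall c R) :=
    isCompact_iff_compactSpace.mp (isCompact_closedBall c R)
  let A : ℕ → TopologicalSpace.NonemptyCompacts (Metric.closedBall c R) := fun n =>
    CPT_nc c R (K n) (hK n).1 (hK n).2.2
  obtain ⟨L', φ, hφ, hlim⟩ := CompactSpace.tendsto_subseq A
  have hconv : ∀ η : ℝ, 0 < η → ∀ᶠ n in atTop,
      (∀ x ∈ K (φ n), ∃ y ∈ Subtype.val '' (L' : Set (Metric.closedBall c R)), dist x y < η) ∧
        ∀ y ∈ Subtype.val '' (L' : Set (Metric.closedBall c R)), ∃ x ∈ K (φ n), dist x y < η := by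
    intro η hη
    have h1 := (Metric.tendsto_nhds.mp hlim) (η / 2) (by positivity)
    filter_upwards [h1] with n hn
    rw [Metric.NonemptyCompacts.dist_eq] at hn
    have hfin : Metric.hausdorffEDist (A (φ n) : Set (Metric.closedBall c R))
        (L' : Set (Metric.closedBall c R)) ≠ ⊤ :=
      Metric.hausdorffEDist_ne_top_of_nonempty_of_bounded (A (φ n)).nonempty L'.nonempty
        (A (φ n)).isCompact.isBounded L'.isCompact.isBounded
    constructor
    · intro x hx
      have hx' : (⟨x, Metric.ball_subset_closedBall ((hK (φ n)).2.2 hx)⟩ : Metric.closedBall c R) ∈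
          (A (φ n) : Set (Metric.closedBall c R)) := subset_closure hx
      obtain ⟨y, hy, hxy⟩ := Metric.exists_dist_lt_of_hausdorffDist_lt hx' hn hfin
      refine ⟨y.1, ⟨y, hy, rfl⟩, ?_⟩
      have h2 : dist x y.1 < η / 2 := hxy
      linarith
    · rintro _ ⟨y, hy, rfl⟩
      rw [Metric.hausdorffDist_comm] at hn
      rw [Metric.hausdorffEDist_comm] at hfin
      obtain ⟨x, hx, hxy⟩ := Metric.exists_dist_lt_of_hausdorffDist_lt hy hn hfin
      have h2 : dist y.1 x.1 < η / 2 := hxy
      have hx2 : x.1 ∈ closure (K (φ n)) := hx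
      obtain ⟨z, hz, hxz⟩ := Metric.mem_closure_iff.mp hx2 (η / 2) (by positivity)
      refine ⟨z, hz, ?_⟩
      calc dist z y.1 ≤ dist z x.1 + dist x.1 y.1 := dist_triangle _ _ _
        _ < η := by
          rw [dist_comm z, dist_comm x.1 y.1]
          linarith
  have hcpt : IsCompact (Subtype.val '' (L' : Set (Metric.closedBall c R))) :=
    L'.isCompact.image continuous_subtype_val
  refine ⟨Subtype.val '' (L' : Set (Metric.closedBall c R)), φ, hφ, hcpt, ?_,
    L'.nonempty.image _, hconv⟩
  intro a ha b hb s t hs ht hst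
  have hcl : closure (Subtype.val '' (L' : Set (Metric.closedBall c R))) =
      Subtype.val '' (L' : Set (Metric.closedBall c R)) := hcpt.isClosed.closure_eq
  rw [← hcl, Metric.mem_closure_iff]
  intro ε hε
  obtain ⟨n, hn1, hn2⟩ := (hconv (ε / 2) (by positivity)).exists
  obtain ⟨x, hx, hxa⟩ := hn2 a ha
  obtain ⟨y, hy, hyb⟩ := hn2 b hb
  have hz : s • x + t • y ∈ K (φ n) := (hK (φ n)).2.1 hx hy hs ht hst
  obtain ⟨w, hw, hzw⟩ := hn1 _ hz
  refine ⟨w, hw, ?_⟩
  have h1 : dist (s • a + t • b) (s • x + t • y) ≤ s * dist a x + t * dist b y := by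
    refine (dist_add_add_le _ _ _ _).trans ?_
    rw [dist_smul₀, dist_smul₀, Real.norm_of_nonneg hs, Real.norm_of_nonneg ht]
  have h2 : s * dist a x + t * dist b y ≤ ε / 2 := by
    rw [dist_comm a, dist_comm b]
    nlinarith
  calc dist (s • a + t • b) w ≤ dist (s • a + t • b) (s • x + t • y) + dist (s • x + t • y) w :=
        dist_triangle _ _ _
    _ < ε := by linarith

end Pool.Agent.ConvexMin
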