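import Pool.Agent.Work.MP_05fb57_th.Interface5

namespace Pool.Agent.ConvexMin

open MeasureTheory Set Filter Topology
open scoped ENNReal RealInnerProductSpace ContDiff

theorem MON_cap {d : ℕ} {A B : Set (E d)} (h : A ⊆ B) : cap A ≤ cap B := by
  unfold cap
  refine le_iInf fun u => le_iInf fun g => le_iInf fun hu => le_iInf fun hU => ?_
  obtain ⟨U, h1, h2, h3⟩ := hU
  exact iInf_le_of_le u (iInf_le_of_le g (iInf_le_of_le hu (iInf_le_of_le ⟨U, h1, h.trans h2, h3⟩ le_rfl)))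

theorem MON_H10 {d : ℕ} {Ω Ω' : Set (E d)} (h : Ω ⊆ Ω') {u : E d → ℝ} {g : E d → E d} (hu : IsH10 Ω u g) :
    IsH10 Ω' u g := by
  obtain ⟨h1, v, h2, h3, h4⟩ := hu
  refine ⟨h1, v, h2, h3, ?_⟩
  have h5 : cap {x | x ∉ Ω' ∧ v x ≠ 0} ≤ cap {x | x ∉ Ω ∧ v x ≠ 0} :=
    MON_cap fun x hx => ⟨fun hx' => hx.1 (h hx'), hx.2⟩
  rw [h4] at h5
  exact le_antisymm h5 bot_le

theorem p_MON : S_MON := by
  intro d Ω Ω' h
  unfold lam1
  refine le_iInf fun u => le_iInf fun g => le_iInf fun hu => le_iInf fun hne => ?_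
  exact iInf_le_of_le u (iInf_le_of_le g (iInf_le_of_le (MON_H10 h hu) (iInf_le_of_le hne le_rfl)))

end Pool.Agent.ConvexMin
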