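import Pool.Agent.Work.MP_05fb57_th.Interface5

set_option autoImplicit false

namespace Pool.Agent.ConvexMin

open MeasureTheory Set Filter Topology
open scoped ENNReal RealInnerProductSpace ContDiff

theorem SAN_one (d : ℕ) (A B : Set (E d)) (c : E d) (r η : ℝ) (hA : Convex ℝ A) (hr : 0 < r) (hη : 0 < η)
    (hb : Metric.ball c r ⊆ A) (h : ∀ y ∈ B, ∃ x ∈ A, dist x y < η) :
    B ⊆ AffineMap.homothety c (1 + η / r) '' A := by
  intro b hbB
  obtain ⟨a, haA, hab⟩ := h b hbB
  have hs : 0 < η / r := div_pos hη hr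
  set a' : E d := c + (r / η) • (b - a) with ha'
  have ha'A : a' ∈ A := by
    apply hb
    rw [Metric.mem_ball, dist_eq_norm, ha', add_sub_cancel_left, norm_smul, Real.norm_of_nonneg (by positivity)]
    rw [dist_comm, dist_eq_norm] at hab
    calc r / η * ‖b - a‖ < r / η * η := by gcongr
      _ = r := by field_simp
  refine ⟨(1 / (1 + η / r)) • a + ((η / r) / (1 + η / r)) • a', ?_, ?_⟩
  · exact hA haA ha'A (by positivity) (by positivity) (by field_simp)
  · rw [AffineMap.homothety_apply, vsub_eq_sub, vadd_eq_add, ha']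
    have h1 : (1 + η / r) ≠ 0 := by positivity
    have h2 : r ≠ 0 := hr.ne'
    have h3 : η ≠ 0 := hη.ne'
    have h4 : r + η ≠ 0 := by positivity
    match_scalars <;> field_simp <;> ring

theorem SAN_two (d : ℕ) (A B : Set (E d)) (c : E d) (r η : ℝ) (hB : Convex ℝ B) (hBn : B.Nonempty) (hη : 0 < η)
    (h4 : 4 * η ≤ r) (hb : Metric.ball c r ⊆ A) (h : ∀ x ∈ A, ∃ y ∈ B, dist x y < η) : Metric.ball c (r / 2) ⊆ B := by
  have hcl : Metric.ball c (r / 2) ⊆ closure B := by
    intro y hy
    by_contra hyB
    obtain ⟨f, u, hfy, hfB⟩ := geometric_hahn_banach_point_closed hB.closure isClosed_closure hyB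
    obtain ⟨b0, hb0⟩ := hBn
    set n : E d := (InnerProductSpace.toDual ℝ (E d)).symm f with hn
    have hfn : ∀ v, f v = ⟪n, v⟫ := fun v => by rw [hn, InnerProductSpace.toDual_symm_apply]
    have hn0 : n ≠ 0 := by
      intro h0
      have h1 := hfB b0 (subset_closure hb0)
      rw [hfn, h0, inner_zero_left] at h1 hfy
      linarith
    have hnn : 0 < ‖n‖ := norm_pos_iff.mpr hn0
    set x : E d := y - (η / ‖n‖) • n with hx
    have hxA : x ∈ A := by
      apply hb
      rw [Metric.mem_ball] at hy ⊢
      have h1 : dist x y = η := by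
        rw [hx, dist_eq_norm, sub_sub_cancel_left, norm_neg, norm_smul, Real.norm_of_nonneg (by positivity)]
        field_simp
      linarith [dist_triangle x y c]
    obtain ⟨b, hbB, hxb⟩ := h x hxA
    have h2 := hfB b (subset_closure hbB)
    have h3 : f b ≤ f y - η * ‖n‖ + ‖n‖ * dist x b := by
      have h31 : f b = f x + f (b - x) := by rw [map_sub f b x]; ring
      have h41 : f x = f y - η * ‖n‖ := by
        rw [hx, map_sub, map_smul, hfn n, real_inner_self_eq_norm_sq, smul_eq_mul]
        field_simp
      have h5 : f (b - x) ≤ ‖n‖ * dist x b := by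
        rw [hfn, dist_comm, dist_eq_norm]
        exact real_inner_le_norm _ _
      linarith
    nlinarith
  have hr : 0 < r / 2 := by linarith
  have hint : (interior B).Nonempty := by
    have h1 : affineSpan ℝ B = ⊤ := by
      have h11 : affineSpan ℝ (Metric.ball c (r / 2)) = ⊤ :=
        Metric.isOpen_ball.affineSpan_eq_top ⟨c, Metric.mem_ball_self hr⟩
      have h12 : IsClosed (affineSpan ℝ B : Set (E d)) := AffineSubspace.closed_of_finiteDimensional _
      have h13 : Metric.ball c (r / 2) ⊆ (affineSpan ℝ B : Set (E d)) :=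
        hcl.trans (closure_minimal (subset_affineSpan ℝ B) h12)
      rw [eq_top_iff, ← h11]
      exact affineSpan_le.mpr h13
    have := interior_convexHull_nonempty_iff_affineSpan_eq_top.mpr h1
    rwa [hB.convexHull_eq] at this
  have h2 : Metric.ball c (r/2) ⊆ interior (closure B) := interior_maximal hcl Metric.isOpen_ball
  rw [hB.interior_closure_eq_interior_of_nonempty_interior hint] at h2
  exact h2.trans interior_subset

theorem p_SAN : S_SAN := by
  intro d A B c r η hA hB hBn hη h4 hb h1 h2
  have hr : 0 < r := by linarith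
  have hball := SAN_two d A B c r η hB hBn hη h4 hb h1
  refine ⟨SAN_one d A B c r η hA hr hη hb h2, hball, ?_⟩
  have h3 := SAN_one d B A c (r / 2) η hB (by linarith) hη hball (fun y hy => by
    obtain ⟨x, hx, hxy⟩ := h1 y hy
    exact ⟨x, hx, by rwa [dist_comm]⟩)
  have h5 : η / (r / 2) = 2 * η / r := by field_simp
  rwa [h5] at h3

end Pool.Agent.ConvexMin
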