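import Pool.Agent.Work.MP_05fb57_th.Interface5

/-!
# MP_05fb57_an: block SCL (scaling)
-/

set_option autoImplicit false

namespace Pool.Agent.ConvexMin

open MeasureTheory Set Filter Topology
open scoped ENNReal RealInnerProductSpace ContDiff

/-- the map `x ↦ a x + b` -/
def SCL_T {d : ℕ} (a : ℝ) (b : E d) (x : E d) : E d := a • x + b

theorem SCL_inv {d : ℕ} {a : ℝ} (ha : 0 < a) (b : E d) (x : E d) :
    SCL_T a⁻¹ (-(a⁻¹ • b)) (SCL_T a b x) = x := by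
  unfold SCL_T
  rw [smul_add, smul_smul, inv_mul_cancel₀ ha.ne', one_smul]
  abel

theorem SCL_inv' {d : ℕ} {a : ℝ} (ha : 0 < a) (b : E d) (x : E d) :
    SCL_T a b (SCL_T a⁻¹ (-(a⁻¹ • b)) x) = x := by
  unfold SCL_T
  rw [smul_add, smul_smul, mul_inv_cancel₀ ha.ne', one_smul, smul_neg, smul_smul,
    mul_inv_cancel₀ ha.ne', one_smul]
  abel

theorem SCL_cont {d : ℕ} (a : ℝ) (b : E d) : Continuous (SCL_T a b) := by
  unfold SCL_T; fun_prop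

theorem SCL_cd {d : ℕ} (a : ℝ) (b : E d) : ContDiff ℝ ∞ (SCL_T a b) := by
  unfold SCL_T; fun_prop

/-- homeomorphism -/
noncomputable def SCL_h {d : ℕ} {a : ℝ} (ha : 0 < a) (b : E d) : E d ≃ₜ E d where
  toFun := SCL_T a b
  invFun := SCL_T a⁻¹ (-(a⁻¹ • b))
  left_inv := SCL_inv ha b
  right_inv := SCL_inv' ha b
  continuous_toFun := SCL_cont _ _
  continuous_invFun := SCL_cont _ _

theorem SCL_vol {d : ℕ} {a : ℝ} (ha : 0 < a) (b : E d) (A : Set (E d)) :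
    volume (SCL_T a b ⁻¹' A) = ENNReal.ofReal ((a ^ d)⁻¹) * volume A := by
  have h1 : SCL_T a b ⁻¹' A = (fun x : E d => a • x) ⁻¹' ((fun x : E d => x + b) ⁻¹' A) := rfl
  rw [h1, Measure.addHaar_preimage_smul _ ha.ne', measure_preimage_add_right,
    finrank_euclideanSpace_fin, abs_of_pos (by positivity)]

theorem SCL_int {d : ℕ} {a : ℝ} (ha : 0 < a) (b : E d) (f : E d → ℝ) :
    ∫ x, f (SCL_T a b x) = (a ^ d)⁻¹ * ∫ x, f x := by
  have h1 := Measure.integral_comp_smul (volume : Measure (E d)) (fun x => f (x + b)) a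
  rw [finrank_euclideanSpace_fin, abs_of_pos (by positivity), smul_eq_mul,
    integral_add_right_eq_self] at h1
  exact h1

theorem SCL_qmp {d : ℕ} {a : ℝ} (ha : 0 < a) (b : E d) :
    Measure.QuasiMeasurePreserving (SCL_T a b) volume volume := by
  refine ⟨(SCL_cont a b).measurable, ?_⟩
  intro A hA
  obtain ⟨B, hAB, hB, hB0⟩ := exists_measurable_superset_of_null hA
  refine measure_mono_null hAB ?_
  rw [Measure.map_apply (SCL_cont a b).measurable hB, SCL_vol ha, hB0, mul_zero]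

theorem SCL_ae {d : ℕ} {a : ℝ} (ha : 0 < a) (b : E d) {p : E d → Prop}
    (h : ∀ᵐ x ∂volume, p x) : ∀ᵐ x ∂volume, p (SCL_T a b x) :=
  (SCL_qmp ha b).ae h

theorem SCL_map {d : ℕ} {a : ℝ} (ha : 0 < a) (b : E d) :
    Measure.map (SCL_T a b) volume = ENNReal.ofReal ((a ^ d)⁻¹) • (volume : Measure (E d)) := by
  ext A hA
  rw [Measure.map_apply (SCL_cont a b).measurable hA, SCL_vol ha, Measure.smul_apply, smul_eq_mul]

theorem SCL_memLp {d : ℕ} {F : Type} [NormedAddCommGroup F] {a : ℝ} (ha : 0 < a) (b : E d)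
    {f : E d → F} (h : MemLp f 2 volume) : MemLp (fun x => f (SCL_T a b x)) 2 volume := by
  have h1 : MemLp f 2 (Measure.map (SCL_T a b) volume) := by
    rw [SCL_map ha]
    exact h.smul_measure ENNReal.ofReal_ne_top
  exact h1.comp_of_map (SCL_cont a b).measurable.aemeasurable

theorem SCL_fd {d : ℕ} (a : ℝ) (b : E d) (x : E d) :
    HasFDerivAt (SCL_T a b) (a • ContinuousLinearMap.id ℝ (E d)) x := by
  have h1 : HasFDerivAt (fun y : E d => a • y) (a • ContinuousLinearMap.id ℝ (E d)) x :=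
    (hasFDerivAt_id x).const_smul a
  exact h1.add_const b

theorem SCL_h1 {d : ℕ} {a : ℝ} (ha : 0 < a) (b : E d) {u : E d → ℝ} {g : E d → E d}
    (h : IsH1 u g) : IsH1 (fun x => u (SCL_T a b x)) (fun x => a • g (SCL_T a b x)) := by
  refine ⟨SCL_memLp ha b h.memLp, (SCL_memLp ha b h.memLp_grad).const_smul a, ?_⟩
  intro φ hφ hc v
  set S : E d → E d := SCL_T a⁻¹ (-(a⁻¹ • b)) with hS
  have hψ : ContDiff ℝ ∞ (fun y => φ (S y)) := hφ.comp (SCL_cd _ _)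
  have hcψ : HasCompactSupport (fun y => φ (S y)) :=
    hc.comp_homeomorph (SCL_h ha b).symm
  have h1 := h.weak _ hψ hcψ v
  have i1 := SCL_int ha b (fun y => u y * fderiv ℝ (fun y => φ (S y)) y v)
  have i2 := SCL_int ha b (fun y => ⟪g y, v⟫ * φ (S y))
  have e1 : ∀ x, fderiv ℝ (fun y => φ (S y)) (SCL_T a b x) v = a⁻¹ * fderiv ℝ φ x v := by
    intro x
    have h2 : HasFDerivAt φ (fderiv ℝ φ x) (S (SCL_T a b x)) := by
      rw [hS, SCL_inv ha]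
      exact ((hφ.differentiable (by simp)) x).hasFDerivAt
    have h3 := (h2.comp (SCL_T a b x) (SCL_fd a⁻¹ (-(a⁻¹ • b)) (SCL_T a b x))).fderiv
    have h4 : fderiv ℝ (fun y => φ (S y)) (SCL_T a b x) =
        (fderiv ℝ φ x).comp (a⁻¹ • ContinuousLinearMap.id ℝ (E d)) := h3
    rw [h4]
    simp
  have e2 : ∀ x, φ (S (SCL_T a b x)) = φ x := by
    intro x
    rw [hS, SCL_inv ha]
  simp only [e1, e2] at i1 i2
  have hpos : (0 : ℝ) < (a ^ d)⁻¹ := by positivity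
  have j1 : ∫ x, u (SCL_T a b x) * fderiv ℝ φ x v = a * ((a ^ d)⁻¹ *
      ∫ y, u y * fderiv ℝ (fun y => φ (S y)) y v) := by
    rw [← i1, ← integral_const_mul]
    congr 1
    funext x
    field_simp
  have j2 : ∫ x, ⟪a • g (SCL_T a b x), v⟫ * φ x = a * ((a ^ d)⁻¹ * ∫ y, ⟪g y, v⟫ * φ (S y)) := by
    rw [← i2, ← integral_const_mul]
    congr 1
    funext x
    rw [real_inner_smul_left, mul_assoc]
  rw [j1, j2, h1]
  ring

theorem SCL_energy {d : ℕ} {a : ℝ} (ha : 0 < a) (b : E d) (u : E d → ℝ) (g : E d → E d) :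
    (∫ x, (u (SCL_T a b x)) ^ 2) = (a ^ d)⁻¹ * ∫ x, u x ^ 2 ∧
    (∫ x, ‖a • g (SCL_T a b x)‖ ^ 2) = a ^ 2 * ((a ^ d)⁻¹ * ∫ x, ‖g x‖ ^ 2) := by
  refine ⟨SCL_int ha b (fun x => u x ^ 2), ?_⟩
  rw [← SCL_int ha b (fun x => ‖g x‖ ^ 2), ← integral_const_mul]
  congr 1
  funext x
  rw [norm_smul, mul_pow, Real.norm_eq_abs, sq_abs]

/-- the constant -/
noncomputable def SCL_C (d : ℕ) (a : ℝ) : ℝ := (a ^ d)⁻¹ * (1 + a ^ 2)

theorem SCL_Cpos (d : ℕ) {a : ℝ} (ha : 0 < a) : 0 < SCL_C d a := by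
  unfold SCL_C; positivity

theorem SCL_cap {d : ℕ} {a : ℝ} (ha : 0 < a) (b : E d) (A : Set (E d)) :
    cap (SCL_T a b ⁻¹' A) ≤ ENNReal.ofReal (SCL_C d a) * cap A := by
  have hC := SCL_Cpos d ha
  have hC0 : ENNReal.ofReal (SCL_C d a) ≠ 0 := by
    rw [Ne, ENNReal.ofReal_eq_zero, not_le]; exact hC
  have hCt : ENNReal.ofReal (SCL_C d a) ≠ ⊤ := ENNReal.ofReal_ne_top
  have key : (ENNReal.ofReal (SCL_C d a))⁻¹ * cap (SCL_T a b ⁻¹' A) ≤ cap A := by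
    conv_rhs => unfold cap
    refine le_iInf fun u => le_iInf fun g => le_iInf fun h => le_iInf fun hU => ?_
    obtain ⟨U, hU, hA, hae⟩ := hU
    have h1 : cap (SCL_T a b ⁻¹' A) ≤
        ENNReal.ofReal ((∫ x, u (SCL_T a b x) ^ 2) + ∫ x, ‖a • g (SCL_T a b x)‖ ^ 2) := by
      unfold cap
      exact (iInf_le _ (fun x => u (SCL_T a b x))).trans
        ((iInf_le _ (fun x => a • g (SCL_T a b x))).trans
        ((iInf_le _ (SCL_h1 ha b h)).trans (iInf_le _ ⟨SCL_T a b ⁻¹' U,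
          hU.preimage (SCL_cont a b), preimage_mono hA, SCL_ae ha b hae⟩)))
    rw [(SCL_energy ha b u g).1, (SCL_energy ha b u g).2] at h1
    have hu : 0 ≤ ∫ x, u x ^ 2 := integral_nonneg fun x => sq_nonneg _
    have hg : 0 ≤ ∫ x, ‖g x‖ ^ 2 := integral_nonneg fun x => sq_nonneg _
    have hp : (0 : ℝ) < (a ^ d)⁻¹ := by positivity
    have h2 : (a ^ d)⁻¹ * (∫ x, u x ^ 2) + a ^ 2 * ((a ^ d)⁻¹ * ∫ x, ‖g x‖ ^ 2) ≤
        SCL_C d a * ((∫ x, u x ^ 2) + ∫ x, ‖g x‖ ^ 2) := by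
      unfold SCL_C
      have q1 : 0 ≤ (a ^ d)⁻¹ * (a ^ 2 * ∫ x, u x ^ 2) := by positivity
      have q2 : 0 ≤ (a ^ d)⁻¹ * ∫ x, ‖g x‖ ^ 2 := by positivity
      nlinarith
    have h3 := h1.trans (ENNReal.ofReal_le_ofReal h2)
    rw [ENNReal.ofReal_mul hC.le] at h3
    calc (ENNReal.ofReal (SCL_C d a))⁻¹ * cap (SCL_T a b ⁻¹' A)
        ≤ (ENNReal.ofReal (SCL_C d a))⁻¹ * (ENNReal.ofReal (SCL_C d a) *
          ENNReal.ofReal ((∫ x, u x ^ 2) + ∫ x, ‖g x‖ ^ 2)) := by gcongr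
      _ = _ := by rw [← mul_assoc, ENNReal.inv_mul_cancel hC0 hCt, one_mul]
  calc cap (SCL_T a b ⁻¹' A)
      = ENNReal.ofReal (SCL_C d a) * ((ENNReal.ofReal (SCL_C d a))⁻¹ *
          cap (SCL_T a b ⁻¹' A)) := by
        rw [← mul_assoc, ENNReal.mul_inv_cancel hC0 hCt, one_mul]
    _ ≤ _ := by gcongr

theorem SCL_cap_lt {d : ℕ} {a : ℝ} (ha : 0 < a) (b : E d) (ε : ℝ≥0∞) (hε : 0 < ε) :
    ∃ ε' : ℝ≥0∞, 0 < ε' ∧ ∀ A : Set (E d), cap A < ε' → cap (SCL_T a b ⁻¹' A) < ε := by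
  have hC := SCL_Cpos d ha
  have hC0 : ENNReal.ofReal (SCL_C d a) ≠ 0 := by
    rw [Ne, ENNReal.ofReal_eq_zero, not_le]; exact hC
  have hCt : ENNReal.ofReal (SCL_C d a) ≠ ⊤ := ENNReal.ofReal_ne_top
  refine ⟨ε / ENNReal.ofReal (SCL_C d a), ENNReal.div_pos hε.ne' hCt, fun A hA => ?_⟩
  refine (SCL_cap ha b A).trans_lt ?_
  rw [mul_comm]
  exact ENNReal.mul_lt_of_lt_div hA

theorem SCL_qo {d : ℕ} {a : ℝ} (ha : 0 < a) (b : E d) {Ω : Set (E d)} (h : QuasiOpen Ω) :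
    QuasiOpen (SCL_T a b ⁻¹' Ω) := by
  intro ε hε
  obtain ⟨ε', hε', hcap⟩ := SCL_cap_lt ha b ε hε
  obtain ⟨Ω', h1, h2, h3⟩ := h ε' hε'
  refine ⟨SCL_T a b ⁻¹' Ω', h1.preimage (SCL_cont a b), preimage_mono h2, ?_⟩
  rw [← preimage_sdiff]
  exact hcap _ h3

theorem SCL_qc {d : ℕ} {a : ℝ} (ha : 0 < a) (b : E d) {v : E d → ℝ} (h : QuasiCont v) :
    QuasiCont (fun x => v (SCL_T a b x)) := by
  intro ε hε
  obtain ⟨ε', hε', hcap⟩ := SCL_cap_lt ha b ε hε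
  obtain ⟨G, h1, h2, h3⟩ := h ε' hε'
  refine ⟨SCL_T a b ⁻¹' G, h1.preimage (SCL_cont a b), hcap _ h2, ?_⟩
  exact h3.comp (SCL_cont a b).continuousOn fun x hx => hx

theorem SCL_h10 {d : ℕ} {a : ℝ} (ha : 0 < a) (b : E d) {Ω : Set (E d)} {u : E d → ℝ}
    {g : E d → E d} (h : IsH10 Ω u g) :
    IsH10 (SCL_T a b ⁻¹' Ω) (fun x => u (SCL_T a b x)) (fun x => a • g (SCL_T a b x)) := by
  obtain ⟨h1, v, h2, h3, h4⟩ := h
  refine ⟨SCL_h1 ha b h1, fun x => v (SCL_T a b x), SCL_qc ha b h2, SCL_ae ha b h3, ?_⟩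
  have h5 := SCL_cap ha b {x | x ∉ Ω ∧ v x ≠ 0}
  rw [h4, mul_zero] at h5
  exact le_antisymm h5 bot_le

theorem SCL_lam {d : ℕ} {a : ℝ} (ha : 0 < a) (b : E d) (Ω : Set (E d)) :
    lam1 (SCL_T a b ⁻¹' Ω) ≤ ENNReal.ofReal (a ^ 2) * lam1 Ω := by
  have hC : 0 < a ^ 2 := by positivity
  have hC0 : ENNReal.ofReal (a ^ 2) ≠ 0 := by
    rw [Ne, ENNReal.ofReal_eq_zero, not_le]; exact hC
  have hCt : ENNReal.ofReal (a ^ 2) ≠ ⊤ := ENNReal.ofReal_ne_top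
  have key : (ENNReal.ofReal (a ^ 2))⁻¹ * lam1 (SCL_T a b ⁻¹' Ω) ≤ lam1 Ω := by
    conv_rhs => unfold lam1
    refine le_iInf fun u => le_iInf fun g => le_iInf fun h => le_iInf fun hu => ?_
    have hu' : ¬ (fun x => u (SCL_T a b x)) =ᵐ[volume] 0 := by
      intro h0
      apply hu
      have h1 := SCL_ae (inv_pos.2 ha) (-(a⁻¹ • b)) h0
      filter_upwards [h1] with x hx
      rw [SCL_inv' ha] at hx
      exact hx
    have h1 : lam1 (SCL_T a b ⁻¹' Ω) ≤ ENNReal.ofReal ((∫ x, ‖a • g (SCL_T a b x)‖ ^ 2) /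
        ∫ x, u (SCL_T a b x) ^ 2) := by
      unfold lam1
      exact (iInf_le _ (fun x => u (SCL_T a b x))).trans
        ((iInf_le _ (fun x => a • g (SCL_T a b x))).trans
        ((iInf_le _ (SCL_h10 ha b h)).trans (iInf_le _ hu')))
    rw [(SCL_energy ha b u g).1, (SCL_energy ha b u g).2] at h1
    have hp : (0 : ℝ) < (a ^ d)⁻¹ := by positivity
    have h2 : a ^ 2 * ((a ^ d)⁻¹ * ∫ x, ‖g x‖ ^ 2) / ((a ^ d)⁻¹ * ∫ x, u x ^ 2) =
        a ^ 2 * ((∫ x, ‖g x‖ ^ 2) / ∫ x, u x ^ 2) := by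
      rw [mul_div_assoc, mul_div_mul_left _ _ hp.ne']
    rw [h2, ENNReal.ofReal_mul hC.le] at h1
    calc (ENNReal.ofReal (a ^ 2))⁻¹ * lam1 (SCL_T a b ⁻¹' Ω)
        ≤ (ENNReal.ofReal (a ^ 2))⁻¹ * (ENNReal.ofReal (a ^ 2) *
          ENNReal.ofReal ((∫ x, ‖g x‖ ^ 2) / ∫ x, u x ^ 2)) := by gcongr
      _ = _ := by rw [← mul_assoc, ENNReal.inv_mul_cancel hC0 hCt, one_mul]
  calc lam1 (SCL_T a b ⁻¹' Ω)
      = ENNReal.ofReal (a ^ 2) * ((ENNReal.ofReal (a ^ 2))⁻¹ * lam1 (SCL_T a b ⁻¹' Ω)) := by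
        rw [← mul_assoc, ENNReal.mul_inv_cancel hC0 hCt, one_mul]
    _ ≤ _ := by gcongr

theorem SCL_set {d : ℕ} (c : E d) {s : ℝ} (hs : 0 < s) (Ω : Set (E d)) :
    AffineMap.homothety c s '' Ω = SCL_T s⁻¹ (c - s⁻¹ • c) ⁻¹' Ω := by
  ext x
  constructor
  · rintro ⟨y, hy, rfl⟩
    have : SCL_T s⁻¹ (c - s⁻¹ • c) (AffineMap.homothety c s y) = y := by
      rw [AffineMap.homothety_apply, vsub_eq_sub, vadd_eq_add]
      unfold SCL_T
      rw [smul_add, smul_smul, inv_mul_cancel₀ hs.ne', one_smul]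
      abel
    rw [mem_preimage, this]
    exact hy
  · intro hx
    refine ⟨SCL_T s⁻¹ (c - s⁻¹ • c) x, hx, ?_⟩
    rw [AffineMap.homothety_apply, vsub_eq_sub, vadd_eq_add]
    unfold SCL_T
    rw [show s⁻¹ • x + (c - s⁻¹ • c) - c = s⁻¹ • (x - c) by rw [smul_sub]; abel, smul_smul,
      mul_inv_cancel₀ hs.ne', one_smul]
    abel

theorem SCL_set' {d : ℕ} {a : ℝ} (ha : 0 < a) (b : E d) (Ω : Set (E d)) :
    SCL_T a⁻¹ (-(a⁻¹ • b)) ⁻¹' (SCL_T a b ⁻¹' Ω) = Ω := by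
  ext x
  rw [mem_preimage, mem_preimage, SCL_inv' ha]

/-- Block SCL. -/
theorem p_SCL : S_SCL := by
  intro d c s hs
  have hs' : 0 < s⁻¹ := inv_pos.2 hs
  refine ⟨fun Ω => ?_, fun D m Ω hm h => ?_⟩
  · rw [SCL_set c hs]
    apply le_antisymm
    · have h1 := SCL_lam hs' (c - s⁻¹ • c) Ω
      have e : (s⁻¹) ^ 2 = 1 / s ^ 2 := by rw [inv_pow, one_div]
      rwa [e] at h1
    · have h1 := SCL_lam (inv_pos.2 hs') (-((s⁻¹)⁻¹ • (c - s⁻¹ • c)))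
        (SCL_T s⁻¹ (c - s⁻¹ • c) ⁻¹' Ω)
      rw [SCL_set' hs', inv_inv] at h1
      calc ENNReal.ofReal (1 / s ^ 2) * lam1 Ω
          ≤ ENNReal.ofReal (1 / s ^ 2) * (ENNReal.ofReal (s ^ 2) *
            lam1 (SCL_T s⁻¹ (c - s⁻¹ • c) ⁻¹' Ω)) := by gcongr
        _ = _ := by
          rw [← mul_assoc, ← ENNReal.ofReal_mul (by positivity),
            one_div_mul_cancel (by positivity), ENNReal.ofReal_one, one_mul]
  · obtain ⟨h1, h2, h3⟩ := h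
    refine ⟨?_, image_mono h2, ?_⟩
    · rw [SCL_set c hs]
      exact SCL_qo hs' _ h1
    · rw [SCL_set c hs, SCL_vol hs', ENNReal.ofReal_mul (by positivity)]
      rw [show ((s⁻¹) ^ d)⁻¹ = s ^ d by rw [inv_pow, inv_inv]]
      gcongr

end Pool.Agent.ConvexMin
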