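import Pool.Agent.Work.MP_05fb57_th.Interface

set_option autoImplicit false

namespace Pool.Agent.ConvexMin

open MeasureTheory Set Filter Topology
open scoped ENNReal RealInnerProductSpace ContDiff

theorem p_ADM (hCAPE : S_CAPE) (hCUB : S_CUB) : S_ADM := by
  intro d D m s hD hv hs hsm
  refine ⟨(hCAPE d).2.1 _ (hD.union (hCUB d s hs).1), Set.subset_union_left, ?_⟩
  have hfin : volume D ≠ ⊤ := ne_top_of_le_ne_top ENNReal.ofReal_ne_top hv
  calc volume (D ∪ cube d s) ≤ volume D + volume (cube d s) := measure_union_le _ _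
    _ = ENNReal.ofReal (volume D).toReal + ENNReal.ofReal (s ^ d) := by
        rw [ENNReal.ofReal_toReal hfin, (hCUB d s hs).2]
    _ = ENNReal.ofReal ((volume D).toReal + s ^ d) :=
        (ENNReal.ofReal_add ENNReal.toReal_nonneg (by positivity)).symm
    _ ≤ ENNReal.ofReal m := by
        rw [hsm]
        apply ENNReal.ofReal_le_ofReal
        linarith

end Pool.Agent.ConvexMin
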