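import Pool.Agent.Work.MP_05fb57_th.Interface

set_option autoImplicit false

namespace Pool.Agent.ConvexMin

open MeasureTheory Set Filter Topology
open scoped ENNReal RealInnerProductSpace ContDiff

/-- the smooth function -/
noncomputable def BMP_F (s t : ℝ) : ℝ := Real.sin (Real.pi * t / s) ^ 2

/-- its derivative -/
noncomputable def BMP_G (s t : ℝ) : ℝ :=
  2 * Real.sin (Real.pi * t / s) * (Real.cos (Real.pi * t / s) * (Real.pi / s))

theorem BMP_theta (s t : ℝ) : HasDerivAt (fun t : ℝ => Real.pi * t / s) (Real.pi / s) t := by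
  have h := ((hasDerivAt_id t).const_mul Real.pi).div_const s
  simpa using h

theorem BMP_hasF (s t : ℝ) : HasDerivAt (BMP_F s) (BMP_G s t) t := by
  have h := (BMP_theta s t).sin.pow 2
  have e : BMP_G s t = (2 : ℕ) * Real.sin (Real.pi * t / s) ^ (2 - 1) *
      (Real.cos (Real.pi * t / s) * (Real.pi / s)) := by
    unfold BMP_G; norm_num
  rw [e]
  exact h

theorem BMP_G_cont (s : ℝ) : Continuous (BMP_G s) := by
  unfold BMP_G
  fun_prop

/-- the derivative -/
noncomputable def BMP_D (s t : ℝ) : ℝ := if 0 < t ∧ t < s then BMP_G s t else 0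

theorem BMP_G_zero (s : ℝ) : BMP_G s 0 = 0 := by unfold BMP_G; simp

theorem BMP_G_s (s : ℝ) (hs : 0 < s) : BMP_G s s = 0 := by
  unfold BMP_G
  rw [mul_div_assoc, div_self hs.ne', mul_one, Real.sin_pi]
  ring

theorem BMP_D_cont (s : ℝ) (hs : 0 < s) : Continuous (BMP_D s) := by
  have h : BMP_D s = fun t => BMP_G s (max 0 (min s t)) := by
    funext t
    unfold BMP_D
    split_ifs with h
    · rw [min_eq_right h.2.le, max_eq_right h.1.le]
    · by_cases h0 : 0 < t
      · have h1 : s ≤ t := by
          by_contra h2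
          exact h ⟨h0, not_le.mp h2⟩
        rw [min_eq_left h1, max_eq_right hs.le, BMP_G_s s hs]
      · have h1 : t ≤ 0 := not_lt.mp h0
        rw [min_eq_right (h1.trans hs.le), max_eq_left h1, BMP_G_zero]
  rw [h]
  exact (BMP_G_cont s).comp (by fun_prop)

theorem BMP_le (s t : ℝ) : ‖bmp s t‖ ≤ ‖BMP_F s t‖ := by
  unfold bmp BMP_F
  split_ifs
  · exact le_rfl
  · rw [norm_zero]; exact norm_nonneg _

theorem BMP_has (s : ℝ) (hs : 0 < s) (t : ℝ) : HasDerivAt (bmp s) (BMP_D s t) t := by
  by_cases h : 0 < t ∧ t < s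
  · have e : BMP_D s t = BMP_G s t := by unfold BMP_D; rw [if_pos h]
    rw [e]
    refine (BMP_hasF s t).congr_of_eventuallyEq ?_
    filter_upwards [Ioo_mem_nhds h.1 h.2] with x hx
    unfold bmp BMP_F
    rw [if_pos ⟨hx.1, hx.2⟩]
  · have e : BMP_D s t = 0 := by unfold BMP_D; rw [if_neg h]
    rw [e]
    have hb : bmp s t = 0 := by unfold bmp; rw [if_neg h]
    by_cases h0 : t = 0 ∨ t = s
    · have hF0 : BMP_F s t = 0 := by
        unfold BMP_F
        rcases h0 with rfl | rfl
        · simp
        · rw [mul_div_assoc, div_self hs.ne', mul_one, Real.sin_pi]; ring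
      have hG0 : BMP_G s t = 0 := by
        rcases h0 with rfl | rfl
        · exact BMP_G_zero s
        · exact BMP_G_s t hs
      have hF := BMP_hasF s t
      rw [hG0, hasDerivAt_iff_isLittleO] at hF
      rw [hasDerivAt_iff_isLittleO]
      simp only [hF0, hb, smul_zero, sub_zero] at hF ⊢
      refine Asymptotics.IsBigO.trans_isLittleO ?_ hF
      exact Asymptotics.IsBigO.of_bound 1 (Eventually.of_forall fun x => by
        rw [one_mul]; exact BMP_le s x)
    · rw [not_or] at h0
      have : (fun _ : ℝ => (0 : ℝ)) =ᶠ[𝓝 t] bmp s := by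
        rcases lt_or_gt_of_ne h0.1 with h1 | h1
        · filter_upwards [Iio_mem_nhds h1] with x hx
          unfold bmp
          rw [if_neg]
          rintro ⟨h2, -⟩
          exact absurd hx (not_lt.mpr h2.le)
        · have h2 : s < t := by
            rcases lt_or_gt_of_ne h0.2 with h3 | h3
            · exact absurd ⟨h1, h3⟩ h
            · exact h3
          filter_upwards [Ioi_mem_nhds h2] with x hx
          unfold bmp
          rw [if_neg]
          rintro ⟨-, h3⟩
          exact absurd hx (not_lt.mpr h3.le)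
      exact (hasDerivAt_const t (0 : ℝ)).congr_of_eventuallyEq this.symm

theorem BMP_deriv (s : ℝ) (hs : 0 < s) : deriv (bmp s) = BMP_D s := by
  funext t
  exact (BMP_has s hs t).deriv

theorem BMP_int (s : ℝ) (hs : 0 < s) (f H : ℝ → ℝ) (hf : Continuous f)
    (hH : ∀ t, HasDerivAt H (f t) t) :
    ∫ t, (if 0 < t ∧ t < s then f t else 0) = H s - H 0 := by
  have h1 : (fun t => if 0 < t ∧ t < s then f t else 0) = indicator (Ioo 0 s) f := by
    funext t
    rw [indicator_apply]
    rfl
  rw [h1, integral_indicator measurableSet_Ioo, ← integral_Ioc_eq_integral_Ioo,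
    ← intervalIntegral.integral_of_le hs.le]
  exact intervalIntegral.integral_eq_sub_of_hasDerivAt (fun t _ => hH t)
    (hf.intervalIntegrable 0 s)

theorem p_BMP : S_BMP := by
  intro s hs
  have hpi := Real.pi_pos
  refine ⟨?_, ?_, ?_, ?_⟩
  · rw [contDiff_one_iff_deriv]
    refine ⟨fun t => (BMP_has s hs t).differentiableAt, ?_⟩
    rw [BMP_deriv s hs]
    exact BMP_D_cont s hs
  · intro t ht
    rw [BMP_deriv s hs]
    unfold BMP_D
    rw [if_neg ht]
  · have e : ∀ t, bmp s t ^ 2 = if 0 < t ∧ t < s then Real.sin (Real.pi * t / s) ^ 4 else 0 := by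
      intro t
      unfold bmp
      split_ifs
      · ring
      · ring
    simp only [e]
    rw [BMP_int s hs _ (fun t => (s / Real.pi) * ((3 * (Real.pi * t / s) -
      3 * (Real.sin (Real.pi * t / s) * Real.cos (Real.pi * t / s)) -
      2 * (Real.sin (Real.pi * t / s) ^ 3 * Real.cos (Real.pi * t / s))) / 8)) (by fun_prop) ?_]
    · rw [mul_div_assoc Real.pi s s, div_self hs.ne']
      simp only [mul_one, mul_zero, zero_div, Real.sin_pi, Real.sin_zero]
      field_simp
      ring
    · intro t
      have hθ := BMP_theta s t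
      have hsin := hθ.sin
      have hcos := hθ.cos
      have h := ((((hθ.const_mul 3).sub ((hsin.mul hcos).const_mul 3)).sub
        (((hsin.pow 3).mul hcos).const_mul 2)).div_const 8).const_mul (s / Real.pi)
      refine h.congr_deriv ?_
      have hc : Real.cos (Real.pi * t / s) ^ 2 = 1 - Real.sin (Real.pi * t / s) ^ 2 :=
        Real.cos_sq' _
      set S := Real.sin (Real.pi * t / s)
      set Cc := Real.cos (Real.pi * t / s)
      simp only [Pi.pow_apply]
      have e2 : (s / Real.pi) * (Real.pi / s) = 1 := by field_simp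
      push_cast
      norm_num
      calc _ = ((s / Real.pi) * (Real.pi / s)) *
            ((3 - 3 * (Cc ^ 2 - S ^ 2) - 2 * (3 * S ^ 2 * Cc ^ 2 - S ^ 4)) / 8) := by ring
        _ = S ^ 4 := by rw [e2, hc]; ring
  · rw [BMP_deriv s hs]
    have e : ∀ t, BMP_D s t ^ 2 = if 0 < t ∧ t < s then BMP_G s t ^ 2 else 0 := by
      intro t
      unfold BMP_D
      split_ifs
      · rfl
      · ring
    simp only [e]
    rw [BMP_int s hs (fun t => BMP_G s t ^ 2) (fun t => (Real.pi / s) * ((Real.pi * t / s +
      Real.sin (Real.pi * t / s) * Real.cos (Real.pi * t / s) *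
      (Real.sin (Real.pi * t / s) ^ 2 - Real.cos (Real.pi * t / s) ^ 2)) / 2))
      ((BMP_G_cont s).pow 2) ?_]
    · rw [mul_div_assoc Real.pi s s, div_self hs.ne']
      simp only [mul_one, mul_zero, zero_div, Real.sin_pi, Real.sin_zero]
      field_simp
      ring
    · intro t
      have hθ := BMP_theta s t
      have hsin := hθ.sin
      have hcos := hθ.cos
      have h := (((hθ.add ((hsin.mul hcos).mul ((hsin.pow 2).sub (hcos.pow 2)))).div_const 2)).const_mul
        (Real.pi / s)
      refine h.congr_deriv ?_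
      have hc : Real.cos (Real.pi * t / s) ^ 2 = 1 - Real.sin (Real.pi * t / s) ^ 2 :=
        Real.cos_sq' _
      unfold BMP_G
      set S := Real.sin (Real.pi * t / s)
      set Cc := Real.cos (Real.pi * t / s)
      simp only [Pi.pow_apply, Pi.mul_apply, Pi.sub_apply]
      push_cast
      norm_num
      have e3 : Cc ^ 4 = (1 - S ^ 2) ^ 2 := by rw [← hc]; ring
      calc _ = (Real.pi / s) ^ 2 * ((1 + (Cc ^ 2 - S ^ 2) * (S ^ 2 - Cc ^ 2) +
            4 * S ^ 2 * Cc ^ 2) / 2) := by ring
        _ = (Real.pi / s) ^ 2 * ((1 + 2 * S ^ 2 * Cc ^ 2 - S ^ 4 - Cc ^ 4 +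
            4 * S ^ 2 * Cc ^ 2) / 2) := by ring
        _ = _ := by rw [e3]; ring_nf; rw [hc]; ring

end Pool.Agent.ConvexMin
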