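import Pool.Agent.Work.MP_05fb57_th.Interface

set_option autoImplicit false

namespace Pool.Agent.ConvexMin

open MeasureTheory Set Filter Topology
open scoped ENNReal RealInnerProductSpace ContDiff

theorem p_C1H : S_C1H := by
  intro d f hf hc
  have hg : Continuous (gradient f) := by
    unfold gradient
    exact (InnerProductSpace.toDual ℝ (E d)).symm.continuous.comp (hf.continuous_fderiv one_ne_zero)
  have hgc : HasCompactSupport (gradient f) := by
    unfold gradient
    exact (hc.fderiv (𝕜 := ℝ)).comp_left (map_zero _)
  refine ⟨hf.continuous.memLp_of_hasCompactSupport hc, hg.memLp_of_hasCompactSupport hgc, ?_⟩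
  intro φ hφ hφc v
  have e : ∀ x, ⟪gradient f x, v⟫ = fderiv ℝ f x v := by
    intro x
    unfold gradient
    exact InnerProductSpace.toDual_symm_apply
  simp only [e]
  have cfd : Continuous fun x => fderiv ℝ f x v := (hf.continuous_fderiv one_ne_zero).clm_apply continuous_const
  have cfp : Continuous fun x => fderiv ℝ φ x v :=
    (hφ.continuous_fderiv (by simp)).clm_apply continuous_const
  apply integral_mul_fderiv_eq_neg_fderiv_mul_of_integrable
  · apply (cfd.mul hφ.continuous).integrable_of_hasCompactSupport
    exact hφc.mul_left
  · apply (hf.continuous.mul cfp).integrable_of_hasCompactSupport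
    exact hc.mul_right
  · apply (hf.continuous.mul hφ.continuous).integrable_of_hasCompactSupport
    exact hc.mul_right
  · exact fun x _ => (hf.differentiable one_ne_zero) x
  · exact fun x _ => (hφ.differentiable (by simp)) x

end Pool.Agent.ConvexMin
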