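import Pool.Agent.Work.MP_05fb57_th.Interface

/-! # MP_05fb57_an, block CUB: the cube (typed by helper98) -/

set_option linter.unusedVariables false

namespace Pool.Agent.ConvexMin

open MeasureTheory Set Filter Topology
open scoped ENNReal RealInnerProductSpace ContDiff

theorem CUB_coord {d : ℕ} (i : Fin d) : Continuous fun x : E d => x i :=
  (EuclideanSpace.proj (𝕜 := ℝ) i).continuous

theorem CUB_open (d : ℕ) (s : ℝ) : IsOpen (cube d s) := by
  have h : cube d s = ⋂ i, {x : E d | 0 < x i ∧ x i < s} := by
    ext x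
    simp [cube]
  rw [h]
  exact isOpen_iInter_of_finite fun i =>
    (isOpen_lt continuous_const (CUB_coord i)).inter (isOpen_lt (CUB_coord i) continuous_const)

theorem p_CUB : S_CUB := by
  intro d s hs
  refine ⟨CUB_open d s, ?_⟩
  have h1 := (EuclideanSpace.volume_preserving_symm_measurableEquiv_toLp (Fin d)).measure_preimage
    (s := Set.pi Set.univ fun _ : Fin d => Set.Ioo (0 : ℝ) s)
    (MeasurableSet.univ_pi fun _ => measurableSet_Ioo).nullMeasurableSet
  have h2 : (MeasurableEquiv.toLp 2 (Fin d → ℝ)).symm ⁻¹'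
      (Set.pi Set.univ fun _ : Fin d => Set.Ioo (0 : ℝ) s) = cube d s := by
    ext x
    simp [cube]
  rw [h2, Real.volume_pi_Ioo] at h1
  rw [h1]
  simp only [sub_zero, Finset.prod_const, Finset.card_univ, Fintype.card_fin]
  rw [ENNReal.ofReal_pow hs.le]

end Pool.Agent.ConvexMin
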