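import Pool.Agent.Work.MP_05fb57_th.Interface

/-!
# MP_05fb57_an: block FIND
-/

set_option autoImplicit false

namespace Pool.Agent.ConvexMin

open MeasureTheory Set Filter Topology
open scoped ENNReal RealInnerProductSpace ContDiff

theorem p_FIND (hLOW : S_LOW) (hUPP : S_UPP) (hADM : S_ADM) (hWIDD : S_WIDD) : S_FIND := by
  intro n D p q hn hDo hDc hDfin hp hq hL hconv
  obtain ⟨Ω, ⟨hadm, hmin⟩, hΩc⟩ := hconv
  have hApos : 0 < (volume D).toReal :=
    ENNReal.toReal_pos (hDo.measure_pos volume ⟨p, hp⟩).ne' hDfin.ne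
  set A : ℝ := (volume D).toReal with hA
  set s : ℝ := A ^ (1 / ((n : ℝ) + 1)) with hs
  have hspos : 0 < s := Real.rpow_pos_of_pos hApos _
  have hsA : s ^ (n + 1) = A := by
    have h1 : (1 / ((n : ℝ) + 1)) = (((n + 1 : ℕ) : ℝ))⁻¹ := by push_cast; rw [one_div]
    rw [hs, h1]
    exact Real.rpow_inv_natCast_pow hApos.le (Nat.succ_ne_zero n)
  have hn1 : (1 : ℝ) ≤ n := by exact_mod_cast hn
  have hdist : 0 < dist p q := lt_of_le_of_lt (by positivity) hL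
  have hne : p ≠ q := dist_pos.1 hdist
  have hDΩ : D ⊆ Ω := hadm.2.1
  have hint : (interior Ω).Nonempty := ⟨p, interior_maximal hDΩ hDo hp⟩
  obtain ⟨e, a, w, he, hw, hwL, hstrip⟩ := hWIDD n Ω p q (2 * A) hn hΩc hint (hDΩ hp) (hDΩ hq) hne
    (by positivity) hadm.2.2
  have hlow := hLOW (n + 1) Ω e a w he hw hstrip
  have hvol : volume D ≤ ENNReal.ofReal (2 * A) := by
    rw [← ENNReal.ofReal_toReal hDfin.ne]
    exact ENNReal.ofReal_le_ofReal (by rw [← hA]; linarith)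
  have hadm' := hADM (n + 1) D (2 * A) s hDo hvol hspos (by rw [hsA, ← hA]; ring)
  have hupp := hUPP (n + 1) s (D ∪ cube (n + 1) s) hspos (by omega) subset_union_right
  have hle := hlow.trans ((hmin _ hadm').trans hupp)
  rw [ENNReal.ofReal_le_ofReal_iff (by positivity)] at hle
  have hpi : 0 < Real.pi ^ 2 := by positivity
  have h1 : s ^ 2 ≤ 4 / 3 * ((n : ℝ) + 1) * w ^ 2 := by
    rw [div_pow, div_le_div_iff₀ (by positivity) (by positivity)] at hle
    push_cast at hle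
    have h2 : Real.pi ^ 2 * s ^ 2 ≤ Real.pi ^ 2 * (4 / 3 * ((n : ℝ) + 1) * w ^ 2) := by
      calc Real.pi ^ 2 * s ^ 2 ≤ 4 / 3 * ((n : ℝ) + 1) * Real.pi ^ 2 * w ^ 2 := hle
        _ = _ := by ring
    exact le_of_mul_le_mul_left h2 hpi
  have h3 : s ≤ ((n : ℝ) + 1) * w := by
    refine le_of_sq_le_sq ?_ (by positivity)
    have h4 : 4 / 3 * ((n : ℝ) + 1) * w ^ 2 ≤ ((n : ℝ) + 1) ^ 2 * w ^ 2 := by
      refine mul_le_mul_of_nonneg_right ?_ (by positivity)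
      nlinarith
    calc s ^ 2 ≤ _ := h1
      _ ≤ _ := h4
      _ = _ := by ring
  have h5 : s ^ n * dist p q ≤
      s ^ n * (2 * (4 * ((n : ℝ) + 1)) ^ n * ((n : ℝ) + 1) ^ (n + 1) * s) := by
    have h6 : s ^ n ≤ (((n : ℝ) + 1) * w) ^ n := pow_le_pow_left₀ hspos.le h3 n
    calc s ^ n * dist p q ≤ (((n : ℝ) + 1) * w) ^ n * dist p q :=
          mul_le_mul_of_nonneg_right h6 hdist.le
      _ = ((n : ℝ) + 1) ^ n * (w ^ n * dist p q) := by rw [mul_pow]; ring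
      _ ≤ ((n : ℝ) + 1) ^ n * (4 ^ n * ((n : ℝ) + 1) ^ (n + 1) * (2 * A)) :=
          mul_le_mul_of_nonneg_left hwL (by positivity)
      _ = ((n : ℝ) + 1) ^ n * (4 ^ n * ((n : ℝ) + 1) ^ (n + 1) * (2 * s ^ (n + 1))) := by
          rw [hsA]
      _ = _ := by rw [mul_pow, pow_succ s n]; ring
  have h7 : dist p q ≤ 2 * (4 * ((n : ℝ) + 1)) ^ n * ((n : ℝ) + 1) ^ (n + 1) * s :=
    le_of_mul_le_mul_left h5 (by positivity)
  exact absurd hL (not_lt.2 h7)

end Pool.Agent.ConvexMin
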