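import Pool.Agent.Work.MP_05fb57_th.Interface

set_option autoImplicit false

namespace Pool.Agent.ConvexMin

open MeasureTheory Set Filter Topology
open scoped ENNReal RealInnerProductSpace ContDiff

theorem HAD_had (n : ℕ) (w : Fin n → E n) : |(Matrix.of fun i j => w i j).det| ≤ ∏ i, ‖w i‖ := by
  have : Fact (Module.finrank ℝ (E n) = n) := ⟨by simp⟩
  obtain ⟨o, -⟩ : ∃ o : Orientation ℝ (E n) (Fin n),
    o = (EuclideanSpace.basisFun (Fin n) ℝ).toBasis.orientation := ⟨_, rfl⟩
  have h1 := o.abs_volumeForm_apply_le w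
  rw [o.volumeForm_robust' (EuclideanSpace.basisFun (Fin n) ℝ)] at h1
  refine le_trans (le_of_eq ?_) h1
  rw [Module.Basis.det_apply, ← Matrix.det_transpose]
  congr 2

theorem HAD_inner {n : ℕ} (x y : E n) : ∑ j, x j * y j = ⟪x, y⟫ := by
  rw [PiLp.inner_apply]
  apply Finset.sum_congr rfl
  intro j _
  simp [mul_comm]

theorem p_HAD : S_HAD := by
  intro n v b hb
  obtain ⟨B, hB⟩ : ∃ B : Fin (n + 1) → E (n + 1), B = Fin.cons (v 0) (fun i => b i.succ) :=
    ⟨_, rfl⟩
  have hB0 : B 0 = v 0 := by rw [hB]; rfl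
  have hBs : ∀ i : Fin n, B i.succ = b i.succ := fun i => by rw [hB]; rfl
  have hmul : (Matrix.of fun i j => B i j) * (Matrix.of fun i j => v i j).transpose =
      Matrix.of (fun i k => ⟪B i, v k⟫) := by
    ext i k
    rw [Matrix.mul_apply]
    exact HAD_inner (B i) (v k)
  have htri : (Matrix.of (fun i k => ⟪B i, v k⟫)).det = ‖v 0‖ ^ 2 := by
    rw [Matrix.det_of_upperTriangular]
    · rw [Fin.prod_univ_succ]
      have h1 : ∀ i : Fin n, (Matrix.of (fun i k => ⟪B i, v k⟫)) i.succ i.succ = 1 := by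
        intro i
        rw [Matrix.of_apply, hBs, hb]
        simp
      simp only [h1, Finset.prod_const_one, mul_one]
      rw [Matrix.of_apply, hB0, real_inner_self_eq_norm_sq]
    · intro i k hik
      rw [Matrix.of_apply]
      refine Fin.cases ?_ ?_ i hik
      · intro h
        exact absurd h (Fin.not_lt_zero k)
      · intro i' h
        rw [hBs, hb, if_neg]
        exact ne_of_gt h
  have hdet : (Matrix.of fun i j => B i j).det * (Matrix.of fun i j => v i j).det = ‖v 0‖ ^ 2 := by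
    rw [← htri, ← hmul, Matrix.det_mul, Matrix.det_transpose]
  have hH := HAD_had (n + 1) B
  rw [Fin.prod_univ_succ, hB0] at hH
  simp only [hBs] at hH
  have hprod : 0 ≤ ∏ i : Fin n, ‖b i.succ‖ := Finset.prod_nonneg fun i _ => norm_nonneg _
  have hV := abs_nonneg (Matrix.of fun i j => v i j).det
  rcases (norm_nonneg (v 0)).eq_or_lt with h0 | h0
  · rw [← h0]
    exact mul_nonneg hV hprod
  · have h1 : ‖v 0‖ ^ 2 ≤ ‖v 0‖ * (|(Matrix.of fun i j => v i j).det| *
        ∏ i : Fin n, ‖b i.succ‖) := by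
      calc ‖v 0‖ ^ 2 = |‖v 0‖ ^ 2| := (abs_of_nonneg (by positivity)).symm
        _ = |(Matrix.of fun i j => B i j).det| * |(Matrix.of fun i j => v i j).det| := by
          rw [← hdet, abs_mul]
        _ ≤ (‖v 0‖ * ∏ i : Fin n, ‖b i.succ‖) * |(Matrix.of fun i j => v i j).det| :=
          mul_le_mul_of_nonneg_right hH hV
        _ = _ := by ring
    rw [sq] at h1
    exact le_of_mul_le_mul_left h1 h0

end Pool.Agent.ConvexMin
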