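import Pool.Agent.Work.MP_05fb57_th.Interface

/-!
# Blocks HOM and FINW: the width form in all dimensions
-/

namespace Pool.Agent.ConvexMin

open MeasureTheory Set Filter Topology
open scoped ENNReal RealInnerProductSpace ContDiff

/-- HOM: a convex set of volume at most `2 |D|` containing `D` lies in a strip. -/
def S_HOM : Prop := ∀ (d : ℕ) (D Ω : Set (E d)) (n : E d) (a w : ℝ), 1 ≤ d → IsOpen D → D.Nonempty →
  Convex ℝ Ω → D ⊆ Ω → (∀ x ∈ D, a < ⟪x, n⟫ ∧ ⟪x, n⟫ < a + w) → volume D < ⊤ →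
  volume Ω ≤ 2 * volume D → ∀ x ∈ Ω, ⟪x, n⟫ < a + 6 * d * w

/-- FINW: the width form. -/
def S_FINW : Prop := ∀ (d : ℕ) (D : Set (E d)) (n : E d) (a w : ℝ), 1 ≤ d → IsOpen D → D.Nonempty →
  volume D < ⊤ → ‖n‖ = 1 → (∀ x ∈ D, a < ⟪x, n⟫ ∧ ⟪x, n⟫ < a + w) →
  192 * (d : ℝ) ^ 3 * w ^ 2 < (volume D).toReal ^ (2 / (d : ℝ)) →
  ¬ HasConvexSolution D (2 * (volume D).toReal)

theorem p_HOM : S_HOM := by
  intro d D Ω n a w hd hDo hDn hΩ hDΩ hstrip hfin hvol x hx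
  by_contra hcon
  rw [not_lt] at hcon
  obtain ⟨y0, hy0⟩ := hDn
  have hw : 0 < w := by
    have := hstrip y0 hy0
    linarith
  have hd' : (1 : ℝ) ≤ d := by exact_mod_cast hd
  have hd0 : (0 : ℝ) < d := by linarith
  obtain ⟨h, hh⟩ : ∃ h : ℝ, h = ⟪x, n⟫ - a := ⟨_, rfl⟩
  have hh6 : 6 * d * w ≤ h := by linarith
  have hh0 : 0 < h := lt_of_lt_of_le (by positivity) hh6
  obtain ⟨s, hs⟩ : ∃ s : ℝ, s = w / h := ⟨_, rfl⟩
  have hs0 : 0 < s := by rw [hs]; positivity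
  have hsh : s * h = w := by
    rw [hs]; field_simp
  have hs1 : 6 * (d * s) ≤ 1 := by
    have h1 : 6 * (d * s) * h ≤ 1 * h := by
      have : 6 * (d * s) * h = 6 * d * w := by rw [← hsh]; ring
      rw [this, one_mul]
      exact hh6
    exact le_of_mul_le_mul_right h1 hh0
  have hs2 : 6 * s ≤ 1 := by
    have : s ≤ d * s := by
      have := mul_le_mul_of_nonneg_right hd' hs0.le
      linarith
    linarith
  obtain ⟨C, hC⟩ : ∃ C : Fin 4 → Set (E d), C = fun k : Fin 4 =>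
      AffineMap.homothety x (1 - ((k : ℕ) : ℝ) * s) '' D := ⟨_, rfl⟩
  have hk3 : ∀ k : Fin 4, ((k : ℕ) : ℝ) ≤ 3 := by
    intro k
    have := k.2
    have h1 : (k : ℕ) ≤ 3 := by omega
    exact_mod_cast h1
  have hk0 : ∀ k : Fin 4, (0 : ℝ) ≤ ((k : ℕ) : ℝ) := fun k => Nat.cast_nonneg _
  have hks : ∀ k : Fin 4, ((k : ℕ) : ℝ) * s ≤ 3 * s := fun k =>
    mul_le_mul_of_nonneg_right (hk3 k) hs0.le
  have hks0 : ∀ k : Fin 4, 0 ≤ ((k : ℕ) : ℝ) * s := fun k => mul_nonneg (hk0 k) hs0.le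
  have hr0 : ∀ k : Fin 4, 0 < 1 - ((k : ℕ) : ℝ) * s := by
    intro k
    have := hks k
    linarith
  have happ : ∀ (k : Fin 4) (y : E d), AffineMap.homothety x (1 - ((k : ℕ) : ℝ) * s) y =
      (((k : ℕ) : ℝ) * s) • x + (1 - ((k : ℕ) : ℝ) * s) • y := by
    intro k y
    rw [AffineMap.homothety_apply, vsub_eq_sub, vadd_eq_add, smul_sub]
    module
  have hsub : ∀ k, C k ⊆ Ω := by
    intro k z hz
    rw [hC] at hz
    obtain ⟨y, hy, rfl⟩ := hz
    rw [happ]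
    exact hΩ hx (hDΩ hy) (hks0 k) (hr0 k).le (by ring)
  have hopen : ∀ k, IsOpen (C k) := by
    intro k
    rw [hC]
    exact AffineMap.homothety_isOpenMap x _ (hr0 k).ne' D hDo
  have hval : ∀ k : Fin 4, ∀ z ∈ C k, a + ((k : ℕ) : ℝ) * w < ⟪z, n⟫ ∧
      ⟪z, n⟫ < a + (((k : ℕ) : ℝ) + 1) * w := by
    intro k z hz
    rw [hC] at hz
    obtain ⟨y, hy, rfl⟩ := hz
    obtain ⟨h1, h2⟩ := hstrip y hy
    rw [happ, inner_add_left, real_inner_smul_left, real_inner_smul_left]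
    have h3 : ⟪x, n⟫ = h + a := by rw [hh]; ring
    rw [h3]
    have h4 : ((k : ℕ) : ℝ) * s * (h + a) = ((k : ℕ) : ℝ) * w + ((k : ℕ) : ℝ) * s * a := by
      rw [← hsh]; ring
    rw [h4]
    have h5 : (1 - ((k : ℕ) : ℝ) * s) * a < (1 - ((k : ℕ) : ℝ) * s) * ⟪y, n⟫ :=
      mul_lt_mul_of_pos_left h1 (hr0 k)
    have h6 : (1 - ((k : ℕ) : ℝ) * s) * ⟪y, n⟫ < (1 - ((k : ℕ) : ℝ) * s) * (a + w) :=
      mul_lt_mul_of_pos_left h2 (hr0 k)
    have h7 : 0 ≤ ((k : ℕ) : ℝ) * s * w := mul_nonneg (hks0 k) hw.le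
    constructor
    · linarith
    · nlinarith
  have hdisj : Pairwise (Function.onFun Disjoint C) := by
    have key : ∀ i j : Fin 4, (i : ℕ) < (j : ℕ) → Disjoint (C i) (C j) := by
      intro i j hij
      rw [Set.disjoint_left]
      intro z hzi hzj
      have h1 := (hval i z hzi).2
      have h2 := (hval j z hzj).1
      have h3 : ((i : ℕ) : ℝ) + 1 ≤ ((j : ℕ) : ℝ) := by exact_mod_cast hij
      have h4 := mul_le_mul_of_nonneg_right h3 hw.le
      linarith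
    intro i j hij
    have hne : (i : ℕ) ≠ (j : ℕ) := fun h => hij (Fin.ext h)
    rcases lt_or_gt_of_ne hne with h1 | h1
    · exact key i j h1
    · exact (key j i h1).symm
  have hvolC : ∀ k, volume (C k) = ENNReal.ofReal ((1 - ((k : ℕ) : ℝ) * s) ^ d) * volume D := by
    intro k
    rw [hC]
    show volume (AffineMap.homothety x (1 - ((k : ℕ) : ℝ) * s) '' D) = _
    rw [Measure.addHaar_image_homothety, finrank_euclideanSpace_fin,
      abs_of_nonneg (pow_nonneg (hr0 k).le d)]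
  have hbern : ∀ k : Fin 4, 1 / 2 ≤ (1 - ((k : ℕ) : ℝ) * s) ^ d := by
    intro k
    have h1 := one_add_mul_le_pow (a := -(((k : ℕ) : ℝ) * s)) (by
      have := hks k
      linarith) d
    have h2 : (d : ℝ) * (((k : ℕ) : ℝ) * s) ≤ 1 / 2 := by
      have h3 : (d : ℝ) * (((k : ℕ) : ℝ) * s) = ((k : ℕ) : ℝ) * (d * s) := by ring
      have h4 : ((k : ℕ) : ℝ) * (d * s) ≤ 3 * (d * s) :=
        mul_le_mul_of_nonneg_right (hk3 k) (by positivity)
      linarith
    have h5 : 1 + (d : ℝ) * -(((k : ℕ) : ℝ) * s) = 1 - (d : ℝ) * (((k : ℕ) : ℝ) * s) := by ring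
    have h6 : (1 + -(((k : ℕ) : ℝ) * s)) = 1 - ((k : ℕ) : ℝ) * s := by ring
    rw [h5, h6] at h1
    linarith
  have hpos : 0 < volume D := hDo.measure_pos volume ⟨y0, hy0⟩
  obtain ⟨v, hv⟩ : ∃ v : ℝ, v = (volume D).toReal := ⟨_, rfl⟩
  have hv0 : 0 < v := by
    rw [hv]; exact ENNReal.toReal_pos hpos.ne' hfin.ne
  have hVv : volume D = ENNReal.ofReal v := by
    rw [hv, ENNReal.ofReal_toReal hfin.ne]
  have hsum : ∑ k : Fin 4, volume (C k) ≤ 2 * volume D := by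
    calc ∑ k : Fin 4, volume (C k) = ∑' k : Fin 4, volume (C k) := (tsum_fintype _).symm
      _ = volume (⋃ k, C k) := (measure_iUnion hdisj fun k => (hopen k).measurableSet).symm
      _ ≤ volume Ω := measure_mono (iUnion_subset hsub)
      _ ≤ 2 * volume D := hvol
  have hCk : ∀ k, ENNReal.ofReal (v / 2) ≤ volume (C k) := by
    intro k
    rw [hvolC, hVv, ← ENNReal.ofReal_mul (by have := hbern k; linarith)]
    apply ENNReal.ofReal_le_ofReal
    have := mul_le_mul_of_nonneg_right (hbern k) hv0.le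
    linarith
  have hC0 : volume (C 0) = ENNReal.ofReal v := by
    rw [hvolC, hVv]
    simp
  rw [Fin.sum_univ_four, hC0, hVv] at hsum
  have h1 := hCk 1
  have h2 := hCk 2
  have h3 := hCk 3
  have h4 : ENNReal.ofReal v + ENNReal.ofReal (v / 2) + ENNReal.ofReal (v / 2) +
      ENNReal.ofReal (v / 2) ≤ 2 * ENNReal.ofReal v := by
    refine le_trans ?_ hsum
    gcongr
  have h5 : (2 : ℝ≥0∞) * ENNReal.ofReal v = ENNReal.ofReal (2 * v) := by
    rw [ENNReal.ofReal_mul (by norm_num), ENNReal.ofReal_ofNat]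
  rw [← ENNReal.ofReal_add (by positivity) (by positivity),
    ← ENNReal.ofReal_add (by positivity) (by positivity),
    ← ENNReal.ofReal_add (by positivity) (by positivity), h5,
    ENNReal.ofReal_le_ofReal_iff (by positivity)] at h4
  linarith

theorem p_FINW (hLOW : S_LOW) (hUPP : S_UPP) (hADM : S_ADM) (hHOM : S_HOM) : S_FINW := by
  intro d D n a w hd hDo hDn hfin hn hstrip hthin
  rintro ⟨Ω, ⟨⟨_, hDΩ, hvol⟩, hmin⟩, hconv⟩
  obtain ⟨A, hA⟩ : ∃ A : ℝ, A = (volume D).toReal := ⟨_, rfl⟩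
  rw [← hA] at hthin hvol hmin
  have hpos : 0 < volume D := hDo.measure_pos volume hDn
  have hA0 : 0 < A := by rw [hA]; exact ENNReal.toReal_pos hpos.ne' hfin.ne
  have hVA : volume D = ENNReal.ofReal A := by rw [hA, ENNReal.ofReal_toReal hfin.ne]
  have h5 : (2 : ℝ≥0∞) * ENNReal.ofReal A = ENNReal.ofReal (2 * A) := by
    rw [ENNReal.ofReal_mul (by norm_num), ENNReal.ofReal_ofNat]
  have hvol2 : volume Ω ≤ 2 * volume D := by
    rw [hVA, h5]
    exact hvol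
  obtain ⟨y0, hy0⟩ := hDn
  have hw : 0 < w := by
    have := hstrip y0 hy0
    linarith
  have hd' : (1 : ℝ) ≤ d := by exact_mod_cast hd
  have hd0 : (0 : ℝ) < d := by linarith
  have hup := hHOM d D Ω n a w hd hDo ⟨y0, hy0⟩ hconv hDΩ hstrip hfin hvol2
  have hlo := hHOM d D Ω (-n) (-a - w) w hd hDo ⟨y0, hy0⟩ hconv hDΩ (by
    intro y hy
    obtain ⟨h1, h2⟩ := hstrip y hy
    rw [inner_neg_right]
    constructor <;> linarith) hfin hvol2
  have hW : 0 < 12 * d * w := by positivity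
  have hLOW' := hLOW d Ω n (a - 6 * d * w) (12 * d * w) hn hW (by
    intro y hy
    have h1 := hup y hy
    have h2 := hlo y hy
    rw [inner_neg_right] at h2
    constructor <;> linarith)
  obtain ⟨s, hs⟩ : ∃ s : ℝ, s = A ^ (1 / (d : ℝ)) := ⟨_, rfl⟩
  have hs0 : 0 < s := by rw [hs]; exact Real.rpow_pos_of_pos hA0 _
  have hsd : s ^ d = A := by
    rw [hs, ← Real.rpow_natCast, ← Real.rpow_mul hA0.le]
    rw [one_div, inv_mul_cancel₀ hd0.ne', Real.rpow_one]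
  have hs2 : s ^ 2 = A ^ (2 / (d : ℝ)) := by
    rw [hs, ← Real.rpow_natCast, ← Real.rpow_mul hA0.le]
    congr 1
    push_cast
    ring
  have hadm := hADM d D (2 * A) s hDo (by
    rw [hVA]; exact ENNReal.ofReal_le_ofReal (by linarith)) hs0 (by rw [← hA, hsd]; ring)
  have h6 := hmin _ hadm
  have h7 := hUPP d s (D ∪ cube d s) hs0 hd subset_union_right
  have h8 := (hLOW'.trans h6).trans h7
  rw [ENNReal.ofReal_le_ofReal_iff (by positivity)] at h8
  rw [← hs2] at hthin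
  have hpi : 0 < Real.pi ^ 2 := by positivity
  have h9 : (Real.pi / (12 * d * w)) ^ 2 = Real.pi ^ 2 / (144 * d ^ 2 * w ^ 2) := by
    rw [div_pow]; congr 1; ring
  rw [h9, div_le_div_iff₀ (by positivity) (by positivity)] at h8
  have h10 : Real.pi ^ 2 * s ^ 2 ≤ Real.pi ^ 2 * (192 * (d : ℝ) ^ 3 * w ^ 2) := by
    calc Real.pi ^ 2 * s ^ 2 ≤ 4 / 3 * d * Real.pi ^ 2 * (144 * d ^ 2 * w ^ 2) := h8
      _ = _ := by ring
  have h11 := le_of_mul_le_mul_left h10 hpi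
  linarith

end Pool.Agent.ConvexMin
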