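import Pool.Agent.Work.MP_05fb57_th.Interface

namespace Pool.Agent.ConvexMin

open MeasureTheory Set Filter Topology

theorem p_LIM : S_LIM := by
  intro w hw
  have h1 : Tendsto (fun t : ℝ => Real.sinc (Real.pi * t / (w + 2 * t) / 2) ^ 2 * (Real.pi / (w + 2 * t)) ^ 2)
      (𝓝[>] 0) (𝓝 ((Real.pi / w) ^ 2)) := by
    have hc : ContinuousAt (fun t : ℝ => Real.sinc (Real.pi * t / (w + 2 * t) / 2) ^ 2 *
        (Real.pi / (w + 2 * t)) ^ 2) 0 := by
      have hd : ContinuousAt (fun t : ℝ => w + 2 * t) 0 := by fun_prop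
      have hne : w + 2 * (0 : ℝ) ≠ 0 := by simpa using hw.ne'
      have e1 : ContinuousAt (fun t : ℝ => Real.pi * t / (w + 2 * t) / 2) 0 :=
        (ContinuousAt.div (by fun_prop) hd hne).div_const 2
      have e2 : ContinuousAt (fun t : ℝ => Real.sinc (Real.pi * t / (w + 2 * t) / 2)) 0 :=
        ContinuousAt.comp (g := Real.sinc) Real.continuous_sinc.continuousAt e1
      exact (e2.pow 2).mul ((ContinuousAt.div continuousAt_const hd hne).pow 2)
    have h2 : Tendsto (fun t : ℝ => Real.sinc (Real.pi * t / (w + 2 * t) / 2) ^ 2 * (Real.pi / (w + 2 * t)) ^ 2)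
        (𝓝[>] 0) (𝓝 (Real.sinc (Real.pi * 0 / (w + 2 * 0) / 2) ^ 2 * (Real.pi / (w + 2 * 0)) ^ 2)) :=
      hc.tendsto.mono_left nhdsWithin_le_nhds
    simpa using h2
  refine h1.congr' ?_
  filter_upwards [self_mem_nhdsWithin] with t ht
  have ht : 0 < t := ht
  have hp := Real.pi_pos
  have hd : 0 < w + 2 * t := by positivity
  have hx : Real.pi * t / (w + 2 * t) / 2 ≠ 0 := by positivity
  rw [Real.sinc_of_ne_zero hx]
  have hcos : 2 - 2 * Real.cos (Real.pi * t / (w + 2 * t)) = 4 * Real.sin (Real.pi * t / (w + 2 * t) / 2) ^ 2 := by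
    have h3 : Real.pi * t / (w + 2 * t) = 2 * (Real.pi * t / (w + 2 * t) / 2) := by ring
    conv_lhs => rw [h3, Real.cos_two_mul]
    have h4 := Real.sin_sq_add_cos_sq (Real.pi * t / (w + 2 * t) / 2)
    linear_combination (-4) * h4
  rw [hcos]
  field_simp
  try ring

end Pool.Agent.ConvexMin
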