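import Pool.Agent.Work.MP_05fb57_th.Interface

namespace Pool.Agent.ConvexMin

open MeasureTheory Set Filter Topology
open scoped ENNReal RealInnerProductSpace ContDiff

theorem p_LOW (hPOI : S_POI) (hCAP0 : S_CAP0) : S_LOW := by
  intro d Ω e a w he hw hΩ
  unfold lam1
  refine le_iInf fun u => le_iInf fun g => le_iInf fun h => le_iInf fun hne => ?_
  obtain ⟨hH1, v, _, hvu, hcap⟩ := h
  have hvol : volume {x | x ∉ Ω ∧ v x ≠ 0} = 0 := hCAP0 d _ hcap
  have hae : ∀ᵐ x ∂volume, ¬ (x ∉ Ω ∧ v x ≠ 0) := by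
    rw [ae_iff]
    simpa using hvol
  have hstrip : ∀ᵐ x ∂volume, ¬ (a ≤ ⟪x, e⟫ ∧ ⟪x, e⟫ ≤ a + w) → u x = 0 := by
    filter_upwards [hae, hvu] with x h1 h2 h3
    have hx : x ∉ Ω := fun hx => h3 (hΩ x hx)
    by_contra hu
    exact h1 ⟨hx, by rw [h2]; exact hu⟩
  have hpoi := hPOI d u g e a w hH1 he hw hstrip
  have hint : Integrable (fun x => u x ^ 2) volume := hH1.memLp.integrable_sq
  have hnn : 0 ≤ᵐ[volume] fun x => u x ^ 2 := Eventually.of_forall fun x => sq_nonneg _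
  have hpos : 0 < ∫ x, u x ^ 2 := by
    rcases (integral_nonneg_of_ae hnn).lt_or_eq with h | h
    · exact h
    · exfalso
      apply hne
      have h0 := (integral_eq_zero_iff_of_nonneg_ae hnn hint).1 h.symm
      filter_upwards [h0] with x hx
      simpa using hx
  apply ENNReal.ofReal_le_ofReal
  rw [le_div_iff₀ hpos]
  exact hpoi

end Pool.Agent.ConvexMin
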