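import Pool.Agent.Work.MP_05fb57_th.Interface

/-!
Block MAXD (helper31): a simplex of almost maximal volume with a given edge.
-/

set_option autoImplicit false
set_option linter.unusedVariables false

namespace Pool.Agent.ConvexMin

open MeasureTheory Set Module

/-- a linearly independent family with first member `u` in a spanning set -/
lemma MAXD_ext (n : ℕ) (t : Set (E (n + 1))) (u : E (n + 1)) (hu : u ∈ t) (hu0 : u ≠ 0)
    (ht : Submodule.span ℝ t = ⊤) : ∃ v : Fin (n + 1) → E (n + 1), v 0 = u ∧ (∀ i, v i ∈ t) ∧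
      LinearIndependent ℝ v := by
  have h1 : LinearIndepOn ℝ id ({u} : Set (E (n + 1))) :=
    linearIndepOn_singleton_iff (R := ℝ) |>.2 hu0
  obtain ⟨b, hbt, hub, htb, hb⟩ := exists_linearIndepOn_id_extension h1
    (Set.singleton_subset_iff.2 hu)
  have hb' : LinearIndependent ℝ ((↑) : b → E (n + 1)) := hb
  have hsp : ⊤ ≤ Submodule.span ℝ (Set.range ((↑) : b → E (n + 1))) := by
    rw [Subtype.range_coe, ← ht, Submodule.span_le]
    exact htb
  let Bs : Basis b ℝ (E (n + 1)) := Basis.mk hb' hsp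
  have : Fintype b := FiniteDimensional.fintypeBasisIndex Bs
  have hcard : Fintype.card b = n + 1 := by
    rw [← finrank_eq_card_basis Bs]
    simp
  have hub' : u ∈ b := hub rfl
  let e0 := Fintype.equivFinOfCardEq hcard
  let e := e0.trans (Equiv.swap (e0 ⟨u, hub'⟩) 0)
  have he : e ⟨u, hub'⟩ = 0 := by
    change Equiv.swap (e0 ⟨u, hub'⟩) 0 (e0 ⟨u, hub'⟩) = 0
    exact Equiv.swap_apply_left _ _
  refine ⟨fun i => (e.symm i : E (n + 1)), ?_, fun i => hbt (e.symm i).2, ?_⟩
  · change ((e.symm 0 : b) : E (n + 1)) = u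
    rw [← he, Equiv.symm_apply_apply]
  · exact hb'.comp e.symm e.symm.injective

lemma MAXD_det (n : ℕ) (v : Fin (n + 1) → E (n + 1)) (hv : LinearIndependent ℝ v) :
    (Matrix.of fun i j => v i j).det ≠ 0 := by
  have h1 : LinearIndependent ℝ (fun i => (WithLp.linearEquiv 2 ℝ (Fin (n + 1) → ℝ)) (v i)) :=
    hv.map' (WithLp.linearEquiv 2 ℝ (Fin (n + 1) → ℝ)).toLinearMap (LinearEquiv.ker _)
  have h2 : LinearIndependent ℝ (Matrix.of fun i j => v i j).row := h1
  rw [Matrix.linearIndependent_rows_iff_isUnit, Matrix.isUnit_iff_isUnit_det] at h2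
  exact h2.ne_zero

theorem p_MAXD (hSIM : S_SIM) : S_MAXD := by
  intro n Ω p q m hconv hint hp hq hpq hvol
  let T : Set (Fin (n + 1) → E (n + 1)) := {v | v 0 = q - p ∧ ∀ i, p + v i ∈ Ω}
  let f : (Fin (n + 1) → E (n + 1)) → ℝ := fun v => |(Matrix.of fun i j => v i j).det|
  have hspan : Submodule.span ℝ ((fun x => x - p) '' Ω) = ⊤ := by
    apply Submodule.eq_top_of_nonempty_interior'
    obtain ⟨c, hc⟩ := hint
    refine ⟨c - p, ?_⟩
    have h1 : (fun x => x - p) '' interior Ω ⊆
        interior (Submodule.span ℝ ((fun x => x - p) '' Ω) : Set (E (n + 1))) := by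
      apply interior_maximal
      · exact (Set.image_mono interior_subset).trans Submodule.subset_span
      · exact (Homeomorph.subRight p).isOpenMap _ isOpen_interior
    exact h1 ⟨c, hc, rfl⟩
  obtain ⟨v0, hv00, hv0t, hv0i⟩ := MAXD_ext n ((fun x => x - p) '' Ω) (q - p) ⟨q, hq, rfl⟩
    (sub_ne_zero.2 (Ne.symm hpq)) hspan
  have hv0T : v0 ∈ T := by
    refine ⟨hv00, fun i => ?_⟩
    obtain ⟨x, hx, hxi⟩ := hv0t i
    have hxi' : x - p = v0 i := hxi
    rw [← hxi', add_sub_cancel]
    exact hx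
  have hpos : 0 < f v0 := abs_pos.2 (MAXD_det n v0 hv0i)
  have hbd : BddAbove (f '' T) := by
    refine ⟨((n + 1 : ℕ) : ℝ) ^ (n + 1) * |m|, ?_⟩
    rintro _ ⟨v, hv, rfl⟩
    have h1 := (hSIM (n + 1) Ω p v (by omega) hconv hp hv.2).trans hvol
    have hd : (0 : ℝ) < ((n + 1 : ℕ) : ℝ) ^ (n + 1) := by positivity
    rcases ENNReal.ofReal_le_ofReal_iff'.1 h1 with h2 | h2
    · rw [div_le_iff₀ hd] at h2
      calc f v ≤ m * ((n + 1 : ℕ) : ℝ) ^ (n + 1) := h2
        _ ≤ |m| * ((n + 1 : ℕ) : ℝ) ^ (n + 1) :=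
            mul_le_mul_of_nonneg_right (le_abs_self m) hd.le
        _ = _ := mul_comm _ _
    · rw [div_le_iff₀ hd, zero_mul] at h2
      exact h2.trans (by positivity)
  have hne : (f '' T).Nonempty := ⟨_, v0, hv0T, rfl⟩
  have hsup : 0 < sSup (f '' T) := lt_of_lt_of_le hpos (le_csSup hbd ⟨v0, hv0T, rfl⟩)
  obtain ⟨_, ⟨v, hv, rfl⟩, hvs⟩ := exists_lt_of_lt_csSup hne (half_lt_self hsup)
  refine ⟨v, hv.1, hv.2, ?_, ?_⟩
  · intro h0
    have : f v = 0 := by
      change |(Matrix.of fun i j => v i j).det| = 0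
      rw [h0, abs_zero]
    rw [this] at hvs
    linarith
  · intro x hx i
    have hmem : Function.update v i.succ (x - p) ∈ T := by
      refine ⟨?_, ?_⟩
      · rw [Function.update_of_ne (Fin.succ_ne_zero i).symm]
        exact hv.1
      · intro k
        by_cases hk : k = i.succ
        · rw [hk, Function.update_self, add_sub_cancel]
          exact hx
        · rw [Function.update_of_ne hk]
          exact hv.2 k
    have h1 : f (Function.update v i.succ (x - p)) ≤ sSup (f '' T) := le_csSup hbd ⟨_, hmem, rfl⟩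
    have h2 : sSup (f '' T) ≤ 2 * f v := by linarith
    exact h1.trans h2

end Pool.Agent.ConvexMin
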