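import Pool.Agent.Work.MP_05fb57_th.Interface

/-!
# MP_05fb57_an: block POI
-/

namespace Pool.Agent.ConvexMin

open MeasureTheory Set Filter Topology
open scoped ENNReal RealInnerProductSpace ContDiff

theorem p_POI (hTRL : S_TRL) (hDSC : S_DSC) (hLIM : S_LIM) : S_POI := by
  intro d u g e a w hu he hw hz
  have key : ∀ t : ℝ, 0 < t → (2 - 2 * Real.cos (Real.pi * t / (w + 2 * t))) / t ^ 2 *
      ∫ x, u x ^ 2 ≤ ∫ x, ⟪g x, e⟫ ^ 2 := by
    intro t ht
    have h1 := hDSC d u e a w t hu.memLp he hw ht hz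
    have h2 := hTRL d u g hu (t • e)
    have h3 : ∫ x, ⟪g x, t • e⟫ ^ 2 = t ^ 2 * ∫ x, ⟪g x, e⟫ ^ 2 := by
      rw [← integral_const_mul]
      congr 1
      funext x
      rw [real_inner_smul_right, mul_pow]
    rw [h3] at h2
    rw [div_mul_eq_mul_div, div_le_iff₀ (by positivity)]
    linarith
  have hlim := (hLIM w hw).mul_const (∫ x, u x ^ 2)
  have h4 : (Real.pi / w) ^ 2 * ∫ x, u x ^ 2 ≤ ∫ x, ⟪g x, e⟫ ^ 2 := by
    refine le_of_tendsto hlim ?_
    filter_upwards [self_mem_nhdsWithin] with t ht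
    exact key t ht
  refine h4.trans ?_
  refine integral_mono_of_nonneg (Eventually.of_forall fun x => sq_nonneg _)
    ((memLp_two_iff_integrable_sq_norm hu.memLp_grad.1).1 hu.memLp_grad)
    (Eventually.of_forall fun x => ?_)
  have h5 := abs_real_inner_le_norm (g x) e
  rw [he, mul_one] at h5
  exact sq_le_sq' (abs_le.1 h5).1 (abs_le.1 h5).2

end Pool.Agent.ConvexMin
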