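import Pool.Agent.Work.MP_05fb57_th.Interface

set_option autoImplicit false

namespace Pool.Agent.ConvexMin

open MeasureTheory Set Filter Topology
open scoped ENNReal RealInnerProductSpace

theorem SIM_box (d : ℕ) (r : ℝ) :
    volume {t : E d | ∀ i, 0 ≤ t i ∧ t i ≤ r} = ENNReal.ofReal r ^ d := by
  have h1 : {t : E d | ∀ i, 0 ≤ t i ∧ t i ≤ r} =
      (WithLp.ofLp : E d → (Fin d → ℝ)) ⁻¹' (Set.Icc (fun _ => 0) (fun _ => r)) := by
    ext t
    simp only [Set.mem_setOf_eq, Set.mem_preimage, Set.mem_Icc, Pi.le_def]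
    exact forall_and
  rw [h1, (PiLp.volume_preserving_ofLp (Fin d)).measure_preimage
    (measurableSet_Icc.nullMeasurableSet), Real.volume_Icc_pi]
  simp

theorem SIM_lin (d : ℕ) (v : Fin d → E d) : ∃ f : E d →ₗ[ℝ] E d,
    LinearMap.det f = (Matrix.of fun i j => v i j).det ∧ ∀ t : E d, f t = ∑ i, t i • v i := by
  let M : Matrix (Fin d) (Fin d) ℝ := Matrix.of fun i j => v i j
  let b := (EuclideanSpace.basisFun (Fin d) ℝ).toBasis
  refine ⟨Matrix.toLin b b M.transpose, ?_, ?_⟩
  · rw [LinearMap.det_toLin, Matrix.det_transpose]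
  · intro t
    have h1 : Matrix.toLin b b M.transpose = Matrix.toEuclideanLin M.transpose := by
      rw [Matrix.toEuclideanLin_eq_toLin_orthonormal]
    rw [h1]
    ext j
    simp only [Matrix.toEuclideanLin_apply, PiLp.toLp_apply, Matrix.mulVec, dotProduct,
      Matrix.transpose_apply, M, Matrix.of_apply]
    rw [WithLp.ofLp_sum, Finset.sum_apply]
    refine Finset.sum_congr rfl fun i _ => ?_
    simp [mul_comm]

theorem p_SIM : S_SIM := by
  intro d Ω p v hd hconv hp hv
  obtain ⟨f, hf1, hf2⟩ := SIM_lin d v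
  let C : Set (E d) := {t : E d | ∀ i, 0 ≤ t i ∧ t i ≤ 1 / (d : ℝ)}
  have hdpos : (0 : ℝ) < d := by exact_mod_cast hd
  have hsub : (fun x => p + x) '' (f '' C) ⊆ Ω := by
    rintro _ ⟨_, ⟨t, ht, rfl⟩, rfl⟩
    have hsum : ∑ i, t i ≤ 1 := by
      have h1 : ∑ i, t i ≤ ∑ _i : Fin d, 1 / (d : ℝ) :=
        Finset.sum_le_sum fun i _ => (ht i).2
      rw [Finset.sum_const, Finset.card_univ, Fintype.card_fin, nsmul_eq_mul,
        mul_one_div_cancel hdpos.ne'] at h1
      exact h1
    let w : Option (Fin d) → ℝ := fun o => o.elim (1 - ∑ i, t i) (fun i => t i)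
    let z : Option (Fin d) → E d := fun o => o.elim p (fun i => p + v i)
    have h2 : ∑ o, w o • z o ∈ Ω := by
      refine hconv.sum_mem ?_ ?_ ?_
      · intro o _
        cases o with
        | none => exact sub_nonneg.2 hsum
        | some i => exact (ht i).1
      · rw [Fintype.sum_option]
        change (1 - ∑ i, t i) + ∑ i, t i = 1
        ring
      · intro o _
        cases o with
        | none => exact hp
        | some i => exact hv i
    have h3 : ∑ o, w o • z o = p + f t := by
      rw [Fintype.sum_option, hf2]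
      change (1 - ∑ i, t i) • p + ∑ i, t i • (p + v i) = _
      simp only [smul_add, Finset.sum_add_distrib, ← Finset.sum_smul]
      rw [sub_smul, one_smul]
      abel
    rw [h3] at h2
    exact h2
  refine le_trans (le_of_eq ?_) (measure_mono hsub)
  have h4 : volume ((fun x => p + x) '' (f '' C)) = volume (f '' C) := by
    rw [Set.image_add_left, measure_preimage_add]
  rw [h4, Measure.addHaar_image_linearMap, hf1, SIM_box, ← ENNReal.ofReal_pow (by positivity),
    ← ENNReal.ofReal_mul (abs_nonneg _)]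
  congr 1
  rw [one_div, inv_pow, div_eq_mul_inv]

end Pool.Agent.ConvexMin
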