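import Pool.Agent.Work.MP_05fb57_th.Interface

/-!
# MP_05fb57_an, block TRC: smoothness and support of the trial function
-/

namespace Pool.Agent.ConvexMin

open MeasureTheory Set Filter Topology
open scoped ENNReal RealInnerProductSpace ContDiff

namespace Trc

theorem zero_off (d : ℕ) (s : ℝ) (x : E d) (hx : x ∉ cube d s) : tri d s x = 0 := by
  have h1 : ∃ i, ¬ (0 < x i ∧ x i < s) := by
    by_contra h
    push Not at h
    exact hx (fun i => h i)
  obtain ⟨i, hi⟩ := h1
  unfold tri
  apply Finset.prod_eq_zero (Finset.mem_univ i)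
  unfold bmp
  rw [if_neg hi]

theorem hasF (d : ℕ) (s : ℝ) (h1 : ContDiff ℝ 1 (bmp s)) (x : E d) :
    HasFDerivAt (tri d s) (∑ i, (∏ j ∈ Finset.univ.erase i, bmp s (x j)) •
      (deriv (bmp s) (x i) • (EuclideanSpace.proj i : E d →L[ℝ] ℝ))) x := by
  classical
  have h2 : ∀ i ∈ (Finset.univ : Finset (Fin d)), HasFDerivAt (fun x : E d => bmp s (x i))
      (deriv (bmp s) (x i) • (EuclideanSpace.proj i : E d →L[ℝ] ℝ)) x := by
    intro i _
    have h3 : HasDerivAt (bmp s) (deriv (bmp s) (x i)) ((EuclideanSpace.proj i : E d →L[ℝ] ℝ) x) :=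
      ((h1.differentiable (by norm_num)) (x i)).hasDerivAt
    exact h3.comp_hasFDerivAt x (EuclideanSpace.proj i : E d →L[ℝ] ℝ).hasFDerivAt
  exact HasFDerivAt.finsetProd h2

end Trc

theorem p_TRC (hBMP : S_BMP) : S_TRC := by
  classical
  intro d s hs hd
  obtain ⟨h1, -, -, -⟩ := hBMP s hs
  refine ⟨?_, ?_, Trc.zero_off d s, ?_⟩
  · unfold tri
    apply contDiff_prod
    intro i _
    exact h1.comp (EuclideanSpace.proj i : E d →L[ℝ] ℝ).contDiff
  · apply HasCompactSupport.intro (K := (WithLp.toLp 2) '' (Set.pi Set.univ fun _ : Fin d => Set.Icc (0 : ℝ) s))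
    · exact (isCompact_univ_pi fun _ => isCompact_Icc).image (PiLp.continuous_toLp 2 _)
    · intro x hx
      apply Trc.zero_off
      intro hxc
      apply hx
      refine ⟨WithLp.ofLp x, fun i _ => ⟨(hxc i).1.le, (hxc i).2.le⟩, rfl⟩
  · intro x
    rw [EuclideanSpace.real_norm_sq_eq]
    apply Finset.sum_congr rfl
    intro i _
    congr 1
    have h3 : (gradient (tri d s) x) i = fderiv ℝ (tri d s) x (EuclideanSpace.single i (1 : ℝ)) := by
      have h4 : ⟪gradient (tri d s) x, EuclideanSpace.single i (1 : ℝ)⟫ =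
          fderiv ℝ (tri d s) x (EuclideanSpace.single i (1 : ℝ)) := by
        unfold gradient
        rw [InnerProductSpace.toDual_symm_apply]
      rw [← h4, EuclideanSpace.inner_single_right]
      simp
    rw [h3, (Trc.hasF d s h1 x).fderiv]
    have key : ∀ j : Fin d, (EuclideanSpace.proj j : E d →L[ℝ] ℝ)
        (EuclideanSpace.single i (1 : ℝ)) = if j = i then 1 else 0 := by
      intro j
      show (EuclideanSpace.single i (1 : ℝ) : E d) j = _
      rw [PiLp.single_apply]
    rw [sum_apply, Finset.sum_eq_single i]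
    · rw [smul_apply, smul_apply, key, if_pos rfl, smul_eq_mul, smul_eq_mul, mul_one, mul_comm]
    · intro j _ hj
      rw [smul_apply, smul_apply, key, if_neg hj, smul_zero, smul_zero]
    · intro h
      exact absurd (Finset.mem_univ i) h

end Pool.Agent.ConvexMin
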