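import Pool.Agent.Work.MP_05fb57_th.Interface

namespace Pool.Agent.ConvexMin

open MeasureTheory Set Filter Topology
open scoped ENNReal RealInnerProductSpace ContDiff

namespace Tri

theorem integrable_of_ne {f : ℝ → ℝ} (h : ∫ t, f t ≠ 0) : Integrable f := by
  by_contra hcon
  exact h (integral_undef hcon)

theorem transfer {d : ℕ} (f : (Fin d → ℝ) → ℝ) :
    ∫ x : E d, f (fun i => x i) = ∫ y : Fin d → ℝ, f y := by
  exact (EuclideanSpace.volume_preserving_symm_measurableEquiv_toLp (Fin d)).integral_comp' f

theorem transfer_int {d : ℕ} (f : (Fin d → ℝ) → ℝ) (hf : Integrable f) :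
    Integrable (fun x : E d => f (fun i => x i)) := by
  exact (EuclideanSpace.volume_preserving_symm_measurableEquiv_toLp (Fin d)).integrable_comp_of_integrable hf

end Tri

theorem p_TRI (hBMP : S_BMP) (hTRC : S_TRC) : S_TRI := by
  intro d s hs hd
  obtain ⟨-, -, hb, hb'⟩ := hBMP s hs
  obtain ⟨-, -, -, hgrad⟩ := hTRC d s hs hd
  have hi1 : Integrable (fun t => bmp s t ^ 2) := by
    apply Tri.integrable_of_ne
    rw [hb]
    positivity
  have hi2 : Integrable (fun t => deriv (bmp s) t ^ 2) := by
    apply Tri.integrable_of_ne
    rw [hb']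
    positivity
  refine ⟨?_, ?_⟩
  · have h1 : ∀ x : E d, tri d s x ^ 2 = (fun y : Fin d → ℝ => ∏ i, bmp s (y i) ^ 2) (fun i => x i) := by
      intro x
      rw [tri, ← Finset.prod_pow]
    simp only [h1]
    rw [Tri.transfer (fun y : Fin d → ℝ => ∏ i, bmp s (y i) ^ 2),
      integral_fintype_prod_volume_eq_prod (fun (_ : Fin d) t => bmp s t ^ 2)]
    simp only [hb, Finset.prod_const, Finset.card_univ, Fintype.card_fin]
  · let G : Fin d → Fin d → ℝ → ℝ := fun i j t => if j = i then deriv (bmp s) t ^ 2 else bmp s t ^ 2
    have hG : ∀ i j, Integrable (G i j) := by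
      intro i j
      by_cases h : j = i
      · have : G i j = fun t => deriv (bmp s) t ^ 2 := by
          funext t
          simp [G, h]
        rw [this]
        exact hi2
      · have : G i j = fun t => bmp s t ^ 2 := by
          funext t
          simp [G, h]
        rw [this]
        exact hi1
    have h1 : ∀ (x : E d) (i : Fin d),
        (deriv (bmp s) (x i) * ∏ j ∈ Finset.univ.erase i, bmp s (x j)) ^ 2 =
        (fun y : Fin d → ℝ => ∏ j, G i j (y j)) (fun i => x i) := by
      intro x i
      change _ = ∏ j, G i j (x j)
      rw [← Finset.mul_prod_erase Finset.univ (fun j => G i j (x j)) (Finset.mem_univ i), mul_pow,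
        ← Finset.prod_pow]
      congr 1
      · simp [G]
      · refine Finset.prod_congr rfl ?_
        intro j hj
        have := Finset.ne_of_mem_erase hj
        simp [G, this]
    have h2 : ∀ x : E d, ‖gradient (tri d s) x‖ ^ 2 =
        ∑ i, (fun y : Fin d → ℝ => ∏ j, G i j (y j)) (fun i => x i) := by
      intro x
      rw [hgrad]
      exact Finset.sum_congr rfl (fun i _ => h1 x i)
    simp only [h2]
    rw [integral_finsetSum]
    · have h3 : ∀ i : Fin d, ∫ x : E d, (fun y : Fin d → ℝ => ∏ j, G i j (y j)) (fun i => x i) =
          (Real.pi ^ 2 / (2 * s)) * (3 * s / 8) ^ (d - 1) := by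
        intro i
        rw [Tri.transfer (fun y : Fin d → ℝ => ∏ j, G i j (y j)),
          integral_fintype_prod_volume_eq_prod (G i),
          ← Finset.mul_prod_erase Finset.univ _ (Finset.mem_univ i)]
        congr 1
        · simp [G, hb']
        · rw [Finset.prod_congr rfl (g := fun _ => 3 * s / 8)]
          · rw [Finset.prod_const, Finset.card_erase_of_mem (Finset.mem_univ i), Finset.card_univ,
              Fintype.card_fin]
          · intro j hj
            have := Finset.ne_of_mem_erase hj
            simp [G, this, hb]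
      rw [Finset.sum_congr rfl (fun i _ => h3 i), Finset.sum_const, Finset.card_univ,
        Fintype.card_fin, nsmul_eq_mul]
      ring
    · intro i _
      exact Tri.transfer_int (fun y : Fin d → ℝ => ∏ j, G i j (y j))
        (Integrable.fintype_prod (hG i))

end Pool.Agent.ConvexMin
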