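import Pool.Agent.Work.MP_05fb57_th.Interface

/-!
Block WID2: a plane convex set of small area with two distant points lies in a thin strip.
-/

namespace Pool.Agent.ConvexMin

open MeasureTheory Set Filter Topology
open scoped ENNReal RealInnerProductSpace ContDiff

/-- the linear functional `det (q - p, x)` -/
noncomputable def WID2_phi (p q : E 2) : E 2 →L[ℝ] ℝ :=
  (q 0 - p 0) • (EuclideanSpace.proj 1 : E 2 →L[ℝ] ℝ) - (q 1 - p 1) • (EuclideanSpace.proj 0 : E 2 →L[ℝ] ℝ)

theorem WID2_phi_apply (p q x : E 2) :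
    WID2_phi p q x = (q 0 - p 0) * x 1 - (q 1 - p 1) * x 0 := by
  simp [WID2_phi]

theorem WID2_det (p q x : E 2) : (q 0 - p 0) * (x 1 - p 1) - (q 1 - p 1) * (x 0 - p 0) =
    WID2_phi p q x - WID2_phi p q p := by
  rw [WID2_phi_apply, WID2_phi_apply]
  ring

theorem WID2_q (p q : E 2) : WID2_phi p q q = WID2_phi p q p := by
  rw [WID2_phi_apply, WID2_phi_apply]
  ring

theorem WID2_sq (p q : E 2) : dist p q ^ 2 = (q 0 - p 0) ^ 2 + (q 1 - p 1) ^ 2 := by
  rw [EuclideanSpace.dist_eq, Real.sq_sqrt (by positivity), Fin.sum_univ_two, Real.dist_eq, Real.dist_eq,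
    sq_abs, sq_abs]
  ring

theorem WID2_null (p q : E 2) (hpq : p ≠ q) : volume {x : E 2 | WID2_phi p q x = WID2_phi p q p} = 0 := by
  have hL : 0 < dist p q := dist_pos.2 hpq
  have hne : LinearMap.ker (WID2_phi p q).toLinearMap ≠ ⊤ := by
    intro h
    have h1 : (WID2_phi p q) (!₂[-(q 1 - p 1), (q 0 - p 0)] : E 2) = 0 := by
      have : (!₂[-(q 1 - p 1), (q 0 - p 0)] : E 2) ∈ LinearMap.ker (WID2_phi p q).toLinearMap := by
        rw [h]; trivial
      simpa using this
    rw [WID2_phi_apply] at h1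
    simp at h1
    have h2 := WID2_sq p q
    nlinarith [pow_pos hL 2]
  have hs : {x : E 2 | WID2_phi p q x = WID2_phi p q p} =
      ((AffineSubspace.mk' p (LinearMap.ker (WID2_phi p q).toLinearMap) : AffineSubspace ℝ (E 2)) : Set (E 2)) := by
    ext x
    simp only [mem_ofPred_eq, SetLike.mem_coe, AffineSubspace.mem_mk', vsub_eq_sub, LinearMap.mem_ker]
    show _ ↔ WID2_phi p q (x - p) = 0
    rw [map_sub, sub_eq_zero]
  rw [hs]
  refine Measure.addHaar_affineSubspace _ _ ?_
  intro h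
  apply hne
  have := congrArg AffineSubspace.direction h
  rwa [AffineSubspace.direction_mk', AffineSubspace.direction_top] at this

theorem WID2_core (hTRG : S_TRG) (Ω : Set (E 2)) (p q : E 2) (m : ℝ) (hΩ : Convex ℝ Ω) (hp : p ∈ Ω) (hq : q ∈ Ω)
    (hpq : p ≠ q) (hm : 0 < m) (hv : volume Ω ≤ ENNReal.ofReal m) (x y : E 2) (hx : x ∈ Ω) (hy : y ∈ Ω) :
    WID2_phi p q x - WID2_phi p q y ≤ 2 * m := by
  set φ := WID2_phi p q with hφ
  have hsub : ∀ z ∈ Ω, convexHull ℝ ({p, q, z} : Set (E 2)) ⊆ Ω := by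
    intro z hz
    refine convexHull_min ?_ hΩ
    rintro w (rfl | rfl | rfl)
    · exact hp
    · exact hq
    · exact hz
  have hvol : ∀ z : E 2, volume (convexHull ℝ ({p, q, z} : Set (E 2))) = ENNReal.ofReal (|φ z - φ p| / 2) := by
    intro z
    rw [hTRG p q z, WID2_det]
  have hone : ∀ z ∈ Ω, |φ z - φ p| / 2 ≤ m := by
    intro z hz
    have := (measure_mono (hsub z hz)).trans hv
    rw [hvol] at this
    exact (ENNReal.ofReal_le_ofReal_iff hm.le).1 this
  rcases le_or_gt (φ x) (φ p) with hxp | hxp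
  · have h1 := hone y hy
    have h2 : -(φ y - φ p) ≤ |φ y - φ p| := neg_le_abs _
    linarith
  · rcases le_or_gt (φ p) (φ y) with hyp | hyp
    · have h1 := hone x hx
      have h2 : (φ x - φ p) ≤ |φ x - φ p| := le_abs_self _
      linarith
    · have hlin : IsLinearMap ℝ (fun z : E 2 => φ z) := ⟨fun a b => map_add φ a b, fun c a => map_smul φ c a⟩
      have hT1 : convexHull ℝ ({p, q, x} : Set (E 2)) ⊆ {z | φ p ≤ φ z} := by
        refine convexHull_min ?_ (convex_halfSpace_ge hlin _)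
        rintro w (rfl | rfl | rfl)
        · exact (le_refl (φ w) : φ w ≤ φ w)
        · show φ p ≤ φ w
          rw [hφ, WID2_q]
        · exact hxp.le
      have hT2 : convexHull ℝ ({p, q, y} : Set (E 2)) ⊆ {z | φ z ≤ φ p} := by
        refine convexHull_min ?_ (convex_halfSpace_le hlin _)
        rintro w (rfl | rfl | rfl)
        · exact (le_refl (φ w) : φ w ≤ φ w)
        · show φ w ≤ φ p
          rw [hφ, WID2_q]
        · exact hyp.le
      have hdis : AEDisjoint volume (convexHull ℝ ({p, q, x} : Set (E 2))) (convexHull ℝ ({p, q, y} : Set (E 2))) := by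
        refine measure_mono_null ?_ (WID2_null p q hpq)
        rintro z ⟨hz1, hz2⟩
        exact le_antisymm (hT2 hz2) (hT1 hz1)
      have hmeas : MeasurableSet (convexHull ℝ ({p, q, y} : Set (E 2))) :=
        (Set.Finite.isCompact_convexHull (𝕜 := ℝ) (Set.toFinite ({p, q, y} : Set (E 2)))).measurableSet
      have hun : volume (convexHull ℝ ({p, q, x} : Set (E 2)) ∪ convexHull ℝ ({p, q, y} : Set (E 2))) ≤
          ENNReal.ofReal m := (measure_mono (union_subset (hsub x hx) (hsub y hy))).trans hv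
      rw [measure_union₀ hmeas.nullMeasurableSet hdis, hvol, hvol, ← ENNReal.ofReal_add (by positivity) (by positivity),
        ENNReal.ofReal_le_ofReal_iff hm.le] at hun
      have h1 : (φ x - φ p) ≤ |φ x - φ p| := le_abs_self _
      have h2 : -(φ y - φ p) ≤ |φ y - φ p| := neg_le_abs _
      linarith

theorem p_WID2 (hTRG : S_TRG) : S_WID2 := by
  intro Ω p q m hΩ hp hq hpq hm hv
  have hL : 0 < dist p q := dist_pos.2 hpq
  set L := dist p q with hLdef
  set e : E 2 := !₂[-(q 1 - p 1) / L, (q 0 - p 0) / L] with he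
  have hsq := WID2_sq p q
  have hin : ∀ x : E 2, ⟪x, e⟫ = WID2_phi p q x / L := by
    intro x
    rw [WID2_phi_apply, PiLp.inner_apply, Fin.sum_univ_two]
    simp [he]
    ring
  have hn : ‖e‖ = 1 := by
    have h1 : ‖e‖ ^ 2 = 1 := by
      rw [EuclideanSpace.norm_eq, Real.sq_sqrt (by positivity), Fin.sum_univ_two]
      simp only [he, Real.norm_eq_abs, sq_abs]
      simp
      field_simp
      rw [hsq]
      ring
    have h2 : (0 : ℝ) ≤ ‖e‖ := norm_nonneg _
    nlinarith
  have hkey : ∀ x ∈ Ω, ∀ y ∈ Ω, ⟪x, e⟫ ≤ ⟪y, e⟫ + 2 * m / L := by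
    intro x hx y hy
    have := WID2_core hTRG Ω p q m hΩ hp hq hpq hm hv x y hx hy
    rw [hin, hin, ← add_div]
    exact div_le_div_of_nonneg_right (by linarith) hL.le
  refine ⟨e, sInf ((fun x => ⟪x, e⟫) '' Ω), hn, fun x hx => ⟨?_, ?_⟩⟩
  · refine csInf_le ⟨⟪p, e⟫ - 2 * m / L, ?_⟩ ⟨x, hx, rfl⟩
    rintro _ ⟨y, hy, rfl⟩
    have := hkey p hp y hy
    simp only
    linarith
  · have : ⟪x, e⟫ - 2 * m / L ≤ sInf ((fun x => ⟪x, e⟫) '' Ω) := by
      refine le_csInf ⟨_, ⟨p, hp, rfl⟩⟩ ?_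
      rintro _ ⟨y, hy, rfl⟩
      have := hkey x hx y hy
      simp only
      linarith
    linarith

end Pool.Agent.ConvexMin
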