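import Pool.Agent.Work.MP_05fb57_th.Interface

set_option autoImplicit false

namespace Pool.Agent.ConvexMin

open MeasureTheory Set Filter Topology
open scoped ENNReal RealInnerProductSpace ContDiff

theorem WIDD_inner {n : ℕ} (x y : E n) : ⟪x, y⟫ = ∑ j, x j * y j := by
  rw [PiLp.inner_apply]
  apply Finset.sum_congr rfl
  intro j _
  simp [mul_comm]

theorem p_WIDD (hSIM : S_SIM) (hHAD : S_HAD) (hMAXD : S_MAXD) : S_WIDD := by
  intro n Ω p q m hn hconv hint hp hq hpq hm hvol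
  obtain ⟨v, hv0, hvΩ, hdet, hmax⟩ := hMAXD n Ω p q m hconv hint hp hq hpq hvol
  obtain ⟨V, hV⟩ : ∃ V : Matrix (Fin (n + 1)) (Fin (n + 1)) ℝ, V = Matrix.of fun i j => v i j :=
    ⟨_, rfl⟩
  rw [← hV] at hdet
  have hVa : ∀ i j, V i j = v i j := fun i j => by rw [hV, Matrix.of_apply]
  -- the dual basis
  obtain ⟨b, hb⟩ : ∃ b : Fin (n + 1) → E (n + 1), ∀ i j, b i j = (V.det)⁻¹ * V.adjugate j i :=
    ⟨fun i => WithLp.toLp 2 (fun j => (V.det)⁻¹ * V.adjugate j i), fun i j => rfl⟩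
  have hcr : ∀ (i : Fin (n + 1)) (y : E (n + 1)),
      ⟪b i, y⟫ = (V.det)⁻¹ * (V.updateRow i (fun j => y j)).det := by
    intro i y
    rw [WIDD_inner, ← Matrix.cramer_transpose_apply, Matrix.cramer_eq_adjugate_mulVec,
      Matrix.mulVec, dotProduct, Finset.mul_sum]
    apply Finset.sum_congr rfl
    intro j _
    rw [hb, ← Matrix.adjugate_transpose, Matrix.transpose_apply]
    ring
  have hdual : ∀ i j, ⟪b i, v j⟫ = if i = j then (1 : ℝ) else 0 := by
    intro i j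
    rw [hcr]
    have h1 : (fun k => v j k) = V j := by
      funext k
      rw [hVa]
    rw [h1]
    split_ifs with hij
    · rw [hij, Matrix.updateRow_eq_self, inv_mul_cancel₀ hdet]
    · rw [Matrix.det_updateRow_eq_zero (Ne.symm hij), mul_zero]
  have hH := hHAD n v b hdual
  rw [← hV] at hH
  have hS := (hSIM (n + 1) Ω p v (by omega) hconv hp hvΩ).trans hvol
  rw [← hV, ENNReal.ofReal_le_ofReal_iff hm.le, div_le_iff₀ (by positivity)] at hS
  push_cast at hS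
  have : Nonempty (Fin n) := ⟨⟨0, hn⟩⟩
  obtain ⟨i, hi⟩ := Finite.exists_max (fun i : Fin n => ‖b i.succ‖)
  have hprod : ∏ k : Fin n, ‖b k.succ‖ ≤ ‖b i.succ‖ ^ n := by
    calc ∏ k : Fin n, ‖b k.succ‖ ≤ ∏ _k : Fin n, ‖b i.succ‖ :=
          Finset.prod_le_prod (fun k _ => norm_nonneg _) (fun k _ => hi k)
      _ = ‖b i.succ‖ ^ n := by simp
  have hbpos : 0 < ‖b i.succ‖ := by
    rw [norm_pos_iff]
    intro h0
    have h1 := hdual i.succ i.succ
    rw [h0, inner_zero_left] at h1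
    simp at h1
  have hV0 : 0 < |V.det| := abs_pos.2 hdet
  have hdist : dist p q ≤ |V.det| * ‖b i.succ‖ ^ n := by
    have h1 : dist p q = ‖v 0‖ := by rw [hv0, dist_comm, dist_eq_norm]
    rw [h1]
    exact hH.trans (mul_le_mul_of_nonneg_left hprod hV0.le)
  have hbd : ∀ x ∈ Ω, |⟪b i.succ, x - p⟫| ≤ 2 := by
    intro x hx
    have h1 := hmax x hx i
    have h2 : (Matrix.of fun k j => (Function.update v i.succ (x - p)) k j) =
        V.updateRow i.succ (fun j => (x - p) j) := by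
      ext k j
      rw [Matrix.of_apply, Matrix.updateRow_apply, Function.update_apply]
      split_ifs with hk
      · rfl
      · rw [hVa]
    rw [h2, ← hV] at h1
    rw [hcr, abs_mul, abs_inv, inv_mul_le_iff₀ hV0]
    linarith
  refine ⟨(‖b i.succ‖)⁻¹ • b i.succ, ⟪p, (‖b i.succ‖)⁻¹ • b i.succ⟫ - 2 / ‖b i.succ‖,
    4 / ‖b i.succ‖, ?_, by positivity, ?_, ?_⟩
  · rw [norm_smul, norm_inv, norm_norm, inv_mul_cancel₀ hbpos.ne']
  · rw [div_pow, div_mul_eq_mul_div, div_le_iff₀ (by positivity)]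
    have h1 : (4 : ℝ) ^ n * dist p q ≤ 4 ^ n * (|V.det| * ‖b i.succ‖ ^ n) :=
      mul_le_mul_of_nonneg_left hdist (by positivity)
    have h2 : (4 : ℝ) ^ n * (|V.det| * ‖b i.succ‖ ^ n) ≤
        4 ^ n * ((m * ((n : ℝ) + 1) ^ (n + 1)) * ‖b i.succ‖ ^ n) :=
      mul_le_mul_of_nonneg_left (mul_le_mul_of_nonneg_right hS (by positivity)) (by positivity)
    calc (4 : ℝ) ^ n * dist p q ≤ 4 ^ n * ((m * ((n : ℝ) + 1) ^ (n + 1)) * ‖b i.succ‖ ^ n) :=
          h1.trans h2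
      _ = 4 ^ n * ((n : ℝ) + 1) ^ (n + 1) * m * ‖b i.succ‖ ^ n := by ring
  · intro x hx
    have h1 := hbd x hx
    have h2 : ⟪x, (‖b i.succ‖)⁻¹ • b i.succ⟫ = ⟪p, (‖b i.succ‖)⁻¹ • b i.succ⟫ +
        ⟪b i.succ, x - p⟫ / ‖b i.succ‖ := by
      rw [real_inner_smul_right, real_inner_smul_right, inner_sub_right, real_inner_comm x,
        real_inner_comm p, div_eq_inv_mul]
      ring
    obtain ⟨h3, h4⟩ := abs_le.1 h1
    have h5 : -2 / ‖b i.succ‖ ≤ ⟪b i.succ, x - p⟫ / ‖b i.succ‖ :=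
      div_le_div_of_nonneg_right h3 hbpos.le
    have h6 : ⟪b i.succ, x - p⟫ / ‖b i.succ‖ ≤ 2 / ‖b i.succ‖ :=
      div_le_div_of_nonneg_right h4 hbpos.le
    rw [neg_div] at h5
    have h7 : 4 / ‖b i.succ‖ = 2 / ‖b i.succ‖ + 2 / ‖b i.succ‖ := by ring
    rw [h2, h7]
    constructor <;> linarith

end Pool.Agent.ConvexMin
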