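import Pool.Agent.Work.MP_05fb57_th.Interface5
import Pool.Agent.Work.MP_05fb57_th.B_SUM

/-! Block NBD (helper34): the property fails on a neighbourhood of every box. -/

namespace Pool.Agent.ConvexMin

open MeasureTheory Set Filter Topology
open scoped ENNReal RealInnerProductSpace ContDiff

theorem NBD_T_eq {d : ℕ} (T : E d ≃ᵃⁱ[ℝ] E d) (x : E d) : T x = T.linearIsometryEquiv x + T 0 := by
  have h := T.map_vadd 0 x
  simpa using h

theorem NBD_mp {d : ℕ} (T : E d ≃ᵃⁱ[ℝ] E d) : MeasurePreserving (T : E d → E d) volume volume := by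
  have h : (T : E d → E d) = (fun y => y + T 0) ∘ T.linearIsometryEquiv := by
    funext x
    exact NBD_T_eq T x
  rw [h]
  exact (measurePreserving_add_right volume (T 0)).comp T.linearIsometryEquiv.measurePreserving

theorem NBD_image_volume {d : ℕ} (T : E d ≃ᵃⁱ[ℝ] E d) (D : Set (E d)) :
    volume (T '' D) = volume D := by
  have h := (NBD_mp T).measure_preimage_emb T.toHomeomorph.measurableEmbedding (T '' D)
  rw [preimage_image_eq _ T.injective] at h
  exact h.symm

theorem NBD_box_convex {n : ℕ} (a : Fin (n + 1) → ℝ) : Convex ℝ (box a) := by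
  have h : box a = ⋂ i : Fin (n + 1), {x : E (n + 1) | 0 < x i} ∩ {x : E (n + 1) | x i < a i} := by
    ext x
    simp [box]
  rw [h]
  refine convex_iInter fun i => Convex.inter ?_ ?_
  · exact convex_halfSpace_gt (EuclideanSpace.proj (𝕜 := ℝ) i).isLinear 0
  · exact convex_halfSpace_lt (EuclideanSpace.proj (𝕜 := ℝ) i).isLinear (a i)

theorem NBD_box_nonempty {n : ℕ} (a : Fin (n + 1) → ℝ) (ha : ∀ j, 0 < a j) : (box a).Nonempty := by
  refine ⟨WithLp.toLp 2 (fun j => a j / 2), fun i => ?_⟩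
  have := ha i
  constructor
  · show 0 < a i / 2
    linarith
  · show a i / 2 < a i
    linarith

theorem p_NBD (hCLO : S_CLO) (hFBA : S_FBA) : S_NBD := by
  intro n a T hn ha
  by_contra hcon
  push Not at hcon
  have key : ∀ k : ℕ, ∃ D : Set (E (n + 1)), IsOpen D ∧ Convex ℝ D ∧ D.Nonempty ∧
      (∀ x ∈ D, ∃ y ∈ T '' box a, dist x y < 1 / ((k : ℝ) + 1)) ∧
      (∀ y ∈ T '' box a, ∃ x ∈ D, dist x y < 1 / ((k : ℝ) + 1)) ∧ HasProperty D :=
    fun k => hcon (1 / ((k : ℝ) + 1)) (by positivity)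
  choose D hD using key
  have hopen : IsOpen (T '' box a) := T.toHomeomorph.isOpenMap _ (SUM_box a ha).1
  have hconv : Convex ℝ (T '' box a) :=
    (NBD_box_convex a).affine_image (T.toAffineEquiv : E (n + 1) →ᵃ[ℝ] E (n + 1))
  have hne : (T '' box a).Nonempty := (NBD_box_nonempty a ha).image _
  have hC := hCLO (n + 1) D (T '' box a) (by omega)
    (fun k => ⟨(hD k).1, (hD k).2.1, (hD k).2.2.1, (hD k).2.2.2.2.2⟩) hopen hconv hne ?_
  · obtain ⟨δ, hδ, h⟩ := hFBA n a T hn ha
    refine h ((∏ i, a i) + δ / 2) (by linarith) (by linarith) (hC _ ?_)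
    rw [NBD_image_volume, (SUM_box a ha).2]
    exact ENNReal.ofReal_le_ofReal (by linarith)
  · intro η hη
    have ht := tendsto_one_div_add_atTop_nhds_zero_nat (𝕜 := ℝ)
    filter_upwards [ht.eventually (gt_mem_nhds hη)] with k hk
    refine ⟨fun x hx => ?_, fun y hy => ?_⟩
    · obtain ⟨y, hy, hxy⟩ := (hD k).2.2.2.1 x hx
      exact ⟨y, hy, hxy.trans hk⟩
    · obtain ⟨x, hx, hxy⟩ := (hD k).2.2.2.2.1 y hy
      exact ⟨x, hx, hxy.trans hk⟩

end Pool.Agent.ConvexMin
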