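import Pool.Agent.Work.MP_05fb57_th.Interface

set_option autoImplicit false

namespace Pool.Agent.ConvexMin

open MeasureTheory Set Filter Topology
open scoped ENNReal RealInnerProductSpace ContDiff

theorem p_CAP0x : S_CAP0 := by
  intro d A hA
  have key : ∀ ε : ℝ≥0∞, 0 < ε → volume A ≤ ε := by
    intro ε hε
    have h1 : cap A < ε := by rw [hA]; exact hε
    unfold cap at h1
    simp only [iInf_lt_iff] at h1
    obtain ⟨u, g, hug, ⟨U, hU, hAU, hu⟩, hlt⟩ := h1
    refine le_trans ?_ hlt.le
    have hint : Integrable (fun x => u x ^ 2) volume := hug.memLp.integrable_sq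
    have h2 : volume U ≤ ENNReal.ofReal (∫ x, u x ^ 2) := by
      rw [ofReal_integral_eq_lintegral_ofReal hint (Eventually.of_forall fun x => sq_nonneg _)]
      have h3 : volume U = ∫⁻ x in U, 1 := by simp
      rw [h3, ← lintegral_indicator hU.measurableSet]
      apply lintegral_mono_ae
      filter_upwards [hu] with x hx
      by_cases hxU : x ∈ U
      · rw [Set.indicator_of_mem hxU]
        have := hx hxU
        rw [← ENNReal.ofReal_one]
        apply ENNReal.ofReal_le_ofReal
        nlinarith
      · rw [Set.indicator_of_notMem hxU]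
        exact bot_le
    calc volume A ≤ volume U := measure_mono hAU
      _ ≤ ENNReal.ofReal (∫ x, u x ^ 2) := h2
      _ ≤ _ := ENNReal.ofReal_le_ofReal (le_add_of_nonneg_right
          (integral_nonneg fun x => sq_nonneg _))
  by_contra hne
  have hpos : 0 < volume A := pos_iff_ne_zero.2 hne
  obtain ⟨ε, h1, h2⟩ := exists_between hpos
  exact absurd (key ε h1) (not_le.2 h2)

end Pool.Agent.ConvexMin
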