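import Pool.Agent.Work.MP_05fb57_th.Interface

set_option autoImplicit false

namespace Pool.Agent.ConvexMin

open MeasureTheory Set Filter Topology
open scoped ENNReal RealInnerProductSpace ContDiff

theorem CAPEx_h1 (d : ℕ) : IsH1 (fun _ : E d => (0 : ℝ)) (fun _ => 0) where
  memLp := MemLp.zero'
  memLp_grad := MemLp.zero'
  weak := by intro φ _ _ v; simp

theorem CAPEx_empty (d : ℕ) : cap (∅ : Set (E d)) = 0 := by
  apply le_antisymm _ bot_le
  unfold cap
  refine iInf_le_of_le (fun _ => 0) (iInf_le_of_le (fun _ => 0) (iInf_le_of_le (CAPEx_h1 d)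
    (iInf_le_of_le ⟨∅, isOpen_empty, Subset.rfl, ?_⟩ ?_)))
  · filter_upwards with x hx using absurd hx (Set.notMem_empty x)
  · simp

theorem p_CAPEx : S_CAPE := by
  intro d
  refine ⟨CAPEx_empty d, ?_, ?_⟩
  · intro Ω hΩ ε hε
    exact ⟨Ω, hΩ, Subset.rfl, by rw [Set.sdiff_self, CAPEx_empty]; exact hε⟩
  · intro f hf ε hε
    exact ⟨∅, isOpen_empty, by rw [CAPEx_empty]; exact hε, hf.continuousOn⟩

end Pool.Agent.ConvexMin
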