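import Pool.Agent.Work.MP_05fb57_th.Interface5
import Pool.Agent.Work.MP_05fb57_th.B_CAPE

/-! # MP_05fb57_an, block CLO (typed by helper16) -/

set_option linter.unusedVariables false

namespace Pool.Agent.ConvexMin

open MeasureTheory Set Filter Topology
open scoped ENNReal RealInnerProductSpace ContDiff

theorem p_CLO (hMON : S_MON) (hSCL : S_SCL) (hBND : S_BND) (hSAN : S_SAN) (hCPT : S_CPT) :
    S_CLO := by
  intro d D D₀ hd hD hDo hDc hDn hH m hm
  obtain ⟨c, hc⟩ := hDn
  obtain ⟨r, hr, hball⟩ := Metric.isOpen_iff.1 hDo c hc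
  have hvol0 : 0 < volume D₀ := hDo.measure_pos volume ⟨c, hc⟩
  have hm0 : 0 < m := by
    by_contra h
    rw [ENNReal.ofReal_of_nonpos (not_lt.1 h)] at hm
    exact absurd hm (not_le.2 hvol0)
  obtain ⟨s, hs⟩ : ∃ s : ℕ → ℝ, ∀ k, s k = 1 / ((k : ℝ) + 1) / 4 := ⟨_, fun _ => rfl⟩
  have hs0 : ∀ k, 0 < s k := fun k => by
    rw [hs]
    positivity
  have hs1 : ∀ k, s k ≤ 1 / 4 := fun k => by
    rw [hs]
    have h1 : 1 / ((k : ℝ) + 1) ≤ 1 := by
      rw [div_le_one (by positivity)]
      have : (0 : ℝ) ≤ k := Nat.cast_nonneg k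
      linarith
    linarith
  have hst : Tendsto s atTop (𝓝 0) := by
    have h := (tendsto_one_div_add_atTop_nhds_zero_nat (𝕜 := ℝ)).div_const 4
    rw [zero_div] at h
    exact h.congr fun k => (hs k).symm
  have hvolimg : ∀ (a : ℝ) (A : Set (E d)), 0 ≤ a →
      volume (AffineMap.homothety c a '' A) = ENNReal.ofReal (a ^ d) * volume A := by
    intro a A ha
    rw [Measure.addHaar_image_homothety, finrank_euclideanSpace_fin, abs_of_nonneg (by positivity)]
  have h1 : ∀ k, ∃ N, D N ⊆ AffineMap.homothety c (1 + s k) '' D₀ ∧ Metric.ball c (r / 2) ⊆ D N ∧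
      D₀ ⊆ AffineMap.homothety c (1 + 2 * s k) '' D N := by
    intro k
    obtain ⟨N, hN1, hN2⟩ := (hH (s k * r) (mul_pos (hs0 k) hr)).exists
    have hsr := mul_le_mul_of_nonneg_right (hs1 k) hr.le
    obtain ⟨a, b, e⟩ := hSAN d D₀ (D N) c r (s k * r) hDc (hD N).2.1 (hD N).2.2.1
      (mul_pos (hs0 k) hr) (by linarith) hball
      (fun x hx => by
        obtain ⟨y, hy, hxy⟩ := hN2 x hx
        exact ⟨y, hy, by rwa [dist_comm]⟩)
      (fun y hy => by
        obtain ⟨x, hx, hxy⟩ := hN1 y hy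
        exact ⟨x, hx, by rwa [dist_comm]⟩)
    refine ⟨N, ?_, b, ?_⟩
    · rwa [mul_div_cancel_right₀ _ hr.ne'] at a
    · have h2 : 2 * (s k * r) / r = 2 * s k := by field_simp
      rwa [h2] at e
  choose N hN1 hN2 hN3 using h1
  have hvolD : ∀ k, volume (D (N k)) ≤ ENNReal.ofReal ((1 + s k) ^ d * m) := by
    intro k
    have h0 : 0 ≤ 1 + s k := by linarith [hs0 k]
    calc volume (D (N k)) ≤ volume (AffineMap.homothety c (1 + s k) '' D₀) := measure_mono (hN1 k)
      _ = ENNReal.ofReal ((1 + s k) ^ d) * volume D₀ := hvolimg _ _ h0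
      _ ≤ ENNReal.ofReal ((1 + s k) ^ d) * ENNReal.ofReal m := by gcongr
      _ = ENNReal.ofReal ((1 + s k) ^ d * m) := (ENNReal.ofReal_mul (by positivity)).symm
  have hsol : ∀ k, ∃ W : Set (E d), IsSolution (D (N k)) ((1 + s k) ^ d * m) W ∧ Convex ℝ W :=
    fun k => (hD (N k)).2.2.2 _ (hvolD k)
  choose W hW hWc using hsol
  obtain ⟨R, hR, hRb⟩ := hBND d (r / 2) (2 ^ d * m) hd (half_pos hr) (by positivity)
  have hWball : ∀ k, Metric.ball c (r / 2) ⊆ W k := fun k => (hN2 k).trans (hW k).1.2.1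
  have hWb : ∀ k, W k ⊆ Metric.ball c R := by
    intro k
    refine hRb (W k) c (hWc k) (hWball k) ((hW k).1.2.2.trans (ENNReal.ofReal_le_ofReal ?_))
    have h2 : (1 + s k) ^ d ≤ 2 ^ d :=
      pow_le_pow_left₀ (by linarith [hs0 k]) (by linarith [hs1 k]) d
    exact mul_le_mul_of_nonneg_right h2 hm0.le
  obtain ⟨L, φ, hφ, hLc, hLconv, hLne, hlim⟩ := hCPT d W c R
    (fun n => ⟨⟨c, hWball n (Metric.mem_ball_self (half_pos hr))⟩, hWc n, hWb n⟩)
  have key : ∀ ε : ℝ, 0 < ε → ε ≤ 1 / 2 → ∃ k, s k < ε ∧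
      L ⊆ AffineMap.homothety c (1 + ε / 2) '' W k ∧ Metric.ball c (r / 4) ⊆ L ∧
      W k ⊆ AffineMap.homothety c (1 + ε) '' L ∧ ∀ x ∈ W k, ∃ y ∈ L, dist x y < ε * r / 4 := by
    intro ε hε hε2
    have hη : 0 < ε * r / 4 := by positivity
    obtain ⟨n, ⟨ha, hb⟩, hsn⟩ := ((hlim (ε * r / 4) hη).and
      ((hst.comp hφ.tendsto_atTop).eventually_lt_const hε)).exists
    have h4 : 4 * (ε * r / 4) ≤ r / 2 := by nlinarith
    obtain ⟨e1, e2, e3⟩ := hSAN d (W (φ n)) L c (r / 2) (ε * r / 4) (hWc _) hLconv hLne hη h4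
      (hWball _) ha hb
    refine ⟨φ n, hsn, ?_, ?_, ?_, ha⟩
    · have h5 : ε * r / 4 / (r / 2) = ε / 2 := by
        field_simp
        norm_num
      rwa [h5] at e1
    · have h5 : r / 2 / 2 = r / 4 := by ring
      rwa [h5] at e2
    · have h5 : 2 * (ε * r / 4) / (r / 2) = ε := by
        field_simp
        norm_num
      rwa [h5] at e3
  have hcint : c ∈ interior L := by
    obtain ⟨k, _, _, hb, _⟩ := key (1 / 2) (by norm_num) le_rfl
    exact mem_interior.2 ⟨Metric.ball c (r / 4), hb, Metric.isOpen_ball,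
      Metric.mem_ball_self (by positivity)⟩
  have hsmall : ∀ᶠ ε : ℝ in 𝓝[>] 0, 0 < ε ∧ ε ≤ 1 / 2 := by
    filter_upwards [Ioo_mem_nhdsGT (show (0 : ℝ) < 1 / 2 by norm_num)] with ε h
    exact ⟨h.1, h.2.le⟩
  refine ⟨interior L, ⟨⟨(p_CAPE d).2.1 _ isOpen_interior, ?_, ?_⟩, ?_⟩, hLconv.interior⟩
  · apply interior_maximal _ hDo
    intro x hx
    rw [← hLc.isClosed.closure_eq, Metric.mem_closure_iff]
    intro ε hε
    obtain ⟨e, he⟩ : ∃ e, e = min (1 / 2) (min (ε / (4 * R)) (2 * ε / r)) := ⟨_, rfl⟩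
    have he0 : 0 < e := by
      rw [he]
      exact lt_min (by norm_num) (lt_min (by positivity) (by positivity))
    have he1 : e ≤ 1 / 2 := he ▸ min_le_left _ _
    have he2 : e ≤ ε / (4 * R) := he ▸ (min_le_right _ _).trans (min_le_left _ _)
    have he3 : e ≤ 2 * ε / r := he ▸ (min_le_right _ _).trans (min_le_right _ _)
    obtain ⟨k, hk, _, _, _, hd'⟩ := key e he0 he1
    obtain ⟨y, hy, hyx⟩ := hN3 k hx
    have hyW : y ∈ W k := (hW k).1.2.1 hy
    obtain ⟨b, hb, hyb⟩ := hd' y hyW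
    refine ⟨b, hb, ?_⟩
    have hyR : dist y c < R := hWb k hyW
    have hxy : dist x y = 2 * s k * dist y c := by
      rw [← hyx, AffineMap.homothety_apply, dist_eq_norm, dist_eq_norm]
      have h6 : ((1 + 2 * s k) • (y -ᵥ c) +ᵥ c) - y = (2 * s k) • (y - c) := by
        rw [vsub_eq_sub, vadd_eq_add, add_smul, one_smul]
        abel
      rw [h6, norm_smul, Real.norm_of_nonneg (by linarith [hs0 k])]
    have h7 : e * (4 * R) ≤ ε := (le_div_iff₀ (by positivity)).1 he2
    have h8 : e * r ≤ 2 * ε := (le_div_iff₀ hr).1 he3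
    have h9 : 2 * s k * dist y c ≤ 2 * e * R := by
      have := hs0 k
      exact mul_le_mul (by linarith) hyR.le dist_nonneg (by linarith)
    calc dist x b ≤ dist x y + dist y b := dist_triangle _ _ _
      _ < 2 * e * R + e * r / 4 := by
        rw [hxy]
        linarith
      _ ≤ ε := by linarith
  · have hv : ∀ᶠ ε : ℝ in 𝓝[>] 0,
        volume (interior L) ≤ ENNReal.ofReal (((1 + ε) * (1 + ε)) ^ d * m) := by
      filter_upwards [hsmall] with ε hε
      obtain ⟨k, hk, hL, _⟩ := key ε hε.1 hε.2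
      have hε0 := hε.1
      calc volume (interior L) ≤ volume L := measure_mono interior_subset
        _ ≤ volume (AffineMap.homothety c (1 + ε / 2) '' W k) := measure_mono hL
        _ = ENNReal.ofReal ((1 + ε / 2) ^ d) * volume (W k) := hvolimg _ _ (by linarith)
        _ ≤ ENNReal.ofReal ((1 + ε / 2) ^ d) * ENNReal.ofReal ((1 + s k) ^ d * m) := by
          gcongr
          exact (hW k).1.2.2
        _ = ENNReal.ofReal ((1 + ε / 2) ^ d * ((1 + s k) ^ d * m)) :=
          (ENNReal.ofReal_mul (by positivity)).symm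
        _ ≤ ENNReal.ofReal (((1 + ε) * (1 + ε)) ^ d * m) := by
          apply ENNReal.ofReal_le_ofReal
          rw [mul_pow, ← mul_assoc]
          have h2 : (1 + ε / 2) ^ d ≤ (1 + ε) ^ d := pow_le_pow_left₀ (by linarith) (by linarith) d
          have h3 : (1 + s k) ^ d ≤ (1 + ε) ^ d :=
            pow_le_pow_left₀ (by linarith [hs0 k]) (by linarith) d
          have h4 : (0 : ℝ) ≤ (1 + s k) ^ d := pow_nonneg (by linarith [hs0 k]) d
          exact mul_le_mul_of_nonneg_right (mul_le_mul h2 h3 h4 (by positivity)) hm0.le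
    have ht : Tendsto (fun ε : ℝ => ENNReal.ofReal (((1 + ε) * (1 + ε)) ^ d * m)) (𝓝[>] 0)
        (𝓝 (ENNReal.ofReal m)) := by
      have hcont : Continuous (fun ε : ℝ => ENNReal.ofReal (((1 + ε) * (1 + ε)) ^ d * m)) :=
        ENNReal.continuous_ofReal.comp (by fun_prop)
      have h := hcont.tendsto 0
      simp only [add_zero, mul_one, one_pow, one_mul] at h
      exact h.mono_left nhdsWithin_le_nhds
    exact ge_of_tendsto ht hv
  · intro C hC
    have hl : ∀ᶠ ε : ℝ in 𝓝[>] 0,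
        ENNReal.ofReal (1 / ((1 + ε) * (1 + ε)) ^ 2) * lam1 (interior L) ≤ lam1 C := by
      filter_upwards [hsmall] with ε hε
      obtain ⟨k, hk, _, _, hWL, _⟩ := key ε hε.1 hε.2
      have hε0 := hε.1
      have ha : 0 < (1 + ε) * (1 + ε) := by positivity
      have hsub : W k ⊆ AffineMap.homothety c ((1 + ε) * (1 + ε)) '' interior L := by
        have h2 : L ⊆ AffineMap.homothety c (1 + ε) '' interior L :=
          subset_closure.trans
            (hLconv.closure_subset_image_homothety_interior_of_one_lt hcint (1 + ε) (by linarith))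
        have h3 : AffineMap.homothety c ((1 + ε) * (1 + ε)) '' interior L =
            AffineMap.homothety c (1 + ε) '' (AffineMap.homothety c (1 + ε) '' interior L) := by
          rw [AffineMap.homothety_mul, AffineMap.coe_comp, Set.image_comp]
        rw [h3]
        exact hWL.trans (Set.image_mono h2)
      have h4 := (hSCL d c _ ha).1 (interior L)
      rw [← h4]
      have hs' : 0 < 1 + s k := by linarith [hs0 k]
      have h5 := (hSCL d c (1 + s k) hs').2 D₀ m C hm0.le hC
      have h6 : Admissible (D (N k)) ((1 + s k) ^ d * m) (AffineMap.homothety c (1 + s k) '' C) :=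
        ⟨h5.1, (hN1 k).trans h5.2.1, h5.2.2⟩
      calc lam1 (AffineMap.homothety c ((1 + ε) * (1 + ε)) '' interior L) ≤ lam1 (W k) :=
            hMON d _ _ hsub
        _ ≤ lam1 (AffineMap.homothety c (1 + s k) '' C) := (hW k).2 _ h6
        _ = ENNReal.ofReal (1 / (1 + s k) ^ 2) * lam1 C := (hSCL d c (1 + s k) hs').1 C
        _ ≤ 1 * lam1 C := by
          gcongr
          rw [ENNReal.ofReal_le_one]
          rw [div_le_one (by positivity)]
          nlinarith [hs0 k]
        _ = lam1 C := one_mul _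
    have ht : Tendsto (fun ε : ℝ => ENNReal.ofReal (1 / ((1 + ε) * (1 + ε)) ^ 2) *
        lam1 (interior L)) (𝓝[>] 0) (𝓝 (1 * lam1 (interior L))) := by
      apply ENNReal.Tendsto.mul_const _ (Or.inl one_ne_zero)
      have hc1 : ContinuousAt (fun ε : ℝ => 1 / ((1 + ε) * (1 + ε)) ^ 2) 0 :=
        ContinuousAt.div (by fun_prop) (by fun_prop) (by norm_num)
      have h := (ENNReal.continuous_ofReal.continuousAt.comp hc1).tendsto
      simp only [Function.comp_def, add_zero, mul_one, one_pow, div_one, ENNReal.ofReal_one] at h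
      exact h.mono_left nhdsWithin_le_nhds
    have := le_of_tendsto ht hl
    rwa [one_mul] at this

end Pool.Agent.ConvexMin
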