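import Pool.Agent.Work.MP_05fb57_th.Interface4

/-!
# MP_05fb57_an, block FBA: boxes in all positions
-/

set_option autoImplicit false

namespace Pool.Agent.ConvexMin

open MeasureTheory Set Filter Topology
open scoped ENNReal RealInnerProductSpace ContDiff

/-- the permutation of the coordinates -/
noncomputable def FBA_P {n : ℕ} (σ : Equiv.Perm (Fin (n + 1))) : E (n + 1) ≃ₗᵢ[ℝ] E (n + 1) :=
  LinearIsometryEquiv.piLpCongrLeft 2 ℝ ℝ σ

theorem FBA_P_apply {n : ℕ} (σ : Equiv.Perm (Fin (n + 1))) (x : E (n + 1)) (j : Fin (n + 1)) :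
    FBA_P σ x j = x (σ.symm j) := by
  unfold FBA_P
  rw [LinearIsometryEquiv.piLpCongrLeft_apply]
  rfl

theorem FBA_box {n : ℕ} (σ : Equiv.Perm (Fin (n + 1))) (a : Fin (n + 1) → ℝ) :
    FBA_P σ '' box (fun j => a (σ j)) = box a := by
  ext y
  constructor
  · rintro ⟨x, hx, rfl⟩
    intro j
    rw [FBA_P_apply]
    have := hx (σ.symm j)
    simpa using this
  · intro hy
    refine ⟨(FBA_P σ).symm y, ?_, by simp⟩
    intro j
    have h1 : (FBA_P σ).symm y j = y (σ j) := by
      have h2 := FBA_P_apply σ ((FBA_P σ).symm y) (σ j)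
      simp only [LinearIsometryEquiv.apply_symm_apply, Equiv.symm_apply_apply] at h2
      exact h2.symm
    rw [h1]
    exact hy (σ j)

theorem p_FBA (hFBX : S_FBX) (hFB2 : S_FB2) (hISO : S_ISO) : S_FBA := by
  intro n a T hn ha
  obtain ⟨i, hi⟩ := Finite.exists_min a
  set σ : Equiv.Perm (Fin (n + 1)) := Equiv.swap 0 i with hσ
  have h0 : σ 0 = i := Equiv.swap_apply_left 0 i
  have hprod : (∏ j, a (σ j)) = ∏ j, a j := Equiv.prod_comp σ a
  have key : ∃ δ : ℝ, 0 < δ ∧ ∀ m : ℝ, (∏ j, a (σ j)) < m → m < (∏ j, a (σ j)) + δ →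
      ¬ HasConvexSolution (box (fun j => a (σ j))) m := by
    rcases Nat.lt_or_ge n 2 with h | h
    · have hn1 : n = 1 := by omega
      subst hn1
      exact hFB2 (fun j => a (σ j)) (fun j => ha _) (by
        show a (σ 0) ≤ a (σ 1)
        rw [h0]; exact hi _)
    · exact hFBX n (fun j => a (σ j)) h (fun j => ha _) (fun j => by
        show a (σ 0) ≤ a (σ j)
        rw [h0]; exact hi _)
  obtain ⟨δ, hδ, hm⟩ := key
  refine ⟨δ, hδ, fun m h1 h2 h3 => ?_⟩
  rw [← hprod] at h1 h2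
  apply hm m h1 h2
  have h4 : HasConvexSolution (box a) m := hISO (n + 1) T (box a) m h3
  apply hISO (n + 1) (FBA_P σ).toAffineIsometryEquiv (box (fun j => a (σ j))) m
  have h5 : ((FBA_P σ).toAffineIsometryEquiv : E (n + 1) → E (n + 1)) '' box (fun j => a (σ j)) = box a := by
    have := FBA_box σ a
    exact this
  rw [h5]
  exact h4

end Pool.Agent.ConvexMin
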