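import Pool.Agent.Work.MP_05fb57_th.Interface

set_option linter.unusedVariables false

namespace Pool.Agent.ConvexMin

open MeasureTheory Set Filter Topology
open scoped ENNReal RealInnerProductSpace ContDiff

/-- block FIN2 -/
theorem p_FIN2 (hLOW : S_LOW) (hUPP : S_UPP) (hADM : S_ADM) (hWID2 : S_WID2) : S_FIN2 := by
  intro D m p q hDo hDm hp hq hlt hsol
  obtain ⟨Ω, ⟨hadm, hmin⟩, hconv⟩ := hsol
  set A : ℝ := (volume D).toReal with hA
  have hA0 : 0 ≤ A := ENNReal.toReal_nonneg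
  set L : ℝ := dist p q with hL
  have hL0 : 0 ≤ L := dist_nonneg
  have hmA : 0 < m - A := by
    by_contra hcon
    have h1 : L ^ 2 * (m - A) ≤ 0 := mul_nonpos_of_nonneg_of_nonpos (sq_nonneg L) (by linarith)
    have h2 : 0 ≤ 32 / 3 * m ^ 2 := by positivity
    linarith
  have hm : 0 < m := by linarith
  have hLpos : 0 < L := by
    rcases hL0.lt_or_eq with h | h
    · exact h
    · exfalso
      rw [← h] at hlt
      have h2 : 0 ≤ 32 / 3 * m ^ 2 := by positivity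
      nlinarith
  have hpq : p ≠ q := by
    intro h
    rw [hL, h, dist_self] at hLpos
    exact lt_irrefl _ hLpos
  set s : ℝ := Real.sqrt (m - A) with hs
  have hs0 : 0 < s := Real.sqrt_pos.mpr hmA
  have hs2 : s ^ 2 = m - A := Real.sq_sqrt hmA.le
  have hadm' : Admissible D m (D ∪ cube 2 s) := hADM 2 D m s hDo hDm hs0 hs2
  have h1 : lam1 Ω ≤ ENNReal.ofReal (4 / 3 * ((2 : ℕ) : ℝ) * Real.pi ^ 2 / s ^ 2) :=
    (hmin _ hadm').trans (hUPP 2 s (D ∪ cube 2 s) hs0 (by norm_num) subset_union_right)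
  obtain ⟨e, a, he, hstrip⟩ := hWID2 Ω p q m hconv (hadm.2.1 hp) (hadm.2.1 hq) hpq hm hadm.2.2
  have hw : 0 < 2 * m / dist p q := by
    rw [← hL]; positivity
  have h2 : ENNReal.ofReal ((Real.pi / (2 * m / dist p q)) ^ 2) ≤ lam1 Ω := hLOW 2 Ω e a _ he hw hstrip
  have h3 := h2.trans h1
  have hpi := Real.pi_pos
  have h4 : (Real.pi / (2 * m / dist p q)) ^ 2 ≤ 4 / 3 * ((2 : ℕ) : ℝ) * Real.pi ^ 2 / s ^ 2 :=
    (ENNReal.ofReal_le_ofReal_iff (by positivity)).mp h3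
  rw [← hL, hs2] at h4
  have h5 : (Real.pi / (2 * m / L)) ^ 2 = Real.pi ^ 2 * L ^ 2 / (4 * m ^ 2) := by
    field_simp
    ring
  rw [h5, div_le_div_iff₀ (by positivity) hmA] at h4
  push_cast at h4
  have h6 : L ^ 2 * (m - A) ≤ 32 / 3 * m ^ 2 := by
    have hp2 : 0 < Real.pi ^ 2 := by positivity
    have h7 : Real.pi ^ 2 * (L ^ 2 * (m - A)) ≤ Real.pi ^ 2 * (32 / 3 * m ^ 2) := by nlinarith
    exact le_of_mul_le_mul_left h7 hp2
  linarith

end Pool.Agent.ConvexMin
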