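import Pool.Agent.Work.MP_05fb57_th.Interface3

/-!
# Block LPU: a continuous function vanishing outside of an open set, with bounded derivative there
-/

namespace Pool.Agent.ConvexMin

open MeasureTheory Set Filter Topology
open scoped ENNReal RealInnerProductSpace ContDiff

theorem LPU_aux {d : ℕ} {U : Set (E d)} {f : E d → ℝ} {C : NNReal} (hU : IsOpen U)
    (hf : Continuous f) (h0 : ∀ x, x ∉ U → f x = 0)
    (hd : ∀ x ∈ U, DifferentiableAt ℝ f x ∧ ‖fderiv ℝ f x‖ ≤ C) (x z : E d) (hz : z ∉ U) :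
    ‖f x‖ ≤ C * ‖z - x‖ := by
  let γ : ℝ → E d := fun t => x + t • (z - x)
  have hγ : Continuous γ := by fun_prop
  let T : Set ℝ := Icc 0 1 ∩ γ ⁻¹' Uᶜ
  have hT : IsCompact T := isCompact_Icc.inter_right (hU.isClosed_compl.preimage hγ)
  have hTn : T.Nonempty := ⟨1, ⟨zero_le_one, le_rfl⟩, by
    show γ 1 ∉ U
    simp only [γ, one_smul, add_sub_cancel]
    exact hz⟩
  have ht0 : sInf T ∈ T := hT.sInf_mem hTn
  set t0 := sInf T with ht0d
  have hlt : ∀ t ∈ Ico (0 : ℝ) t0, γ t ∈ U := by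
    intro t ht
    by_contra hcon
    have h1 : t ∈ T := ⟨⟨ht.1, ht.2.le.trans ht0.1.2⟩, hcon⟩
    have h2 : t0 ≤ t := csInf_le hT.bddBelow h1
    exact absurd ht.2 (not_lt.2 h2)
  have hγd : ∀ t, HasDerivAt γ (z - x) t := by
    intro t
    have h1 : HasDerivAt (fun t : ℝ => t • (z - x)) ((1 : ℝ) • (z - x)) t :=
      (hasDerivAt_id t).smul_const (z - x)
    rw [one_smul] at h1
    exact h1.const_add x
  have key := norm_image_sub_le_of_norm_deriv_right_le_segment (f := fun t => f (γ t))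
    (f' := fun t => fderiv ℝ f (γ t) (z - x)) (a := 0) (b := t0) (C := C * ‖z - x‖)
    (hf.comp hγ).continuousOn
    (fun t ht => by
      have h1 := (hd _ (hlt t ht)).1.hasFDerivAt
      exact (h1.comp_hasDerivAt t (hγd t)).hasDerivWithinAt)
    (fun t ht => by
      refine (ContinuousLinearMap.le_opNorm _ _).trans ?_
      exact mul_le_mul_of_nonneg_right (hd _ (hlt t ht)).2 (norm_nonneg _))
    t0 ⟨ht0.1.1, le_rfl⟩
  have h1 : f (γ t0) = 0 := h0 _ ht0.2
  have h2 : γ 0 = x := by simp [γ]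
  simp only [h1, h2, zero_sub, norm_neg, sub_zero] at key
  refine key.trans ?_
  have h3 : 0 ≤ (C : ℝ) * ‖z - x‖ := by positivity
  nlinarith [ht0.1.2]

/-- LPU. -/
theorem p_LPU : S_LPU := by
  intro d U f C hU hf h0 hd
  apply LipschitzWith.of_dist_le_mul
  intro x y
  rw [dist_eq_norm, dist_eq_norm]
  by_cases h : segment ℝ x y ⊆ U
  · have h1 := (convex_segment x y).norm_image_sub_le_of_norm_fderiv_le (f := f) (C := C)
      (fun z hz => (hd z (h hz)).1) (fun z hz => (hd z (h hz)).2) (right_mem_segment ℝ x y)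
      (left_mem_segment ℝ x y)
    exact h1
  · obtain ⟨z, hz, hzU⟩ := Set.not_subset.1 h
    have h1 := LPU_aux hU hf h0 hd x z hzU
    have h2 := LPU_aux hU hf h0 hd y z hzU
    have h3 := dist_add_dist_of_mem_segment hz
    rw [dist_eq_norm, dist_eq_norm, dist_eq_norm] at h3
    have h4 : ‖f x - f y‖ ≤ ‖f x‖ + ‖f y‖ := norm_sub_le _ _
    rw [norm_sub_rev z x] at h1
    rw [← h3, mul_add]
    linarith

end Pool.Agent.ConvexMin
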