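import Pool.Agent.Work.MP_05fb57_th.Interface3

set_option linter.unusedVariables false

namespace Pool.Agent.ConvexMin

open MeasureTheory Set Filter Topology
open scoped ENNReal RealInnerProductSpace ContDiff

theorem SUM_sub {n : ℕ} (a : Fin (n + 1) → ℝ) (K : Set (E (n + 1))) (ha : ∀ j, 0 < a j) (hK : Convex ℝ K)
    (hcl : ∀ z : E (n+1), (∀ i, 0 ≤ z i ∧ z i ≤ a i) → z ∈ K) (i : Fin (n + 1)) (c : ℝ)
    (hc : 0 ≤ c ∧ c ≤ a i) (x : E (n + 1)) (hx : x ∈ K) (hxc : x i ≠ c) :
    pyr a i c x ⊆ K := by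
  rintro z ⟨h0, h1, hz⟩
  obtain ⟨t, ht⟩ : ∃ t, t = (z i - c) / (x i - c) := ⟨_, rfl⟩
  rw [← ht] at h0 h1 hz
  have hti : t * (x i - c) = z i - c := by rw [ht]; exact div_mul_cancel₀ _ (sub_ne_zero.2 hxc)
  have h1t : 0 < 1 - t := by linarith
  let w : E (n + 1) := WithLp.toLp 2 (fun j => if j = i then c else (z j - t * x j) / (1 - t))
  have hwi : w i = c := by simp [w]
  have hwj : ∀ j, j ≠ i → w j = (z j - t * x j) / (1 - t) := fun j hj => by simp [w, hj]
  have hw : w ∈ K := by
    apply hcl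
    intro j
    by_cases hj : j = i
    · subst hj; rw [hwi]; exact hc
    · have := hz j hj
      rw [hwj j hj]
      constructor
      · apply div_nonneg <;> linarith
      · rw [div_le_iff₀ h1t]; linarith
  have : z = (1 - t) • w + t • x := by
    ext j
    have e : ((1 - t) • w + t • x) j = (1 - t) * w j + t * x j := by simp
    rw [e]
    by_cases hj : j = i
    · subst hj; rw [hwi]; linarith
    · rw [hwj j hj]; field_simp; ring
  rw [this]
  exact hK hw hx h1t.le h0.le (by ring)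

theorem SUM_box {n : ℕ} (a : Fin (n + 1) → ℝ) (Ω : Set (E (n + 1))) (ha : ∀ j, 0 < a j) (hb : box a ⊆ Ω)
    (z : E (n+1)) (hz : ∀ i, 0 ≤ z i ∧ z i ≤ a i) : z ∈ closure Ω := by
  let m : E (n + 1) := WithLp.toLp 2 (fun j => a j / 2)
  have h1 : Tendsto (fun ε : ℝ => (1 - ε) • z + ε • m) (𝓝[>] 0) (𝓝 z) := by
    have hc : Continuous (fun ε : ℝ => (1 - ε) • z + ε • m) := by fun_prop
    have h := (hc.tendsto 0).mono_left (nhdsWithin_le_nhds (s := Ioi 0))
    simpa using h
  refine mem_closure_of_tendsto h1 ?_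
  filter_upwards [Ioo_mem_nhdsGT (show (0:ℝ) < 1 by norm_num)] with ε hε
  apply hb
  intro i
  have h2 := hz i
  have h3 := ha i
  have : ((1 - ε) • z + ε • m) i = (1 - ε) * z i + ε * (a i / 2) := by simp [m]
  rw [this]
  have h4 := hε.1
  have h5 := hε.2
  have h6 : 0 ≤ (1 - ε) * z i := mul_nonneg (by linarith) h2.1
  have h7 : 0 < ε * a i := mul_pos h4 h3
  have h8 : (1 - ε) * z i ≤ (1 - ε) * a i := mul_le_mul_of_nonneg_left h2.2 (by linarith)
  constructor <;> linarith

theorem SUM_vol {n : ℕ} (a : Fin (n + 1) → ℝ) (ha : ∀ j, 0 < a j) :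
    IsOpen (box a) ∧ volume (box a) = ENNReal.ofReal (∏ i, a i) := by
  have hO : IsOpen (box a) := by
    have : box a = ⋂ i, {x : E (n + 1) | 0 < x i ∧ x i < a i} := by
      ext x; simp [box]
    rw [this]
    refine isOpen_iInter_of_finite fun i => ?_
    have hc : Continuous (fun x : E (n + 1) => x i) := (EuclideanSpace.proj (𝕜 := ℝ) i).continuous
    exact (isOpen_lt continuous_const hc).inter (isOpen_lt hc continuous_const)
  refine ⟨hO, ?_⟩
  have h := (EuclideanSpace.volume_preserving_symm_measurableEquiv_toLp (Fin (n + 1)))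
  have h2 : box a = (MeasurableEquiv.toLp 2 (Fin (n + 1) → ℝ)).symm ⁻¹' (Set.pi univ fun i => Ioo 0 (a i)) := by
    ext x
    simp [box, Set.mem_pi]
  rw [h2, h.measure_preimage (MeasurableSet.univ_pi fun i => measurableSet_Ioo).nullMeasurableSet,
    Real.volume_pi_Ioo]
  rw [ENNReal.ofReal_prod_of_nonneg (fun i _ => (ha i).le)]
  simp

theorem p_SUM (hCON : S_CON) : S_SUM := by
  intro n a Ω δ ha hconv hbox hδ hvol
  classical
  obtain ⟨K, hK⟩ : ∃ K, K = closure Ω := ⟨_, rfl⟩
  have hKc : Convex ℝ K := by rw [hK]; exact hconv.closure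
  have hKv : volume K ≤ ENNReal.ofReal ((∏ i, a i) + δ) := by
    have h1 : volume (frontier Ω) = 0 := hconv.addHaar_frontier volume
    rw [hK, closure_eq_self_union_frontier]
    calc volume (Ω ∪ frontier Ω) ≤ volume Ω + volume (frontier Ω) := measure_union_le _ _
      _ ≤ _ := by rw [h1, add_zero]; exact hvol
  have hcl : ∀ z : E (n+1), (∀ i, 0 ≤ z i ∧ z i ≤ a i) → z ∈ K := by
    intro z hz; rw [hK]; exact SUM_box a Ω ha hbox z hz
  have hboxK : box a ⊆ K := fun z hz => hcl z fun i => ⟨(hz i).1.le, (hz i).2.le⟩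
  obtain ⟨hbO, hbV⟩ := SUM_vol a ha
  have hP0 : 0 < ∏ i, a i := Finset.prod_pos fun i _ => ha i
  obtain ⟨R, hR⟩ : ∃ R : Fin (n + 1) → ℝ, ∀ i, R i = (∏ j ∈ Finset.univ.erase i, a j) / (n + 1) :=
    ⟨_, fun i => rfl⟩
  have hRpos : ∀ i, 0 < R i := by
    intro i; rw [hR]; exact div_pos (Finset.prod_pos fun j _ => ha j) (by positivity)
  have hCR : ∀ (i : Fin (n + 1)) (c : ℝ) (x : E (n + 1)), x i ≠ c →
      IsOpen (pyr a i c x) ∧ volume (pyr a i c x) = ENNReal.ofReal (|x i - c| * R i) := by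
    intro i c x hx
    obtain ⟨h1, h2⟩ := hCON n a i c x ha hx
    refine ⟨h1, ?_⟩
    rw [h2, hR, mul_div_assoc]
  -- the side of a pyramid
  have hsideP : ∀ (i : Fin (n + 1)) (x z : E (n + 1)), a i < x i → z ∈ pyr a i (a i) x → a i < z i := by
    intro i x z hx hz
    have h := hz.1
    have h' : 0 < x i - a i := by linarith
    have := (div_pos_iff_of_pos_right h').1 h
    linarith
  have hsideN : ∀ (i : Fin (n + 1)) (x z : E (n + 1)), x i < 0 → z ∈ pyr a i 0 x → z i < 0 := by
    intro i x z hx hz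
    have h := hz.1
    by_contra hno
    have h1 : (z i - 0) / (x i - 0) ≤ 0 := div_nonpos_of_nonneg_of_nonpos (by linarith) (by linarith)
    linarith
  -- one pyramid
  have hone : ∀ (i : Fin (n + 1)) (c : ℝ) (x : E (n + 1)), 0 ≤ c ∧ c ≤ a i → x ∈ K → x i ≠ c →
      Disjoint (box a) (pyr a i c x) → |x i - c| * R i ≤ δ := by
    intro i c x hc hx hne hd
    obtain ⟨h1, h2⟩ := hCR i c x hne
    have hs := SUM_sub a K ha hKc hcl i c hc x hx hne
    have h3 : volume (box a) + volume (pyr a i c x) ≤ volume K := by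
      rw [← measure_union hd h1.measurableSet]
      exact measure_mono (union_subset hboxK hs)
    rw [hbV, h2, ← ENNReal.ofReal_add hP0.le (mul_nonneg (abs_nonneg _) (hRpos i).le)] at h3
    have h4 := (ENNReal.ofReal_le_ofReal_iff (by linarith)).1 (h3.trans hKv)
    linarith
  have hbd : ∀ x ∈ K, ∀ i, |x i| ≤ a i + δ / R i := by
    intro x hx i
    have hd0 : 0 ≤ δ / R i := div_nonneg hδ (hRpos i).le
    rcases lt_or_ge (a i) (x i) with h | h
    · have := hone i (a i) x ⟨(ha i).le, le_rfl⟩ hx h.ne' (by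
        rw [Set.disjoint_left]
        intro z hz hz'
        exact lt_asymm (hz i).2 (hsideP i x z h hz'))
      rw [abs_of_pos (by linarith)] at this
      have h5 : x i - a i ≤ δ / R i := by rw [le_div_iff₀ (hRpos i)]; exact this
      rw [abs_of_pos (by linarith [ha i])]
      linarith
    · rcases lt_or_ge (x i) 0 with h' | h'
      · have := hone i 0 x ⟨le_rfl, (ha i).le⟩ hx h'.ne (by
          rw [Set.disjoint_left]
          intro z hz hz'
          exact lt_asymm (hz i).1 (hsideN i x z h' hz'))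
        rw [sub_zero] at this
        have h5 : |x i| ≤ δ / R i := by rw [le_div_iff₀ (hRpos i)]; exact this
        linarith [ha i]
      · rw [abs_of_nonneg h']; linarith
  have hKb : Bornology.IsBounded K := by
    rw [isBounded_iff_forall_norm_le]
    refine ⟨√ (∑ i, (a i + δ / R i) ^ 2), fun x hx => ?_⟩
    rw [EuclideanSpace.norm_eq]
    exact Real.sqrt_le_sqrt (Finset.sum_le_sum fun i _ =>
      pow_le_pow_left₀ (norm_nonneg _) (hbd x hx i) 2)
  have hKcpt : IsCompact K := Metric.isCompact_of_isClosed_isBounded (by rw [hK]; exact isClosed_closure) hKb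
  have h0K : (0 : E (n + 1)) ∈ K := hcl 0 fun i => ⟨le_rfl, (ha i).le⟩
  have hcont : ∀ i, Continuous (fun x : E (n + 1) => x i) := fun i =>
    (EuclideanSpace.proj (𝕜 := ℝ) i).continuous
  have hex : ∀ i, ∃ X ∈ K, ∀ y ∈ K, y i ≤ X i := by
    intro i
    obtain ⟨X, hX, hm⟩ := hKcpt.exists_isMaxOn ⟨0, h0K⟩ (hcont i).continuousOn
    exact ⟨X, hX, fun y hy => hm hy⟩
  have hex' : ∀ i, ∃ X ∈ K, ∀ y ∈ K, X i ≤ y i := by
    intro i
    obtain ⟨X, hX, hm⟩ := hKcpt.exists_isMinOn ⟨0, h0K⟩ (hcont i).continuousOn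
    exact ⟨X, hX, fun y hy => hm hy⟩
  choose Xp hXp hXpm using hex
  choose Xm hXm hXmm using hex'
  obtain ⟨cf, hcf⟩ : ∃ cf : Fin (n + 1) × Bool → ℝ, cf = fun f => if f.2 then a f.1 else 0 := ⟨_, rfl⟩
  obtain ⟨X, hX⟩ : ∃ X : Fin (n + 1) × Bool → E (n + 1), X = fun f => if f.2 then Xp f.1 else Xm f.1 :=
    ⟨_, rfl⟩
  obtain ⟨h, hh⟩ : ∃ h : Fin (n + 1) × Bool → ℝ, h = fun f => if f.2 then Xp f.1 f.1 - a f.1 else - Xm f.1 f.1 :=
    ⟨_, rfl⟩
  obtain ⟨S, hS⟩ : ∃ S : Fin (n + 1) × Bool → Set (E (n + 1)),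
      S = fun f => {z | 0 < h f ∧ z ∈ pyr a f.1 (cf f) (X f)} := ⟨_, rfl⟩
  have hXK : ∀ f, X f ∈ K := by
    rintro ⟨i, b⟩
    cases b
    · simp only [hX]; exact hXm i
    · simp only [hX]; exact hXp i
  have hh0 : ∀ f, 0 ≤ h f := by
    rintro ⟨i, b⟩
    cases b
    · have : Xm i i ≤ (0 : E (n + 1)) i := hXmm i 0 h0K
      have h0 : (0 : E (n + 1)) i = 0 := rfl
      simp only [hh]
      rw [h0] at this
      simp only [Bool.false_eq_true, if_false]
      linarith
    · have h1 : (WithLp.toLp 2 a : E (n + 1)) ∈ K := hcl _ fun j => ⟨(ha j).le, le_rfl⟩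
      have : (WithLp.toLp 2 a : E (n + 1)) i ≤ Xp i i := hXpm i _ h1
      have h2 : (WithLp.toLp 2 a : E (n + 1)) i = a i := rfl
      simp only [hh, if_true]
      linarith
  have hcf0 : ∀ f : Fin (n + 1) × Bool, 0 ≤ cf f ∧ cf f ≤ a f.1 := by
    rintro ⟨i, b⟩
    cases b
    · simp only [hcf, Bool.false_eq_true, if_false]; exact ⟨le_rfl, (ha i).le⟩
    · simp only [hcf, if_true]; exact ⟨(ha i).le, le_rfl⟩
  have hne : ∀ f, 0 < h f → X f f.1 ≠ cf f ∧ |X f f.1 - cf f| = h f := by
    rintro ⟨i, b⟩ hf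
    cases b
    · simp only [hh, Bool.false_eq_true, if_false] at hf
      simp only [hX, hcf, hh, Bool.false_eq_true, if_false]
      refine ⟨by linarith, ?_⟩
      rw [sub_zero, abs_of_neg (by linarith)]
    · simp only [hh, if_true] at hf
      simp only [hX, hcf, hh, if_true]
      refine ⟨by linarith, ?_⟩
      rw [abs_of_pos hf]
  have hout : ∀ f z, z ∈ S f → (f.2 = true → a f.1 < z f.1) ∧ (f.2 = false → z f.1 < 0) := by
    rintro ⟨i, b⟩ z hz
    rw [hS] at hz
    obtain ⟨hz1, hz2⟩ := hz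
    cases b
    · simp only [hh, Bool.false_eq_true, if_false] at hz1
      simp only [hX, hcf, Bool.false_eq_true, if_false] at hz2
      exact ⟨fun h => by simp at h, fun _ => hsideN i _ z (by linarith) hz2⟩
    · simp only [hh, if_true] at hz1
      simp only [hX, hcf, if_true] at hz2
      exact ⟨fun _ => hsideP i _ z (by linarith) hz2, fun h => by simp at h⟩
  have hlt : ∀ f g z, f.1 ≠ g.1 → z ∈ S f → z ∈ S g →
      (z f.1 - cf f) / (X f f.1 - cf f) < (z g.1 - cf g) / (X g g.1 - cf g) := by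
    rintro ⟨i, b⟩ g z hfg hz hz'
    rw [hS] at hz hz'
    obtain ⟨hz1, -⟩ := hz
    obtain ⟨-, hz2, hz3, hz4⟩ := hz'
    obtain ⟨s, hs⟩ : ∃ s, s = (z g.1 - cf g) / (X g g.1 - cf g) := ⟨_, rfl⟩
    rw [← hs] at hz2 hz3 hz4 ⊢
    have h5 := hz4 i hfg
    cases b
    · simp only [hh, Bool.false_eq_true, if_false] at hz1
      simp only [hX, hcf, Bool.false_eq_true, if_false]
      have h6 := mul_le_mul_of_nonneg_left (hXmm i (X g) (hXK g)) hz2.le
      rw [div_lt_iff_of_neg (by linarith)]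
      rw [hX] at h5 h6
      simp only at h5 h6
      linarith
    · simp only [hh, if_true] at hz1
      simp only [hX, hcf, if_true]
      have h6 := mul_le_mul_of_nonneg_left (hXpm i (X g) (hXK g)) hz2.le
      rw [div_lt_iff₀ (by linarith)]
      rw [hX] at h5 h6
      simp only at h5 h6
      linarith
  have hdisj : ∀ f g, f ≠ g → Disjoint (S f) (S g) := by
    intro f g hfg
    rw [Set.disjoint_left]
    intro z hz hz'
    by_cases h1 : f.1 = g.1
    · have h2 : f.2 ≠ g.2 := fun h2 => hfg (Prod.ext h1 h2)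
      have e1 := hout f z hz
      have e2 := hout g z hz'
      rw [← h1] at e2
      have h3 := ha f.1
      cases hf : f.2 <;> cases hg : g.2
      · exact h2 (hf.trans hg.symm)
      · have := e1.2 hf; have := e2.1 hg; linarith
      · have := e1.1 hf; have := e2.2 hg; linarith
      · exact h2 (hf.trans hg.symm)
    · exact lt_asymm (hlt f g z h1 hz hz') (hlt g f z (Ne.symm h1) hz' hz)
  have hdisjB : ∀ f, Disjoint (box a) (S f) := by
    intro f
    rw [Set.disjoint_left]
    intro z hz hz'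
    have e1 := hout f z hz'
    have e2 := hz f.1
    cases hf : f.2
    · have := e1.2 hf; linarith
    · have := e1.1 hf; linarith
  have hSK : ∀ f, S f ⊆ K := by
    intro f z hz
    rw [hS] at hz
    exact SUM_sub a K ha hKc hcl f.1 (cf f) (hcf0 f) (X f) (hXK f) (hne f hz.1).1 hz.2
  have hSm : ∀ f, MeasurableSet (S f) ∧ volume (S f) = ENNReal.ofReal (h f * R f.1) := by
    intro f
    rcases (hh0 f).eq_or_lt with h0 | h0
    · have : S f = ∅ := by
        rw [hS]; ext z; simp [← h0]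
      rw [this, ← h0]; simp
    · have : S f = pyr a f.1 (cf f) (X f) := by
        rw [hS]; ext z; simp [h0]
      rw [this]
      obtain ⟨h1, h2⟩ := hCR f.1 (cf f) (X f) (hne f h0).1
      rw [(hne f h0).2] at h2
      exact ⟨h1.measurableSet, h2⟩
  have hunion : volume (box a ∪ ⋃ f, S f) ≤ volume K :=
    measure_mono (union_subset hboxK (iUnion_subset hSK))
  rw [measure_union (Set.disjoint_iUnion_right.2 hdisjB) (MeasurableSet.iUnion fun f => (hSm f).1),
    measure_iUnion (fun f g hfg => hdisj f g hfg) (fun f => (hSm f).1), tsum_fintype, hbV] at hunion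
  rw [Finset.sum_congr rfl (fun f _ => (hSm f).2),
    ← ENNReal.ofReal_sum_of_nonneg (fun f _ => mul_nonneg (hh0 f) (hRpos _).le),
    ← ENNReal.ofReal_add hP0.le (Finset.sum_nonneg fun f _ => mul_nonneg (hh0 f) (hRpos _).le)] at hunion
  have hfin := (ENNReal.ofReal_le_ofReal_iff (by linarith)).1 (hunion.trans hKv)
  refine ⟨fun i => h (i, false), fun i => h (i, true), fun i => ⟨hh0 _, hh0 _⟩, ?_, ?_⟩
  · intro x hx i
    have hxK : x ∈ K := by rw [hK]; exact subset_closure hx
    have h1 := hXpm i x hxK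
    have h2 := hXmm i x hxK
    simp only [hh, if_true, Bool.false_eq_true, if_false]
    constructor <;> linarith
  · rw [Fintype.sum_prod_type] at hfin
    simp only [Fintype.sum_bool] at hfin
    have hn : (0 : ℝ) < n + 1 := by positivity
    have hkey : ∀ i, (h (i, false) + h (i, true)) / a i * ∏ j, a j =
        (n + 1) * (h (i, true) * R i + h (i, false) * R i) := by
      intro i
      rw [← Finset.mul_prod_erase Finset.univ a (Finset.mem_univ i), hR]
      have := (ha i).ne'
      field_simp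
      ring
    rw [Finset.sum_mul, Finset.sum_congr rfl (fun i _ => hkey i), ← Finset.mul_sum]
    refine mul_le_mul_of_nonneg_left ?_ hn.le
    linarith

end Pool.Agent.ConvexMin
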