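import Pool.Agent.Work.MP_05fb57_th.Interface3

set_option linter.unusedVariables false

namespace Pool.Agent.ConvexMin

open MeasureTheory Set Filter Topology
open scoped ENNReal RealInnerProductSpace ContDiff

theorem TFL_cont {n : ℕ} (i : Fin (n + 1)) : Continuous fun x : E (n + 1) => x i :=
  (EuclideanSpace.proj (𝕜 := ℝ) i).continuous

theorem TFL_cd {n : ℕ} (i : Fin (n + 1)) : ContDiff ℝ 1 fun x : E (n + 1) => x i :=
  (EuclideanSpace.proj (𝕜 := ℝ) i).contDiff

theorem TFL_vv_cd {n : ℕ} (a : Fin (n + 1) → ℝ) : ContDiff ℝ 1 (vv a) := by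
  unfold vv
  apply contDiff_prod
  intro i _
  exact Real.contDiff_sin.comp ((contDiff_const.mul (TFL_cd i.succ)).div_const _)

theorem TFL_bb_cd {n : ℕ} (a : Fin (n + 1) → ℝ) (τ : ℝ) : ContDiff ℝ 1 (bb a τ) := by
  unfold bb
  exact contDiff_const.add (contDiff_const.mul ((TFL_vv_cd a).pow 6))

theorem TFL_bb_pos {n : ℕ} (a : Fin (n + 1) → ℝ) (τ : ℝ) (ha : 0 < a 0) (hτ : 0 ≤ τ)
    (x : E (n + 1)) : a 0 ≤ bb a τ x := by
  unfold bb
  have : 0 ≤ τ * vv a x ^ 6 := mul_nonneg hτ (by positivity)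
  linarith

theorem TFL_g_cd {n : ℕ} (a : Fin (n + 1) → ℝ) (τ : ℝ) (ha : 0 < a 0) (hτ : 0 ≤ τ) :
    ContDiff ℝ 1 fun x : E (n + 1) => vv a x * Real.sin (Real.pi * x 0 / bb a τ x) := by
  apply (TFL_vv_cd a).mul
  apply Real.contDiff_sin.comp
  apply (contDiff_const.mul (TFL_cd 0)).div (TFL_bb_cd a τ)
  intro x
  have := TFL_bb_pos a τ ha hτ x
  linarith

theorem TFL_open {n : ℕ} (a : Fin (n + 1) → ℝ) (τ : ℝ) : IsOpen (comp a τ) := by
  have h1 : IsOpen {x : E (n + 1) | ∀ i : Fin n, 0 < x i.succ ∧ x i.succ < a i.succ} := by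
    simp only [setOf_forall]
    apply isOpen_iInter_of_finite
    intro i
    exact (isOpen_lt continuous_const (TFL_cont i.succ)).inter
      (isOpen_lt (TFL_cont i.succ) continuous_const)
  have h2 : IsOpen {x : E (n + 1) | 0 < x 0} := isOpen_lt continuous_const (TFL_cont 0)
  have h3 : IsOpen {x : E (n + 1) | x 0 < bb a τ x} :=
    isOpen_lt (TFL_cont 0) (TFL_bb_cd a τ).continuous
  exact h1.inter (h2.inter h3)

theorem TFL_sin_pos {x a : ℝ} (h0 : 0 < x) (h1 : x < a) : 0 < Real.sin (Real.pi * x / a) := by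
  have ha : 0 < a := h0.trans h1
  apply Real.sin_pos_of_pos_of_lt_pi
  · positivity
  · rw [div_lt_iff₀ ha]
    exact mul_lt_mul_of_pos_left h1 Real.pi_pos

theorem TFL_pos {n : ℕ} (a : Fin (n + 1) → ℝ) (τ : ℝ) (x : E (n + 1)) (hx : x ∈ comp a τ) :
    0 < vv a x * Real.sin (Real.pi * x 0 / bb a τ x) := by
  apply mul_pos
  · unfold vv
    apply Finset.prod_pos
    intro i _
    exact TFL_sin_pos (hx.1 i).1 (hx.1 i).2
  · exact TFL_sin_pos hx.2.1 hx.2.2

/-- clamp -/
noncomputable def TFL_cl (a x : ℝ) : ℝ := max 0 (min x a)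

theorem TFL_cl_sin_out {x a : ℝ} (ha : 0 < a) (h : ¬ (0 < x ∧ x < a)) :
    Real.sin (Real.pi * TFL_cl a x / a) = 0 := by
  unfold TFL_cl
  by_cases h0 : 0 < x
  · have h1 : a ≤ x := not_lt.mp fun h1 => h ⟨h0, h1⟩
    rw [min_eq_right h1, max_eq_right ha.le, mul_div_assoc, div_self ha.ne', mul_one, Real.sin_pi]
  · have h0' : x ≤ 0 := not_lt.mp h0
    rw [max_eq_left ((min_le_left _ _).trans h0'), mul_zero, zero_div, Real.sin_zero]

theorem TFL_cl_in {x a : ℝ} (h : 0 < x ∧ x < a) : TFL_cl a x = x := by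
  unfold TFL_cl
  rw [min_eq_left h.2.le, max_eq_right h.1.le]

theorem TFL_eq {n : ℕ} (a : Fin (n + 1) → ℝ) (τ : ℝ) (ha : ∀ j, 0 < a j) (hτ : 0 ≤ τ) :
    tf a τ = fun x : E (n + 1) =>
      (∏ i : Fin n, Real.sin (Real.pi * TFL_cl (a i.succ) (x i.succ) / a i.succ)) *
        Real.sin (Real.pi * TFL_cl (a 0 + τ *
          (∏ i : Fin n, Real.sin (Real.pi * TFL_cl (a i.succ) (x i.succ) / a i.succ)) ^ 6) (x 0) /
          (a 0 + τ *
          (∏ i : Fin n, Real.sin (Real.pi * TFL_cl (a i.succ) (x i.succ) / a i.succ)) ^ 6)) := by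
  funext x
  by_cases hin : ∀ i : Fin n, 0 < x i.succ ∧ x i.succ < a i.succ
  · have hV : (∏ i : Fin n, Real.sin (Real.pi * TFL_cl (a i.succ) (x i.succ) / a i.succ)) =
        vv a x := by
      unfold vv
      apply Finset.prod_congr rfl
      intro i _
      rw [TFL_cl_in (hin i)]
    rw [hV]
    have hb : a 0 + τ * vv a x ^ 6 = bb a τ x := rfl
    rw [hb]
    have hbp : 0 < bb a τ x := lt_of_lt_of_le (ha 0) (TFL_bb_pos a τ (ha 0) hτ x)
    by_cases h0 : 0 < x 0 ∧ x 0 < bb a τ x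
    · have hx : x ∈ comp a τ := ⟨hin, h0⟩
      unfold tf
      rw [indicator_of_mem hx, TFL_cl_in h0]
    · have hx : x ∉ comp a τ := fun h => h0 h.2
      unfold tf
      rw [indicator_of_notMem hx, TFL_cl_sin_out hbp h0, mul_zero]
  · have hx : x ∉ comp a τ := fun h => hin h.1
    unfold tf
    rw [indicator_of_notMem hx]
    push Not at hin
    obtain ⟨i, hi⟩ := hin
    have hV : (∏ i : Fin n, Real.sin (Real.pi * TFL_cl (a i.succ) (x i.succ) / a i.succ)) = 0 := by
      apply Finset.prod_eq_zero (Finset.mem_univ i)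
      apply TFL_cl_sin_out (ha i.succ)
      rintro ⟨h1, h2⟩
      exact absurd h2 (not_lt.mpr (hi h1))
    rw [hV, zero_mul]

theorem TFL_tf_cont {n : ℕ} (a : Fin (n + 1) → ℝ) (τ : ℝ) (ha : ∀ j, 0 < a j) (hτ : 0 ≤ τ) :
    Continuous (tf a τ) := by
  rw [TFL_eq a τ ha hτ]
  have hV : Continuous fun x : E (n + 1) =>
      ∏ i : Fin n, Real.sin (Real.pi * TFL_cl (a i.succ) (x i.succ) / a i.succ) := by
    apply continuous_finset_prod
    intro i _
    apply Real.continuous_sin.comp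
    unfold TFL_cl
    exact (continuous_const.mul (continuous_const.max ((TFL_cont i.succ).min
      continuous_const))).div_const _
  have hB : Continuous fun x : E (n + 1) => a 0 + τ *
      (∏ i : Fin n, Real.sin (Real.pi * TFL_cl (a i.succ) (x i.succ) / a i.succ)) ^ 6 :=
    continuous_const.add (continuous_const.mul (hV.pow 6))
  apply hV.mul
  apply Real.continuous_sin.comp
  apply Continuous.div
  · unfold TFL_cl at hB ⊢
    exact continuous_const.mul (continuous_const.max ((TFL_cont 0).min hB))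
  · exact hB
  · intro x
    have h1 : 0 ≤ τ *
      (∏ i : Fin n, Real.sin (Real.pi * TFL_cl (a i.succ) (x i.succ) / a i.succ)) ^ 6 :=
      mul_nonneg hτ (by positivity)
    have := ha 0
    linarith

theorem TFL_vv_le {n : ℕ} (a : Fin (n + 1) → ℝ) (x : E (n + 1)) : vv a x ^ 6 ≤ 1 := by
  have h : |vv a x| ≤ 1 := by
    unfold vv
    rw [Finset.abs_prod]
    apply Finset.prod_le_one
    · intro i _; exact abs_nonneg _
    · intro i _; exact Real.abs_sin_le_one _
  calc vv a x ^ 6 = |vv a x| ^ 6 := by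
        rw [← abs_pow, abs_of_nonneg (by positivity)]
    _ ≤ 1 ^ 6 := pow_le_pow_left₀ (abs_nonneg _) h 6
    _ = 1 := one_pow 6

theorem p_TFL (hLPU : S_LPU) : S_TFL := by
  intro n a τ ha hτ
  -- a compact set
  set K : Set (E (n + 1)) := (EuclideanSpace.equiv (Fin (n + 1)) ℝ) ⁻¹'
    (Set.Icc 0 (fun i => a i + τ)) with hK
  have hKc : IsCompact K :=
    (EuclideanSpace.equiv (Fin (n + 1)) ℝ).toHomeomorph.isCompact_preimage.2 isCompact_Icc
  have hsub : comp a τ ⊆ K := by
    intro x hx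
    have hall : ∀ i, 0 ≤ x i ∧ x i ≤ a i + τ := by
      intro i
      refine Fin.cases ?_ ?_ i
      · refine ⟨hx.2.1.le, ?_⟩
        have h1 : bb a τ x ≤ a 0 + τ := by
          unfold bb
          have := mul_le_mul_of_nonneg_left (TFL_vv_le a x) hτ
          linarith
        exact hx.2.2.le.trans h1
      · intro j
        exact ⟨(hx.1 j).1.le, by linarith [(hx.1 j).2]⟩
    exact ⟨fun i => (hall i).1, fun i => (hall i).2⟩
  have hzero : ∀ x, x ∉ comp a τ → tf a τ x = 0 := fun x hx => indicator_of_notMem hx _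
  have hval : ∀ x ∈ comp a τ, tf a τ x = vv a x * Real.sin (Real.pi * x 0 / bb a τ x) :=
    fun x hx => indicator_of_mem hx _
  have hpos : ∀ x ∈ comp a τ, 0 < tf a τ x := by
    intro x hx
    rw [hval x hx]
    exact TFL_pos a τ x hx
  refine ⟨?_, ?_, ?_, hzero, hpos⟩
  · intro x
    by_cases hx : x ∈ comp a τ
    · exact (hpos x hx).le
    · rw [hzero x hx]
  · have hg := TFL_g_cd a τ (ha 0) hτ
    have hgc : Continuous fun x => ‖fderiv ℝ (fun x : E (n + 1) =>
        vv a x * Real.sin (Real.pi * x 0 / bb a τ x)) x‖ :=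
      (hg.continuous_fderiv (by norm_num)).norm
    obtain ⟨C, hC⟩ := hKc.bddAbove_image hgc.continuousOn
    refine ⟨C.toNNReal, hLPU (n + 1) (comp a τ) (tf a τ) C.toNNReal (TFL_open a τ)
      (TFL_tf_cont a τ ha hτ) hzero ?_⟩
    intro x hx
    have hev : tf a τ =ᶠ[𝓝 x] fun x : E (n + 1) =>
        vv a x * Real.sin (Real.pi * x 0 / bb a τ x) := by
      filter_upwards [(TFL_open a τ).mem_nhds hx] with y hy
      exact hval y hy
    refine ⟨?_, ?_⟩
    · exact (hg.differentiable (by norm_num) x).congr_of_eventuallyEq hev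
    · rw [hev.fderiv_eq]
      have h1 := hC (mem_image_of_mem _ (hsub hx))
      exact h1.trans (Real.le_coe_toNNReal C)
  · apply HasCompactSupport.intro hKc
    intro x hx
    exact hzero x fun h => hx (hsub h)

end Pool.Agent.ConvexMin
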