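import Pool.Agent.Work.MP_05fb57_th.Interface3

/-!
TFL, second copy (helper62): the trial function is a product of bounded Lipschitz functions (clamped
coordinates), so LPU is not needed.
-/

namespace Pool.Agent.ConvexMin

open MeasureTheory Set Filter Topology
open scoped ENNReal RealInnerProductSpace ContDiff

namespace TFLx

/-- bounded and Lipschitz -/
def Lb {X : Type*} [PseudoMetricSpace X] (f : X → ℝ) : Prop :=
  ∃ C K : ℝ, 0 ≤ C ∧ 0 ≤ K ∧ (∀ x, |f x| ≤ C) ∧ ∀ x y, |f x - f y| ≤ K * dist x y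

variable {X : Type*} [PseudoMetricSpace X]

theorem Lb.const (c : ℝ) : Lb (fun _ : X => c) :=
  ⟨|c|, 0, abs_nonneg _, le_rfl, fun _ => le_rfl, fun x y => by simp⟩

theorem Lb.add {f g : X → ℝ} (hf : Lb f) (hg : Lb g) : Lb (fun x => f x + g x) := by
  obtain ⟨C, K, hC, hK, h1, h2⟩ := hf
  obtain ⟨C', K', hC', hK', h1', h2'⟩ := hg
  refine ⟨C + C', K + K', add_nonneg hC hC', add_nonneg hK hK', fun x => ?_, fun x y => ?_⟩
  · exact (abs_add_le _ _).trans (add_le_add (h1 x) (h1' x))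
  · have e : f x + g x - (f y + g y) = (f x - f y) + (g x - g y) := by ring
    rw [e, add_mul]
    exact (abs_add_le _ _).trans (add_le_add (h2 x y) (h2' x y))

theorem Lb.mul {f g : X → ℝ} (hf : Lb f) (hg : Lb g) : Lb (fun x => f x * g x) := by
  obtain ⟨C, K, hC, hK, h1, h2⟩ := hf
  obtain ⟨C', K', hC', hK', h1', h2'⟩ := hg
  refine ⟨C * C', C * K' + C' * K, mul_nonneg hC hC', by positivity, fun x => ?_, fun x y => ?_⟩
  · rw [abs_mul]
    exact mul_le_mul (h1 x) (h1' x) (abs_nonneg _) hC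
  · have e : f x * g x - f y * g y = f x * (g x - g y) + g y * (f x - f y) := by ring
    rw [e]
    refine (abs_add_le _ _).trans ?_
    rw [abs_mul, abs_mul, add_mul, mul_assoc, mul_assoc]
    exact add_le_add (mul_le_mul (h1 x) (h2' x y) (abs_nonneg _) hC)
      (mul_le_mul (h1' y) (h2 x y) (abs_nonneg _) hC')

theorem Lb.pow {f : X → ℝ} (hf : Lb f) (m : ℕ) : Lb (fun x => f x ^ m) := by
  induction m with
  | zero => simpa using Lb.const (X := X) 1
  | succ m ih => simpa only [pow_succ] using ih.mul hf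

theorem Lb.prod {ι : Type*} (s : Finset ι) {f : ι → X → ℝ} (hf : ∀ i, Lb (f i)) :
    Lb (fun x => ∏ i ∈ s, f i x) := by
  classical
  induction s using Finset.induction_on with
  | empty => simpa using Lb.const (X := X) 1
  | insert i s hi ih =>
    simp only [Finset.prod_insert hi]
    exact (hf i).mul ih

theorem Lb.sin {f : X → ℝ} (hf : Lb f) : Lb (fun x => Real.sin (f x)) := by
  obtain ⟨C, K, hC, hK, h1, h2⟩ := hf
  refine ⟨1, K, zero_le_one, hK, fun x => Real.abs_sin_le_one _, fun x y => ?_⟩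
  have := Real.lipschitzWith_sin.dist_le_mul (f x) (f y)
  rw [Real.dist_eq, Real.dist_eq] at this
  simp only [NNReal.coe_one, one_mul] at this
  exact this.trans (h2 x y)

theorem Lb.inv {f : X → ℝ} (hf : Lb f) {c : ℝ} (hc : 0 < c) (h : ∀ x, c ≤ f x) :
    Lb (fun x => 1 / f x) := by
  obtain ⟨C, K, hC, hK, h1, h2⟩ := hf
  refine ⟨1 / c, K / c ^ 2, by positivity, by positivity, fun x => ?_, fun x y => ?_⟩
  · have hp : 0 < f x := hc.trans_le (h x)
    rw [abs_of_nonneg (by positivity)]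
    exact one_div_le_one_div_of_le hc (h x)
  · have hx : 0 < f x := hc.trans_le (h x)
    have hy : 0 < f y := hc.trans_le (h y)
    have e : 1 / f x - 1 / f y = (f y - f x) / (f x * f y) := by
      field_simp
    rw [e, abs_div, abs_of_pos (mul_pos hx hy)]
    have h3 : c ^ 2 ≤ f x * f y := by
      rw [pow_two]
      exact mul_le_mul (h x) (h y) hc.le hx.le
    have h4 : |f y - f x| ≤ K * dist x y := by
      rw [abs_sub_comm]
      exact h2 x y
    calc |f y - f x| / (f x * f y) ≤ (K * dist x y) / c ^ 2 :=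
          div_le_div₀ (by positivity) h4 (by positivity) h3
      _ = K / c ^ 2 * dist x y := by ring

/-- clamp of a Lipschitz function by a non-negative bounded Lipschitz function -/
theorem Lb.clamp {f g : X → ℝ} {L : ℝ} (hL : 0 ≤ L) (hf : ∀ x y, |f x - f y| ≤ L * dist x y)
    (hg : Lb g) (hg0 : ∀ x, 0 ≤ g x) : Lb (fun x => max 0 (min (f x) (g x))) := by
  obtain ⟨C, K, hC, hK, h1, h2⟩ := hg
  refine ⟨C, L + K, hC, add_nonneg hL hK, fun x => ?_, fun x y => ?_⟩
  · rw [abs_of_nonneg (le_max_left _ _)]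
    refine max_le hC ((min_le_right _ _).trans ((le_abs_self _).trans (h1 x)))
  · have e1 : |max 0 (min (f x) (g x)) - max 0 (min (f y) (g y))| ≤ |min (f x) (g x) - min (f y) (g y)| := by
      have := abs_max_sub_max_le_max (0 : ℝ) (min (f x) (g x)) 0 (min (f y) (g y))
      simpa using this
    have e2 : |min (f x) (g x) - min (f y) (g y)| ≤ max |f x - f y| |g x - g y| :=
      abs_min_sub_min_le_max _ _ _ _
    refine (e1.trans e2).trans (max_le ?_ ?_)
    · refine (hf x y).trans ?_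
      have := dist_nonneg (x := x) (y := y)
      nlinarith
    · refine (h2 x y).trans ?_
      have := dist_nonneg (x := x) (y := y)
      nlinarith

theorem coord {d : ℕ} (i : Fin d) (x y : E d) : |x i - y i| ≤ 1 * dist x y := by
  rw [one_mul, dist_eq_norm]
  have := PiLp.norm_apply_le (x - y) i
  simpa using this

variable {n : ℕ}

/-- clamped sine -/
noncomputable def S (a : Fin (n + 1) → ℝ) (i : Fin n) (x : E (n + 1)) : ℝ :=
  Real.sin (Real.pi * max 0 (min (x i.succ) (a i.succ)) * (1 / a i.succ))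

noncomputable def V (a : Fin (n + 1) → ℝ) (x : E (n + 1)) : ℝ := ∏ i : Fin n, S a i x

noncomputable def B (a : Fin (n + 1) → ℝ) (τ : ℝ) (x : E (n + 1)) : ℝ := a 0 + τ * V a x ^ 6

noncomputable def F (a : Fin (n + 1) → ℝ) (τ : ℝ) (x : E (n + 1)) : ℝ :=
  V a x * Real.sin (Real.pi * max 0 (min (x 0) (B a τ x)) * (1 / B a τ x))

theorem Lb_S (a : Fin (n + 1) → ℝ) (ha : ∀ j, 0 < a j) (i : Fin n) : Lb (S a i) := by
  unfold S
  exact (((Lb.const _).mul (Lb.clamp zero_le_one (coord i.succ) (Lb.const (a i.succ))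
    fun _ => (ha _).le)).mul (Lb.const _)).sin

theorem Lb_V (a : Fin (n + 1) → ℝ) (ha : ∀ j, 0 < a j) : Lb (V a) :=
  Lb.prod Finset.univ fun i => Lb_S a ha i

theorem Lb_B (a : Fin (n + 1) → ℝ) (ha : ∀ j, 0 < a j) (τ : ℝ) : Lb (B a τ) :=
  (Lb.const _).add ((Lb.const _).mul ((Lb_V a ha).pow 6))

theorem B_ge (a : Fin (n + 1) → ℝ) {τ : ℝ} (hτ : 0 ≤ τ) (x : E (n + 1)) : a 0 ≤ B a τ x := by
  unfold B
  have : 0 ≤ V a x ^ 6 := by positivity
  have := mul_nonneg hτ this
  linarith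

theorem Lb_F (a : Fin (n + 1) → ℝ) (ha : ∀ j, 0 < a j) {τ : ℝ} (hτ : 0 ≤ τ) : Lb (F a τ) := by
  unfold F
  exact (Lb_V a ha).mul (((Lb.const _).mul (Lb.clamp zero_le_one (coord 0) (Lb_B a ha τ)
    fun x => (ha 0).le.trans (B_ge a hτ x))).mul
    ((Lb_B a ha τ).inv (ha 0) fun x => B_ge a hτ x)).sin

theorem V_eq (a : Fin (n + 1) → ℝ) (x : E (n + 1)) (hx : ∀ i : Fin n, 0 < x i.succ ∧ x i.succ < a i.succ) :
    V a x = vv a x := by
  unfold V vv S
  refine Finset.prod_congr rfl fun i _ => ?_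
  rw [min_eq_left (hx i).2.le, max_eq_right (hx i).1.le]
  congr 1
  ring

theorem V_zero (a : Fin (n + 1) → ℝ) (ha : ∀ j, 0 < a j) (x : E (n + 1))
    (hx : ¬ ∀ i : Fin n, 0 < x i.succ ∧ x i.succ < a i.succ) : V a x = 0 := by
  push Not at hx
  obtain ⟨i, hi⟩ := hx
  refine Finset.prod_eq_zero (Finset.mem_univ i) ?_
  unfold S
  have hai := ha i.succ
  by_cases h : 0 < x i.succ
  · have h2 := hi h
    rw [min_eq_right h2, max_eq_right hai.le]
    have : Real.pi * a i.succ * (1 / a i.succ) = Real.pi := by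
      field_simp
    rw [this, Real.sin_pi]
  · have h2 : min (x i.succ) (a i.succ) ≤ 0 := (min_le_left _ _).trans (not_lt.1 h)
    rw [max_eq_left h2]
    simp

theorem bb_pos (a : Fin (n + 1) → ℝ) (ha : ∀ j, 0 < a j) {τ : ℝ} (hτ : 0 ≤ τ) (x : E (n + 1)) :
    0 < bb a τ x := by
  unfold bb
  have : 0 ≤ vv a x ^ 6 := by positivity
  have := mul_nonneg hτ this
  have := ha 0
  linarith

theorem tf_eq (a : Fin (n + 1) → ℝ) (ha : ∀ j, 0 < a j) {τ : ℝ} (hτ : 0 ≤ τ) (x : E (n + 1)) :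
    tf a τ x = F a τ x := by
  unfold tf F
  by_cases hx : x ∈ comp a τ
  · rw [indicator_of_mem hx]
    obtain ⟨h1, h2, h3⟩ := hx
    have hV := V_eq a x h1
    have hB : B a τ x = bb a τ x := by
      unfold B bb
      rw [hV]
    rw [hV, hB, min_eq_left h3.le, max_eq_right h2.le]
    congr 2
    ring
  · rw [indicator_of_notMem hx]
    by_cases h1 : ∀ i : Fin n, 0 < x i.succ ∧ x i.succ < a i.succ
    · have hV := V_eq a x h1
      have hB : B a τ x = bb a τ x := by
        unfold B bb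
        rw [hV]
      have hbp := bb_pos a ha hτ x
      rw [hB]
      by_cases h2 : 0 < x 0
      · have h3 : bb a τ x ≤ x 0 := by
          by_contra h3
          exact hx ⟨h1, h2, not_le.1 h3⟩
        rw [min_eq_right h3, max_eq_right hbp.le]
        have : Real.pi * bb a τ x * (1 / bb a τ x) = Real.pi := by
          field_simp
        rw [this, Real.sin_pi, mul_zero]
      · have h3 : min (x 0) (bb a τ x) ≤ 0 := (min_le_left _ _).trans (not_lt.1 h2)
        rw [max_eq_left h3]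
        simp
    · rw [V_zero a ha x h1, zero_mul]

theorem vv_pos (a : Fin (n + 1) → ℝ) (ha : ∀ j, 0 < a j) (x : E (n + 1))
    (hx : ∀ i : Fin n, 0 < x i.succ ∧ x i.succ < a i.succ) : 0 < vv a x := by
  refine Finset.prod_pos fun i _ => ?_
  have h1 := (hx i).1
  have h2 := (hx i).2
  have h3 := ha i.succ
  refine Real.sin_pos_of_pos_of_lt_pi (by positivity) ?_
  rw [div_lt_iff₀ h3]
  exact mul_lt_mul_of_pos_left h2 Real.pi_pos

theorem vv_abs (a : Fin (n + 1) → ℝ) (x : E (n + 1)) : |vv a x| ≤ 1 := by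
  unfold vv
  rw [Finset.abs_prod]
  exact Finset.prod_le_one (fun i _ => abs_nonneg _) fun i _ => Real.abs_sin_le_one _

theorem tf_pos (a : Fin (n + 1) → ℝ) (ha : ∀ j, 0 < a j) {τ : ℝ} (hτ : 0 ≤ τ) (x : E (n + 1))
    (hx : x ∈ comp a τ) : 0 < tf a τ x := by
  unfold tf
  rw [indicator_of_mem hx]
  obtain ⟨h1, h2, h3⟩ := hx
  have hbp := bb_pos a ha hτ x
  refine mul_pos (vv_pos a ha x h1) (Real.sin_pos_of_pos_of_lt_pi (by positivity) ?_)
  rw [div_lt_iff₀ hbp]
  exact mul_lt_mul_of_pos_left h3 Real.pi_pos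

theorem tf_zero (a : Fin (n + 1) → ℝ) (τ : ℝ) (x : E (n + 1)) (hx : x ∉ comp a τ) : tf a τ x = 0 := by
  unfold tf
  exact indicator_of_notMem hx _

theorem tf_supp (a : Fin (n + 1) → ℝ) (ha : ∀ j, 0 < a j) {τ : ℝ} (hτ : 0 ≤ τ) :
    HasCompactSupport (tf a τ) := by
  have hK : IsCompact ((EuclideanSpace.equiv (Fin (n + 1)) ℝ).symm ''
      (Set.pi univ fun i => Icc (0 : ℝ) (a i + τ))) := by
    refine IsCompact.image ?_ (EuclideanSpace.equiv (Fin (n + 1)) ℝ).symm.continuous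
    exact isCompact_univ_pi fun i => isCompact_Icc
  refine HasCompactSupport.of_support_subset_isCompact hK ?_
  intro x hx
  have hxc : x ∈ comp a τ := by
    by_contra h
    exact hx (tf_zero a τ x h)
  obtain ⟨h1, h2, h3⟩ := hxc
  refine ⟨EuclideanSpace.equiv (Fin (n + 1)) ℝ x, ?_, by simp⟩
  intro i _
  show x i ∈ Icc (0 : ℝ) (a i + τ)
  refine Fin.cases ?_ (fun j => ?_) i
  · refine ⟨h2.le, h3.le.trans ?_⟩
    unfold bb
    have h4 : vv a x ^ 6 ≤ 1 := by
      have := vv_abs a x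
      have h5 : |vv a x| ^ 6 ≤ 1 := pow_le_one₀ (abs_nonneg _) this
      have h6 : |vv a x| ^ 6 = vv a x ^ 6 := Even.pow_abs (by decide) _
      rwa [h6] at h5
    have := mul_le_mul_of_nonneg_left h4 hτ
    linarith
  · refine ⟨(h1 j).1.le, (h1 j).2.le.trans ?_⟩
    linarith

end TFLx

open TFLx in
theorem p_TFLx : S_TFL := by
  intro n a τ ha hτ
  refine ⟨fun x => ?_, ?_, tf_supp a ha hτ, tf_zero a τ, tf_pos a ha hτ⟩
  · by_cases hx : x ∈ comp a τ
    · exact (tf_pos a ha hτ x hx).le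
    · rw [tf_zero a τ x hx]
  · obtain ⟨C, K, hC, hK, h1, h2⟩ := Lb_F a ha hτ
    refine ⟨⟨K, hK⟩, LipschitzWith.of_dist_le_mul fun x y => ?_⟩
    rw [Real.dist_eq, tf_eq a ha hτ, tf_eq a ha hτ]
    exact h2 x y

end Pool.Agent.ConvexMin
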