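import Pool.Agent.Work.MP_05fb57_th.Interface

/-!
Block UPP of MP_05fb57_an (helper58).
-/

namespace Pool.Agent.ConvexMin

open MeasureTheory Set Filter Topology
open scoped ENNReal RealInnerProductSpace ContDiff

theorem p_UPP (hC1H : S_C1H) (hTRC : S_TRC) (hTRI : S_TRI) (hCAPE : S_CAPE) : S_UPP := by
  intro d s Ω hs hd hΩ
  obtain ⟨h1, h2, h3, -⟩ := hTRC d s hs hd
  obtain ⟨h5, h6⟩ := hTRI d s hs hd
  obtain ⟨c1, -, c3⟩ := hCAPE d
  have hH : IsH10 Ω (tri d s) (gradient (tri d s)) := by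
    refine ⟨hC1H d _ h1 h2, tri d s, c3 _ h1.continuous, Filter.EventuallyEq.rfl, ?_⟩
    have : {x | x ∉ Ω ∧ tri d s x ≠ 0} = ∅ := by
      ext x
      simp only [mem_setOf_eq, mem_empty_iff_false, iff_false, not_and, not_not]
      exact fun hx => h3 x fun h => hx (hΩ h)
    rw [this, c1]
  have hne : ¬ tri d s =ᵐ[volume] 0 := by
    intro h
    have h7 : ∫ x, tri d s x ^ 2 = 0 := by
      rw [← integral_zero (E d) ℝ]
      apply integral_congr_ae
      filter_upwards [h] with x hx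
      rw [hx]
      simp
    rw [h5] at h7
    exact (pow_pos (by positivity) d).ne' h7
  have h8 : lam1 Ω ≤ ENNReal.ofReal ((∫ x, ‖gradient (tri d s) x‖ ^ 2) / ∫ x, tri d s x ^ 2) :=
    iInf_le_of_le (tri d s) (iInf_le_of_le (gradient (tri d s)) (iInf_le_of_le hH (iInf_le_of_le hne le_rfl)))
  refine h8.trans ?_
  apply ENNReal.ofReal_le_ofReal
  rw [h5, h6]
  obtain ⟨n, rfl⟩ : ∃ n, d = n + 1 := ⟨d - 1, by omega⟩
  apply le_of_eq
  rw [pow_succ (3 * s / 8) n, show n + 1 - 1 = n from rfl]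
  have hp : (3 * s / 8) ^ n ≠ 0 := (pow_pos (by positivity) n).ne'
  have hs' : s ≠ 0 := hs.ne'
  rw [mul_div_assoc, show (3 * s / 8) ^ n / ((3 * s / 8) ^ n * (3 * s / 8)) = 1 / (3 * s / 8) by
    rw [← div_div, div_self hp]]
  field_simp
  norm_num

end Pool.Agent.ConvexMin
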