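import Pool.Agent.Work.MP_05fb57_th.Interface4
import Pool.Agent.Work.MP_05fb57_th.B_YIN

/-!
# Block YIK
-/

namespace Pool.Agent.ConvexMin

open MeasureTheory Set Filter Topology

theorem p_YIK : S_YIK := by
  intro k B s hB
  have h := p_YIN B (k * s / 3) hB
  have e : (fun y : ℝ => (Real.sin (Real.pi * y / B) -
      2 * k * s * (Real.pi * y / B ^ 2) * Real.cos (Real.pi * y / B)) ^ 2) =
      fun y : ℝ => (Real.sin (Real.pi * y / B) -
      6 * (k * s / 3) * (Real.pi * y / B ^ 2) * Real.cos (Real.pi * y / B)) ^ 2 := by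
    funext y
    ring
  rw [e, h]
  ring

end Pool.Agent.ConvexMin
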