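import Mathlib

/-!
# MP_05fb57_an: elongated convex sets do not have the property. Definitions and block statements.

Plan. `D ⊆ ℝ^d` open, convex, `A = |D|`, `p, q ∈ D`, `L = |p - q|`. A convex `Ω ⊇ D` with `|Ω| ≤ m` lies in a strip of small
width `w` (WID2: `w ≤ 2 m / L` for `d = 2`; WIDD: `w ≤ 4 (d ^ d m / L) ^ (1 / (d - 1))`), so `λ₁(Ω) ≥ (π / w) ^ 2` (LOW). The open
set `D ∪ (0, s) ^ d`, `s ^ d = m - A`, has `λ₁ ≤ (4 / 3) d π ^ 2 / s ^ 2` (UPP).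
-/

set_option linter.unusedVariables false

namespace Pool.Agent.ConvexMin

open MeasureTheory Set Filter Topology
open scoped ENNReal RealInnerProductSpace ContDiff

/-- `ℝ^d` -/
abbrev E (d : ℕ) := EuclideanSpace ℝ (Fin d)

/-- `u ∈ H^1(ℝ^d)`, with weak gradient `g` (unique almost everywhere). -/
structure IsH1 {d : ℕ} (u : E d → ℝ) (g : E d → E d) : Prop where
  memLp : MemLp u 2 volume
  memLp_grad : MemLp g 2 volume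
  weak : ∀ φ : E d → ℝ, ContDiff ℝ ∞ φ → HasCompactSupport φ → ∀ v : E d,
    ∫ x, u x * fderiv ℝ φ x v = - ∫ x, ⟪g x, v⟫ * φ x

/-- The capacity of a set. -/
noncomputable def cap {d : ℕ} (A : Set (E d)) : ℝ≥0∞ :=
  ⨅ (u : E d → ℝ) (g : E d → E d) (_ : IsH1 u g)
    (_ : ∃ U : Set (E d), IsOpen U ∧ A ⊆ U ∧ ∀ᵐ x ∂volume, x ∈ U → 1 ≤ u x),
    ENNReal.ofReal ((∫ x, u x ^ 2) + ∫ x, ‖g x‖ ^ 2)

/-- Quasi-open sets. -/
def QuasiOpen {d : ℕ} (Ω : Set (E d)) : Prop :=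
  ∀ ε : ℝ≥0∞, 0 < ε → ∃ Ω' : Set (E d), IsOpen Ω' ∧ Ω ⊆ Ω' ∧ cap (Ω' \ Ω) < ε

/-- Quasi-continuous functions. -/
def QuasiCont {d : ℕ} (v : E d → ℝ) : Prop :=
  ∀ ε : ℝ≥0∞, 0 < ε → ∃ G : Set (E d), IsOpen G ∧ cap G < ε ∧ ContinuousOn v Gᶜ

/-- `u ∈ H^1_0(Ω)`, with weak gradient `g`: a quasi-continuous representative `v` of `u` vanishes outside
of `Ω` up to a set of zero capacity. -/
def IsH10 {d : ℕ} (Ω : Set (E d)) (u : E d → ℝ) (g : E d → E d) : Prop :=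
  IsH1 u g ∧ ∃ v : E d → ℝ, QuasiCont v ∧ v =ᵐ[volume] u ∧ cap {x | x ∉ Ω ∧ v x ≠ 0} = 0

/-- The first eigenvalue of the Dirichlet Laplacian on `Ω` (an infimum; it is a minimum if `Ω` is quasi-open
of finite positive measure). -/
noncomputable def lam1 {d : ℕ} (Ω : Set (E d)) : ℝ≥0∞ :=
  ⨅ (u : E d → ℝ) (g : E d → E d) (_ : IsH10 Ω u g) (_ : ¬ u =ᵐ[volume] 0),
    ENNReal.ofReal ((∫ x, ‖g x‖ ^ 2) / ∫ x, u x ^ 2)

/-- The admissible sets of the problem `P(D, m)`. -/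
def Admissible {d : ℕ} (D : Set (E d)) (m : ℝ) (Ω : Set (E d)) : Prop :=
  QuasiOpen Ω ∧ D ⊆ Ω ∧ volume Ω ≤ ENNReal.ofReal m

/-- `Ω` is a solution of the problem `P(D, m)`. -/
def IsSolution {d : ℕ} (D : Set (E d)) (m : ℝ) (Ω : Set (E d)) : Prop :=
  Admissible D m Ω ∧ ∀ Ω' : Set (E d), Admissible D m Ω' → lam1 Ω ≤ lam1 Ω'

/-- `P(D, m)` has a convex solution. -/
def HasConvexSolution {d : ℕ} (D : Set (E d)) (m : ℝ) : Prop :=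
  ∃ Ω : Set (E d), IsSolution D m Ω ∧ Convex ℝ Ω

/-- The property of Q1. -/
def HasProperty {d : ℕ} (D : Set (E d)) : Prop :=
  ∀ m : ℝ, volume D ≤ ENNReal.ofReal m → HasConvexSolution D m

/-- the open cube `(0, s) ^ d` -/
def cube (d : ℕ) (s : ℝ) : Set (E d) := {x | ∀ i, 0 < x i ∧ x i < s}

/-- `sin ^ 2 (π t / s)` on `[0, s]`, `0` elsewhere -/
noncomputable def bmp (s t : ℝ) : ℝ := if 0 < t ∧ t < s then Real.sin (Real.pi * t / s) ^ 2 else 0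

/-- the trial function -/
noncomputable def tri (d : ℕ) (s : ℝ) (x : E d) : ℝ := ∏ i, bmp s (x i)

/-! ### the lower bound -/

/-- TRL: translations (copy `integral_translate_sub_sq_le_dir` of MP_8f8f86_mp/Kinetic.lean, `E3` becomes `E d`, `h e` becomes `v`). -/
def S_TRL : Prop := ∀ (d : ℕ) (u : E d → ℝ) (g : E d → E d), IsH1 u g → ∀ v : E d,
  ∫ x, (u (x + v) - u x) ^ 2 ≤ ∫ x, ⟪g x, v⟫ ^ 2

/-- DSC: the discrete inequality. With `φ x = sin (π (⟪x, e⟫ - a + t) / (w + 2 t))`, positive for `⟪x, e⟫ ∈ [a, a + w]` and for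
`x ± t e` then still `≥ 0`: pointwise `(u (x+te) - u x)^2 ≥ u(x)^2 (1 - φ(x+te)/φ(x)) + u(x+te)^2 (1 - φ(x)/φ(x+te))`
(where `u = 0` the term is `0`, by `a² β/α + b² α/β ≥ 2ab`); integrate, translate the second term:
`2 - φ(x+te)/φ(x) - φ(x-te)/φ(x) = 2 - 2 cos (π t / (w + 2 t))`. -/
def S_DSC : Prop := ∀ (d : ℕ) (u : E d → ℝ) (e : E d) (a w t : ℝ), MemLp u 2 volume → ‖e‖ = 1 → 0 < w → 0 < t →
  (∀ᵐ x ∂volume, ¬ (a ≤ ⟪x, e⟫ ∧ ⟪x, e⟫ ≤ a + w) → u x = 0) →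
  (2 - 2 * Real.cos (Real.pi * t / (w + 2 * t))) * ∫ x, u x ^ 2 ≤ ∫ x, (u (x + t • e) - u x) ^ 2

/-- LIM -/
def S_LIM : Prop := ∀ w : ℝ, 0 < w → Tendsto (fun t : ℝ => (2 - 2 * Real.cos (Real.pi * t / (w + 2 * t))) / t ^ 2)
  (𝓝[>] 0) (𝓝 ((Real.pi / w) ^ 2))

/-- POI: from TRL, DSC, LIM: `t ^ 2 ∫ ⟪g, e⟫ ^ 2 ≥ (2 - 2 cos) ∫ u ^ 2`, divide by `t ^ 2`, `t → 0`; `⟪g, e⟫ ^ 2 ≤ ‖g‖ ^ 2`. -/
def S_POI : Prop := ∀ (d : ℕ) (u : E d → ℝ) (g : E d → E d) (e : E d) (a w : ℝ), IsH1 u g → ‖e‖ = 1 → 0 < w →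
  (∀ᵐ x ∂volume, ¬ (a ≤ ⟪x, e⟫ ∧ ⟪x, e⟫ ≤ a + w) → u x = 0) →
  (Real.pi / w) ^ 2 * ∫ x, u x ^ 2 ≤ ∫ x, ‖g x‖ ^ 2

/-- CAP0: a set of zero capacity has measure zero: `volume A ≤ volume U ≤ ∫ u ^ 2` (`u ≥ 1` a.e. on `U`). -/
def S_CAP0 : Prop := ∀ (d : ℕ) (A : Set (E d)), cap A = 0 → volume A = 0

/-- LOW: from POI, CAP0. -/
def S_LOW : Prop := ∀ (d : ℕ) (Ω : Set (E d)) (e : E d) (a w : ℝ), ‖e‖ = 1 → 0 < w →
  (∀ x ∈ Ω, a ≤ ⟪x, e⟫ ∧ ⟪x, e⟫ ≤ a + w) → ENNReal.ofReal ((Real.pi / w) ^ 2) ≤ lam1 Ω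

/-! ### the upper bound -/

/-- C1H: `C^1` functions with compact support (`gradient f x`, `⟪gradient f x, v⟫ = fderiv ℝ f x v`; integration by parts:
`integral_mul_fderiv_eq_neg_fderiv_mul_of_integrable`). -/
def S_C1H : Prop := ∀ (d : ℕ) (f : E d → ℝ), ContDiff ℝ 1 f → HasCompactSupport f → IsH1 f (gradient f)

/-- BMP: the function of one variable. -/
def S_BMP : Prop := ∀ s : ℝ, 0 < s → ContDiff ℝ 1 (bmp s) ∧ (∀ t, ¬ (0 < t ∧ t < s) → deriv (bmp s) t = 0) ∧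
  ∫ t, bmp s t ^ 2 = 3 * s / 8 ∧ ∫ t, deriv (bmp s) t ^ 2 = Real.pi ^ 2 / (2 * s)

/-- TRC: smoothness and support of the trial function, from BMP. -/
def S_TRC : Prop := ∀ (d : ℕ) (s : ℝ), 0 < s → 1 ≤ d → ContDiff ℝ 1 (tri d s) ∧ HasCompactSupport (tri d s) ∧
  (∀ x, x ∉ cube d s → tri d s x = 0) ∧
  ∀ x, ‖gradient (tri d s) x‖ ^ 2 = ∑ i, (deriv (bmp s) (x i) * ∏ j ∈ Finset.univ.erase i, bmp s (x j)) ^ 2

/-- TRI: the integrals (Fubini: `EuclideanSpace.volume_preserving_measurableEquiv` (or `volume_preserving_symm_measurableEquiv_toLp`),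
`integral_fintype_prod_volume_eq_prod`), from BMP, TRC. -/
def S_TRI : Prop := ∀ (d : ℕ) (s : ℝ), 0 < s → 1 ≤ d → ∫ x, tri d s x ^ 2 = (3 * s / 8) ^ d ∧
  ∫ x, ‖gradient (tri d s) x‖ ^ 2 = d * (Real.pi ^ 2 / (2 * s)) * (3 * s / 8) ^ (d - 1)

/-- CAPE: the empty set; open sets; continuous functions. -/
def S_CAPE : Prop := ∀ d : ℕ, cap (∅ : Set (E d)) = 0 ∧ (∀ Ω : Set (E d), IsOpen Ω → QuasiOpen Ω) ∧
  ∀ f : E d → ℝ, Continuous f → QuasiCont f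

/-- UPP: from C1H, TRC, TRI, CAPE. -/
def S_UPP : Prop := ∀ (d : ℕ) (s : ℝ) (Ω : Set (E d)), 0 < s → 1 ≤ d → cube d s ⊆ Ω →
  lam1 Ω ≤ ENNReal.ofReal (4 / 3 * d * Real.pi ^ 2 / s ^ 2)

/-- CUB: the cube. -/
def S_CUB : Prop := ∀ (d : ℕ) (s : ℝ), 0 < s → IsOpen (cube d s) ∧ volume (cube d s) = ENNReal.ofReal (s ^ d)

/-- ADM: the competitor, from CAPE, CUB. -/
def S_ADM : Prop := ∀ (d : ℕ) (D : Set (E d)) (m s : ℝ), IsOpen D → volume D ≤ ENNReal.ofReal m → 0 < s →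
  s ^ d = m - (volume D).toReal → Admissible D m (D ∪ cube d s)

/-! ### geometry -/

/-- TRG: the area of a triangle in the plane: `volume (convexHull {p, q, x}) = |det| / 2`. -/
def S_TRG : Prop := ∀ p q x : E 2, volume (convexHull ℝ {p, q, x}) =
  ENNReal.ofReal (|(q 0 - p 0) * (x 1 - p 1) - (q 1 - p 1) * (x 0 - p 0)| / 2)

/-- WID2: a convex set of area `≤ m` with two points of distance `L` lies in a strip of width `2 m / L`. From TRG: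
`e = J (q - p) / L`; `x, y ∈ Ω`: if `⟪x - p, e⟫` and `⟪y - p, e⟫` have the same sign one triangle is enough, otherwise the two
triangles `p q x`, `p q y` are in `Ω` and overlap in a null set (the line; apply `volume` of the two open half planes).
`a = sInf` of `⟪x, e⟫` over `Ω`. -/
def S_WID2 : Prop := ∀ (Ω : Set (E 2)) (p q : E 2) (m : ℝ), Convex ℝ Ω → p ∈ Ω → q ∈ Ω → p ≠ q → 0 < m →
  volume Ω ≤ ENNReal.ofReal m → ∃ (e : E 2) (a : ℝ), ‖e‖ = 1 ∧ ∀ x ∈ Ω, a ≤ ⟪x, e⟫ ∧ ⟪x, e⟫ ≤ a + 2 * m / dist p q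

/-- SIM: `Ω` contains the image of the cube `[0, 1/d] ^ d` under `t ↦ p + ∑ t_i v_i`. -/
def S_SIM : Prop := ∀ (d : ℕ) (Ω : Set (E d)) (p : E d) (v : Fin d → E d), 1 ≤ d → Convex ℝ Ω → p ∈ Ω →
  (∀ i, p + v i ∈ Ω) → ENNReal.ofReal (|(Matrix.of fun i j => v i j).det| / d ^ d) ≤ volume Ω

/-- HAD: `v` with non-zero determinant, `b` the dual basis: `∏_{i ≥ 1} ‖b i‖ ≥ ‖v 0‖ / |det v|`. Proof: the product of the matrix with rows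
`v 0, b 1, .., b n` and the matrix with columns `v 0, .., v n` has the rows `(⟪v 0, v j⟫)`, `e_1, .., e_n`, determinant `‖v 0‖ ^ 2`;
Hadamard (`Orientation.abs_volumeForm_apply_le` or `Matrix` version) for the first one. -/
def S_HAD : Prop := ∀ (n : ℕ) (v b : Fin (n + 1) → E (n + 1)), (∀ i j, ⟪b i, v j⟫ = if i = j then (1 : ℝ) else 0) →
  ‖v 0‖ ≤ |(Matrix.of fun i j => v i j).det| * ∏ i : Fin n, ‖b i.succ‖

/-- MAXD: an almost maximal determinant. `p, q ∈ Ω`, `Ω` convex with an interior point, finite volume (so all determinants are `≤ d ^ d m` by SIM):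
there are `v` with `v 0 = q - p`, `p + v i ∈ Ω`, `det ≠ 0`, and for all `x ∈ Ω` and `i ≥ 1` the determinant with `v i` replaced by `x - p` is
at most `2 |det v|`. -/
def S_MAXD : Prop := ∀ (n : ℕ) (Ω : Set (E (n + 1))) (p q : E (n + 1)) (m : ℝ), Convex ℝ Ω → (interior Ω).Nonempty →
  p ∈ Ω → q ∈ Ω → p ≠ q → volume Ω ≤ ENNReal.ofReal m → ∃ v : Fin (n + 1) → E (n + 1), v 0 = q - p ∧ (∀ i, p + v i ∈ Ω) ∧
  (Matrix.of fun i j => v i j).det ≠ 0 ∧ ∀ x ∈ Ω, ∀ i : Fin n,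
    |(Matrix.of fun k j => (Function.update v i.succ (x - p)) k j).det| ≤ 2 * |(Matrix.of fun i j => v i j).det|

/-- WIDD: from SIM, HAD, MAXD: dual basis `b`, `|⟪b i, x - p⟫| ≤ 2` (Cramer), so the width in the direction `b i / ‖b i‖` is
`≤ 4 / ‖b i‖`, and some `‖b i‖ ^ n ≥ ‖q - p‖ / |det v| ≥ ‖q - p‖ / (d ^ d m)`, `d = n + 1`. -/
def S_WIDD : Prop := ∀ (n : ℕ) (Ω : Set (E (n + 1))) (p q : E (n + 1)) (m : ℝ), 1 ≤ n → Convex ℝ Ω → (interior Ω).Nonempty →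
  p ∈ Ω → q ∈ Ω → p ≠ q → 0 < m → volume Ω ≤ ENNReal.ofReal m → ∃ (e : E (n + 1)) (a w : ℝ), ‖e‖ = 1 ∧ 0 < w ∧
    w ^ n * dist p q ≤ 4 ^ n * (n + 1) ^ (n + 1) * m ∧ ∀ x ∈ Ω, a ≤ ⟪x, e⟫ ∧ ⟪x, e⟫ ≤ a + w

/-! ### the theorems -/

/-- FIN2: the plane, from LOW, UPP, ADM, WID2 (`s = √(m - A)`). -/
def S_FIN2 : Prop := ∀ (D : Set (E 2)) (m : ℝ) (p q : E 2), IsOpen D → volume D ≤ ENNReal.ofReal m → p ∈ D → q ∈ D →
  32 / 3 * m ^ 2 < dist p q ^ 2 * (m - (volume D).toReal) → ¬ HasConvexSolution D m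

/-- FIND: all dimensions, from LOW, UPP, ADM, WIDD, with `m = 2 A`, `A = |D|`: `w ^ n L ≤ 4 ^ n d ^ d 2 A`, and
`(π / w) ^ 2 ≤ (4 / 3) d π ^ 2 / s ^ 2`, `s = A ^ (1 / d)`: `s ^ 2 ≤ (4 / 3) d w ^ 2 ≤ d ^ 2 w ^ 2`, so `s ≤ d w`,
`s ^ n L ≤ d ^ n w ^ n L ≤ (4 d) ^ n d ^ d 2 s ^ d`, so `L ≤ 2 (4 d) ^ n d ^ d s`. -/
def S_FIND : Prop := ∀ (n : ℕ) (D : Set (E (n + 1))) (p q : E (n + 1)), 1 ≤ n → IsOpen D → Convex ℝ D → volume D < ⊤ → p ∈ D → q ∈ D →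
  2 * (4 * (n + 1)) ^ n * (n + 1) ^ (n + 1) * (volume D).toReal ^ (1 / ((n : ℝ) + 1)) < dist p q →
  ¬ HasConvexSolution D (2 * (volume D).toReal)

end Pool.Agent.ConvexMin
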