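import Pool.Agent.Work.MP_05fb57_th.Interface

/-!
# MP_05fb57_an: boxes in dimension `n + 1 ≥ 3` do not have the property. Definitions and block statements.

Plan. `D = ∏ (0, a i)`, coordinate `0` the shortest side `b = a 0`. A convex `Ω ⊇ D` with `|Ω| ≤ |D| + δ` lies in the box with the sides
`a i + p i + q i`, where `∑ (p i + q i) / a i * |D| ≤ (n + 1) δ` (pyramids over the faces), so
`λ₁(Ω) ≥ ∑ (π / (a i + p i + q i)) ^ 2`. The competitor `0 < x 0 < b + τ v ^ 6`, `v = ∏_{i ≥ 1} sin (π x i / a i)`, has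
`λ₁ ≤ ∑ (π / a i) ^ 2 - c τ + C τ ^ 2` (trial function `v sin (π x 0 / (b + τ v ^ 6))`), and `(7 / 4) ^ n > n + 1`.
-/

set_option linter.unusedVariables false

namespace Pool.Agent.ConvexMin

open MeasureTheory Set Filter Topology
open scoped ENNReal RealInnerProductSpace ContDiff

/-- the open box with the sides `a i` -/
def box {n : ℕ} (a : Fin (n + 1) → ℝ) : Set (E (n + 1)) := {x | ∀ i, 0 < x i ∧ x i < a i}

/-- `v = ∏_{i ≥ 1} sin (π x i / a i)` -/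
noncomputable def vv {n : ℕ} (a : Fin (n + 1) → ℝ) (x : E (n + 1)) : ℝ :=
  ∏ i : Fin n, Real.sin (Real.pi * x i.succ / a i.succ)

/-- the derivative of `v` with respect to `x i.succ` -/
noncomputable def dv {n : ℕ} (a : Fin (n + 1) → ℝ) (i : Fin n) (x : E (n + 1)) : ℝ :=
  Real.pi / a i.succ * Real.cos (Real.pi * x i.succ / a i.succ) *
    ∏ k ∈ Finset.univ.erase i, Real.sin (Real.pi * x k.succ / a k.succ)

/-- the height of the competitor -/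
noncomputable def bb {n : ℕ} (a : Fin (n + 1) → ℝ) (τ : ℝ) (x : E (n + 1)) : ℝ := a 0 + τ * vv a x ^ 6

/-- the competitor -/
def comp {n : ℕ} (a : Fin (n + 1) → ℝ) (τ : ℝ) : Set (E (n + 1)) :=
  {x | (∀ i : Fin n, 0 < x i.succ ∧ x i.succ < a i.succ) ∧ 0 < x 0 ∧ x 0 < bb a τ x}

/-- the trial function -/
noncomputable def tf {n : ℕ} (a : Fin (n + 1) → ℝ) (τ : ℝ) : E (n + 1) → ℝ :=
  (comp a τ).indicator fun x => vv a x * Real.sin (Real.pi * x 0 / bb a τ x)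

/-- the pyramid over the face `z i = c` with apex `x`, `t = (z i - c) / (x i - c)` -/
def pyr {n : ℕ} (a : Fin (n + 1) → ℝ) (i : Fin (n + 1)) (c : ℝ) (x : E (n + 1)) : Set (E (n + 1)) :=
  {z | 0 < (z i - c) / (x i - c) ∧ (z i - c) / (x i - c) < 1 ∧ ∀ j, j ≠ i →
    (z i - c) / (x i - c) * x j < z j ∧ z j < (1 - (z i - c) / (x i - c)) * a j + (z i - c) / (x i - c) * x j}

/-- `∏_{i ≥ 1} c a i` -/
noncomputable def Wc {n : ℕ} (a : Fin (n + 1) → ℝ) (c : ℝ) : ℝ := ∏ i : Fin n, (c * a i.succ)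

/-- `∑_{i ≥ 1} (π / a i) ^ 2` -/
noncomputable def lam' {n : ℕ} (a : Fin (n + 1) → ℝ) : ℝ := ∑ i : Fin n, (Real.pi / a i.succ) ^ 2

/-- the constant of the error term -/
noncomputable def CC {n : ℕ} (a : Fin (n + 1) → ℝ) : ℝ :=
  (72 * lam' a / a 0 + Real.pi ^ 2 / (2 * a 0 ^ 3)) * Wc a (1 / 2)

/-- `∫ tf ^ 2` -/
noncomputable def DD {n : ℕ} (a : Fin (n + 1) → ℝ) (τ : ℝ) : ℝ := a 0 / 2 * Wc a (1 / 2) + τ / 2 * Wc a (35 / 128)

/-! ### lower bound -/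

/-- PDR: POI for one direction (the proof of `p_POI` before the last step; TRL, DSC, LIM). -/
def S_PDR : Prop := ∀ (d : ℕ) (u : E d → ℝ) (g : E d → E d) (e : E d) (a w : ℝ), IsH1 u g → ‖e‖ = 1 → 0 < w →
  (∀ᵐ x ∂volume, ¬ (a ≤ ⟪x, e⟫ ∧ ⟪x, e⟫ ≤ a + w) → u x = 0) →
  (Real.pi / w) ^ 2 * ∫ x, u x ^ 2 ≤ ∫ x, ⟪g x, e⟫ ^ 2

/-- LWB: from PDR and CAP0 (`e = EuclideanSpace.single i 1`, `‖g‖ ^ 2 = ∑ ⟪g, e_i⟫ ^ 2`; as in `p_LOW`). -/
def S_LWB : Prop := ∀ (d : ℕ) (Ω : Set (E d)) (p w : Fin d → ℝ), (∀ i, 0 < w i) →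
  (∀ x ∈ Ω, ∀ i, p i ≤ x i ∧ x i ≤ p i + w i) → ENNReal.ofReal (∑ i, (Real.pi / w i) ^ 2) ≤ lam1 Ω

/-- CON: the volume of a pyramid. Fubini along the coordinate `i` (`MeasureTheory.volume_preserving_piFinSuccAbove`): the section at
`z i = c + t (x i - c)` is a box with the sides `(1 - t) a j`; `∫_0^1 (1 - t) ^ n = 1 / (n + 1)`. -/
def S_CON : Prop := ∀ (n : ℕ) (a : Fin (n + 1) → ℝ) (i : Fin (n + 1)) (c : ℝ) (x : E (n + 1)), (∀ j, 0 < a j) → x i ≠ c →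
  IsOpen (pyr a i c x) ∧ volume (pyr a i c x) = ENNReal.ofReal (|x i - c| * (∏ j ∈ Finset.univ.erase i, a j) / (n + 1))

/-- SUM: from CON. `Ω' = closure Ω` is convex of the same volume (`Convex.addHaar_frontier`). For `x ∈ Ω'`, `x i > a i`, the pyramid
`pyr a i (a i) x` is in `Ω'` and disjoint from the box, so `Ω'` is bounded, hence compact. `a i + q i` = maximum, `-p i` = minimum of `x i` on
`Ω'`. The pyramids of the extremal points (heights `q i` over `z i = a i`, `p i` over `z i = 0`; only the positive heights) are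
disjoint: if `z` is in the pyramids of `(i, +)` and `(j, +)` with parameters `t, s`, then `z i < (1 - s) a i + s (a i + q i)`, so `t < s`, and `s < t`
in the same way (also for the other signs; opposite faces trivially). Their volumes add up to at most `δ`. -/
def S_SUM : Prop := ∀ (n : ℕ) (a : Fin (n + 1) → ℝ) (Ω : Set (E (n + 1))) (δ : ℝ), (∀ j, 0 < a j) → Convex ℝ Ω → box a ⊆ Ω → 0 ≤ δ →
  volume Ω ≤ ENNReal.ofReal ((∏ i, a i) + δ) → ∃ p q : Fin (n + 1) → ℝ, (∀ i, 0 ≤ p i ∧ 0 ≤ q i) ∧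
    (∀ x ∈ Ω, ∀ i, -p i ≤ x i ∧ x i ≤ a i + q i) ∧ (∑ i, (p i + q i) / a i) * ∏ i, a i ≤ (n + 1) * δ

/-! ### upper bound -/

/-- LPH: Lipschitz functions with compact support are in `H^1` (`LipschitzWith.integral_lineDeriv_mul_eq`,
`LipschitzWith.ae_differentiableAt`). -/
def S_LPH : Prop := ∀ (d : ℕ) (f : E d → ℝ) (C : NNReal), LipschitzWith C f → HasCompactSupport f → IsH1 f (gradient f)

/-- LPU: a continuous function, zero outside of the open `U`, with bounded derivative in `U`, is Lipschitz (a segment which leaves `U` passes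
through zeros of `f`; mean value inequality on the pieces). -/
def S_LPU : Prop := ∀ (d : ℕ) (U : Set (E d)) (f : E d → ℝ) (C : NNReal), IsOpen U → Continuous f → (∀ x, x ∉ U → f x = 0) →
  (∀ x ∈ U, DifferentiableAt ℝ f x ∧ ‖fderiv ℝ f x‖ ≤ C) → LipschitzWith C f

/-- SNI: integrals of one variable. -/
def S_SNI : Prop := ∀ a : ℝ, 0 < a → (∫ t in (0)..a, Real.sin (Real.pi * t / a) ^ 2) = 1 / 2 * a ∧
  (∫ t in (0)..a, Real.cos (Real.pi * t / a) ^ 2) = 1 / 2 * a ∧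
  (∫ t in (0)..a, Real.sin (Real.pi * t / a) ^ 6) = 5 / 16 * a ∧
  (∫ t in (0)..a, Real.sin (Real.pi * t / a) ^ 8) = 35 / 128 * a ∧
  (∫ t in (0)..a, Real.cos (Real.pi * t / a) ^ 2 * Real.sin (Real.pi * t / a) ^ 6) = 5 / 128 * a

/-- YIN: the integral over the height. -/
def S_YIN : Prop := ∀ B s : ℝ, 0 < B →
  (∫ y in (0)..B, (Real.sin (Real.pi * y / B) - 6 * s * (Real.pi * y / B ^ 2) * Real.cos (Real.pi * y / B)) ^ 2) =
    B / 2 + 3 * s + 36 * s ^ 2 / B * (Real.pi ^ 2 / 6 + 1 / 4)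

/-- CMP: the competitor, from SNI (volume: integrate in `x 0` first). -/
def S_CMP : Prop := ∀ (n : ℕ) (a : Fin (n + 1) → ℝ) (τ : ℝ), (∀ j, 0 < a j) → 0 ≤ τ → IsOpen (comp a τ) ∧ box a ⊆ comp a τ ∧
  volume (comp a τ) = ENNReal.ofReal ((∏ i, a i) + τ * Wc a (5 / 16))

/-- TFL: the trial function, from LPU: non-negative, Lipschitz, compact support, zero outside of the competitor, not a.e. zero. (Near `comp a τ`
the function is smooth with `v, b + τ v^6 ≥ b`, bounded derivative; continuity at the boundary: the product is `0` there.) -/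
def S_TFL : Prop := ∀ (n : ℕ) (a : Fin (n + 1) → ℝ) (τ : ℝ), (∀ j, 0 < a j) → 0 ≤ τ → (∀ x, 0 ≤ tf a τ x) ∧
  (∃ C : NNReal, LipschitzWith C (tf a τ)) ∧ HasCompactSupport (tf a τ) ∧ (∀ x, x ∉ comp a τ → tf a τ x = 0) ∧
  ∀ x ∈ comp a τ, 0 < tf a τ x

/-- TFG: the gradient, from TFL (outside of `comp a τ`: `tf` has a minimum, so `gradient = 0` or not differentiable, `gradient = 0` too). -/
def S_TFG : Prop := ∀ (n : ℕ) (a : Fin (n + 1) → ℝ) (τ : ℝ), (∀ j, 0 < a j) → 0 ≤ τ →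
  (∀ x, x ∉ comp a τ → gradient (tf a τ) x = 0) ∧ ∀ x ∈ comp a τ, ‖gradient (tf a τ) x‖ ^ 2 =
    (vv a x * (Real.pi / bb a τ x) * Real.cos (Real.pi * x 0 / bb a τ x)) ^ 2 +
    ∑ i : Fin n, (dv a i x * (Real.sin (Real.pi * x 0 / bb a τ x) -
      6 * (τ * vv a x ^ 6) * (Real.pi * x 0 / bb a τ x ^ 2) * Real.cos (Real.pi * x 0 / bb a τ x))) ^ 2

/-- IN2: `∫ tf ^ 2`, from SNI: integrate in `x 0` first (`b + τ v^6` over 2), then the product. -/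
def S_IN2 : Prop := ∀ (n : ℕ) (a : Fin (n + 1) → ℝ) (τ : ℝ), (∀ j, 0 < a j) → 0 ≤ τ → ∫ x, tf a τ x ^ 2 = DD a τ

/-- ING: `∫ ‖∇ tf‖ ^ 2`, from SNI, YIN, TFG. With `s = τ v^6`, `B = b + s`, the inner integral (in `x 0`) is
`v^2 π^2 / (2 B) + ∑ (dv i)^2 (B / 2 + 3 s + 36 s^2 / B (π^2/6 + 1/4))`; `36 (π^2/6 + 1/4) ≤ 72`, `B ≥ b`, `v ≤ 1`,
`1 / B ≤ 1/b - s/b^2 + s^2/b^3`; `∫ (dv i)^2 = (π/a i)^2 Wc (1/2)`, `∫ (dv i)^2 v^6 = (π/a i)^2 Wc (35/128) / 7`. -/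
def S_ING : Prop := ∀ (n : ℕ) (a : Fin (n + 1) → ℝ) (τ : ℝ), (∀ j, 0 < a j) → 0 ≤ τ →
  ∫ x, ‖gradient (tf a τ) x‖ ^ 2 ≤ (lam' a + (Real.pi / a 0) ^ 2) * DD a τ - (Real.pi / a 0) ^ 2 * τ * Wc a (35 / 128) + CC a * τ ^ 2

/-- UBX: from LPH, CMP, TFL, IN2, ING, CAPE. -/
def S_UBX : Prop := ∀ (n : ℕ) (a : Fin (n + 1) → ℝ) (τ : ℝ), (∀ j, 0 < a j) → 0 ≤ τ →
  lam1 (comp a τ) ≤ ENNReal.ofReal ((lam' a + (Real.pi / a 0) ^ 2) -
    ((Real.pi / a 0) ^ 2 * τ * Wc a (35 / 128) - CC a * τ ^ 2) / DD a τ)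

/-- FBX: the theorem, from LWB, SUM, CMP, UBX, CAPE. `δ = m - ∏ a`, `τ = δ / Wc a (5/16)`;
`(π / (a + w))^2 ≥ (π / a)^2 - 2 π^2 w / a^3`, `a i ≥ b`: `((π/b)^2 τ W8 - C τ^2) / DD ≤ (2 π^2 / b^2) (n+1) δ / ∏ a`;
`DD ≤ W2 (b + τ) / 2`, `W8 = (35/128)^n P`, `W6 = (40/128)^n P`, `W2 = P / 2^n`, `∏ a = b P`: `(7/4)^n - C' τ ≤ (n+1) (1 + τ/b)`. -/
def S_FBX : Prop := ∀ (n : ℕ) (a : Fin (n + 1) → ℝ), 2 ≤ n → (∀ j, 0 < a j) → (∀ j, a 0 ≤ a j) → ∃ δ : ℝ, 0 < δ ∧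
  ∀ m : ℝ, (∏ i, a i) < m → m < (∏ i, a i) + δ → ¬ HasConvexSolution (box a) m

end Pool.Agent.ConvexMin
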