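import Pool.Agent.Work.MP_05fb57_th.Interface3

/-!
# MP_05fb57_an: rectangles in the plane, and boxes in every position. Definitions and block statements.

Plan (`d = 2`). As for `d ≥ 3`, but now the bounding box gives exactly the first order of the best competitor. Either the four
triangles over the sides have total area `≤ (1 - 1/200) δ`, or one of them is large and then `Ω` misses a corner of the bounding box (GE2), which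
improves the lower bound by `c δ` (LWC: vector field inequality GEN). The competitor now has the height `b + τ v ^ (2 k)`, `k` large.
-/

set_option linter.unusedVariables false

namespace Pool.Agent.ConvexMin

open MeasureTheory Set Filter Topology
open scoped ENNReal RealInnerProductSpace ContDiff

/-! ### invariance -/

/-- ISO: if `Ω` solves `P(T '' D, m)` then `T ⁻¹' Ω` solves `P(D, m)`: `IsH1 u g` gives `IsH1 (u ∘ T) (fun x => T.linearIsometryEquiv.symm (g (T x)))`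
(change of variables `T.measurePreserving`), so `cap`, `QuasiOpen`, `QuasiCont`, `IsH10`, `lam1`, `Admissible` are invariant. -/
def S_ISO : Prop := ∀ (d : ℕ) (T : E d ≃ᵃⁱ[ℝ] E d) (D : Set (E d)) (m : ℝ), HasConvexSolution (T '' D) m → HasConvexSolution D m

/-! ### the lower bound -/

/-- GEN: vector field inequality in one direction, from TRL. With `D_t u = (u (x + t e) - u x) / t`, `m_t u = (u (x + t e) + u x) / 2`: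
`0 ≤ ∫ (D_t u + V m_t u)^2 = ∫ (D_t u)^2 + ∫ V (u (x+te)^2 - u x^2) / t + ∫ V^2 (m_t u)^2`, `∫ (D_t u)^2 ≤ ∫ ⟪g, e⟫^2`, the second integral is
`-∫ u^2 (V x - V (x - te)) / t → -∫ u^2 W` (dominated convergence, bounded by `K u^2`),
`∫ V^2 (m_t u)^2 ≤ (1/2) ∫ (V (x - te)^2 + V x^2) u^2 → ∫ V^2 u^2`. -/
def S_GEN : Prop := ∀ (d : ℕ) (u : E d → ℝ) (g : E d → E d) (e : E d) (V W : E d → ℝ) (K : ℝ), IsH1 u g → ‖e‖ = 1 →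
  Measurable V → Measurable W → (∀ x, |V x| ≤ K) → (∀ x, |W x| ≤ K) → (∀ x, ∀ t : ℝ, 0 < t → |V x - V (x - t • e)| ≤ K * t) →
  (∀ᵐ x ∂volume, u x ≠ 0 → Tendsto (fun t : ℝ => (V x - V (x - t • e)) / t) (𝓝[>] 0) (𝓝 (W x))) →
  ∫ x, (W x - V x ^ 2) * u x ^ 2 ≤ ∫ x, ⟪g x, e⟫ ^ 2

/-- VVF: the function of one variable: `v s = (1 / I) (-π cot (π t) + ε ζ t)`, `t = s / I` clamped to `[η / 2, I - η / 2]`,
`ζ = sin (π t) (11/10 - cos (π t))`. `v' - v^2 = (1 / I^2) (π^2 + ε π (1 + 3.3 C - 4 C^2) - ε^2 ζ^2)`, `C = cos (π t)`; `C ≥ -0.1875` for `t ≤ 0.56`, so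
there `π (1 + 3.3 C - 4 C^2) ≥ 0.75`; always `≥ -6.3 π ≥ -20`; `ζ^2 ≤ 4.41`, `ε ≤ 1/20`. -/
def S_VVF : Prop := ∀ I η ε : ℝ, 0 < η → 2 * η < I → 0 ≤ ε → ε ≤ 1 / 20 → ∃ (v w : ℝ → ℝ) (K : ℝ), Measurable v ∧ Measurable w ∧
  (∀ s, |v s| ≤ K) ∧ (∀ s, |w s| ≤ K) ∧ (∀ s t, |v s - v t| ≤ K * |s - t|) ∧
  ∀ s, η ≤ s → s ≤ I - η → HasDerivAt v (w s) s ∧ (Real.pi / I) ^ 2 - 41 / 2 * ε / I ^ 2 ≤ w s - v s ^ 2 ∧
    (s ≤ 56 / 100 * I → (Real.pi / I) ^ 2 + ε / (2 * I ^ 2) ≤ w s - v s ^ 2)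

/-- LWE: a set in a rectangle which misses a corner, with some room, from GEN, VVF, CAP0. `V₁ x = v (⟪x, f⟫ - β)`;
`V₂ x = v_H (⟪x, e⟫ - α)` if `⟪x, f⟫ - β < 0.56 I`, else `v_(H-κ) (⟪x, e⟫ - α)` (`v_H`: VVF with `ε = 0`). `‖g‖^2 = ⟪g, e⟫^2 + ⟪g, f⟫^2`. -/
def S_LWE : Prop := ∀ (Ω : Set (E 2)) (e f : E 2) (α β H I κ η ε : ℝ), ‖e‖ = 1 → ‖f‖ = 1 → ⟪e, f⟫ = 0 → 0 < η → 0 ≤ κ → 2 * η < I →
  κ + 2 * η < H → (∀ x ∈ Ω, (α + η ≤ ⟪x, e⟫ ∧ ⟪x, e⟫ ≤ α + H - η) ∧ β + η ≤ ⟪x, f⟫ ∧ ⟪x, f⟫ ≤ β + I - η) →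
  (∀ x ∈ Ω, β + 56 / 100 * I ≤ ⟪x, f⟫ → ⟪x, e⟫ ≤ α + H - κ - η) → 0 ≤ ε → ε ≤ 1 / 20 →
  21 * ε / I ^ 2 ≤ (Real.pi / (H - κ)) ^ 2 - (Real.pi / H) ^ 2 →
  ENNReal.ofReal ((Real.pi / H) ^ 2 + (Real.pi / I) ^ 2 + ε / (2 * I ^ 2)) ≤ lam1 Ω

/-- LWC: the same without room, from LWE: use `α - η`, `β - η`, `H + 2 η`, `I + 2 η`, `η → 0`. -/
def S_LWC : Prop := ∀ (Ω : Set (E 2)) (e f : E 2) (α β H I κ ε : ℝ), ‖e‖ = 1 → ‖f‖ = 1 → ⟪e, f⟫ = 0 → 0 ≤ κ → 0 < I → κ < H →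
  (∀ x ∈ Ω, (α ≤ ⟪x, e⟫ ∧ ⟪x, e⟫ ≤ α + H) ∧ β ≤ ⟪x, f⟫ ∧ ⟪x, f⟫ ≤ β + I) →
  (∀ x ∈ Ω, β + 56 / 100 * I ≤ ⟪x, f⟫ → ⟪x, e⟫ ≤ α + H - κ) → 0 ≤ ε → ε ≤ 1 / 20 →
  21 * ε / I ^ 2 < (Real.pi / (H - κ)) ^ 2 - (Real.pi / H) ^ 2 →
  ENNReal.ofReal ((Real.pi / H) ^ 2 + (Real.pi / I) ^ 2 + ε / (2 * I ^ 2)) ≤ lam1 Ω

/-- GE2: geometry. `p, q` as in SUM (extremal, `Ω' = closure Ω` compact), `S` = total area of the four triangles = `(∑ (p i + q i) / a i) ∏ a / 2 ≤ δ`.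
If `S > (1 - 1/200) δ` take the largest triangle: over a side of length `ℓ = a j`, height `h` (`= p i` or `q i`), `ℓ h / 2 ≥ S / 4`, apex `X` with
lateral coordinate `x₀ ≤ ℓ / 2` (direction of `f` chosen so). Claim: no `z ∈ Ω'` with lateral coordinate `≥ 0.55 ℓ` and height `> 0.95 h`. If
the lateral coordinate of `z` is `> ℓ` replace `z` by the point of the segment `X z` with lateral coordinate `ℓ`. The line from `X` to the corner `F` (lateral `ℓ`,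
height `0`) has at `z` height `≤ 0.9 h`, so the triangle `X z F` has area `≥ (1/2) (ℓ/2) (h/20) = ℓ h / 80 ≥ S / 160 > δ / 200`... it
is disjoint from `D` and the four triangles (it is above the line `X F`, in `{lateral ≤ ℓ}`; for lateral coordinate `< 0` use `x₀ ≥ -r` and that the
triangle over the left side has heights `< s h` at lateral `-s r`), so the total area is `> S + δ / 200 > δ`: contradiction.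
`β + 0.56 I ≥ 0.55 ℓ` (in the coordinate from the left corner) because `r ≤ 2 δ ℓ / ∏ a ≤ ℓ / 50`. -/
def S_GE2 : Prop := ∀ (a : Fin 2 → ℝ) (Ω : Set (E 2)) (δ : ℝ), (∀ j, 0 < a j) → Convex ℝ Ω → box a ⊆ Ω → 0 < δ → 100 * δ ≤ ∏ i, a i →
  volume Ω ≤ ENNReal.ofReal ((∏ i, a i) + δ) → ∃ p q : Fin 2 → ℝ, (∀ i, 0 ≤ p i ∧ 0 ≤ q i) ∧
    (∀ x ∈ Ω, ∀ i, -p i ≤ x i ∧ x i ≤ a i + q i) ∧ (∑ i, (p i + q i) / a i) * ∏ i, a i ≤ 2 * δ ∧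
    ((∑ i, (p i + q i) / a i) * ∏ i, a i ≤ 2 * (1 - 1 / 200) * δ ∨ ∃ (i j : Fin 2) (e f : E 2) (α β h : ℝ), i ≠ j ∧
      ‖e‖ = 1 ∧ ‖f‖ = 1 ∧ ⟪e, f⟫ = 0 ∧ 0 ≤ h ∧ h ≤ p i + q i ∧ δ ≤ 3 * (a j * h) ∧
      (∀ x ∈ Ω, (α ≤ ⟪x, e⟫ ∧ ⟪x, e⟫ ≤ α + (a i + p i + q i)) ∧ β ≤ ⟪x, f⟫ ∧ ⟪x, f⟫ ≤ β + (a j + p j + q j)) ∧
      ∀ x ∈ Ω, β + 56 / 100 * (a j + p j + q j) ≤ ⟪x, f⟫ → ⟪x, e⟫ ≤ α + (a i + p i + q i) - h / 20)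

/-! ### the competitor with the exponent `2 k` -/

/-- `∫_0^1 sin ^ (2 m) (π t)` -/
noncomputable def JJ (m : ℕ) : ℝ := ∫ t in (0)..1, Real.sin (Real.pi * t) ^ (2 * m)

/-- the height -/
noncomputable def bbk {n : ℕ} (a : Fin (n + 1) → ℝ) (k : ℕ) (τ : ℝ) (x : E (n + 1)) : ℝ := a 0 + τ * vv a x ^ (2 * k)

/-- the competitor -/
def compk {n : ℕ} (a : Fin (n + 1) → ℝ) (k : ℕ) (τ : ℝ) : Set (E (n + 1)) :=
  {x | (∀ i : Fin n, 0 < x i.succ ∧ x i.succ < a i.succ) ∧ 0 < x 0 ∧ x 0 < bbk a k τ x}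

/-- the trial function -/
noncomputable def tfk {n : ℕ} (a : Fin (n + 1) → ℝ) (k : ℕ) (τ : ℝ) : E (n + 1) → ℝ :=
  (compk a k τ).indicator fun x => vv a x * Real.sin (Real.pi * x 0 / bbk a k τ x)

/-- the constant of the error term -/
noncomputable def CCk {n : ℕ} (a : Fin (n + 1) → ℝ) (k : ℕ) : ℝ :=
  (8 * k ^ 2 * lam' a / a 0 + Real.pi ^ 2 / (2 * a 0 ^ 3)) * Wc a (1 / 2)

/-- `∫ tfk ^ 2` -/
noncomputable def DDk {n : ℕ} (a : Fin (n + 1) → ℝ) (k : ℕ) (τ : ℝ) : ℝ := a 0 / 2 * Wc a (1 / 2) + τ / 2 * Wc a (JJ (k + 1))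

/-- SNK: integrals of one variable. -/
def S_SNK : Prop := (∀ m : ℕ, 0 < JJ m ∧ JJ m ≤ 1 ∧ (2 * m + 2) * JJ (m + 1) = (2 * m + 1) * JJ m) ∧ JJ 0 = 1 ∧ JJ 1 = 1 / 2 ∧
  ∀ (a : ℝ) (m : ℕ), 0 < a → (∫ t in (0)..a, Real.sin (Real.pi * t / a) ^ (2 * m)) = JJ m * a ∧
    (∫ t in (0)..a, Real.cos (Real.pi * t / a) ^ 2 * Real.sin (Real.pi * t / a) ^ (2 * m)) = JJ (m + 1) / (2 * m + 1) * a

/-- YIK: YIN with `2 k` for `6`. -/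
def S_YIK : Prop := ∀ (k : ℕ) (B s : ℝ), 0 < B →
  (∫ y in (0)..B, (Real.sin (Real.pi * y / B) - 2 * k * s * (Real.pi * y / B ^ 2) * Real.cos (Real.pi * y / B)) ^ 2) =
    B / 2 + k * s + 4 * k ^ 2 * s ^ 2 / B * (Real.pi ^ 2 / 6 + 1 / 4)

/-- CMK: CMP with `2 k` for `6` (copy B_CMP), from SNK. -/
def S_CMK : Prop := ∀ (n : ℕ) (a : Fin (n + 1) → ℝ) (k : ℕ) (τ : ℝ), (∀ j, 0 < a j) → 0 ≤ τ → IsOpen (compk a k τ) ∧ box a ⊆ compk a k τ ∧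
  volume (compk a k τ) = ENNReal.ofReal ((∏ i, a i) + τ * Wc a (JJ k))

/-- TFK: TFL with `2 k` for `6` (copy B_TFLx). -/
def S_TFK : Prop := ∀ (n : ℕ) (a : Fin (n + 1) → ℝ) (k : ℕ) (τ : ℝ), (∀ j, 0 < a j) → 0 ≤ τ → (∀ x, 0 ≤ tfk a k τ x) ∧
  (∃ C : NNReal, LipschitzWith C (tfk a k τ)) ∧ HasCompactSupport (tfk a k τ) ∧ (∀ x, x ∉ compk a k τ → tfk a k τ x = 0) ∧
  ∀ x ∈ compk a k τ, 0 < tfk a k τ x

/-- TGK: TFG with `2 k` for `6` (copy B_TFG), `k ≥ 1`, from TFK. -/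
def S_TGK : Prop := ∀ (n : ℕ) (a : Fin (n + 1) → ℝ) (k : ℕ) (τ : ℝ), 1 ≤ k → (∀ j, 0 < a j) → 0 ≤ τ →
  (∀ x, x ∉ compk a k τ → gradient (tfk a k τ) x = 0) ∧ ∀ x ∈ compk a k τ, ‖gradient (tfk a k τ) x‖ ^ 2 =
    (vv a x * (Real.pi / bbk a k τ x) * Real.cos (Real.pi * x 0 / bbk a k τ x)) ^ 2 +
    ∑ i : Fin n, (dv a i x * (Real.sin (Real.pi * x 0 / bbk a k τ x) -
      2 * k * (τ * vv a x ^ (2 * k)) * (Real.pi * x 0 / bbk a k τ x ^ 2) * Real.cos (Real.pi * x 0 / bbk a k τ x))) ^ 2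

/-- I2K: IN2 with `2 k` for `6` (copy B_IN2), from SNK. -/
def S_I2K : Prop := ∀ (n : ℕ) (a : Fin (n + 1) → ℝ) (k : ℕ) (τ : ℝ), (∀ j, 0 < a j) → 0 ≤ τ → ∫ x, tfk a k τ x ^ 2 = DDk a k τ

/-- IGK: ING with `2 k` for `6` (copy B_ING), from SNK, YIK, TGK: inner integral
`v^2 π^2 / (2 B) + ∑ (dv i)^2 (B / 2 + k s + 4 k^2 s^2 / B (π^2/6 + 1/4))`, `s = τ v^(2k)`, `4 (π^2/6 + 1/4) ≤ 8`,
`∫ (dv i)^2 v^(2k) = (π/a i)^2 Wc (JJ (k+1)) / (2k+1)`, `(1/2 + k) / (2k+1) = 1/2`. -/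
def S_IGK : Prop := ∀ (n : ℕ) (a : Fin (n + 1) → ℝ) (k : ℕ) (τ : ℝ), 1 ≤ k → (∀ j, 0 < a j) → 0 ≤ τ →
  ∫ x, ‖gradient (tfk a k τ) x‖ ^ 2 ≤
    (lam' a + (Real.pi / a 0) ^ 2) * DDk a k τ - (Real.pi / a 0) ^ 2 * τ * Wc a (JJ (k + 1)) + CCk a k * τ ^ 2

/-- UBK: UBX with `2 k` for `6` (copy B_UBX), from LPH, CMK, TFK, I2K, IGK, CAPE. -/
def S_UBK : Prop := ∀ (n : ℕ) (a : Fin (n + 1) → ℝ) (k : ℕ) (τ : ℝ), 1 ≤ k → (∀ j, 0 < a j) → 0 ≤ τ →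
  lam1 (compk a k τ) ≤ ENNReal.ofReal ((lam' a + (Real.pi / a 0) ^ 2) -
    ((Real.pi / a 0) ^ 2 * τ * Wc a (JJ (k + 1)) - CCk a k * τ ^ 2) / DDk a k τ)

/-! ### the theorems -/

/-- FB2: rectangles, from LWB, LWC, GE2, CMK, UBK, SNK, CAPE. -/
def S_FB2 : Prop := ∀ a : Fin 2 → ℝ, (∀ j, 0 < a j) → a 0 ≤ a 1 → ∃ δ : ℝ, 0 < δ ∧
  ∀ m : ℝ, (∏ i, a i) < m → m < (∏ i, a i) + δ → ¬ HasConvexSolution (box a) m

/-- FBA: all boxes in all positions and all dimensions `n + 1 ≥ 2`, from FBX, FB2, ISO (transposition of the coordinates `0` and `i`, `a i` minimal). -/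
def S_FBA : Prop := ∀ (n : ℕ) (a : Fin (n + 1) → ℝ) (T : E (n + 1) ≃ᵃⁱ[ℝ] E (n + 1)), 1 ≤ n → (∀ j, 0 < a j) → ∃ δ : ℝ, 0 < δ ∧
  ∀ m : ℝ, (∏ i, a i) < m → m < (∏ i, a i) + δ → ¬ HasConvexSolution (T '' box a) m

end Pool.Agent.ConvexMin
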