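import Pool.Agent.Work.MP_05fb57_th.Interface4

/-!
# MP_05fb57_an: the class of sets with the property of Q1 is closed (Hausdorff distance). Block statements.
-/

set_option linter.unusedVariables false

namespace Pool.Agent.ConvexMin

open MeasureTheory Set Filter Topology
open scoped ENNReal RealInnerProductSpace ContDiff

/-- MON: `lam1` is antitone (`cap` is monotone). -/
def S_MON : Prop := ∀ (d : ℕ) (Ω Ω' : Set (E d)), Ω ⊆ Ω' → lam1 Ω' ≤ lam1 Ω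

/-- SCL: scaling. For `H = AffineMap.homothety c s`, `s > 0`: `IsH1 u g` gives `IsH1 (u ∘ H⁻¹) (s⁻¹ • g ∘ H⁻¹)` (change of variables, `μ (H '' A) = s^d μ A`),
`cap (H '' A) ≤ max (s^d) (s^(d-2)) cap A` (real powers or a constant), `QuasiCont`, `IsH10`, `QuasiOpen` are preserved; the Rayleigh quotient is
multiplied by `s^(-2)`. -/
def S_SCL : Prop := ∀ (d : ℕ) (c : E d) (s : ℝ), 0 < s →
  (∀ Ω : Set (E d), lam1 (AffineMap.homothety c s '' Ω) = ENNReal.ofReal (1 / s ^ 2) * lam1 Ω) ∧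
  ∀ (D : Set (E d)) (m : ℝ) (Ω : Set (E d)), 0 ≤ m → Admissible D m Ω →
    Admissible (AffineMap.homothety c s '' D) (s ^ d * m) (AffineMap.homothety c s '' Ω)

/-- BND: a convex set of volume `≤ M` which contains a ball of radius `r` is in a ball of radius `R = R (d, r, M)`: if `x ∈ Ω`, `‖x - c‖ = ρ`, the balls
`ball (c + t (x - c)) (r / 2)`, `t ∈ [0, 1/2]`, are in `Ω`; about `ρ / (2 r)` of them are disjoint. -/
def S_BND : Prop := ∀ (d : ℕ) (r M : ℝ), 1 ≤ d → 0 < r → 0 ≤ M → ∃ R : ℝ, 0 < R ∧ ∀ (Ω : Set (E d)) (c : E d), Convex ℝ Ω → Metric.ball c r ⊆ Ω →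
  volume Ω ≤ ENNReal.ofReal M → Ω ⊆ Metric.ball c R

/-- SAN: sandwich. `A, B` convex, `ball c r ⊆ A`, every point of `A` has distance `< η` from `B` and conversely, `4 η ≤ r`: then
`B ⊆ homothety c (1 + η / r) '' A` (`b = a + z`, `‖z‖ < η`, `z = (η / r) (a' - c)`, `a' ∈ ball c r ⊆ A`), `ball c (r / 2) ⊆ B` (separation: a point
`y ∈ ball c (r/2)`, `y ∉ closure B` is separated from `B` by a half space, `y + (r/2) n ∈ closure A` has distance `≥ r / 2 > η` from `B`;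
`interior (closure B) = interior B ` for convex `B` with `interior (closure B)` nonempty: use the half space for `y ∉ interior B` if `B` is open, or
`ball c (3r/5) ⊆ closure B` and `Convex.interior_closure...`), and then `A ⊆ homothety c (1 + 2 η / r) '' B`. -/
def S_SAN : Prop := ∀ (d : ℕ) (A B : Set (E d)) (c : E d) (r η : ℝ), Convex ℝ A → Convex ℝ B → B.Nonempty → 0 < η → 4 * η ≤ r →
  Metric.ball c r ⊆ A → (∀ x ∈ A, ∃ y ∈ B, dist x y < η) → (∀ y ∈ B, ∃ x ∈ A, dist x y < η) →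
  B ⊆ AffineMap.homothety c (1 + η / r) '' A ∧ Metric.ball c (r / 2) ⊆ B ∧ A ⊆ AffineMap.homothety c (1 + 2 * η / r) '' B

/-- CPT: compactness (`NonemptyCompacts (Metric.closedBall c R)` is compact, or `Metric`/`EMetric` version; limits of convex sets are convex). -/
def S_CPT : Prop := ∀ (d : ℕ) (K : ℕ → Set (E d)) (c : E d) (R : ℝ), (∀ n, (K n).Nonempty ∧ Convex ℝ (K n) ∧ K n ⊆ Metric.ball c R) →
  ∃ (L : Set (E d)) (φ : ℕ → ℕ), StrictMono φ ∧ IsCompact L ∧ Convex ℝ L ∧ L.Nonempty ∧ ∀ η : ℝ, 0 < η → ∀ᶠ n in atTop,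
    (∀ x ∈ K (φ n), ∃ y ∈ L, dist x y < η) ∧ ∀ y ∈ L, ∃ x ∈ K (φ n), dist x y < η

/-- `D n → D₀` in the Hausdorff distance -/
def HConv {d : ℕ} (D : ℕ → Set (E d)) (D₀ : Set (E d)) : Prop :=
  ∀ η : ℝ, 0 < η → ∀ᶠ n in atTop, (∀ x ∈ D n, ∃ y ∈ D₀, dist x y < η) ∧ ∀ y ∈ D₀, ∃ x ∈ D n, dist x y < η

/-- CLO: the theorem, from MON, SCL, BND, SAN, CPT. Let `ball c r ⊆ D₀`, `|D₀| ≤ m`. For large `n`, by SAN, `D n ⊆ homothety c (1 + s_n) '' D₀`,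
`ball c (r/2) ⊆ D n`, `s_n → 0`. Let `Ω_n` be a convex solution of `P(D n, (1 + s_n)^d m)`; it is in a fixed ball (BND). Subsequence `Ω_n → L` (CPT), `Ω = interior L`.
`D₀ ⊆ Ω` (`closure D₀ ⊆ L`, `D₀` open), `|Ω| ≤ m` (`L ⊆ homothety c (1 + t_n) '' Ω_n` by SAN), `Ω_n ⊆ homothety c (1 + t_n) '' L ⊆ homothety c (1 + 2 t_n)
'' Ω`. For a competitor `C` of `P(D₀, m)`: `homothety c (1 + s_n) '' C` is one of `P(D n, (1 + s_n)^d m)`, so
`lam1 Ω ≤ (1 + 2 t_n)^2 lam1 Ω_n ≤ (1 + 2 t_n)^2 (1 + s_n)^(-2) lam1 C`. -/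
def S_CLO : Prop := ∀ (d : ℕ) (D : ℕ → Set (E d)) (D₀ : Set (E d)), 1 ≤ d → (∀ n, IsOpen (D n) ∧ Convex ℝ (D n) ∧ (D n).Nonempty ∧ HasProperty (D n)) →
  IsOpen D₀ → Convex ℝ D₀ → D₀.Nonempty → HConv D D₀ → HasProperty D₀

/-- NBD: a neighbourhood of every box, from CLO and FBA (and `volume (T '' box a) = ∏ a`, `S_CMK` with `τ = 0`, or SUM_box in B_SUM). -/
def S_NBD : Prop := ∀ (n : ℕ) (a : Fin (n + 1) → ℝ) (T : E (n + 1) ≃ᵃⁱ[ℝ] E (n + 1)), 1 ≤ n → (∀ j, 0 < a j) → ∃ η : ℝ, 0 < η ∧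
  ∀ D : Set (E (n + 1)), IsOpen D → Convex ℝ D → D.Nonempty → (∀ x ∈ D, ∃ y ∈ T '' box a, dist x y < η) →
    (∀ y ∈ T '' box a, ∃ x ∈ D, dist x y < η) → ¬ HasProperty D

end Pool.Agent.ConvexMin
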